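import Mathlib

set_option autoImplicit false

namespace Pool.Agent.Helper160.FlagGroup

open Subgroup
open scoped commutatorElement

variable {V : Type} [AddCommGroup V] [Module ℚ V]

/-- The group of linear automorphisms acting trivially on all factors of a flag. -/
def flagGroup (C : ℕ → Submodule ℚ V) (hC : Antitone C) : Subgroup (V ≃ₗ[ℚ] V) where
  carrier := {A | ∀ i, ∀ x ∈ C i, A x - x ∈ C (i + 1) ∧ A.symm x - x ∈ C (i + 1)}
  one_mem' := by
    intro i x _
    have h1 : (1 : V ≃ₗ[ℚ] V) x = x := rfl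
    have h2 : (1 : V ≃ₗ[ℚ] V).symm x = x := rfl
    rw [h1, h2, sub_self]
    exact ⟨zero_mem _, zero_mem _⟩
  mul_mem' := by
    intro A B hA hB i x hx
    have hBx : B x ∈ C i := by
      have := (C i).add_mem (hC (Nat.le_succ i) (hB i x hx).1) hx
      simpa using this
    have hAx : A.symm x ∈ C i := by
      have := (C i).add_mem (hC (Nat.le_succ i) (hA i x hx).2) hx
      simpa using this
    constructor
    · have h : (A * B) x - x = (A (B x) - B x) + (B x - x) := by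
        have : (A * B) x = A (B x) := rfl
        rw [this]; abel
      rw [h]
      exact (C (i + 1)).add_mem (hA i _ hBx).1 (hB i x hx).1
    · have h : (A * B).symm x - x = (B.symm (A.symm x) - A.symm x) + (A.symm x - x) := by
        have : (A * B).symm x = B.symm (A.symm x) := rfl
        rw [this]; abel
      rw [h]
      exact (C (i + 1)).add_mem (hB i _ hAx).2 (hA i x hx).2
  inv_mem' := by
    intro A hA i x hx
    exact ⟨(hA i x hx).2, (hA i x hx).1⟩

variable (C : ℕ → Submodule ℚ V) (hC : Antitone C)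

theorem stable {A : V ≃ₗ[ℚ] V} (hA : A ∈ flagGroup C hC) {i : ℕ} {x : V} (hx : x ∈ C i) :
    A x ∈ C i := by
  have := (C i).add_mem (hC (Nat.le_succ i) (hA i x hx).1) hx
  simpa using this

theorem stable_symm {A : V ≃ₗ[ℚ] V} (hA : A ∈ flagGroup C hC) {i : ℕ} {x : V} (hx : x ∈ C i) :
    A.symm x ∈ C i := by
  have := (C i).add_mem (hC (Nat.le_succ i) (hA i x hx).2) hx
  simpa using this

/-- The descending series. -/
def ser (j : ℕ) : Subgroup (flagGroup C hC) where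
  carrier := {A | ∀ i, ∀ x ∈ C i, (A : V ≃ₗ[ℚ] V) x - x ∈ C (i + j + 1)}
  one_mem' := by
    intro i x _
    have h1 : ((1 : flagGroup C hC) : V ≃ₗ[ℚ] V) x = x := rfl
    rw [h1, sub_self]
    exact zero_mem _
  mul_mem' := by
    intro A B hA hB i x hx
    have hBx := stable C hC B.2 hx
    have h : ((A * B : flagGroup C hC) : V ≃ₗ[ℚ] V) x - x
        = ((A : V ≃ₗ[ℚ] V) ((B : V ≃ₗ[ℚ] V) x) - (B : V ≃ₗ[ℚ] V) x)
          + ((B : V ≃ₗ[ℚ] V) x - x) := by
      have : ((A * B : flagGroup C hC) : V ≃ₗ[ℚ] V) x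
        = (A : V ≃ₗ[ℚ] V) ((B : V ≃ₗ[ℚ] V) x) := rfl
      rw [this]; abel
    rw [h]
    exact Submodule.add_mem _ (hA i _ hBx) (hB i x hx)
  inv_mem' := by
    intro A hA i x hx
    have hx' := stable_symm C hC A.2 hx
    have h1 := hA i _ hx'
    have h2 : (A : V ≃ₗ[ℚ] V) ((A : V ≃ₗ[ℚ] V).symm x) = x := LinearEquiv.apply_symm_apply _ _
    rw [h2] at h1
    have h3 : ((A⁻¹ : flagGroup C hC) : V ≃ₗ[ℚ] V) x = (A : V ≃ₗ[ℚ] V).symm x := rfl
    rw [h3, ← neg_sub]
    exact Submodule.neg_mem _ h1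

theorem isNilpotent {n : ℕ} (h0 : C 0 = ⊤) (hn : C n = ⊥) :
    Group.IsNilpotent (flagGroup C hC) := by
  rw [Subgroup.nilpotent_iff_finite_descending_central_series]
  refine ⟨n, ser C hC, ⟨?_, ?_⟩, ?_⟩
  · rw [eq_top_iff]
    intro A _ i x hx
    exact (A.2 i x hx).1
  · intro A j hA B
    intro i x hx
    obtain ⟨y, hy⟩ : ∃ y, y = (A : V ≃ₗ[ℚ] V).symm ((B : V ≃ₗ[ℚ] V).symm x) := ⟨_, rfl⟩
    have hyi : y ∈ C i := by
      rw [hy]; exact stable_symm C hC A.2 (stable_symm C hC B.2 hx)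
    have hBA : (B : V ≃ₗ[ℚ] V) ((A : V ≃ₗ[ℚ] V) y) = x := by
      rw [hy]; simp
    have hcomm : ((⁅A, B⁆ : flagGroup C hC) : V ≃ₗ[ℚ] V) x
        = (A : V ≃ₗ[ℚ] V) ((B : V ≃ₗ[ℚ] V) y) := by
      rw [hy]; rfl
    have key : ((⁅A, B⁆ : flagGroup C hC) : V ≃ₗ[ℚ] V) x - x
        = ((A : V ≃ₗ[ℚ] V) ((B : V ≃ₗ[ℚ] V) y - y) - ((B : V ≃ₗ[ℚ] V) y - y))
          - ((B : V ≃ₗ[ℚ] V) ((A : V ≃ₗ[ℚ] V) y - y) - ((A : V ≃ₗ[ℚ] V) y - y)) := by
      rw [hcomm, map_sub, map_sub, hBA]; abel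
    rw [key]
    have h1 : (B : V ≃ₗ[ℚ] V) y - y ∈ C (i + 1) := (B.2 i y hyi).1
    have h2 : (A : V ≃ₗ[ℚ] V) y - y ∈ C (i + j + 1) := hA i y hyi
    have h3 := hA (i + 1) _ h1
    have h4 := (B.2 (i + j + 1) _ h2).1
    have e3 : i + 1 + j + 1 = i + (j + 1) + 1 := by ring
    have e4 : i + j + 1 + 1 = i + (j + 1) + 1 := by ring
    rw [e3] at h3
    rw [e4] at h4
    exact Submodule.sub_mem _ h3 h4
  · rw [eq_bot_iff]
    intro A hA
    rw [Subgroup.mem_bot]
    apply Subtype.ext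
    apply LinearEquiv.ext
    intro x
    have hx : x ∈ C 0 := by rw [h0]; trivial
    have h1 := hA 0 x hx
    have h2 : C (0 + n + 1) ≤ C n := hC (by omega)
    have h3 := h2 h1
    rw [hn, Submodule.mem_bot, sub_eq_zero] at h3
    exact h3

theorem torsionFree {n : ℕ} (h0 : C 0 = ⊤) (hn : C n = ⊥) (A : flagGroup C hC) (hA : A ≠ 1)
    (k : ℕ) (hk : 0 < k) : A ^ k ≠ 1 := by
  intro hAk
  apply hA
  have claim : ∀ i, ∀ x : V, (A : V ≃ₗ[ℚ] V) x - x ∈ C i := by
    intro i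
    induction i with
    | zero => intro x; rw [h0]; trivial
    | succ i ih =>
      intro x
      obtain ⟨y, hy⟩ : ∃ y, y = (A : V ≃ₗ[ℚ] V) x - x := ⟨_, rfl⟩
      rw [← hy]
      have hyi : y ∈ C i := hy ▸ ih x
      -- A^j x - x - j y ∈ C (i+1)
      have hpow : ∀ j : ℕ, ((A ^ j : flagGroup C hC) : V ≃ₗ[ℚ] V) x - x - (j : ℚ) • y ∈ C (i + 1) := by
        intro j
        induction j with
        | zero => simp
        | succ j ihj =>
          have e1 : ((A ^ (j + 1) : flagGroup C hC) : V ≃ₗ[ℚ] V) x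
              = ((A ^ j : flagGroup C hC) : V ≃ₗ[ℚ] V) ((A : V ≃ₗ[ℚ] V) x) := by
            rw [pow_succ]; rfl
          have e2 : ((A ^ (j + 1) : flagGroup C hC) : V ≃ₗ[ℚ] V) x - x - ((j + 1 : ℕ) : ℚ) • y
              = (((A ^ j : flagGroup C hC) : V ≃ₗ[ℚ] V) y - y)
                + (((A ^ j : flagGroup C hC) : V ≃ₗ[ℚ] V) x - x - (j : ℚ) • y) := by
            rw [e1]
            have : (A : V ≃ₗ[ℚ] V) x = y + x := by rw [hy]; abel
            rw [this, map_add]
            push_cast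
            rw [add_smul, one_smul]
            abel
          rw [e2]
          exact Submodule.add_mem _ (((A ^ j : flagGroup C hC).2 i y hyi).1) ihj
      have h1 := hpow k
      rw [hAk] at h1
      have h2 : ((1 : flagGroup C hC) : V ≃ₗ[ℚ] V) x = x := rfl
      rw [h2, sub_self, zero_sub, Submodule.neg_mem_iff] at h1
      have h3 : (k : ℚ)⁻¹ • ((k : ℚ) • y) = y := by
        rw [smul_smul, inv_mul_cancel₀ (by positivity), one_smul]
      rw [← h3]
      exact Submodule.smul_mem _ _ h1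
  apply Subtype.ext
  apply LinearEquiv.ext
  intro x
  have h1 := claim n x
  rw [hn, Submodule.mem_bot, sub_eq_zero] at h1
  exact h1

end Pool.Agent.Helper160.FlagGroup
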