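import Mathlib

namespace Pool.Agent.Helper160.Nev

open Complex Metric Real Set Filter Topology MeromorphicOn Function MeasureTheory
open scoped ENNReal

noncomputable section

/-- The multiplicity of `z` as a pole of `f` (zero if `z` is not a pole). -/
def poleMult (f : ℂ → ℂ) (z : ℂ) : ℤ := max 0 (-(meromorphicOrderAt f z).untop₀)

/-- The multiplicity of `z` as a zero of `f` (zero if `z` is not a zero). -/
def zeroMult (f : ℂ → ℂ) (z : ℂ) : ℤ := max 0 (meromorphicOrderAt f z).untop₀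

open Classical in
/-- One at each pole of `f`, zero elsewhere: every distinct pole is counted once. -/
def poleInd (f : ℂ → ℂ) (z : ℂ) : ℤ := if meromorphicOrderAt f z < 0 then 1 else 0

/-- The integrated counting function of the multiplicities `μ` at radius `r`: the sum of
`μ z * log (r / |z|)` over `0 < |z| ≤ r`, plus `μ 0 * log r`. -/
def counting (μ : ℂ → ℤ) (r : ℝ) : ℝ :=
  (∑ᶠ z ∈ closedBall (0 : ℂ) r, (μ z : ℝ) * Real.log (r * ‖z‖⁻¹)) + (μ 0 : ℝ) * Real.log r

/-- The proximity function `m(r, ∞, f)`. -/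
def proxInf (f : ℂ → ℂ) (r : ℝ) : ℝ := circleAverage (fun z => log⁺ ‖f z‖) 0 r

/-- The proximity function `m(r, a, f)` for a finite value `a`. -/
def prox (a : ℂ) (f : ℂ → ℂ) (r : ℝ) : ℝ := circleAverage (fun z => log⁺ (‖f z - a‖⁻¹)) 0 r

/-- The Nevanlinna characteristic `T(r, f) = m(r, ∞, f) + N(r, ∞, f)`. -/
def charT (f : ℂ → ℂ) (r : ℝ) : ℝ := proxInf f r + counting (poleMult f) r

/-- The deficiency `δ(a, f)`, the lower limit of `m(r, a, f) / T(r, f)` as `r → 1⁻`. -/
def deficiency (a : ℂ) (f : ℂ → ℂ) : ℝ≥0∞ :=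
  liminf (fun r : ℝ => ENNReal.ofReal (prox a f r / charT f r)) (𝓝[<] 1)

/-- `k(f)`, the upper limit of `N̄(r, ∞, f) / (1 + T(r, f))` as `r → 1⁻`. -/
def poleIndex (f : ℂ → ℂ) : ℝ≥0∞ :=
  limsup (fun r : ℝ => ENNReal.ofReal (counting (poleInd f) r / (1 + charT f r))) (𝓝[<] 1)

/-- `λ(f)`, the lower limit of `T(r, f) / log (1 / (1 - r))` as `r → 1⁻`. -/
def lowerGrowth (f : ℂ → ℂ) : ℝ≥0∞ :=
  liminf (fun r : ℝ => ENNReal.ofReal (charT f r / Real.log (1 / (1 - r)))) (𝓝[<] 1)

/-- The order `ρ`, the upper limit of `log⁺ T(r, f) / log (1 / (1 - r))` as `r → 1⁻`. -/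
def growthOrder (f : ℂ → ℂ) : ℝ≥0∞ :=
  limsup (fun r : ℝ => ENNReal.ofReal (log⁺ (charT f r) / Real.log (1 / (1 - r)))) (𝓝[<] 1)

theorem logDeriv_eq_circleAverage {h : ℂ → ℂ} {R : ℝ} {w : ℂ}
    (h1 : AnalyticOnNhd ℂ h (closedBall 0 R)) (h2 : ∀ u ∈ closedBall (0:ℂ) R, h u ≠ 0)
    (hw : w ∈ ball (0:ℂ) R) :
    logDeriv h w =
      circleAverage (fun ζ => (2 * ζ / (ζ - w) ^ 2) • ((Real.log ‖h ζ‖ : ℝ) : ℂ)) 0 R := by
  have hR : 0 < R := pos_of_mem_ball hw
  have hharm : InnerProductSpace.HarmonicOnNhd (fun z => Real.log ‖h z‖) (closedBall (0:ℂ) R) := by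
    intro z hz
    exact AnalyticAt.harmonicAt_log_norm (h1 z hz) (h2 z hz)
  have hcont : ContinuousOn (fun z => Real.log ‖h z‖) (closedBall (0:ℂ) R) := by
    apply ContinuousOn.log
    · exact (h1.continuousOn).norm
    · intro z hz
      exact norm_ne_zero_iff.2 (h2 z hz)
  have hint : CircleIntegrable (fun ζ => Real.log ‖h ζ‖) 0 R := by
    apply ContinuousOn.circleIntegrable'
    rw [abs_of_pos hR]
    exact hcont.mono sphere_subset_closedBall
  have hintC : CircleIntegrable (fun ζ => ((Real.log ‖h ζ‖ : ℝ) : ℂ)) 0 R := by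
    apply ContinuousOn.circleIntegrable'
    rw [abs_of_pos hR]
    exact Complex.continuous_ofReal.comp_continuousOn (hcont.mono sphere_subset_closedBall)
  set F : ℂ → ℂ := fun v => circleAverage
    (fun ζ => herglotzRieszKernel 0 v ζ • ((Real.log ‖h ζ‖ : ℝ) : ℂ)) 0 R with hF
  have hre : ∀ v ∈ ball (0:ℂ) R, (F v).re = Real.log ‖h v‖ := by
    intro v hv
    rw [hF]
    rw [re_circleAverage_herglotzRieszKernel_smul hint hv]
    exact InnerProductSpace.HarmonicOnNhd.circleAverage_re_herglotzRieszKernel_smul hharm hv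
  have hder : HasDerivAt F
      (circleAverage (fun ζ => (2 * ζ / (ζ - w) ^ 2) • ((Real.log ‖h ζ‖ : ℝ) : ℂ)) 0 R) w :=
    hasDerivAt_circleAverage_herglotzRieszKernel_smul hintC hw
  have hFdiff : DifferentiableOn ℂ F (ball 0 R) :=
    differentiableOn_circleAverage_herglotzRieszKernel_smul hintC
  have hhdiff : DifferentiableOn ℂ h (ball 0 R) :=
    (h1.mono ball_subset_closedBall).differentiableOn
  set G : ℂ → ℂ := fun v => Complex.exp (F v) / h v with hG
  have hGdiff : DifferentiableOn ℂ G (ball 0 R) := by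
    apply DifferentiableOn.div hFdiff.cexp hhdiff
    intro z hz
    exact h2 z (ball_subset_closedBall hz)
  have hGnorm : ∀ v ∈ ball (0:ℂ) R, ‖G v‖ = 1 := by
    intro v hv
    rw [hG]
    simp only [norm_div, Complex.norm_exp]
    rw [hre v hv, Real.exp_log (norm_pos_iff.2 (h2 v (ball_subset_closedBall hv)))]
    exact div_self (norm_ne_zero_iff.2 (h2 v (ball_subset_closedBall hv)))
  have hconst : EqOn G (Function.const ℂ (G w)) (ball 0 R) := by
    apply Complex.eqOn_of_isPreconnected_of_isMaxOn_norm (convex_ball (0:ℂ) R).isPreconnected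
      isOpen_ball hGdiff hw
    intro v hv
    simp only [Set.mem_ofPred_eq, comp_apply]
    rw [hGnorm v hv, hGnorm w hw]
  have hGd0 : HasDerivAt G 0 w := by
    have : G =ᶠ[𝓝 w] Function.const ℂ (G w) := by
      filter_upwards [isOpen_ball.mem_nhds hw] with v hv using hconst hv
    exact (hasDerivAt_const w (G w)).congr_of_eventuallyEq this
  have hhw : HasDerivAt h (deriv h w) w :=
    (hhdiff.differentiableAt (isOpen_ball.mem_nhds hw)).hasDerivAt
  have hne : h w ≠ 0 := h2 w (ball_subset_closedBall hw)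
  have hGd1 := (hder.cexp).div hhw hne
  have hu := hGd0.unique hGd1
  rw [logDeriv_apply]
  have hexp : Complex.exp (F w) ≠ 0 := Complex.exp_ne_zero _
  rw [div_eq_iff hne]
  generalize circleAverage (fun ζ => (2 * ζ / (ζ - w) ^ 2) • ((Real.log ‖h ζ‖ : ℝ) : ℂ)) 0 R = A
    at hu ⊢
  have h0 : Complex.exp (F w) * (A * h w - deriv h w) / (h w)^2 = 0 := by
    rw [hu]; ring
  rcases div_eq_zero_iff.1 h0 with h3 | h3
  · rcases mul_eq_zero.1 h3 with h4 | h4
    · exact absurd h4 hexp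
    · rw [sub_eq_zero] at h4
      exact h4.symm
  · exact absurd ((pow_eq_zero_iff two_ne_zero).1 h3) hne

theorem norm_circleAverage_le (F : ℂ → ℂ) (R : ℝ) :
    ‖circleAverage F 0 R‖ ≤ circleAverage (fun ζ => ‖F ζ‖) 0 R := by
  unfold circleAverage
  rw [norm_smul, norm_inv, norm_mul, smul_eq_mul]
  have h2 : ‖(2:ℝ)‖ * ‖π‖ = 2 * π := by
    rw [Real.norm_of_nonneg (by norm_num), Real.norm_of_nonneg Real.pi_pos.le]
  rw [h2]
  apply mul_le_mul_of_nonneg_left _ (by positivity)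
  exact intervalIntegral.norm_integral_le_integral_norm (by positivity)

theorem norm_logDeriv_le_of_analytic {h : ℂ → ℂ} {R : ℝ} {w : ℂ}
    (h1 : AnalyticOnNhd ℂ h (closedBall 0 R)) (h2 : ∀ u ∈ closedBall (0:ℂ) R, h u ≠ 0)
    (hw : w ∈ ball (0:ℂ) R) :
    ‖logDeriv h w‖ ≤ circleAverage (fun ζ => 2 * R / ‖ζ - w‖ ^ 2 * |Real.log ‖h ζ‖|) 0 R := by
  have hR : 0 < R := pos_of_mem_ball hw
  rw [logDeriv_eq_circleAverage h1 h2 hw]
  refine (norm_circleAverage_le _ R).trans (le_of_eq ?_)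
  apply circleAverage_congr_sphere
  intro ζ hζ
  rw [abs_of_pos hR, mem_sphere_zero_iff_norm] at hζ
  simp only [norm_smul, norm_div, norm_mul, norm_pow, Complex.norm_real, hζ]
  norm_num

theorem norm_sub_conj_mul_ge {R : ℝ} {u z : ℂ} (hu : ‖u‖ ≤ R) (hz : ‖z‖ ≤ R) :
    R * ‖z - u‖ ≤ ‖(R:ℂ) ^ 2 - (starRingEnd ℂ) u * z‖ := by
  apply le_of_sq_le_sq _ (norm_nonneg _)
  rw [mul_pow, ← Complex.normSq_eq_norm_sq, ← Complex.normSq_eq_norm_sq]
  have h1 : Complex.normSq u ≤ R ^ 2 := by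
    rw [Complex.normSq_eq_norm_sq]; gcongr
  have h2 : Complex.normSq z ≤ R ^ 2 := by
    rw [Complex.normSq_eq_norm_sq]; gcongr
  have h3 : Complex.normSq ((R:ℂ) ^ 2 - (starRingEnd ℂ) u * z) - R ^ 2 * Complex.normSq (z - u)
      = (R ^ 2 - Complex.normSq u) * (R ^ 2 - Complex.normSq z) := by
    simp only [Complex.normSq_apply, Complex.sub_re, Complex.sub_im, Complex.mul_re,
      Complex.mul_im, Complex.conj_re, Complex.conj_im, ← Complex.ofReal_pow, Complex.ofReal_re,
      Complex.ofReal_im]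
    ring
  nlinarith [mul_nonneg (sub_nonneg.2 h1) (sub_nonneg.2 h2)]

theorem norm_logDeriv_canonicalFactor_le {R : ℝ} {u z : ℂ} (hu : u ∈ ball (0:ℂ) R)
    (hz : z ∈ ball (0:ℂ) R) (hne : z ≠ u) :
    ‖logDeriv (canonicalFactor R u) z‖ ≤ 2 / ‖z - u‖ := by
  have hR : 0 < R := pos_of_mem_ball hu
  have hu' : ‖u‖ < R := by simpa using hu
  have hz' : ‖z‖ < R := by simpa using hz
  have hzu : z - u ≠ 0 := sub_ne_zero.2 hne
  have hzu' : 0 < ‖z - u‖ := norm_pos_iff.2 hzu
  have hge := norm_sub_conj_mul_ge hu'.le hz'.le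
  have hpos : 0 < ‖(R:ℂ) ^ 2 - (starRingEnd ℂ) u * z‖ := lt_of_lt_of_le (by positivity) hge
  have hnum : (R:ℂ) ^ 2 - (starRingEnd ℂ) u * z ≠ 0 := norm_pos_iff.1 hpos
  have hRC : (R:ℂ) ≠ 0 := Complex.ofReal_ne_zero.2 hR.ne'
  have e1 : logDeriv (canonicalFactor R u) z
      = -(starRingEnd ℂ) u / ((R:ℂ) ^ 2 - (starRingEnd ℂ) u * z) - 1 / (z - u) := by
    rw [canonicalFactor_def]
    rw [logDeriv_div (f := fun z : ℂ => (R:ℂ) ^ 2 - (starRingEnd ℂ) u * z)
      (g := fun z : ℂ => (R:ℂ) * (z - u)) z hnum (mul_ne_zero hRC hzu) (by fun_prop)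
      (by fun_prop)]
    congr 1
    · rw [logDeriv_apply]
      congr 1
      have : HasDerivAt (fun z : ℂ => (R:ℂ) ^ 2 - (starRingEnd ℂ) u * z)
          (-((starRingEnd ℂ) u * 1)) z :=
        ((hasDerivAt_id z).const_mul _).const_sub _
      rw [this.deriv]; ring
    · rw [logDeriv_const_mul z _ hRC, logDeriv_apply]
      congr 1
      have : HasDerivAt (fun z : ℂ => z - u) 1 z := (hasDerivAt_id z).sub_const _
      exact this.deriv
  rw [e1]
  refine (norm_sub_le _ _).trans ?_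
  rw [norm_div, norm_div, norm_neg, Complex.norm_conj, norm_one]
  have h4 : ‖u‖ / ‖(R:ℂ) ^ 2 - (starRingEnd ℂ) u * z‖ ≤ 1 / ‖z - u‖ := by
    rw [div_le_div_iff₀ hpos hzu']
    calc ‖u‖ * ‖z - u‖ ≤ R * ‖z - u‖ := by gcongr
      _ ≤ _ := by rw [one_mul]; exact hge
  calc _ ≤ 1 / ‖z - u‖ + 1 / ‖z - u‖ := by gcongr
    _ = 2 / ‖z - u‖ := by ring

theorem norm_logDeriv_le {g : ℂ → ℂ} {R : ℝ} (hR : 0 < R)
    (h1 : MeromorphicOn g (closedBall 0 R))
    (h2 : ∀ u ∈ closedBall (0:ℂ) R, meromorphicOrderAt g u ≠ ⊤)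
    (h3 : ∀ u ∈ sphere (0:ℂ) R, meromorphicOrderAt g u = 0) :
    ∀ᶠ w in codiscreteWithin (ball (0:ℂ) R), ‖logDeriv g w‖ ≤
      circleAverage (fun ζ => 2 * R / ‖ζ - w‖ ^ 2 * |Real.log ‖g ζ‖|) 0 R
      + ∑ u ∈ (divisor_ball_support_finite h1).toFinset,
        |(divisor g (ball 0 R) u : ℝ)| * (2 / ‖w - u‖) := by
  obtain ⟨h, D⟩ := h1.exists_ecanonicalDecomp (fun u => h2 u u.2)
  have hsph : ∀ v, divisor g (sphere 0 R) v = 0 := by
    intro v
    by_cases hv : v ∈ sphere (0:ℂ) R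
    · rw [divisor_apply (h1.mono_set sphere_subset_closedBall) hv, h3 v hv]; rfl
    · exact Function.locallyFinsuppWithin.apply_eq_zero_of_notMem _ hv
  have e0 : (∏ᶠ v, ((· - v) : ℂ → ℂ) ^ (divisor g (sphere 0 R)) v) = 1 := by
    rw [← finprod_one (α := ℂ)]
    congr 1
    ext v
    rw [hsph v, zpow_zero]
  have e1 := D.eventuallyEq
  rw [e0, mul_one] at e1
  set P : ℂ → ℂ := ∏ᶠ u, (canonicalFactor R u) ^ (-divisor g (ball 0 R) u) with hP
  have hdfin : (support (fun u => -divisor g (ball 0 R) u)).Finite := by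
    have : (support (fun u => -divisor g (ball 0 R) u)) = (divisor g (ball 0 R)).support := by
      ext u; simp
    rw [this]
    exact divisor_ball_support_finite h1
  have hPprod : P = ∏ u ∈ (divisor_ball_support_finite h1).toFinset,
      (canonicalFactor R u) ^ (-divisor g (ball 0 R) u) := by
    rw [hP]
    apply finprod_eq_prod_of_mulSupport_subset
    intro u hu
    simp only [Set.Finite.coe_toFinset]
    by_contra hcon
    apply hu
    have : divisor g (ball 0 R) u = 0 := by simpa using hcon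
    simp [this]
  have hsupp : ∀ u ∈ (divisor_ball_support_finite h1).toFinset, u ∈ ball (0:ℂ) R := by
    intro u hu
    rw [Set.Finite.mem_toFinset] at hu
    exact (divisor g (ball 0 R)).supportWithinDomain hu
  have e2 : (fun ζ => ‖g ζ‖) =ᶠ[codiscreteWithin (sphere (0:ℂ) R)] fun ζ => ‖h ζ‖ := by
    have := e1.filter_mono (codiscreteWithin_mono (sphere_subset_closedBall))
    filter_upwards [this, self_mem_codiscreteWithin (sphere (0:ℂ) R)] with ζ hζ hs
    rw [hζ, Pi.smul_apply', smul_eq_mul, norm_mul, hPprod, Finset.prod_apply, norm_prod]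
    rw [Finset.prod_eq_one, one_mul]
    intro u hu
    rw [Pi.pow_apply, norm_zpow, norm_canonicalFactor_eval_circle_eq_one (hsupp u hu) hs, one_zpow]
  have e3 : logDeriv g =ᶠ[codiscreteWithin (ball (0:ℂ) R)] logDeriv (P * h) := by
    apply logDeriv_congr_codiscreteWithin isOpen_ball
    exact e1.filter_mono (codiscreteWithin_mono ball_subset_closedBall)
  have hPmero : MeromorphicOn P (ball (0:ℂ) R) := by
    rw [hPprod]
    apply MeromorphicOn.prod
    intro u _
    exact MeromorphicOn.zpow (fun z _ => meromorphic_canonicalFactor R u z) _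
  have hPord : ∀ z ∈ ball (0:ℂ) R, meromorphicOrderAt P z ≠ ⊤ := by
    intro z hz
    rw [hP]
    apply meromorphicOrderAt_finprod_ne_top
      (fun _ ↦ MeromorphicAt.zpow (meromorphic_canonicalFactor _ _ _) _)
    intro c
    rw [meromorphicOrderAt_zpow (meromorphic_canonicalFactor R c z)]
    generalize -(divisor g (ball 0 R)) c = n
    lift meromorphicOrderAt (canonicalFactor R c) z to ℤ using
      (meromorphicOrderAt_canonicalFactor_ne_top c hR) with ℓ
    rw [← WithTop.coe_mul]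
    exact WithTop.coe_ne_top
  have hhan : AnalyticOnNhd ℂ h (ball (0:ℂ) R) := D.analyticOnNhd.mono ball_subset_closedBall
  have hhord : ∀ z ∈ ball (0:ℂ) R, meromorphicOrderAt h z ≠ ⊤ := by
    intro z hz
    have : meromorphicOrderAt h z = 0 :=
      ((hhan z hz).meromorphicNFAt.meromorphicOrderAt_eq_zero_iff).2
        (D.ne_zero z (ball_subset_closedBall hz))
    rw [this]; simp
  have e4 := MeromorphicOn.logDeriv_mul_eventuallyEq hPmero hhan.meromorphicOn hPord hhord
  have e5 := MeromorphicOn.logDeriv_finprod_zpow_eventuallyEq (U := ball (0:ℂ) R) (𝕜 := ℂ)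
    (F := fun u => canonicalFactor R u) hdfin
    (fun u z _ => meromorphic_canonicalFactor R u z)
    (fun u z _ => meromorphicOrderAt_canonicalFactor_ne_top u hR)
  have e6 : ∀ᶠ w in codiscreteWithin (ball (0:ℂ) R),
      w ∉ ((divisor_ball_support_finite h1).toFinset : Set ℂ) := by
    have := ((divisor_ball_support_finite h1).toFinset.finite_toSet).compl_mem_codiscrete
    exact codiscreteWithin_mono (subset_univ _) this
  filter_upwards [e3, e4, e5, e6, self_mem_codiscreteWithin (ball (0:ℂ) R)] with w w3 w4 w5 w6 hw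
  rw [w3, w4]
  simp only [Pi.add_apply]
  rw [add_comm]
  refine (norm_add_le _ _).trans (add_le_add ?_ ?_)
  · refine (norm_logDeriv_le_of_analytic D.analyticOnNhd D.ne_zero hw).trans (le_of_eq ?_)
    apply circleAverage_congr_codiscreteWithin _ hR.ne'
    rw [abs_of_pos hR]
    filter_upwards [e2] with ζ hζ
    simp only [hζ]
  · rw [hP, w5]
    rw [finsum_eq_sum_of_support_subset (s := (divisor_ball_support_finite h1).toFinset)]
    · refine (norm_sum_le _ _).trans (Finset.sum_le_sum ?_)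
      intro u hu
      rw [zsmul_eq_mul, norm_mul]
      have hwu : w ≠ u := by
        rintro rfl
        exact w6 hu
      have := norm_logDeriv_canonicalFactor_le (hsupp u hu) hw hwu
      have h7 : ‖((-divisor g (ball 0 R) u : ℤ) : ℂ)‖ = |(divisor g (ball 0 R) u : ℝ)| := by
        rw [Complex.norm_intCast]
        push_cast
        rw [abs_neg]
      rw [h7]
      gcongr
    · intro u hu
      simp only [Set.Finite.coe_toFinset]
      by_contra hcon
      apply hu
      have : divisor g (ball 0 R) u = 0 := by simpa using hcon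
      simp [this]

theorem circleAverage_kernel {k : ℂ → ℂ → ℝ} {L : ℂ → ℝ} {r R C : ℝ}
    (hk : Continuous fun p : ℝ × ℝ => k (circleMap 0 r p.1) (circleMap 0 R p.2))
    (hC : ∀ p : ℝ × ℝ, ‖k (circleMap 0 r p.1) (circleMap 0 R p.2)‖ ≤ C)
    (hL : CircleIntegrable L 0 R) :
    CircleIntegrable (fun w => circleAverage (fun ζ => k w ζ * L ζ) 0 R) 0 r ∧
    circleAverage (fun w => circleAverage (fun ζ => k w ζ * L ζ) 0 R) 0 r
      = circleAverage (fun ζ => circleAverage (fun w => k w ζ) 0 r * L ζ) 0 R := by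
  have hL' : Integrable (fun φ => L (circleMap 0 R φ)) (volume.restrict (uIoc 0 (2 * π))) :=
    intervalIntegrable_iff.1 hL
  have hint : Integrable (fun p : ℝ × ℝ => k (circleMap 0 r p.1) (circleMap 0 R p.2) *
      L (circleMap 0 R p.2)) ((volume.restrict (uIoc 0 (2 * π))).prod
        (volume.restrict (uIoc 0 (2 * π)))) := by
    apply Integrable.bdd_mul (c := C)
    · haveI : IsFiniteMeasure (volume.restrict (uIoc 0 (2 * π))) := ⟨by
        rw [Measure.restrict_apply_univ]; simp [uIoc]⟩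
      exact hL'.comp_snd _
    · exact hk.aestronglyMeasurable
    · exact ae_of_all _ hC
  constructor
  · unfold CircleIntegrable
    rw [intervalIntegrable_iff]
    have := hint.integral_prod_left
    simp only [circleAverage, smul_eq_mul]
    apply Integrable.const_mul
    simp_rw [intervalIntegral.intervalIntegral_eq_integral_uIoc]
    rw [if_pos (by positivity)]
    simpa using this
  · simp only [circleAverage, smul_eq_mul]
    rw [intervalIntegral.integral_const_mul]
    congr 1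
    rw [intervalIntegral_intervalIntegral_swap]
    · rw [← intervalIntegral.integral_const_mul]
      apply intervalIntegral.integral_congr
      intro φ _
      simp only
      rw [intervalIntegral.integral_mul_const]
      ring
    · rw [IntegrableOn, Measure.volume_eq_prod, ← Measure.prod_restrict]
      exact hint

theorem circleAverage_poisson {r R : ℝ} {ζ : ℂ} (hr : 0 ≤ r) (hrR : r < R) (hζ : ‖ζ‖ = R) :
    circleAverage (fun w => 2 * R / ‖ζ - w‖ ^ 2) 0 r = 2 * R / (R ^ 2 - r ^ 2) := by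
  have hR : 0 < R := lt_of_le_of_lt hr hrR
  have hne : ∀ w ∈ closedBall (0:ℂ) r, ζ - w ≠ 0 := by
    intro w hw h
    rw [sub_eq_zero] at h
    rw [mem_closedBall_zero_iff, ← h, hζ] at hw
    linarith
  have hd : DiffContOnCl ℂ (fun w => (ζ + w) / (ζ - w)) (ball 0 |r|) := by
    rw [abs_of_nonneg hr]
    apply DifferentiableOn.diffContOnCl
    intro w hw
    have hw' := closure_ball_subset_closedBall hw
    have := hne w hw'
    apply DifferentiableAt.differentiableWithinAt
    exact DifferentiableAt.div (by fun_prop) (by fun_prop) this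
  have h1 := hd.circleAverage
  have hζ0 : ζ ≠ 0 := by
    rw [← norm_pos_iff, hζ]; exact hR
  simp only [add_zero, sub_zero, div_self hζ0] at h1
  have hci : CircleIntegrable (fun w => (ζ + w) / (ζ - w)) 0 r := by
    apply ContinuousOn.circleIntegrable'
    rw [abs_of_nonneg hr]
    apply ContinuousOn.div (by fun_prop) (by fun_prop)
    intro w hw
    exact hne w (sphere_subset_closedBall hw)
  have h2 := Complex.reCLM.circleAverage_comp_comm hci
  rw [h1] at h2
  have h3 : circleAverage (fun w => 2 * R / ‖ζ - w‖ ^ 2) 0 r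
      = circleAverage (fun w => (2 * R / (R ^ 2 - r ^ 2)) • (Complex.reCLM ∘ (fun w => (ζ + w) / (ζ - w))) w) 0 r := by
    apply circleAverage_congr_sphere
    intro w hw
    rw [abs_of_nonneg hr] at hw
    have hw1 : ‖w‖ = r := by simpa using hw
    have hRr : R ^ 2 - r ^ 2 ≠ 0 := by
      have : 0 < R ^ 2 - r ^ 2 := by nlinarith
      exact this.ne'
    have hnw : ‖ζ - w‖ ^ 2 ≠ 0 := by
      have := hne w (sphere_subset_closedBall hw)
      positivity
    simp only [smul_eq_mul, comp_apply, Complex.reCLM_apply]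
    have h4 : ((ζ + w) / (ζ - w)).re = (R ^ 2 - r ^ 2) / ‖ζ - w‖ ^ 2 := by
      rw [Complex.div_re, ← hζ, ← hw1, ← Complex.normSq_eq_norm_sq, ← Complex.normSq_eq_norm_sq,
        ← Complex.normSq_eq_norm_sq, ← add_div]
      congr 1
      simp only [Complex.normSq_apply, Complex.add_re, Complex.sub_re, Complex.add_im,
        Complex.sub_im]
      ring
    rw [h4]
    field_simp
  rw [h3, circleAverage_fun_smul, h2]
  simp

theorem ii_half {α : ℝ} (h0 : 0 < α) (h1 : α < 1) :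
    IntervalIntegrable (fun x : ℝ => |Real.sin x| ^ (-α)) volume 0 (π / 2) := by
  have hb : IntervalIntegrable (fun x : ℝ => (2 / π) ^ (-α) * x ^ (-α)) volume 0 (π / 2) :=
    (intervalIntegral.intervalIntegrable_rpow' (by linarith)).const_mul _
  apply hb.mono_fun'
  · exact (by fun_prop : Measurable (fun x : ℝ => |Real.sin x| ^ (-α))).aestronglyMeasurable
  · rw [uIoc_of_le (by positivity)]
    filter_upwards [ae_restrict_mem measurableSet_Ioc] with x hx
    have hx0 : 0 < x := hx.1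
    have h2 : 0 < 2 / π * x := by positivity
    have h3 : 2 / π * |x| ≤ |Real.sin x| := by
      apply Real.mul_abs_le_abs_sin
      rw [abs_of_pos hx0]; exact hx.2
    rw [abs_of_pos hx0] at h3
    rw [Real.norm_of_nonneg (by positivity), ← Real.mul_rpow (by positivity) hx0.le]
    exact Real.rpow_le_rpow_of_nonpos h2 h3 (by linarith)

theorem periodic_sin_rpow (α : ℝ) : Function.Periodic (fun x : ℝ => |Real.sin x| ^ (-α)) π := by
  intro x
  simp only [Real.sin_add_pi, abs_neg]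

theorem ii_sin {α : ℝ} (h0 : 0 < α) (h1 : α < 1) (a b : ℝ) :
    IntervalIntegrable (fun x : ℝ => |Real.sin x| ^ (-α)) volume a b := by
  apply (periodic_sin_rpow α).intervalIntegrable (t := -(π / 2)) Real.pi_ne_zero
  have e : -(π / 2) + π = π / 2 := by ring
  rw [e]
  have hh := ii_half h0 h1
  have h2 : IntervalIntegrable (fun x : ℝ => |Real.sin x| ^ (-α)) volume (-(π / 2)) 0 := by
    have := (IntervalIntegrable.iff_comp_neg
      (f := fun x : ℝ => |Real.sin x| ^ (-α)) (a := 0) (b := π / 2)).1 hh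
    simp only [Real.sin_neg, abs_neg, neg_zero] at this
    exact this.symm
  exact h2.trans hh

theorem norm_circleMap_sub_ge (r θ : ℝ) (u : ℂ) :
    |r| * |Real.sin (θ - u.arg)| ≤ ‖circleMap 0 r θ - u‖ := by
  have e : circleMap 0 r θ - u
      = Complex.exp (u.arg * I) * (circleMap 0 r (θ - u.arg) - (‖u‖ : ℝ)) := by
    have hu := Complex.norm_mul_exp_arg_mul_I u
    conv_lhs => rw [← hu]
    simp only [circleMap, zero_add]
    rw [mul_sub]
    congr 1
    · rw [mul_left_comm, ← Complex.exp_add]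
      congr 2
      push_cast
      ring
    · ring
  rw [e, norm_mul, Complex.norm_exp_ofReal_mul_I, one_mul]
  refine le_trans (le_of_eq ?_) (Complex.abs_im_le_norm _)
  rw [Complex.sub_im, Complex.ofReal_im, sub_zero]
  have : (circleMap 0 r (θ - u.arg)).im = r * Real.sin (θ - u.arg) := by
    simp only [circleMap, zero_add, Complex.mul_im, Complex.ofReal_re, Complex.ofReal_im, zero_mul,
      add_zero]
    rw [Complex.exp_ofReal_mul_I_im]
  rw [this, abs_mul]

theorem ae_sin_ne (φ : ℝ) : ∀ᵐ θ : ℝ, Real.sin (θ - φ) ≠ 0 := by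
  have : (range (fun n : ℤ => (n : ℝ) * π + φ)).Countable := countable_range _
  filter_upwards [this.ae_notMem volume] with θ hθ hs
  apply hθ
  obtain ⟨n, hn⟩ := Real.sin_eq_zero_iff.1 hs
  exact ⟨n, by linarith⟩

theorem exists_const {α : ℝ} (h0 : 0 < α) (h1 : α < 1) :
    ∃ C : ℝ, 0 < C ∧ ∀ r : ℝ, 1 / 2 ≤ r → ∀ u : ℂ,
      CircleIntegrable (fun w => ‖w - u‖ ^ (-α)) 0 r ∧
      circleAverage (fun w => ‖w - u‖ ^ (-α)) 0 r ≤ C := by
  set I0 : ℝ := ∫ x in (0:ℝ)..(2 * π), |Real.sin x| ^ (-α) with hI0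
  have hI0nn : 0 ≤ I0 := intervalIntegral.integral_nonneg (by positivity) (fun x _ => by positivity)
  refine ⟨(2 * π)⁻¹ * (2 * I0) + 1, by positivity, ?_⟩
  intro r hr u
  have hr0 : 0 < r := by linarith
  have hs : IntervalIntegrable (fun θ : ℝ => 2 * |Real.sin (θ - u.arg)| ^ (-α)) volume 0 (2 * π) := by
    have := (ii_sin h0 h1 (0 - u.arg) (2 * π - u.arg)).comp_sub_right u.arg
    simp only [sub_add_cancel] at this
    exact this.const_mul 2
  have hle : ∀ᵐ θ : ℝ, ‖circleMap 0 r θ - u‖ ^ (-α) ≤ 2 * |Real.sin (θ - u.arg)| ^ (-α) := by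
    filter_upwards [ae_sin_ne u.arg] with θ hθ
    have h2 : 0 < |Real.sin (θ - u.arg)| := abs_pos.2 hθ
    have h3 := norm_circleMap_sub_ge r θ u
    rw [abs_of_pos hr0] at h3
    have h4 : ‖circleMap 0 r θ - u‖ ^ (-α) ≤ (r * |Real.sin (θ - u.arg)|) ^ (-α) :=
      Real.rpow_le_rpow_of_nonpos (by positivity) h3 (by linarith)
    refine h4.trans ?_
    rw [Real.mul_rpow hr0.le h2.le]
    apply mul_le_mul_of_nonneg_right _ (by positivity)
    calc r ^ (-α) ≤ (1 / 2 : ℝ) ^ (-α) :=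
          Real.rpow_le_rpow_of_nonpos (by norm_num) hr (by linarith)
      _ = 2 ^ α := by rw [one_div, Real.inv_rpow (by norm_num), Real.rpow_neg (by norm_num), inv_inv]
      _ ≤ 2 ^ (1:ℝ) := Real.rpow_le_rpow_of_exponent_le (by norm_num) h1.le
      _ = 2 := by norm_num
  have hci : CircleIntegrable (fun w => ‖w - u‖ ^ (-α)) 0 r := by
    unfold CircleIntegrable
    apply hs.mono_fun'
    · apply Measurable.aestronglyMeasurable
      fun_prop
    · apply ae_restrict_of_ae
      filter_upwards [hle] with θ hθ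
      rw [Real.norm_of_nonneg (by positivity)]
      exact hθ
  refine ⟨hci, ?_⟩
  unfold circleAverage
  rw [smul_eq_mul]
  have h5 : ∫ θ in (0:ℝ)..(2 * π), ‖circleMap 0 r θ - u‖ ^ (-α) ≤ 2 * I0 := by
    calc ∫ θ in (0:ℝ)..(2 * π), ‖circleMap 0 r θ - u‖ ^ (-α)
        ≤ ∫ θ in (0:ℝ)..(2 * π), 2 * |Real.sin (θ - u.arg)| ^ (-α) := by
          apply intervalIntegral.integral_mono_ae (by positivity) hci hs
          exact hle
      _ = 2 * ∫ θ in (0:ℝ)..(2 * π), |Real.sin (θ - u.arg)| ^ (-α) := by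
          rw [intervalIntegral.integral_const_mul]
      _ = 2 * I0 := by
          rw [intervalIntegral.integral_comp_sub_right (fun x => |Real.sin x| ^ (-α)) u.arg]
          congr 1
          have hper : Function.Periodic (fun x : ℝ => |Real.sin x| ^ (-α)) (2 * π) := by
            intro x
            simp only [Real.sin_add_two_pi]
          have := hper.intervalIntegral_add_eq (0 - u.arg) 0
          rw [zero_add] at this
          rw [hI0, ← this]
          congr 1
          ring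
  have h6 : (2 * π)⁻¹ * ∫ θ in (0:ℝ)..(2 * π), ‖circleMap 0 r θ - u‖ ^ (-α)
      ≤ (2 * π)⁻¹ * (2 * I0) := by gcongr
  linarith

theorem circleAverage_mono_codiscrete {f₁ f₂ : ℂ → ℝ} {r : ℝ} (hr : r ≠ 0)
    (h1 : CircleIntegrable f₁ 0 r) (h2 : CircleIntegrable f₂ 0 r)
    (h : ∀ᶠ w in codiscreteWithin (sphere (0:ℂ) |r|), f₁ w ≤ f₂ w) :
    circleAverage f₁ 0 r ≤ circleAverage f₂ 0 r := by
  unfold circleAverage
  rw [smul_eq_mul, smul_eq_mul]
  apply mul_le_mul_of_nonneg_left _ (by positivity)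
  apply intervalIntegral.integral_mono_ae_restrict (by positivity) h1 h2
  have h3 : (circleMap 0 r) ⁻¹' {w | f₁ w ≤ f₂ w} ∈ codiscrete ℝ :=
    circleMap_preimage_codiscrete hr h
  have h4 : ∀ᵐ x ∂(volume.restrict (Icc 0 (2 * π))), x ∈ (circleMap 0 r) ⁻¹' {w | f₁ w ≤ f₂ w} :=
    ae_restrict_le_codiscreteWithin measurableSet_Icc (codiscreteWithin_mono (by tauto) h3)
  exact h4

theorem ci_const_mul {f : ℂ → ℝ} {r : ℝ} (a : ℝ) (hf : CircleIntegrable f 0 r) :
    CircleIntegrable (fun z => a * f z) 0 r :=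
  IntervalIntegrable.const_mul (f := fun θ => f (circleMap 0 r θ)) hf a

theorem ca_const_mul {f : ℂ → ℝ} {r : ℝ} (a : ℝ) :
    circleAverage (fun z => a * f z) 0 r = a * circleAverage f 0 r := by
  have := circleAverage_fun_smul (a := a) (f := f) (c := 0) (R := r)
  simpa [smul_eq_mul] using this

theorem avg_posLog_le {H Y : ℂ → ℝ} {r α M : ℝ} (hr : r ≠ 0) (hα : 0 < α)
    (hY : CircleIntegrable Y 0 r)
    (h : ∀ᶠ w in codiscreteWithin (sphere (0:ℂ) |r|), 0 ≤ H w ∧ (H w) ^ α ≤ Y w ∧ 1 ≤ Y w)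
    (hM1 : 1 ≤ M) (hM : circleAverage Y 0 r ≤ M) :
    circleAverage (fun w => log⁺ (H w)) 0 r ≤ (1 / α) * Real.log M := by
  have hMpos : 0 < M := by linarith
  by_cases hint : CircleIntegrable (fun w => log⁺ (H w)) 0 r
  · have hRint : CircleIntegrable (fun w => (1 / α) * ((Real.log M - 1) + M⁻¹ * Y w)) 0 r := by
      apply ci_const_mul
      exact (circleIntegrable_const _ _ _).add (ci_const_mul _ hY)
    have h1 : circleAverage (fun w => log⁺ (H w)) 0 r
        ≤ circleAverage (fun w => (1 / α) * ((Real.log M - 1) + M⁻¹ * Y w)) 0 r := by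
      apply circleAverage_mono_codiscrete hr hint hRint
      filter_upwards [h] with w hw
      obtain ⟨hw0, hw1, hw2⟩ := hw
      have hYpos : 0 < Y w := by linarith
      have h3 : Real.log (Y w) ≤ (Real.log M - 1) + M⁻¹ * Y w := by
        have := Real.log_le_sub_one_of_pos (x := M⁻¹ * Y w) (by positivity)
        rw [Real.log_mul (by positivity) hYpos.ne', Real.log_inv] at this
        linarith
      have h4 : 0 ≤ Real.log (Y w) := Real.log_nonneg hw2
      change max 0 (Real.log (H w)) ≤ _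
      rw [max_le_iff]
      constructor
      · have : 0 ≤ (Real.log M - 1) + M⁻¹ * Y w := by linarith
        positivity
      · rcases hw0.eq_or_lt with h5 | h5
        · rw [← h5, Real.log_zero]
          have : 0 ≤ (Real.log M - 1) + M⁻¹ * Y w := by linarith
          positivity
        · have h6 : α * Real.log (H w) ≤ Real.log (Y w) := by
            rw [← Real.log_rpow h5]
            exact Real.log_le_log (by positivity) hw1
          have h7 : α * Real.log (H w) ≤ (Real.log M - 1) + M⁻¹ * Y w := h6.trans h3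
          rw [one_div, ← div_eq_inv_mul, le_div_iff₀ hα]
          linarith
    refine h1.trans ?_
    have h2 : circleAverage (fun w => (1 / α) * ((Real.log M - 1) + M⁻¹ * Y w)) 0 r
        = (1 / α) * ((Real.log M - 1) + M⁻¹ * circleAverage Y 0 r) := by
      rw [ca_const_mul, circleAverage_fun_add (circleIntegrable_const _ _ _)
        (ci_const_mul _ hY), circleAverage_const, ca_const_mul]
    rw [h2]
    apply mul_le_mul_of_nonneg_left _ (by positivity)
    have : M⁻¹ * circleAverage Y 0 r ≤ 1 := by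
      rw [← inv_mul_cancel₀ hMpos.ne']
      gcongr
    linarith
  · rw [circleAverage.integral_undef hint]
    have := Real.log_nonneg hM1
    positivity

theorem sum_rpow_le {ι : Type*} (s : Finset ι) (x : ι → ℝ) (hx : ∀ i ∈ s, 0 ≤ x i) {α : ℝ}
    (h0 : 0 < α) (h1 : α ≤ 1) : (∑ i ∈ s, x i) ^ α ≤ ∑ i ∈ s, (x i) ^ α := by
  classical
  induction s using Finset.induction_on with
  | empty => simp [Real.zero_rpow h0.ne']
  | insert a s ha ih =>
    rw [Finset.sum_insert ha, Finset.sum_insert ha]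
    have h2 : 0 ≤ x a := hx a (Finset.mem_insert_self _ _)
    have h3 : 0 ≤ ∑ i ∈ s, x i :=
      Finset.sum_nonneg fun i hi => hx i (Finset.mem_insert_of_mem hi)
    refine (Real.rpow_add_le_add_rpow h2 h3 h0.le h1).trans ?_
    gcongr
    exact ih fun i hi => hx i (Finset.mem_insert_of_mem hi)

theorem rpow_le_one_add {x α : ℝ} (hx : 0 ≤ x) (h0 : 0 < α) (h1 : α ≤ 1) : x ^ α ≤ 1 + x := by
  rcases le_total x 1 with h | h
  · have := Real.rpow_le_one hx h h0.le
    linarith
  · have := Real.rpow_le_rpow_of_exponent_le h h1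
    rw [Real.rpow_one] at this
    linarith

theorem kernel_avg {L : ℂ → ℝ} {r R : ℝ} (hr : 0 ≤ r) (hrR : r < R)
    (hL : CircleIntegrable L 0 R) :
    CircleIntegrable (fun w => circleAverage (fun ζ => 2 * R / ‖ζ - w‖ ^ 2 * L ζ) 0 R) 0 r ∧
    circleAverage (fun w => circleAverage (fun ζ => 2 * R / ‖ζ - w‖ ^ 2 * L ζ) 0 R) 0 r
      = 2 * R / (R ^ 2 - r ^ 2) * circleAverage L 0 R := by
  have hR : 0 < R := lt_of_le_of_lt hr hrR
  have hge : ∀ p : ℝ × ℝ, R - r ≤ ‖circleMap 0 R p.2 - circleMap 0 r p.1‖ := by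
    intro p
    have := norm_sub_norm_le (circleMap 0 R p.2) (circleMap 0 r p.1)
    rw [norm_circleMap_zero, norm_circleMap_zero, abs_of_pos hR, abs_of_nonneg hr] at this
    exact this
  have hpos : 0 < R - r := by linarith
  have hk : Continuous fun p : ℝ × ℝ =>
      (fun w ζ : ℂ => 2 * R / ‖ζ - w‖ ^ 2) (circleMap 0 r p.1) (circleMap 0 R p.2) := by
    simp only
    apply Continuous.div continuous_const
    · have h1 : Continuous fun p : ℝ × ℝ => circleMap 0 R p.2 :=
        (continuous_circleMap 0 R).comp continuous_snd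
      have h2 : Continuous fun p : ℝ × ℝ => circleMap 0 r p.1 :=
        (continuous_circleMap 0 r).comp continuous_fst
      exact ((h1.sub h2).norm).pow 2
    · intro p
      have := hge p
      have : 0 < ‖circleMap 0 R p.2 - circleMap 0 r p.1‖ := by linarith
      positivity
  have hC : ∀ p : ℝ × ℝ, ‖(fun w ζ : ℂ => 2 * R / ‖ζ - w‖ ^ 2) (circleMap 0 r p.1)
      (circleMap 0 R p.2)‖ ≤ 2 * R / (R - r) ^ 2 := by
    intro p
    simp only
    rw [Real.norm_of_nonneg (by positivity)]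
    have := hge p
    gcongr
  obtain ⟨h1, h2⟩ := circleAverage_kernel (k := fun w ζ : ℂ => 2 * R / ‖ζ - w‖ ^ 2) hk hC hL
  refine ⟨h1, ?_⟩
  rw [h2]
  rw [← ca_const_mul]
  apply circleAverage_congr_sphere
  intro ζ hζ
  rw [abs_of_pos hR, mem_sphere_zero_iff_norm] at hζ
  simp only
  rw [circleAverage_poisson hr hrR hζ]

theorem term_rpow {d x α : ℝ} (hd : 1 ≤ d) (hx : 0 ≤ x) (h1 : α ≤ 1) :
    (d * (2 / x)) ^ α ≤ d * (2 * x ^ (-α)) := by
  have e : d * (2 / x) = (d * 2) * x⁻¹ := by ring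
  rw [e, Real.mul_rpow (by positivity) (by positivity), Real.inv_rpow hx, ← Real.rpow_neg hx,
    ← mul_assoc]
  apply mul_le_mul_of_nonneg_right _ (by positivity)
  calc (d * 2) ^ α ≤ (d * 2) ^ (1:ℝ) := Real.rpow_le_rpow_of_exponent_le (by linarith) h1
    _ = d * 2 := Real.rpow_one _

theorem avg_log_sum {ι : Type*} (s : Finset ι) (g : ι → ℂ → ℂ) {r R α C : ℝ}
    (hr : 1 / 2 ≤ r) (hrR : r < R) (hα0 : 0 < α) (hα1 : α < 1)
    (h1 : ∀ i, MeromorphicOn (g i) (closedBall 0 R))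
    (h2 : ∀ i ∈ s, ∀ u ∈ closedBall (0:ℂ) R, meromorphicOrderAt (g i) u ≠ ⊤)
    (h3 : ∀ i ∈ s, ∀ u ∈ sphere (0:ℂ) R, meromorphicOrderAt (g i) u = 0)
    (hC : 0 < C) (hC' : ∀ u : ℂ, CircleIntegrable (fun w => ‖w - u‖ ^ (-α)) 0 r ∧
      circleAverage (fun w => ‖w - u‖ ^ (-α)) 0 r ≤ C) :
    circleAverage (fun w => log⁺ (∑ i ∈ s, ‖logDeriv (g i) w‖)) 0 r ≤
      (1 / α) * Real.log (1 + ∑ i ∈ s, (1 +
        2 * R / (R ^ 2 - r ^ 2) * circleAverage (fun ζ => |Real.log ‖g i ζ‖|) 0 R +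
        ∑ u ∈ (divisor_ball_support_finite (h1 i)).toFinset,
          |(divisor (g i) (ball 0 R) u : ℝ)| * (2 * C))) := by
  have hr0 : 0 < r := by linarith
  have hR : 0 < R := by linarith
  set Y : ℂ → ℝ := fun w => 1 + ∑ i ∈ s, (1 +
    circleAverage (fun ζ => 2 * R / ‖ζ - w‖ ^ 2 * |Real.log ‖g i ζ‖|) 0 R +
    ∑ u ∈ (divisor_ball_support_finite (h1 i)).toFinset,
      |(divisor (g i) (ball 0 R) u : ℝ)| * (2 * ‖w - u‖ ^ (-α))) with hYdef
  have hL : ∀ i, CircleIntegrable (fun ζ => |Real.log ‖g i ζ‖|) 0 R := by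
    intro i
    apply CircleIntegrable.abs
    apply MeromorphicOn.circleIntegrable_log_norm
    apply (h1 i).mono_set
    rw [abs_of_pos hR]
    exact sphere_subset_closedBall
  have hPnn : ∀ i w, 0 ≤ circleAverage (fun ζ => 2 * R / ‖ζ - w‖ ^ 2 * |Real.log ‖g i ζ‖|) 0 R := by
    intro i w
    apply circleAverage_nonneg_of_nonneg
    intro ζ _
    positivity
  have hterm : ∀ i u, CircleIntegrable (fun w =>
      |(divisor (g i) (ball 0 R) u : ℝ)| * (2 * ‖w - u‖ ^ (-α))) 0 r := fun i u =>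
    ci_const_mul _ (ci_const_mul _ (hC' u).1)
  have hsumI : ∀ i, CircleIntegrable (fun w =>
      ∑ u ∈ (divisor_ball_support_finite (h1 i)).toFinset,
      |(divisor (g i) (ball 0 R) u : ℝ)| * (2 * ‖w - u‖ ^ (-α))) 0 r := by
    intro i
    exact CircleIntegrable.fun_sum _ (fun u _ => hterm i u)
  have hPI : ∀ i, CircleIntegrable (fun w => 1 +
    circleAverage (fun ζ => 2 * R / ‖ζ - w‖ ^ 2 * |Real.log ‖g i ζ‖|) 0 R) 0 r := fun i =>
    (circleIntegrable_const _ _ _).add (kernel_avg hr0.le hrR (hL i)).1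
  have hIi : ∀ i, CircleIntegrable (fun w => 1 +
    circleAverage (fun ζ => 2 * R / ‖ζ - w‖ ^ 2 * |Real.log ‖g i ζ‖|) 0 R +
    ∑ u ∈ (divisor_ball_support_finite (h1 i)).toFinset,
      |(divisor (g i) (ball 0 R) u : ℝ)| * (2 * ‖w - u‖ ^ (-α))) 0 r := by
    intro i
    exact (hPI i).add (hsumI i)
  have hYint : CircleIntegrable Y 0 r := by
    exact (circleIntegrable_const _ _ _).add (CircleIntegrable.fun_sum _ (fun i _ => hIi i))
  have hYavg : circleAverage Y 0 r ≤ 1 + ∑ i ∈ s, (1 +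
        2 * R / (R ^ 2 - r ^ 2) * circleAverage (fun ζ => |Real.log ‖g i ζ‖|) 0 R +
        ∑ u ∈ (divisor_ball_support_finite (h1 i)).toFinset,
          |(divisor (g i) (ball 0 R) u : ℝ)| * (2 * C)) := by
    rw [hYdef]
    rw [circleAverage_fun_add (circleIntegrable_const _ _ _)
      (CircleIntegrable.fun_sum _ (fun i _ => hIi i)), circleAverage_const,
      circleAverage_fun_sum (fun i _ => hIi i)]
    gcongr with i hi
    rw [circleAverage_fun_add (hPI i) (hsumI i),
      circleAverage_fun_add (circleIntegrable_const _ _ _) (kernel_avg hr0.le hrR (hL i)).1,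
      circleAverage_const, (kernel_avg hr0.le hrR (hL i)).2,
      circleAverage_fun_sum (fun u _ => hterm i u)]
    gcongr with u hu
    rw [ca_const_mul, ca_const_mul]
    gcongr
    exact (hC' u).2
  have hM1 : 1 ≤ 1 + ∑ i ∈ s, (1 +
        2 * R / (R ^ 2 - r ^ 2) * circleAverage (fun ζ => |Real.log ‖g i ζ‖|) 0 R +
        ∑ u ∈ (divisor_ball_support_finite (h1 i)).toFinset,
          |(divisor (g i) (ball 0 R) u : ℝ)| * (2 * C)) := by
    have : 0 < R ^ 2 - r ^ 2 := by nlinarith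
    have h5 : ∀ i, 0 ≤ circleAverage (fun ζ => |Real.log ‖g i ζ‖|) 0 R := fun i =>
      circleAverage_nonneg_of_nonneg (fun _ _ => abs_nonneg _)
    have : 0 ≤ ∑ i ∈ s, (1 +
        2 * R / (R ^ 2 - r ^ 2) * circleAverage (fun ζ => |Real.log ‖g i ζ‖|) 0 R +
        ∑ u ∈ (divisor_ball_support_finite (h1 i)).toFinset,
          |(divisor (g i) (ball 0 R) u : ℝ)| * (2 * C)) := by
      apply Finset.sum_nonneg
      intro i _
      have := h5 i
      positivity
    linarith
  apply avg_posLog_le hr0.ne' hα0 hYint _ hM1 hYavg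
  rw [abs_of_pos hr0]
  have hsub : sphere (0:ℂ) r ⊆ ball 0 R := by
    intro w hw
    rw [mem_sphere_zero_iff_norm] at hw
    rw [mem_ball_zero_iff, hw]
    exact hrR
  have hall : ∀ᶠ w in codiscreteWithin (sphere (0:ℂ) r), ∀ i ∈ s, ‖logDeriv (g i) w‖ ≤
      circleAverage (fun ζ => 2 * R / ‖ζ - w‖ ^ 2 * |Real.log ‖g i ζ‖|) 0 R
      + ∑ u ∈ (divisor_ball_support_finite (h1 i)).toFinset,
        |(divisor (g i) (ball 0 R) u : ℝ)| * (2 / ‖w - u‖) := by
    rw [eventually_all_finset]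
    intro i hi
    exact (norm_logDeriv_le hR (h1 i) (h2 i hi) (h3 i hi)).filter_mono (codiscreteWithin_mono hsub)
  filter_upwards [hall] with w hw
  refine ⟨Finset.sum_nonneg (fun _ _ => norm_nonneg _), ?_, ?_⟩
  · refine (sum_rpow_le s _ (fun _ _ => norm_nonneg _) hα0 hα1.le).trans ?_
    rw [hYdef]
    simp only
    have : ∀ i ∈ s, ‖logDeriv (g i) w‖ ^ α ≤ (1 +
        circleAverage (fun ζ => 2 * R / ‖ζ - w‖ ^ 2 * |Real.log ‖g i ζ‖|) 0 R +
        ∑ u ∈ (divisor_ball_support_finite (h1 i)).toFinset,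
      |(divisor (g i) (ball 0 R) u : ℝ)| * (2 * ‖w - u‖ ^ (-α))) := by
      intro i hi
      have hsnn : 0 ≤ ∑ u ∈ (divisor_ball_support_finite (h1 i)).toFinset,
        |(divisor (g i) (ball 0 R) u : ℝ)| * (2 / ‖w - u‖) :=
        Finset.sum_nonneg fun _ _ => by positivity
      calc ‖logDeriv (g i) w‖ ^ α ≤ (circleAverage (fun ζ => 2 * R / ‖ζ - w‖ ^ 2 * |Real.log ‖g i ζ‖|) 0 R
      + ∑ u ∈ (divisor_ball_support_finite (h1 i)).toFinset,
        |(divisor (g i) (ball 0 R) u : ℝ)| * (2 / ‖w - u‖)) ^ α :=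
            Real.rpow_le_rpow (norm_nonneg _) (hw i hi) hα0.le
        _ ≤ (circleAverage (fun ζ => 2 * R / ‖ζ - w‖ ^ 2 * |Real.log ‖g i ζ‖|) 0 R) ^ α
            + (∑ u ∈ (divisor_ball_support_finite (h1 i)).toFinset,
        |(divisor (g i) (ball 0 R) u : ℝ)| * (2 / ‖w - u‖)) ^ α :=
            Real.rpow_add_le_add_rpow (hPnn i w) hsnn hα0.le hα1.le
        _ ≤ _ := by
            apply add_le_add (rpow_le_one_add (hPnn i w) hα0 hα1.le)
            refine (sum_rpow_le _ _ (fun _ _ => by positivity) hα0 hα1.le).trans ?_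
            apply Finset.sum_le_sum
            intro u hu
            apply term_rpow _ (norm_nonneg _) hα1.le
            rw [Set.Finite.mem_toFinset] at hu
            have hne : divisor (g i) (ball 0 R) u ≠ 0 := hu
            have : (1:ℤ) ≤ |divisor (g i) (ball 0 R) u| := Int.one_le_abs hne
            exact_mod_cast this
    have h8 := Finset.sum_le_sum this
    linarith
  · rw [hYdef]
    simp only
    have : 0 ≤ ∑ i ∈ s, (1 +
        circleAverage (fun ζ => 2 * R / ‖ζ - w‖ ^ 2 * |Real.log ‖g i ζ‖|) 0 R +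
        ∑ u ∈ (divisor_ball_support_finite (h1 i)).toFinset,
      |(divisor (g i) (ball 0 R) u : ℝ)| * (2 * ‖w - u‖ ^ (-α))) := by
      apply Finset.sum_nonneg
      intro i _
      have := hPnn i w
      positivity
    linarith

theorem poleMult_nonneg (f : ℂ → ℂ) (z : ℂ) : 0 ≤ poleMult f z := le_max_left _ _

theorem zeroMult_nonneg (f : ℂ → ℂ) (z : ℂ) : 0 ≤ zeroMult f z := le_max_left _ _

theorem poleInd_nonneg (f : ℂ → ℂ) (z : ℂ) : 0 ≤ poleInd f z := by
  unfold poleInd; split_ifs <;> norm_num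

theorem zero_sub_pole (f : ℂ → ℂ) (z : ℂ) :
    zeroMult f z - poleMult f z = (meromorphicOrderAt f z).untop₀ := by
  unfold zeroMult poleMult
  rcases le_total 0 (meromorphicOrderAt f z).untop₀ with h | h
  · rw [max_eq_right h, max_eq_left (by linarith)]; ring
  · rw [max_eq_left h, max_eq_right (by linarith)]; ring

theorem zero_add_pole (f : ℂ → ℂ) (z : ℂ) :
    zeroMult f z + poleMult f z = |(meromorphicOrderAt f z).untop₀| := by
  unfold zeroMult poleMult
  rcases le_total 0 (meromorphicOrderAt f z).untop₀ with h | h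
  · rw [max_eq_right h, max_eq_left (by linarith), abs_of_nonneg h]; ring
  · rw [max_eq_left h, max_eq_right (by linarith), abs_of_nonpos h]; ring

theorem poleInd_le (f : ℂ → ℂ) (z : ℂ) : poleInd f z ≤ poleMult f z := by
  unfold poleInd poleMult
  split_ifs with h
  · have : (meromorphicOrderAt f z).untop₀ < 0 := by
      have h2 : meromorphicOrderAt f z ≠ ⊤ := ne_top_of_lt h
      lift meromorphicOrderAt f z to ℤ using h2 with n hn
      simpa using h
    have := le_max_right 0 (-(meromorphicOrderAt f z).untop₀)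
    linarith
  · exact le_max_left _ _

/-- the finite set of zeros and poles in the closed disc -/
def zp (f : ℂ → ℂ) (r : ℝ) : Set ℂ :=
  {z | z ∈ closedBall (0:ℂ) r ∧ (meromorphicOrderAt f z).untop₀ ≠ 0}

theorem zp_finite {f : ℂ → ℂ} {r : ℝ} (hf : MeromorphicOn f (closedBall 0 r)) :
    (zp f r).Finite := by
  have h := (divisor f (closedBall 0 r)).finiteSupport (isCompact_closedBall 0 r)
  apply h.subset
  intro z hz
  rw [Function.mem_support, divisor_apply hf hz.1]
  exact hz.2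

theorem counting_eq_sum {μ : ℂ → ℤ} {r : ℝ} (F : Finset ℂ)
    (hF : ∀ z ∈ F, z ∈ closedBall (0:ℂ) r)
    (hμ : ∀ z ∈ closedBall (0:ℂ) r, μ z ≠ 0 → z ∈ F) :
    counting μ r = (∑ z ∈ F, (μ z : ℝ) * Real.log (r * ‖z‖⁻¹)) + (μ 0 : ℝ) * Real.log r := by
  unfold counting
  congr 1
  apply finsum_mem_eq_sum_of_inter_support_eq
  ext z
  constructor
  · rintro ⟨h1, h2⟩
    refine ⟨hμ z h1 ?_, h2⟩
    rintro h3
    apply h2
    simp [h3]
  · rintro ⟨h1, h2⟩
    exact ⟨hF z h1, h2⟩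

theorem log_nonneg' {r : ℝ} {z : ℂ} (hz : z ∈ closedBall (0:ℂ) r) :
    0 ≤ Real.log (r * ‖z‖⁻¹) := by
  rcases eq_or_ne z 0 with rfl | h
  · simp
  · apply Real.log_nonneg
    rw [mem_closedBall_zero_iff] at hz
    have : 0 < ‖z‖ := norm_pos_iff.2 h
    rw [← div_eq_mul_inv, one_le_div this]
    exact hz

theorem counting_ge {μ : ℂ → ℤ} {r : ℝ} (hr : 0 < r) (F : Finset ℂ)
    (hF : ∀ z ∈ F, z ∈ closedBall (0:ℂ) r)
    (hμ : ∀ z ∈ closedBall (0:ℂ) r, μ z ≠ 0 → z ∈ F) (hnn : ∀ z, 0 ≤ μ z) :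
    (μ 0 : ℝ) * Real.log r ≤ counting μ r := by
  rw [counting_eq_sum F hF hμ]
  have : 0 ≤ ∑ z ∈ F, (μ z : ℝ) * Real.log (r * ‖z‖⁻¹) := by
    apply Finset.sum_nonneg
    intro z hz
    have h1 : (0:ℝ) ≤ μ z := by exact_mod_cast hnn z
    exact mul_nonneg h1 (log_nonneg' (hF z hz))
  linarith

theorem counting_ge' {μ : ℂ → ℤ} {r : ℝ} (hr : 1 / 2 ≤ r) (F : Finset ℂ)
    (hF : ∀ z ∈ F, z ∈ closedBall (0:ℂ) r)
    (hμ : ∀ z ∈ closedBall (0:ℂ) r, μ z ≠ 0 → z ∈ F) (hnn : ∀ z, 0 ≤ μ z) :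
    -((μ 0 : ℝ) * Real.log 2) ≤ counting μ r := by
  have hr0 : 0 < r := by linarith
  have h1 := counting_ge hr0 F hF hμ hnn
  have h2 : -Real.log 2 ≤ Real.log r := by
    rw [← Real.log_inv]
    apply Real.log_le_log (by norm_num)
    linarith
  have h3 : (0:ℝ) ≤ μ 0 := by exact_mod_cast hnn 0
  nlinarith [mul_le_mul_of_nonneg_left h2 h3]

theorem sum_mul_log_le {μ : ℂ → ℤ} {R R' : ℝ} (hR : 1 / 2 ≤ R) (hRR' : R < R') (F G : Finset ℂ)
    (hF : ∀ z ∈ F, z ∈ closedBall (0:ℂ) R')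
    (hμ : ∀ z ∈ closedBall (0:ℂ) R', μ z ≠ 0 → z ∈ F) (hnn : ∀ z, 0 ≤ μ z)
    (hG : ∀ z ∈ G, z ∈ ball (0:ℂ) R) :
    (∑ u ∈ G, (μ u : ℝ)) * Real.log (R' / R) ≤ counting μ R' + (μ 0 : ℝ) * Real.log 2 := by
  classical
  have hR0 : 0 < R := by linarith
  have hR'0 : 0 < R' := by linarith
  have hlog : 0 ≤ Real.log (R' / R) := by
    apply Real.log_nonneg
    rw [one_le_div hR0]
    exact hRR'.le
  have hnn' : ∀ z, (0:ℝ) ≤ μ z := fun z => by exact_mod_cast hnn z
  rw [counting_eq_sum F hF hμ, Finset.sum_mul]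
  have h1 : ∑ u ∈ G, (μ u : ℝ) * Real.log (R' / R) ≤
      ∑ u ∈ G ∪ {0}, (μ u : ℝ) * Real.log (R' / R) := by
    apply Finset.sum_le_sum_of_subset_of_nonneg Finset.subset_union_left
    intro i _ _
    exact mul_nonneg (hnn' i) hlog
  have h2 : ∑ u ∈ G ∪ {0}, (μ u : ℝ) * Real.log (R' / R)
      = ∑ u ∈ (G ∪ {0}).erase 0, (μ u : ℝ) * Real.log (R' / R) + (μ 0 : ℝ) * Real.log (R' / R) := by
    rw [Finset.sum_erase_add]
    simp
  have h3 : ∑ u ∈ (G ∪ {0}).erase 0, (μ u : ℝ) * Real.log (R' / R)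
      ≤ ∑ u ∈ (G ∪ {0}).erase 0, (μ u : ℝ) * Real.log (R' * ‖u‖⁻¹) := by
    apply Finset.sum_le_sum
    intro u hu
    rw [Finset.mem_erase, Finset.mem_union, Finset.mem_singleton] at hu
    obtain ⟨hu0, hu1⟩ := hu
    have hu2 : u ∈ G := by
      rcases hu1 with h | h
      · exact h
      · exact absurd h hu0
    have hu3 : ‖u‖ < R := by simpa using hG u hu2
    have hu4 : 0 < ‖u‖ := norm_pos_iff.2 hu0
    apply mul_le_mul_of_nonneg_left _ (hnn' u)
    apply Real.log_le_log (by positivity)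
    rw [← div_eq_mul_inv]
    gcongr
  have h4 : ∑ u ∈ (G ∪ {0}).erase 0, (μ u : ℝ) * Real.log (R' * ‖u‖⁻¹)
      ≤ ∑ u ∈ F, (μ u : ℝ) * Real.log (R' * ‖u‖⁻¹) := by
    have h5 : ∑ u ∈ (G ∪ {0}).erase 0, (μ u : ℝ) * Real.log (R' * ‖u‖⁻¹)
        = ∑ u ∈ ((G ∪ {0}).erase 0).filter (fun u => μ u ≠ 0),
          (μ u : ℝ) * Real.log (R' * ‖u‖⁻¹) := by
      symm
      apply Finset.sum_filter_of_ne
      intro u _ hne h0
      apply hne
      simp [h0]
    rw [h5]
    apply Finset.sum_le_sum_of_subset_of_nonneg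
    · intro u hu
      rw [Finset.mem_filter, Finset.mem_erase, Finset.mem_union, Finset.mem_singleton] at hu
      obtain ⟨⟨hu0, hu1⟩, hu2⟩ := hu
      have hu3 : u ∈ G := by
        rcases hu1 with h | h
        · exact h
        · exact absurd h hu0
      have hu4 : ‖u‖ < R := by simpa using hG u hu3
      apply hμ u _ hu2
      rw [mem_closedBall_zero_iff]
      linarith
    · intro i hi _
      exact mul_nonneg (hnn' i) (log_nonneg' (hF i hi))
  have h6 : Real.log (R' / R) ≤ Real.log R' + Real.log 2 := by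
    rw [Real.log_div hR'0.ne' hR0.ne']
    have : -Real.log 2 ≤ Real.log R := by
      rw [← Real.log_inv]
      apply Real.log_le_log (by norm_num)
      linarith
    linarith
  have h7 := mul_le_mul_of_nonneg_left h6 (hnn' 0)
  linarith

theorem zeroMult_mem {f : ℂ → ℂ} {r : ℝ} (z : ℂ) (hz : z ∈ closedBall (0:ℂ) r)
    (h : zeroMult f z ≠ 0) : z ∈ zp f r := by
  refine ⟨hz, fun h2 => h ?_⟩
  unfold zeroMult
  rw [h2]; rfl

theorem poleMult_mem {f : ℂ → ℂ} {r : ℝ} (z : ℂ) (hz : z ∈ closedBall (0:ℂ) r)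
    (h : poleMult f z ≠ 0) : z ∈ zp f r := by
  refine ⟨hz, fun h2 => h ?_⟩
  unfold poleMult
  rw [h2]; rfl

theorem poleInd_mem {f : ℂ → ℂ} {r : ℝ} (z : ℂ) (hz : z ∈ closedBall (0:ℂ) r)
    (h : poleInd f z ≠ 0) : z ∈ zp f r := by
  apply poleMult_mem z hz
  have h1 := poleInd_le f z
  have h2 := poleInd_nonneg f z
  intro h3
  apply h
  linarith

theorem jensen {f : ℂ → ℂ} {r : ℝ} (hr : 0 < r) (hf : MeromorphicOn f (closedBall 0 r)) :
    circleAverage (fun z => Real.log ‖f z‖) 0 r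
      = counting (zeroMult f) r - counting (poleMult f) r
        + Real.log ‖meromorphicTrailingCoeffAt f 0‖ := by
  have hf' : MeromorphicOn f (closedBall 0 |r|) := by rwa [abs_of_pos hr]
  rw [MeromorphicOn.circleAverage_log_norm hr.ne' hf', abs_of_pos hr]
  have hF := zp_finite hf
  rw [counting_eq_sum (μ := zeroMult f) (r := r) hF.toFinset
      (fun z hz => ((Set.Finite.mem_toFinset hF).1 hz).1)
      (fun z hz h => (Set.Finite.mem_toFinset hF).2 (zeroMult_mem z hz h)),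
    counting_eq_sum (μ := poleMult f) (r := r) hF.toFinset
      (fun z hz => ((Set.Finite.mem_toFinset hF).1 hz).1)
      (fun z hz h => (Set.Finite.mem_toFinset hF).2 (poleMult_mem z hz h))]
  have h0 : (0:ℂ) ∈ closedBall (0:ℂ) r := by simp [hr.le]
  have e1 : ∑ᶠ u, (divisor f (closedBall 0 r) u : ℝ) * Real.log (r * ‖0 - u‖⁻¹)
      = ∑ u ∈ hF.toFinset, (divisor f (closedBall 0 r) u : ℝ) * Real.log (r * ‖u‖⁻¹) := by
    rw [finsum_eq_sum_of_support_subset (s := hF.toFinset)]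
    · simp
    · intro u hu
      rw [Set.Finite.coe_toFinset]
      by_cases hu2 : u ∈ closedBall (0:ℂ) r
      · refine ⟨hu2, fun h => hu ?_⟩
        simp only
        rw [divisor_apply hf hu2, h]
        simp
      · exfalso
        apply hu
        simp only
        rw [Function.locallyFinsuppWithin.apply_eq_zero_of_notMem _ hu2]
        simp
  rw [e1]
  have e2 : ∀ u ∈ closedBall (0:ℂ) r, (divisor f (closedBall 0 r) u : ℝ)
      = (zeroMult f u : ℝ) - (poleMult f u : ℝ) := by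
    intro u hu
    rw [divisor_apply hf hu, ← zero_sub_pole]
    push_cast
    ring
  rw [e2 0 h0]
  have e3 : ∑ u ∈ hF.toFinset, (divisor f (closedBall 0 r) u : ℝ) * Real.log (r * ‖u‖⁻¹)
      = ∑ u ∈ hF.toFinset, (zeroMult f u : ℝ) * Real.log (r * ‖u‖⁻¹)
        - ∑ u ∈ hF.toFinset, (poleMult f u : ℝ) * Real.log (r * ‖u‖⁻¹) := by
    rw [← Finset.sum_sub_distrib]
    apply Finset.sum_congr rfl
    intro u hu
    rw [e2 u ((Set.Finite.mem_toFinset hF).1 hu).1]
    ring
  rw [e3]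
  ring

theorem ci_posLog {f : ℂ → ℂ} {r : ℝ} (hr : 0 ≤ r) (hf : MeromorphicOn f (closedBall 0 r)) :
    CircleIntegrable (fun z => log⁺ ‖f z‖) 0 r := by
  apply MeromorphicOn.circleIntegrable_posLog_norm
  rw [abs_of_nonneg hr]
  exact hf.mono_set sphere_subset_closedBall

theorem ci_posLog_inv {f : ℂ → ℂ} {r : ℝ} (hr : 0 ≤ r) (hf : MeromorphicOn f (closedBall 0 r)) :
    CircleIntegrable (fun z => log⁺ (‖f z‖⁻¹)) 0 r := by
  have := ci_posLog hr hf.inv
  simpa [norm_inv] using this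

theorem fmt {f : ℂ → ℂ} {r : ℝ} (hr : 0 < r) (hf : MeromorphicOn f (closedBall 0 r)) :
    charT f r = circleAverage (fun z => log⁺ (‖f z‖⁻¹)) 0 r + counting (zeroMult f) r
      + Real.log ‖meromorphicTrailingCoeffAt f 0‖ := by
  have h1 := jensen hr hf
  have h2 : circleAverage (fun z => Real.log ‖f z‖) 0 r
      = proxInf f r - circleAverage (fun z => log⁺ (‖f z‖⁻¹)) 0 r := by
    unfold proxInf
    rw [← circleAverage_fun_sub (ci_posLog hr.le hf) (ci_posLog_inv hr.le hf)]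
    congr 1
    funext z
    rw [posLog_sub_posLog_inv]
  unfold charT
  linarith

theorem order_sub_const {f : ℂ → ℂ} {z : ℂ} (a : ℂ)
    (h : meromorphicOrderAt f z < 0) :
    meromorphicOrderAt (fun z => f z - a) z = meromorphicOrderAt f z := by
  have h1 : MeromorphicAt (fun _ : ℂ => -a) z := MeromorphicAt.const _ _
  have h2 : (0 : WithTop ℤ) ≤ meromorphicOrderAt (fun _ : ℂ => -a) z := by
    apply AnalyticAt.meromorphicOrderAt_nonneg
    exact analyticAt_const
  have h3 := meromorphicOrderAt_add_eq_left_of_lt (f₁ := f) (f₂ := fun _ => -a) h1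
    (lt_of_lt_of_le h h2)
  rw [← h3]
  congr 1

theorem order_sub_const_nonneg {f : ℂ → ℂ} {z : ℂ} (a : ℂ) (hf : MeromorphicAt f z)
    (h : 0 ≤ meromorphicOrderAt f z) :
    0 ≤ meromorphicOrderAt (fun z => f z - a) z := by
  have h1 : MeromorphicAt (fun _ : ℂ => -a) z := MeromorphicAt.const _ _
  have h2 : (0 : WithTop ℤ) ≤ meromorphicOrderAt (fun _ : ℂ => -a) z := by
    apply AnalyticAt.meromorphicOrderAt_nonneg
    exact analyticAt_const
  have h3 := meromorphicOrderAt_add (f₁ := f) (f₂ := fun _ => -a) hf h1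
  have h4 : (f + fun _ => -a) = fun z => f z - a := by
    funext z; simp [sub_eq_add_neg]
  rw [h4] at h3
  exact (le_min h h2).trans h3

theorem poleMult_eq_zero {f : ℂ → ℂ} {z : ℂ} (h : 0 ≤ meromorphicOrderAt f z) :
    poleMult f z = 0 := by
  unfold poleMult
  apply max_eq_left
  have : 0 ≤ (meromorphicOrderAt f z).untop₀ := by
    rcases eq_or_ne (meromorphicOrderAt f z) ⊤ with h2 | h2
    · rw [h2]; simp
    · lift meromorphicOrderAt f z to ℤ using h2 with n hn
      simpa using h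
  linarith

theorem poleMult_sub_const {f : ℂ → ℂ} {z : ℂ} (a : ℂ) (hf : MeromorphicAt f z) :
    poleMult (fun z => f z - a) z = poleMult f z := by
  rcases lt_or_ge (meromorphicOrderAt f z) 0 with h | h
  · unfold poleMult
    rw [order_sub_const a h]
  · rw [poleMult_eq_zero h, poleMult_eq_zero (order_sub_const_nonneg a hf h)]

theorem counting_congr {μ ν : ℂ → ℤ} {r : ℝ} (hr : 0 ≤ r)
    (h : ∀ z ∈ closedBall (0:ℂ) r, μ z = ν z) : counting μ r = counting ν r := by
  unfold counting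
  rw [h 0 (by simp [hr])]
  congr 1
  apply finsum_mem_congr rfl
  intro z hz
  rw [h z hz]

theorem poleMult_deriv {f : ℂ → ℂ} {z : ℂ} (hf : MeromorphicAt f z) :
    poleMult (deriv f) z = poleMult f z + poleInd f z := by
  rcases lt_or_ge (meromorphicOrderAt f z) 0 with h | h
  · have h2 : meromorphicOrderAt f z ≠ ⊤ := ne_top_of_lt h
    obtain ⟨n, hn⟩ := WithTop.ne_top_iff_exists.1 h2
    have hn0 : n < 0 := by
      rw [← hn] at h
      exact_mod_cast h
    have h3 := meromorphicOrderAt_deriv_eq_sub_one (f := f) (x := z) (n := n)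
      (by exact_mod_cast hn0.ne) hn.symm
    unfold poleMult poleInd
    rw [if_pos h, h3, ← hn]
    simp only [WithTop.untop₀_coe]
    rw [max_eq_right (by linarith), max_eq_right (by linarith)]
    ring
  · have h4 : poleInd f z = 0 := by
      unfold poleInd
      rw [if_neg (not_lt.2 h)]
    rw [poleMult_eq_zero h, h4]
    rw [poleMult_eq_zero]
    · ring
    · obtain ⟨g, hg, hfg⟩ := hf.meromorphicOrderAt_nonneg_iff.1 h
      rw [meromorphicOrderAt_congr hfg.nhdsNE_deriv]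
      exact hg.deriv.meromorphicOrderAt_nonneg

theorem closedBall_sub {r : ℝ} (hr1 : r < 1) : closedBall (0:ℂ) r ⊆ ball 0 1 :=
  closedBall_subset_ball hr1

theorem mero_sub_const {f : ℂ → ℂ} {U : Set ℂ} (a : ℂ) (hf : MeromorphicOn f U) :
    MeromorphicOn (fun z => f z - a) U :=
  hf.sub (MeromorphicOn.const a)

theorem proxInf_nonneg (f : ℂ → ℂ) (r : ℝ) : 0 ≤ proxInf f r :=
  circleAverage_nonneg_of_nonneg fun _ _ => posLog_nonneg

theorem prox_nonneg (a : ℂ) (f : ℂ → ℂ) (r : ℝ) : 0 ≤ prox a f r :=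
  circleAverage_nonneg_of_nonneg fun _ _ => posLog_nonneg

theorem posLog_sub_le (x y : ℂ) : log⁺ ‖x - y‖ ≤ log⁺ ‖x‖ + (log⁺ ‖y‖ + Real.log 2) := by
  have h1 : log⁺ ‖x - y‖ ≤ log⁺ (‖x‖ + ‖y‖) :=
    posLog_le_posLog (norm_nonneg _) (norm_sub_le x y)
  have h2 := posLog_add (x := ‖x‖) (y := ‖y‖)
  linarith

theorem proxInf_sub_le {f : ℂ → ℂ} {r : ℝ} (a : ℂ) (hr : 0 ≤ r)
    (hf : MeromorphicOn f (closedBall 0 r)) :
    proxInf (fun z => f z - a) r ≤ proxInf f r + (log⁺ ‖a‖ + Real.log 2) := by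
  unfold proxInf
  have h1 := ci_posLog hr hf
  have h2 := ci_posLog hr (mero_sub_const a hf)
  calc circleAverage (fun z => log⁺ ‖f z - a‖) 0 r
      ≤ circleAverage (fun z => log⁺ ‖f z‖ + (log⁺ ‖a‖ + Real.log 2)) 0 r := by
        apply circleAverage_mono h2 (h1.add (circleIntegrable_const _ _ _))
        intro z _
        exact posLog_sub_le _ _
    _ = _ := by
        rw [circleAverage_fun_add h1 (circleIntegrable_const _ _ _), circleAverage_const]

theorem counting_pole_sub {f : ℂ → ℂ} {r : ℝ} (a : ℂ) (hr : 0 ≤ r)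
    (hf : MeromorphicOn f (closedBall 0 r)) :
    counting (poleMult (fun z => f z - a)) r = counting (poleMult f) r :=
  counting_congr hr fun z hz => poleMult_sub_const a (hf z hz)

theorem counting_zero_ge {f : ℂ → ℂ} {r : ℝ} (hr : 1 / 2 ≤ r)
    (hf : MeromorphicOn f (closedBall 0 r)) :
    -((zeroMult f 0 : ℝ) * Real.log 2) ≤ counting (zeroMult f) r := by
  have hF := zp_finite hf
  exact counting_ge' hr hF.toFinset
      (fun z hz => ((Set.Finite.mem_toFinset hF).1 hz).1)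
      (fun z hz h => (Set.Finite.mem_toFinset hF).2 (zeroMult_mem z hz h)) (zeroMult_nonneg f)

theorem counting_pole_ge {f : ℂ → ℂ} {r : ℝ} (hr : 1 / 2 ≤ r)
    (hf : MeromorphicOn f (closedBall 0 r)) :
    -((poleMult f 0 : ℝ) * Real.log 2) ≤ counting (poleMult f) r := by
  have hF := zp_finite hf
  exact counting_ge' hr hF.toFinset
      (fun z hz => ((Set.Finite.mem_toFinset hF).1 hz).1)
      (fun z hz h => (Set.Finite.mem_toFinset hF).2 (poleMult_mem z hz h)) (poleMult_nonneg f)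

theorem counting_ind_ge {f : ℂ → ℂ} {r : ℝ} (hr : 1 / 2 ≤ r)
    (hf : MeromorphicOn f (closedBall 0 r)) :
    -((poleInd f 0 : ℝ) * Real.log 2) ≤ counting (poleInd f) r := by
  have hF := zp_finite hf
  exact counting_ge' hr hF.toFinset
      (fun z hz => ((Set.Finite.mem_toFinset hF).1 hz).1)
      (fun z hz h => (Set.Finite.mem_toFinset hF).2 (poleInd_mem z hz h)) (poleInd_nonneg f)

theorem bounds (f : ℂ → ℂ) (hf : MeromorphicOn f (ball 0 1)) (a : ℂ) :
    ∃ C : ℝ, 0 ≤ C ∧ ∀ r : ℝ, 1 / 2 ≤ r → r < 1 →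
      circleAverage (fun z => |Real.log ‖f z - a‖|) 0 r ≤ 2 * charT f r + C ∧
      counting (zeroMult (fun z => f z - a)) r ≤ charT f r + C ∧
      counting (poleMult (fun z => f z - a)) r ≤ charT f r := by
  set g : ℂ → ℂ := fun z => f z - a with hg
  set c : ℝ := Real.log ‖meromorphicTrailingCoeffAt g 0‖ with hc
  set C0 : ℝ := log⁺ ‖a‖ + Real.log 2 with hC0
  have hC0nn : 0 ≤ C0 := by
    have := posLog_nonneg (x := ‖a‖)
    have := Real.log_nonneg (x := 2) (by norm_num)
    linarith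
  have hz : (0:ℝ) ≤ (zeroMult g 0 : ℝ) * Real.log 2 := by
    have h1 : (0:ℝ) ≤ zeroMult g 0 := by exact_mod_cast zeroMult_nonneg g 0
    have := Real.log_nonneg (x := 2) (by norm_num)
    positivity
  have hp : (0:ℝ) ≤ (poleMult f 0 : ℝ) * Real.log 2 := by
    have h1 : (0:ℝ) ≤ poleMult f 0 := by exact_mod_cast poleMult_nonneg f 0
    have := Real.log_nonneg (x := 2) (by norm_num)
    positivity
  refine ⟨2 * C0 + |c| + (zeroMult g 0 : ℝ) * Real.log 2 + (poleMult f 0 : ℝ) * Real.log 2,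
    by positivity, ?_⟩
  intro r hr hr1
  have hr0 : 0 < r := by linarith
  have hfr : MeromorphicOn f (closedBall 0 r) := hf.mono_set (closedBall_sub hr1)
  have hgr : MeromorphicOn g (closedBall 0 r) := mero_sub_const a hfr
  have h1 := proxInf_sub_le a hr0.le hfr
  have h2 := counting_pole_sub a hr0.le hfr
  have h3 := fmt hr0 hgr
  have h4 := counting_zero_ge hr hgr
  have h5 := counting_pole_ge hr hfr
  have h6 := proxInf_nonneg f r
  have h7 : 0 ≤ circleAverage (fun z => log⁺ (‖g z‖⁻¹)) 0 r :=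
    circleAverage_nonneg_of_nonneg fun _ _ => posLog_nonneg
  have habs := neg_abs_le c
  have habs' := le_abs_self c
  have h8 : circleAverage (fun z => |Real.log ‖g z‖|) 0 r
      = proxInf g r + circleAverage (fun z => log⁺ (‖g z‖⁻¹)) 0 r := by
    unfold proxInf
    rw [← circleAverage_fun_add (ci_posLog hr0.le hgr) (ci_posLog_inv hr0.le hgr)]
    congr 1
    funext z
    rw [posLog_apply, posLog_apply, Real.log_inv]
    rcases le_total 0 (Real.log ‖g z‖) with h | h
    · rw [abs_of_nonneg h, max_eq_right h, max_eq_left (by linarith)]; ring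
    · rw [abs_of_nonpos h, max_eq_left h, max_eq_right (by linarith)]; ring
  have h9 : charT f r = proxInf f r + counting (poleMult f) r := rfl
  have h10 : charT g r = proxInf g r + counting (poleMult g) r := rfl
  rw [← hg] at h1 h2
  rw [← hc] at h3
  rw [h8]
  refine ⟨?_, ?_, ?_⟩
  · linarith
  · linarith
  · rw [h2]; linarith

theorem exists_good_radius {f : ℂ → ℂ} (hf : MeromorphicOn f (ball 0 1)) (S : Finset ℂ)
    (hord : ∀ a ∈ S, ∀ u ∈ ball (0:ℂ) 1, meromorphicOrderAt (fun z => f z - a) u ≠ ⊤)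
    {r1 r2 : ℝ} (h12 : r1 < r2) (h2 : r2 < 1) :
    ∃ R ∈ Ioo r1 r2, ∀ a ∈ S, ∀ u ∈ sphere (0:ℂ) R, meromorphicOrderAt (fun z => f z - a) u = 0 := by
  have hfr : MeromorphicOn f (closedBall 0 r2) := hf.mono_set (closedBall_sub h2)
  have hfin : (⋃ a ∈ S, norm '' (zp (fun z => f z - a) r2)).Finite := by
    apply Set.Finite.biUnion S.finite_toSet
    intro a _
    exact (zp_finite (mero_sub_const a hfr)).image _
  obtain ⟨R, hR1, hR2⟩ := (Set.Ioo_infinite h12).exists_notMem_finite hfin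
  refine ⟨R, hR1, ?_⟩
  intro a ha u hu
  rw [mem_sphere_zero_iff_norm] at hu
  have hub : u ∈ ball (0:ℂ) 1 := by
    rw [mem_ball_zero_iff, hu]
    exact hR1.2.trans h2
  have h3 := hord a ha u hub
  by_contra hne
  apply hR2
  rw [Set.mem_iUnion₂]
  refine ⟨a, ha, u, ⟨?_, ?_⟩, hu⟩
  · rw [mem_closedBall_zero_iff, hu]
    exact hR1.2.le
  · obtain ⟨n, hn⟩ := WithTop.ne_top_iff_exists.1 h3
    intro h4
    apply hne
    rw [← hn] at h4 ⊢
    simp only [WithTop.untop₀_coe] at h4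
    rw [h4]
    rfl

theorem number_le {f : ℂ → ℂ} (hf : MeromorphicOn f (ball 0 1)) (a : ℂ) :
    ∃ C : ℝ, 0 ≤ C ∧ ∀ R R' : ℝ, 1 / 2 ≤ R → R < R' → R' < 1 →
      ∀ h1 : MeromorphicOn (fun z => f z - a) (closedBall 0 R),
      (∑ u ∈ (divisor_ball_support_finite h1).toFinset,
        |(divisor (fun z => f z - a) (ball 0 R) u : ℝ)|) * (R' - R) ≤ 2 * charT f R' + C := by
  obtain ⟨C, hC0, hC⟩ := bounds f hf a
  set g : ℂ → ℂ := fun z => f z - a with hg
  have hz : (0:ℝ) ≤ (zeroMult g 0 : ℝ) * Real.log 2 := by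
    have h1 : (0:ℝ) ≤ zeroMult g 0 := by exact_mod_cast zeroMult_nonneg g 0
    have := Real.log_nonneg (x := 2) (by norm_num)
    positivity
  have hp : (0:ℝ) ≤ (poleMult g 0 : ℝ) * Real.log 2 := by
    have h1 : (0:ℝ) ≤ poleMult g 0 := by exact_mod_cast poleMult_nonneg g 0
    have := Real.log_nonneg (x := 2) (by norm_num)
    positivity
  refine ⟨C + (zeroMult g 0 : ℝ) * Real.log 2 + (poleMult g 0 : ℝ) * Real.log 2, by positivity, ?_⟩
  intro R R' hR hRR' hR' h1
  have hR0 : 0 < R := by linarith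
  have hR'0 : 0 < R' := by linarith
  have hgr : MeromorphicOn g (closedBall 0 R') :=
    mero_sub_const a (hf.mono_set (closedBall_sub hR'))
  have hF := zp_finite hgr
  set G := (divisor_ball_support_finite h1).toFinset with hG
  have hGsub : ∀ z ∈ G, z ∈ ball (0:ℂ) R := by
    intro u hu
    rw [hG, Set.Finite.mem_toFinset] at hu
    exact (divisor g (ball 0 R)).supportWithinDomain hu
  have e1 := sum_mul_log_le (μ := zeroMult g) hR hRR' hF.toFinset G
      (fun z hz => ((Set.Finite.mem_toFinset hF).1 hz).1)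
      (fun z hz h => (Set.Finite.mem_toFinset hF).2 (zeroMult_mem z hz h)) (zeroMult_nonneg g) hGsub
  have e2 := sum_mul_log_le (μ := poleMult g) hR hRR' hF.toFinset G
      (fun z hz => ((Set.Finite.mem_toFinset hF).1 hz).1)
      (fun z hz h => (Set.Finite.mem_toFinset hF).2 (poleMult_mem z hz h)) (poleMult_nonneg g) hGsub
  obtain ⟨_, e3, e4⟩ := hC R' (by linarith) hR'
  have e5 : ∑ u ∈ G, |(divisor g (ball 0 R) u : ℝ)|
      = ∑ u ∈ G, (zeroMult g u : ℝ) + ∑ u ∈ G, (poleMult g u : ℝ) := by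
    rw [← Finset.sum_add_distrib]
    apply Finset.sum_congr rfl
    intro u hu
    have h1' : MeromorphicOn g (ball 0 R) := h1.mono_set ball_subset_closedBall
    rw [divisor_apply h1' (hGsub u hu)]
    have := zero_add_pole g u
    have h5 : ((zeroMult g u + poleMult g u : ℤ) : ℝ) = ((|(meromorphicOrderAt g u).untop₀| : ℤ) : ℝ) := by
      rw [this]
    push_cast at h5
    linarith
  have hnn : 0 ≤ ∑ u ∈ G, |(divisor g (ball 0 R) u : ℝ)| :=
    Finset.sum_nonneg fun _ _ => abs_nonneg _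
  have e6 : R' - R ≤ Real.log (R' / R) := by
    have h6 := Real.one_sub_inv_le_log_of_pos (x := R' / R) (by positivity)
    have h7 : R' - R ≤ 1 - (R' / R)⁻¹ := by
      rw [inv_div, ← sub_nonneg]
      have : 1 - R / R' - (R' - R) = (R' - R) * (1 / R' - 1) := by
        field_simp
      rw [this]
      apply mul_nonneg (by linarith)
      have : 1 ≤ 1 / R' := by
        rw [le_div_iff₀ hR'0]; linarith
      linarith
    linarith
  calc (∑ u ∈ G, |(divisor g (ball 0 R) u : ℝ)|) * (R' - R)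
      ≤ (∑ u ∈ G, |(divisor g (ball 0 R) u : ℝ)|) * Real.log (R' / R) := by gcongr
    _ = (∑ u ∈ G, (zeroMult g u : ℝ)) * Real.log (R' / R)
        + (∑ u ∈ G, (poleMult g u : ℝ)) * Real.log (R' / R) := by rw [e5, add_mul]
    _ ≤ _ := by linarith

theorem logDeriv_lemma {f : ℂ → ℂ} (hf : MeromorphicOn f (ball 0 1)) (S : Finset ℂ)
    (hord : ∀ a ∈ S, ∀ u ∈ ball (0:ℂ) 1, meromorphicOrderAt (fun z => f z - a) u ≠ ⊤)
    {τ α : ℝ} (hτ : 0 ≤ τ) (hα0 : 0 < α) (hα1 : α < 1)
    (hT : ∀ᶠ r in 𝓝[<] (1:ℝ), charT f r ≤ (1 - r) ^ (-τ)) :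
    ∃ K : ℝ, ∀ᶠ r in 𝓝[<] (1:ℝ),
      circleAverage (fun w => log⁺ (∑ a ∈ S, ‖logDeriv (fun z => f z - a) w‖)) 0 r
        ≤ (1 / α) * ((τ + 1) * Real.log (1 / (1 - r)) + K) := by
  obtain ⟨C, hC0, hC⟩ := exists_const hα0 hα1
  choose A hA0 hA using fun a => bounds f hf a
  choose B hB0 hB using fun a => number_le hf a
  set K1 : ℝ := 1 + ∑ a ∈ S, (1 + 8 * (2 * 2 ^ τ + A a) + 4 * (2 * 4 ^ τ + B a) * (2 * C)) with hK1
  have hK1pos : 1 ≤ K1 := by
    have : 0 ≤ ∑ a ∈ S, (1 + 8 * (2 * 2 ^ τ + A a) + 4 * (2 * 4 ^ τ + B a) * (2 * C)) := by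
      apply Finset.sum_nonneg
      intro a _
      have := hA0 a
      have := hB0 a
      positivity
    linarith
  refine ⟨Real.log K1, ?_⟩
  obtain ⟨ρ, hρ1, hρ⟩ := (mem_nhdsLT_iff_exists_Ioo_subset (a := (1:ℝ))).1 hT
  have hev : ∀ᶠ r in 𝓝[<] (1:ℝ), max (1/2) ρ < r ∧ r < 1 := by
    have : Ioo (max (1/2) ρ) 1 ∈ 𝓝[<] (1:ℝ) := Ioo_mem_nhdsLT (max_lt (by norm_num) hρ1)
    filter_upwards [this] with r hr using ⟨hr.1, hr.2⟩
  filter_upwards [hev] with r hr
  obtain ⟨hr1, hr2⟩ := hr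
  have hrh : 1 / 2 < r := lt_of_le_of_lt (le_max_left _ _) hr1
  have hrρ : ρ < r := lt_of_le_of_lt (le_max_right _ _) hr1
  set δ : ℝ := 1 - r with hδ
  have hδ0 : 0 < δ := by linarith
  have hδ1 : δ ≤ 1 := by linarith
  obtain ⟨R, ⟨hRa, hRb⟩, hRgood⟩ := exists_good_radius hf S hord
    (r1 := r + δ / 4) (r2 := r + δ / 2) (by linarith) (by linarith)
  have hR1 : R < 1 := by linarith
  set R' : ℝ := r + 3 * δ / 4 with hR'
  have hR'1 : R' < 1 := by linarith
  have hTR : charT f R ≤ 2 ^ τ * δ ^ (-τ) := by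
    have h1 : charT f R ≤ (1 - R) ^ (-τ) := hρ ⟨by linarith, hR1⟩
    refine h1.trans ?_
    have h2 : (1 - R) ^ (-τ) ≤ (δ / 2) ^ (-τ) :=
      Real.rpow_le_rpow_of_nonpos (by positivity) (by linarith) (by linarith)
    refine h2.trans (le_of_eq ?_)
    rw [Real.div_rpow hδ0.le (by norm_num), Real.rpow_neg (by norm_num : (0:ℝ) ≤ 2), div_inv_eq_mul,
      mul_comm]
  have hTR' : charT f R' ≤ 4 ^ τ * δ ^ (-τ) := by
    have h1 : charT f R' ≤ (1 - R') ^ (-τ) := hρ ⟨by linarith, hR'1⟩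
    refine h1.trans (le_of_eq ?_)
    have h2 : 1 - R' = δ / 4 := by rw [hR', hδ]; ring
    rw [h2, Real.div_rpow hδ0.le (by norm_num), Real.rpow_neg (by norm_num : (0:ℝ) ≤ 4),
      div_inv_eq_mul, mul_comm]
  set b : ℝ := δ ^ (-τ) with hb
  have hb1 : 1 ≤ b := by
    rw [hb, Real.rpow_neg hδ0.le]
    rw [one_le_inv₀ (by positivity)]
    exact Real.rpow_le_one hδ0.le hδ1 hτ
  have hdinv : 1 ≤ δ⁻¹ := (one_le_inv₀ hδ0).2 hδ1
  have hmero : ∀ a, MeromorphicOn (fun z => f z - a) (closedBall 0 R) := fun a =>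
    mero_sub_const a (hf.mono_set (closedBall_sub hR1))
  have hmain := avg_log_sum S (fun a z => f z - a) (r := r) (R := R) (α := α) (C := C) hrh.le
    (by linarith) hα0 hα1 hmero
    (fun a ha u hu => hord a ha u (closedBall_sub hR1 hu)) hRgood hC0 (hC r hrh.le)
  refine hmain.trans ?_
  apply mul_le_mul_of_nonneg_left _ (by positivity)
  have hcoef : 2 * R / (R ^ 2 - r ^ 2) ≤ 8 * δ⁻¹ := by
    have h1 : δ / 4 ≤ R ^ 2 - r ^ 2 := by nlinarith
    rw [← div_eq_mul_inv, div_le_div_iff₀ (by linarith) hδ0]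
    nlinarith
  have hcoef0 : 0 ≤ 2 * R / (R ^ 2 - r ^ 2) := by
    have h1 : δ / 4 ≤ R ^ 2 - r ^ 2 := by nlinarith
    have : 0 < R ^ 2 - r ^ 2 := by linarith
    have : 0 < R := by linarith
    positivity
  have hbd : 1 + ∑ a ∈ S, (1 +
        2 * R / (R ^ 2 - r ^ 2) * circleAverage (fun ζ => |Real.log ‖f ζ - a‖|) 0 R +
        ∑ u ∈ (divisor_ball_support_finite (hmero a)).toFinset,
          |(divisor (fun z => f z - a) (ball 0 R) u : ℝ)| * (2 * C)) ≤ K1 * (δ⁻¹ * b) := by
    have hdb : 1 ≤ δ⁻¹ * b := by nlinarith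
    rw [hK1, add_mul, Finset.sum_mul]
    apply add_le_add (by linarith)
    apply Finset.sum_le_sum
    intro a _
    have ha0 := hA0 a
    have hb0 := hB0 a
    obtain ⟨h1, _, _⟩ := hA a R (by linarith) hR1
    have h2 : circleAverage (fun ζ => |Real.log ‖f ζ - a‖|) 0 R ≤ (2 * 2 ^ τ + A a) * b := by
      have : A a ≤ A a * b := by nlinarith
      nlinarith
    have h2' : 0 ≤ circleAverage (fun ζ => |Real.log ‖f ζ - a‖|) 0 R :=
      circleAverage_nonneg_of_nonneg fun _ _ => abs_nonneg _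
    have h3 : 2 * R / (R ^ 2 - r ^ 2) * circleAverage (fun ζ => |Real.log ‖f ζ - a‖|) 0 R
        ≤ (8 * δ⁻¹) * ((2 * 2 ^ τ + A a) * b) := by
      apply mul_le_mul hcoef h2 h2' (by positivity)
    have h4 := hB a R R' (by linarith) (by linarith) hR'1 (hmero a)
    have hnn : 0 ≤ ∑ u ∈ (divisor_ball_support_finite (hmero a)).toFinset,
          |(divisor (fun z => f z - a) (ball 0 R) u : ℝ)| :=
      Finset.sum_nonneg fun _ _ => abs_nonneg _
    have h5 : (∑ u ∈ (divisor_ball_support_finite (hmero a)).toFinset,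
          |(divisor (fun z => f z - a) (ball 0 R) u : ℝ)|) * (δ / 4)
        ≤ (2 * 4 ^ τ + B a) * b := by
      have h6 : δ / 4 ≤ R' - R := by linarith
      have h7 : B a ≤ B a * b := by nlinarith
      calc _ ≤ (∑ u ∈ (divisor_ball_support_finite (hmero a)).toFinset,
          |(divisor (fun z => f z - a) (ball 0 R) u : ℝ)|) * (R' - R) := by gcongr
        _ ≤ _ := by nlinarith
    have h8 : (∑ u ∈ (divisor_ball_support_finite (hmero a)).toFinset,
          |(divisor (fun z => f z - a) (ball 0 R) u : ℝ)|)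
        ≤ 4 * (2 * 4 ^ τ + B a) * (δ⁻¹ * b) := by
      have : 4 * (2 * 4 ^ τ + B a) * (δ⁻¹ * b) = ((2 * 4 ^ τ + B a) * b) / (δ / 4) := by
        field_simp
      rw [this, le_div_iff₀ (by positivity)]
      exact h5
    rw [← Finset.sum_mul]
    have h9 := mul_le_mul_of_nonneg_right h8 (by positivity : 0 ≤ 2 * C)
    nlinarith
  have hpos : 0 < 1 + ∑ a ∈ S, (1 +
        2 * R / (R ^ 2 - r ^ 2) * circleAverage (fun ζ => |Real.log ‖f ζ - a‖|) 0 R +
        ∑ u ∈ (divisor_ball_support_finite (hmero a)).toFinset,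
          |(divisor (fun z => f z - a) (ball 0 R) u : ℝ)| * (2 * C)) := by
    have : 0 ≤ ∑ a ∈ S, (1 +
        2 * R / (R ^ 2 - r ^ 2) * circleAverage (fun ζ => |Real.log ‖f ζ - a‖|) 0 R +
        ∑ u ∈ (divisor_ball_support_finite (hmero a)).toFinset,
          |(divisor (fun z => f z - a) (ball 0 R) u : ℝ)| * (2 * C)) := by
      apply Finset.sum_nonneg
      intro a _
      have h2' : 0 ≤ circleAverage (fun ζ => |Real.log ‖f ζ - a‖|) 0 R :=
        circleAverage_nonneg_of_nonneg fun _ _ => abs_nonneg _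
      have h3' : 0 ≤ ∑ u ∈ (divisor_ball_support_finite (hmero a)).toFinset,
          |(divisor (fun z => f z - a) (ball 0 R) u : ℝ)| * (2 * C) :=
        Finset.sum_nonneg fun _ _ => by positivity
      have := mul_nonneg hcoef0 h2'
      linarith
    linarith
  refine (Real.log_le_log hpos hbd).trans (le_of_eq ?_)
  rw [Real.log_mul (by positivity) (by positivity), Real.log_mul (by positivity) (by positivity),
    hb, Real.log_rpow hδ0, Real.log_inv, one_div, Real.log_inv]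
  ring

/-- separation constant of a finite set -/
def sep (S : Finset ℂ) : ℝ := ∑ b ∈ S, ∑ a ∈ S, log⁺ (2 * ‖a - b‖⁻¹)

theorem sep_nonneg (S : Finset ℂ) : 0 ≤ sep S :=
  Finset.sum_nonneg fun _ _ => Finset.sum_nonneg fun _ _ => posLog_nonneg

theorem nearest (S : Finset ℂ) (hS : S.Nonempty) (w : ℂ) :
    ∃ b ∈ S, ∑ a ∈ S, log⁺ (‖w - a‖⁻¹) ≤ log⁺ (‖w - b‖⁻¹) + sep S := by
  obtain ⟨b, hb, hmin⟩ := Finset.exists_min_image S (fun a => ‖w - a‖) hS
  refine ⟨b, hb, ?_⟩
  rw [← Finset.add_sum_erase S _ hb]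
  have h1 : ∑ a ∈ S.erase b, log⁺ (‖w - a‖⁻¹) ≤ ∑ a ∈ S.erase b, log⁺ (2 * ‖a - b‖⁻¹) := by
    apply Finset.sum_le_sum
    intro a ha
    rw [Finset.mem_erase] at ha
    have h2 : ‖w - b‖ ≤ ‖w - a‖ := hmin a ha.2
    have h3 : ‖a - b‖ ≤ 2 * ‖w - a‖ := by
      calc ‖a - b‖ = ‖(w - b) - (w - a)‖ := by congr 1; ring
        _ ≤ ‖w - b‖ + ‖w - a‖ := norm_sub_le _ _
        _ ≤ _ := by linarith
    have h4 : 0 < ‖a - b‖ := norm_pos_iff.2 (sub_ne_zero.2 ha.1)
    apply posLog_le_posLog (by positivity)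
    have h5 : 0 < ‖w - a‖ := by linarith
    rw [← div_eq_mul_inv, inv_eq_one_div, div_le_div_iff₀ h5 h4]
    linarith
  have h2 : ∑ a ∈ S.erase b, log⁺ (2 * ‖a - b‖⁻¹) ≤ ∑ a ∈ S, log⁺ (2 * ‖a - b‖⁻¹) :=
    Finset.sum_le_sum_of_subset_of_nonneg (Finset.erase_subset _ _) fun _ _ _ => posLog_nonneg
  have h3 : ∑ a ∈ S, log⁺ (2 * ‖a - b‖⁻¹) ≤ sep S := by
    unfold sep
    exact Finset.single_le_sum (f := fun b => ∑ a ∈ S, log⁺ (2 * ‖a - b‖⁻¹))
      (fun _ _ => Finset.sum_nonneg fun _ _ => posLog_nonneg) hb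
  linarith

theorem pointwise_one (S : Finset ℂ) (hS : S.Nonempty) (w d : ℂ) (hd : d ≠ 0) :
    ∑ a ∈ S, log⁺ (‖w - a‖⁻¹)
      ≤ log⁺ (‖d‖⁻¹) + log⁺ (∑ a ∈ S, ‖d / (w - a)‖) + sep S := by
  obtain ⟨b, hb, h1⟩ := nearest S hS w
  have hd' : 0 < ‖d‖ := norm_pos_iff.2 hd
  have h2 : log⁺ (‖w - b‖⁻¹) ≤ log⁺ (‖d‖⁻¹) + log⁺ (‖d / (w - b)‖) := by
    have : ‖w - b‖⁻¹ = ‖d‖⁻¹ * ‖d / (w - b)‖ := by
      rw [norm_div]; field_simp
    rw [this]
    exact posLog_mul
  have h3 : log⁺ (‖d / (w - b)‖) ≤ log⁺ (∑ a ∈ S, ‖d / (w - a)‖) := by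
    apply posLog_le_posLog (norm_nonneg _)
    exact Finset.single_le_sum (f := fun a => ‖d / (w - a)‖) (fun _ _ => norm_nonneg _) hb
  linarith

theorem pointwise_two (S : Finset ℂ) (hS : S.Nonempty) (w d : ℂ) (hd : d ≠ 0)
    (hw : ∀ a ∈ S, w - a ≠ 0) :
    ∑ a ∈ S, log⁺ (‖w - a‖⁻¹) + Real.log ‖d‖
      ≤ log⁺ ‖w‖ + log⁺ (∑ a ∈ S, ‖d / (w - a)‖) + (sep S + ∑ a ∈ S, (log⁺ ‖a‖ + Real.log 2)) := by
  obtain ⟨b, hb, h1⟩ := nearest S hS w
  have hd' : 0 < ‖d‖ := norm_pos_iff.2 hd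
  have hwb : 0 < ‖w - b‖ := norm_pos_iff.2 (hw b hb)
  have hl2 : 0 ≤ Real.log 2 := Real.log_nonneg (by norm_num)
  have h2 : log⁺ (‖w - b‖⁻¹) + Real.log ‖d‖ = log⁺ ‖w - b‖ + Real.log ‖d / (w - b)‖ := by
    have := posLog_sub_posLog_inv (x := ‖w - b‖)
    rw [norm_div, Real.log_div hd'.ne' hwb.ne']
    linarith
  have h3 : Real.log ‖d / (w - b)‖ ≤ log⁺ (∑ a ∈ S, ‖d / (w - a)‖) := by
    have h4 : Real.log ‖d / (w - b)‖ ≤ log⁺ ‖d / (w - b)‖ := le_max_right _ _
    refine h4.trans ?_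
    apply posLog_le_posLog (norm_nonneg _)
    exact Finset.single_le_sum (f := fun a => ‖d / (w - a)‖) (fun _ _ => norm_nonneg _) hb
  have h5 := posLog_sub_le w b
  have h6 : log⁺ ‖b‖ + Real.log 2 ≤ ∑ a ∈ S, (log⁺ ‖a‖ + Real.log 2) :=
    Finset.single_le_sum (f := fun a : ℂ => log⁺ ‖a‖ + Real.log 2)
      (fun a _ => add_nonneg posLog_nonneg hl2) hb
  linarith

theorem ci_posLog_sum {S : Finset ℂ} {L : ℂ → ℂ → ℂ} {r : ℝ} (hr : 0 < r)
    (hL : ∀ a, MeromorphicOn (L a) (closedBall 0 r))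
    (hord : ∀ a ∈ S, ∀ u ∈ closedBall (0:ℂ) r, meromorphicOrderAt (L a) u ≠ ⊤) :
    CircleIntegrable (fun z => log⁺ (∑ a ∈ S, ‖L a z‖)) 0 r := by
  have hLs : ∀ a, MeromorphicOn (L a) (sphere (0:ℂ) |r|) := fun a => by
    rw [abs_of_pos hr]; exact (hL a).mono_set sphere_subset_closedBall
  have hi : ∀ a, CircleIntegrable (fun z => Real.log ‖L a z‖) 0 r := fun a =>
    (hLs a).circleIntegrable_log_norm
  have h1 : CircleIntegrable (fun z => log⁺ (∑ a ∈ S, Real.exp (Real.log ‖L a z‖))) 0 r := by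
    have hdom : CircleIntegrable (fun z => Real.log S.card + ∑ a ∈ S, |Real.log ‖L a z‖|) 0 r :=
      (circleIntegrable_const _ _ _).add (CircleIntegrable.fun_sum _ fun a _ => (hi a).abs)
    unfold CircleIntegrable at hdom ⊢
    apply hdom.mono_fun'
    · have hm : ∀ a, AEStronglyMeasurable (fun θ => Real.log ‖L a (circleMap 0 r θ)‖)
          (volume.restrict (uIoc 0 (2 * π))) := fun a => (intervalIntegrable_iff.1 (hi a)).1
      apply continuous_posLog.comp_aestronglyMeasurable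
      apply Finset.aestronglyMeasurable_fun_sum
      intro a _
      exact Real.continuous_exp.comp_aestronglyMeasurable (hm a)
    · apply ae_of_all
      intro θ
      simp only
      rw [Real.norm_of_nonneg posLog_nonneg]
      refine (posLog_sum S (fun a => Real.exp (Real.log ‖L a (circleMap 0 r θ)‖))).trans ?_
      gcongr with a ha
      rw [posLog_apply, Real.log_exp]
      exact max_le (abs_nonneg _) (le_abs_self _)
  apply h1.congr_codiscreteWithin
  have h2 : ∀ᶠ z in codiscreteWithin (sphere (0:ℂ) |r|), ∀ a ∈ S, L a z ≠ 0 := by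
    rw [eventually_all_finset]
    intro a ha
    apply (hLs a).eventually_codiscreteWithin_apply_ne_zero
    intro u hu
    rw [abs_of_pos hr] at hu
    exact hord a ha u (sphere_subset_closedBall hu)
  filter_upwards [h2] with z hz
  congr 1
  apply Finset.sum_congr rfl
  intro a ha
  exact Real.exp_log (norm_pos_iff.2 (hz a ha))

theorem order_deriv_logDeriv {f : ℂ → ℂ} {u : ℂ} (hf : MeromorphicAt f u) (a : ℂ)
    (h1 : meromorphicOrderAt (fun z => f z - a) u ≠ ⊤)
    (h2 : meromorphicOrderAt (deriv f) u ≠ ⊤) :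
    meromorphicOrderAt (logDeriv (fun z => f z - a)) u ≠ ⊤ := by
  have hg : MeromorphicAt (fun z => f z - a) u := hf.sub (MeromorphicAt.const a u)
  have e : logDeriv (fun z => f z - a) = deriv f * (fun z => f z - a)⁻¹ := by
    funext z
    rw [logDeriv_apply, deriv_sub_const, div_eq_mul_inv]
    rfl
  rw [e, meromorphicOrderAt_mul hf.deriv hg.inv, meromorphicOrderAt_inv]
  obtain ⟨m, hm⟩ := WithTop.ne_top_iff_exists.1 h1
  obtain ⟨n, hn⟩ := WithTop.ne_top_iff_exists.1 h2
  rw [← hm, ← hn]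
  intro h3
  have : ((n : WithTop ℤ) + -((m : ℤ) : WithTop ℤ)) = ((n + -m : ℤ) : WithTop ℤ) := by
    push_cast; rfl
  rw [this] at h3
  exact WithTop.coe_ne_top h3

theorem integrated {f : ℂ → ℂ} (hf : MeromorphicOn f (ball 0 1)) (S : Finset ℂ) (hS : S.Nonempty)
    (hord : ∀ a ∈ S, ∀ u ∈ ball (0:ℂ) 1, meromorphicOrderAt (fun z => f z - a) u ≠ ⊤)
    (hord' : ∀ u ∈ ball (0:ℂ) 1, meromorphicOrderAt (deriv f) u ≠ ⊤) {r : ℝ}
    (hr : 0 < r) (hr1 : r < 1) :
    ∑ a ∈ S, prox a f r ≤ prox 0 (deriv f) r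
      + circleAverage (fun w => log⁺ (∑ a ∈ S, ‖logDeriv (fun z => f z - a) w‖)) 0 r + sep S ∧
    ∑ a ∈ S, prox a f r + circleAverage (fun z => Real.log ‖deriv f z‖) 0 r ≤ proxInf f r
      + circleAverage (fun w => log⁺ (∑ a ∈ S, ‖logDeriv (fun z => f z - a) w‖)) 0 r
      + (sep S + ∑ a ∈ S, (log⁺ ‖a‖ + Real.log 2)) := by
  have hsub := closedBall_sub hr1
  have hfr : MeromorphicOn f (closedBall 0 r) := hf.mono_set hsub
  have hdr : MeromorphicOn (deriv f) (closedBall 0 r) := hfr.deriv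
  have hLr : ∀ a, MeromorphicOn (logDeriv (fun z => f z - a)) (closedBall 0 r) := by
    intro a z hz
    have hg : MeromorphicAt (fun z => f z - a) z := (hfr z hz).sub (MeromorphicAt.const a z)
    exact hg.deriv.div hg
  have hSci : CircleIntegrable (fun w => log⁺ (∑ a ∈ S, ‖logDeriv (fun z => f z - a) w‖)) 0 r :=
    ci_posLog_sum hr hLr fun a ha u hu =>
      order_deriv_logDeriv (hfr u hu) a (hord a ha u (hsub hu)) (hord' u (hsub hu))
  have hpi : ∀ a, CircleIntegrable (fun z => log⁺ (‖f z - a‖⁻¹)) 0 r := fun a =>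
    ci_posLog_inv hr.le (mero_sub_const a hfr)
  have hpsum : CircleIntegrable (fun z => ∑ a ∈ S, log⁺ (‖f z - a‖⁻¹)) 0 r :=
    CircleIntegrable.fun_sum _ fun a _ => hpi a
  have hsum : ∑ a ∈ S, prox a f r = circleAverage (fun z => ∑ a ∈ S, log⁺ (‖f z - a‖⁻¹)) 0 r := by
    rw [circleAverage_fun_sum fun a _ => hpi a]
    rfl
  have hpd : CircleIntegrable (fun z => log⁺ (‖deriv f z - 0‖⁻¹)) 0 r := by
    have := ci_posLog_inv hr.le hdr
    simpa using this
  have hd0 : ∀ᶠ z in codiscreteWithin (sphere (0:ℂ) |r|), deriv f z ≠ 0 := by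
    rw [abs_of_pos hr]
    apply (hdr.mono_set sphere_subset_closedBall).eventually_codiscreteWithin_apply_ne_zero
    intro u hu
    exact hord' u (hsub (sphere_subset_closedBall hu))
  have ha0 : ∀ᶠ z in codiscreteWithin (sphere (0:ℂ) |r|), ∀ a ∈ S, f z - a ≠ 0 := by
    rw [abs_of_pos hr, eventually_all_finset]
    intro a ha
    apply ((mero_sub_const a hfr).mono_set
      sphere_subset_closedBall).eventually_codiscreteWithin_apply_ne_zero
    intro u hu
    exact hord a ha u (hsub (sphere_subset_closedBall hu))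
  have hLeq : ∀ a z, logDeriv (fun z => f z - a) z = deriv f z / (f z - a) := by
    intro a z
    rw [logDeriv_apply, deriv_sub_const]
  constructor
  · rw [hsum]
    have h1 : circleAverage (fun z => ∑ a ∈ S, log⁺ (‖f z - a‖⁻¹)) 0 r ≤
        circleAverage (fun z => (log⁺ (‖deriv f z - 0‖⁻¹)
          + log⁺ (∑ a ∈ S, ‖logDeriv (fun z => f z - a) z‖)) + sep S) 0 r := by
      apply circleAverage_mono_codiscrete hr.ne' hpsum
        ((hpd.add hSci).add (circleIntegrable_const _ _ _))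
      filter_upwards [hd0] with z hz
      have := pointwise_one S hS (f z) (deriv f z) hz
      simp only [hLeq, sub_zero]
      exact this
    refine h1.trans (le_of_eq ?_)
    rw [circleAverage_fun_add (f₁ := fun z => log⁺ (‖deriv f z - 0‖⁻¹)
          + log⁺ (∑ a ∈ S, ‖logDeriv (fun z => f z - a) z‖)) (hpd.add hSci)
      (circleIntegrable_const _ _ _), circleAverage_fun_add hpd hSci, circleAverage_const]
    rfl
  · rw [hsum]
    have hli : CircleIntegrable (fun z => Real.log ‖deriv f z‖) 0 r := by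
      apply MeromorphicOn.circleIntegrable_log_norm
      rw [abs_of_pos hr]
      exact hdr.mono_set sphere_subset_closedBall
    have hfi := ci_posLog hr.le hfr
    rw [← circleAverage_fun_add hpsum hli]
    have h1 : circleAverage (fun z => ∑ a ∈ S, log⁺ (‖f z - a‖⁻¹) + Real.log ‖deriv f z‖) 0 r ≤
        circleAverage (fun z => (log⁺ ‖f z‖
          + log⁺ (∑ a ∈ S, ‖logDeriv (fun z => f z - a) z‖))
            + (sep S + ∑ a ∈ S, (log⁺ ‖a‖ + Real.log 2))) 0 r := by
      apply circleAverage_mono_codiscrete hr.ne' (hpsum.add hli)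
        ((hfi.add hSci).add (circleIntegrable_const _ _ _))
      filter_upwards [hd0, ha0] with z hz hz2
      have := pointwise_two S hS (f z) (deriv f z) hz hz2
      simp only [hLeq]
      exact this
    refine h1.trans (le_of_eq ?_)
    rw [circleAverage_fun_add (f₁ := fun z => log⁺ ‖f z‖
          + log⁺ (∑ a ∈ S, ‖logDeriv (fun z => f z - a) z‖)) (hfi.add hSci)
      (circleIntegrable_const _ _ _), circleAverage_fun_add hfi hSci, circleAverage_const]
    rfl

theorem counting_add {f : ℂ → ℂ} {r : ℝ} (hr : 0 ≤ r) (hf : MeromorphicOn f (closedBall 0 r)) :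
    counting (poleMult (deriv f)) r = counting (poleMult f) r + counting (poleInd f) r := by
  have hF := zp_finite hf
  have e1 : counting (poleMult (deriv f)) r = counting (fun z => poleMult f z + poleInd f z) r :=
    counting_congr hr fun z hz => poleMult_deriv (hf z hz)
  rw [e1, counting_eq_sum (μ := fun z => poleMult f z + poleInd f z) hF.toFinset
      (fun z hz => ((Set.Finite.mem_toFinset hF).1 hz).1) ?_,
    counting_eq_sum (μ := poleMult f) hF.toFinset
      (fun z hz => ((Set.Finite.mem_toFinset hF).1 hz).1)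
      (fun z hz h => (Set.Finite.mem_toFinset hF).2 (poleMult_mem z hz h)),
    counting_eq_sum (μ := poleInd f) hF.toFinset
      (fun z hz => ((Set.Finite.mem_toFinset hF).1 hz).1)
      (fun z hz h => (Set.Finite.mem_toFinset hF).2 (poleInd_mem z hz h))]
  · have : ∑ z ∈ hF.toFinset, ((poleMult f z + poleInd f z : ℤ) : ℝ) * Real.log (r * ‖z‖⁻¹)
        = ∑ z ∈ hF.toFinset, (poleMult f z : ℝ) * Real.log (r * ‖z‖⁻¹)
          + ∑ z ∈ hF.toFinset, (poleInd f z : ℝ) * Real.log (r * ‖z‖⁻¹) := by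
      rw [← Finset.sum_add_distrib]
      apply Finset.sum_congr rfl
      intro z _
      push_cast
      ring
    rw [this]
    push_cast
    ring
  · intro z hz h
    apply (Set.Finite.mem_toFinset hF).2
    by_contra hcon
    apply h
    have h1 : poleMult f z = 0 := by
      by_contra h2; exact hcon (poleMult_mem z hz h2)
    have h2 : poleInd f z = 0 := by
      by_contra h2; exact hcon (poleInd_mem z hz h2)
    rw [h1, h2]; rfl

theorem core {P m0 x N0 K Sr c M1 M2 c' : ℝ} (hK : 0 ≤ K) (hm0 : 0 ≤ m0)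
    (h1 : P ≤ m0 + Sr + M1) (h2 : P ≤ K - N0 - c + Sr + M2) (hx : x = m0 + N0 + c)
    (hN : -c' ≤ N0) (hc' : 0 ≤ c') (hM1 : 0 ≤ M1) (hM2 : 0 ≤ M2) :
    P ≤ max 0 (m0 / x) * K + Sr + (c' + |c| + M1 + M2) := by
  have hcabs := neg_abs_le c
  have hcabs' := le_abs_self c
  have hcnn := abs_nonneg c
  rcases le_or_gt x 0 with hx0 | hx0
  · have h3 : m0 ≤ c' + |c| := by linarith
    have h4 : 0 ≤ max 0 (m0 / x) * K := mul_nonneg (le_max_left _ _) hK
    linarith
  · have h5 : max 0 (m0 / x) = m0 / x := max_eq_right (by positivity)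
    rw [h5]
    rcases le_or_gt x K with hxK | hxK
    · have h6 : m0 ≤ m0 / x * K := by
        calc m0 = m0 / x * x := by field_simp
          _ ≤ m0 / x * K := by
            apply mul_le_mul_of_nonneg_left hxK (by positivity)
      linarith
    · -- K - N0 - c - m0/x*K = (x - K) * (-(N0+c)/x)
      have h7 : K - N0 - c - m0 / x * K = (x - K) / x * (-(N0 + c)) := by
        have : m0 = x - N0 - c := by linarith
        rw [this]
        field_simp
        ring
      have h8 : 0 ≤ (x - K) / x := by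
        apply div_nonneg (by linarith) hx0.le
      have h9 : (x - K) / x ≤ 1 := by
        rw [div_le_one hx0]; linarith
      have h10 : (x - K) / x * (-(N0 + c)) ≤ c' + |c| := by
        have h11 : -(N0 + c) ≤ c' + |c| := by linarith
        have h12 : 0 ≤ c' + |c| := by linarith
        calc (x - K) / x * (-(N0 + c)) ≤ (x - K) / x * (c' + |c|) :=
              mul_le_mul_of_nonneg_left h11 h8
          _ ≤ 1 * (c' + |c|) := mul_le_mul_of_nonneg_right h9 h12
          _ = _ := one_mul _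
      linarith

theorem key {f : ℂ → ℂ} (hf : MeromorphicOn f (ball 0 1)) (S : Finset ℂ) (hS : S.Nonempty)
    (hord : ∀ a ∈ S, ∀ u ∈ ball (0:ℂ) 1, meromorphicOrderAt (fun z => f z - a) u ≠ ⊤)
    (hord' : ∀ u ∈ ball (0:ℂ) 1, meromorphicOrderAt (deriv f) u ≠ ⊤) :
    ∃ C : ℝ, ∀ r : ℝ, 1 / 2 ≤ r → r < 1 → 0 ≤ charT f r + counting (poleInd f) r →
      ∑ a ∈ S, prox a f r ≤
        max 0 (prox 0 (deriv f) r / charT (deriv f) r) * (charT f r + counting (poleInd f) r)
        + circleAverage (fun w => log⁺ (∑ a ∈ S, ‖logDeriv (fun z => f z - a) w‖)) 0 r + C := by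
  set c : ℝ := Real.log ‖meromorphicTrailingCoeffAt (deriv f) 0‖ with hc
  set c' : ℝ := (zeroMult (deriv f) 0 : ℝ) * Real.log 2 with hc'
  have hc'0 : 0 ≤ c' := by
    have h1 : (0:ℝ) ≤ zeroMult (deriv f) 0 := by exact_mod_cast zeroMult_nonneg (deriv f) 0
    have := Real.log_nonneg (x := 2) (by norm_num)
    positivity
  have hl2 : 0 ≤ Real.log 2 := Real.log_nonneg (by norm_num)
  have hM2 : 0 ≤ sep S + ∑ a ∈ S, (log⁺ ‖a‖ + Real.log 2) := by
    have : 0 ≤ ∑ a ∈ S, (log⁺ ‖a‖ + Real.log 2) :=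
      Finset.sum_nonneg fun a _ => add_nonneg posLog_nonneg hl2
    have := sep_nonneg S
    linarith
  refine ⟨c' + |c| + sep S + (sep S + ∑ a ∈ S, (log⁺ ‖a‖ + Real.log 2)), ?_⟩
  intro r hr hr1 hK
  have hr0 : 0 < r := by linarith
  have hsub := closedBall_sub hr1
  have hfr : MeromorphicOn f (closedBall 0 r) := hf.mono_set hsub
  have hdr : MeromorphicOn (deriv f) (closedBall 0 r) := hfr.deriv
  obtain ⟨i1, i2⟩ := integrated hf S hS hord hord' hr0 hr1
  have j1 := jensen hr0 hdr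
  have j2 := fmt hr0 hdr
  have j3 := counting_zero_ge hr hdr
  have j4 := counting_add hr0.le hfr
  have j5 : prox 0 (deriv f) r = circleAverage (fun z => log⁺ (‖deriv f z‖⁻¹)) 0 r := by
    unfold prox
    simp only [sub_zero]
  have j6 : charT f r = proxInf f r + counting (poleMult f) r := rfl
  apply core (N0 := counting (zeroMult (deriv f)) r) (c := c) (c' := c') hK (prox_nonneg _ _ _)
    i1 ?_ ?_ j3 hc'0 (sep_nonneg S) hM2
  · rw [j1] at i2
    linarith
  · rw [j5]; exact j2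

theorem log_tendsto : Tendsto (fun r : ℝ => Real.log (1 / (1 - r))) (𝓝[<] 1) atTop := by
  apply Real.tendsto_log_atTop.comp
  have h1 : Tendsto (fun r : ℝ => 1 - r) (𝓝[<] 1) (𝓝[>] 0) := by
    apply tendsto_nhdsWithin_iff.2
    constructor
    · have : Tendsto (fun r : ℝ => 1 - r) (𝓝 1) (𝓝 (1 - 1)) := by
        apply Continuous.tendsto; fun_prop
      rw [sub_self] at this
      exact this.mono_left nhdsWithin_le_nhds
    · filter_upwards [self_mem_nhdsWithin] with r hr
      simp only [mem_Iio] at hr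
      simp only [mem_Ioi]
      linarith
  have h2 := tendsto_inv_nhdsGT_zero (𝕜 := ℝ) |>.comp h1
  refine h2.congr ?_
  intro r
  simp

theorem charT_const {f : ℂ → ℂ} {a : ℂ} (hf : MeromorphicOn f (ball 0 1))
    {u : ℂ} (hu : u ∈ ball (0:ℂ) 1) (h : meromorphicOrderAt (fun z => f z - a) u = ⊤) {r : ℝ}
    (hr : 0 < r) (hr1 : r < 1) : charT f r = log⁺ ‖a‖ := by
  have hall : ∀ z ∈ ball (0:ℂ) 1, meromorphicOrderAt (fun z => f z - a) z = ⊤ := by
    intro z hz
    by_contra hcon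
    exact (MeromorphicOn.meromorphicOrderAt_ne_top_of_isPreconnected (mero_sub_const a hf)
      (convex_ball (0:ℂ) 1).isPreconnected hz hu hcon) h
  have hloc : ∀ z ∈ ball (0:ℂ) 1, f =ᶠ[𝓝[≠] z] fun _ => a := by
    intro z hz
    have := meromorphicOrderAt_eq_top_iff.1 (hall z hz)
    filter_upwards [this] with w hw
    exact sub_eq_zero.1 hw
  have hpole : ∀ z ∈ ball (0:ℂ) 1, poleMult f z = 0 := by
    intro z hz
    apply poleMult_eq_zero
    rw [meromorphicOrderAt_congr (hloc z hz)]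
    exact analyticAt_const.meromorphicOrderAt_nonneg
  have hcount : counting (poleMult f) r = 0 := by
    have : counting (poleMult f) r = counting (fun _ => 0) r :=
      counting_congr hr.le fun z hz => hpole z (closedBall_sub hr1 hz)
    rw [this]
    unfold counting
    simp
  unfold charT
  rw [hcount, add_zero]
  unfold proxInf
  have hcod : (fun z => log⁺ ‖f z‖) =ᶠ[codiscreteWithin (sphere (0:ℂ) |r|)] fun _ => log⁺ ‖a‖ := by
    have h1 : f =ᶠ[codiscreteWithin (sphere (0:ℂ) |r|)] fun _ => a := by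
      refine mem_codiscreteWithin_iff_forall_mem_nhdsNE.2 fun x hx ↦ ?_
      refine mem_of_superset (hloc x ?_) Set.subset_union_left
      rw [abs_of_pos hr, mem_sphere_zero_iff_norm] at hx
      rw [mem_ball_zero_iff, hx]
      exact hr1
    filter_upwards [h1] with z hz
    rw [hz]
  rw [circleAverage_congr_codiscreteWithin hcod hr.ne', circleAverage_const]


end

end Pool.Agent.Helper160.Nev
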