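import Mathlib
import Pool.Agent.Helper160.NevLib

set_option autoImplicit false

namespace Pool.Agent.Helper160.Nev

open Complex Metric Real Set Filter Topology MeromorphicOn Function MeasureTheory
open scoped ENNReal

noncomputable section

/-- The comparison function. -/
def Lr (r : ℝ) : ℝ := Real.log (1 / (1 - r))

theorem Lr_tendsto : Tendsto Lr (𝓝[<] 1) atTop := log_tendsto

/-- The characteristic is at most a multiple of `Lr`. -/
def BigL (g : ℂ → ℂ) : Prop := ∃ A : ℝ, ∀ᶠ r in 𝓝[<] (1:ℝ), charT g r ≤ A * Lr r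

theorem ev_near : ∀ᶠ r in 𝓝[<] (1:ℝ), 1 / 2 ≤ r ∧ r < 1 := by
  filter_upwards [Ioo_mem_nhdsLT (show (1/2:ℝ) < 1 by norm_num)] with r hr
    using ⟨hr.1.le, hr.2⟩

theorem ev_absorb (A B : ℝ) : ∀ᶠ r in 𝓝[<] (1:ℝ), A * Lr r + B ≤ (A + |B|) * Lr r := by
  filter_upwards [Lr_tendsto.eventually_ge_atTop 1] with r hr
  have h1 := le_abs_self B
  have h2 := abs_nonneg B
  nlinarith

theorem bigL_of_le {g : ℂ → ℂ} {A B : ℝ} (h : ∀ᶠ r in 𝓝[<] (1:ℝ), charT g r ≤ A * Lr r + B) :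
    BigL g := by
  refine ⟨A + |B|, ?_⟩
  filter_upwards [h, ev_absorb A B] with r h1 h2
  exact h1.trans h2

theorem bigL_rpow {g : ℂ → ℂ} (h : BigL g) {τ : ℝ} (hτ : 0 < τ) :
    ∀ᶠ r in 𝓝[<] (1:ℝ), charT g r ≤ (1 - r) ^ (-τ) := by
  obtain ⟨A, hA⟩ := h
  filter_upwards [hA, Lr_tendsto.eventually_ge_atTop (4 * |A| / τ ^ 2),
    Lr_tendsto.eventually_ge_atTop 0, ev_near] with r h1 h2 h3 h4
  have h5 : (1 - r) ^ (-τ) = Real.exp (τ * Lr r) := by
    have h6 : 0 < 1 - r := by linarith [h4.2]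
    rw [Real.rpow_def_of_pos h6]
    congr 1
    unfold Lr
    rw [one_div, Real.log_inv]
    ring
  rw [h5]
  have h6 : Real.exp (τ * Lr r) = Real.exp (τ * Lr r / 2) ^ 2 := by
    rw [← Real.exp_nat_mul]
    congr 1
    push_cast
    ring
  have h7 : 1 + τ * Lr r / 2 ≤ Real.exp (τ * Lr r / 2) := by
    have := Real.add_one_le_exp (τ * Lr r / 2)
    linarith
  have h8 : 0 ≤ τ * Lr r / 2 := by positivity
  have h9 : (τ * Lr r / 2) ^ 2 ≤ Real.exp (τ * Lr r / 2) ^ 2 := by
    apply pow_le_pow_left₀ h8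
    linarith
  rw [h6]
  refine le_trans ?_ h9
  have h10 : 4 * |A| ≤ Lr r * τ ^ 2 := by
    rwa [div_le_iff₀ (by positivity)] at h2
  have h11 : A * Lr r ≤ |A| * Lr r := mul_le_mul_of_nonneg_right (le_abs_self A) h3
  nlinarith

/-- The lemma on the logarithmic derivative, for several values. -/
theorem ld_sum {g : ℂ → ℂ} (hg : MeromorphicOn g (ball 0 1)) (hL : BigL g) (S : Finset ℂ)
    (hord : ∀ a ∈ S, ∀ u ∈ ball (0:ℂ) 1, meromorphicOrderAt (fun z => g z - a) u ≠ ⊤)
    {ε : ℝ} (hε : 0 < ε) :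
    ∃ K : ℝ, ∀ᶠ r in 𝓝[<] (1:ℝ),
      circleAverage (fun w => log⁺ (∑ a ∈ S, ‖logDeriv (fun z => g z - a) w‖)) 0 r
        ≤ (1 + ε) * Lr r + K := by
  set τ : ℝ := (ε / 2) / (1 + ε / 2) with hτ
  have hτ0 : 0 < τ := by positivity
  have hα0 : 0 < (1 + ε / 2)⁻¹ := by positivity
  have hα1 : (1 + ε / 2)⁻¹ < 1 := inv_lt_one_of_one_lt₀ (by linarith)
  obtain ⟨K, hK⟩ := logDeriv_lemma hg S hord hτ0.le hα0 hα1 (bigL_rpow hL hτ0)
  refine ⟨(1 + ε / 2) * K, ?_⟩
  filter_upwards [hK] with r hr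
  refine hr.trans (le_of_eq ?_)
  have h1 : 1 / (1 + ε / 2)⁻¹ = 1 + ε / 2 := by rw [one_div, inv_inv]
  have h2 : (1 + ε / 2) * (τ + 1) = 1 + ε := by
    rw [hτ]; field_simp; ring
  rw [h1]
  unfold Lr
  linear_combination (Real.log (1 / (1 - r))) * h2

/-- If the order is infinite at one point, the function vanishes off a discrete set. -/
theorem top_all {g : ℂ → ℂ} (hg : MeromorphicOn g (ball 0 1)) {u : ℂ} (hu : u ∈ ball (0:ℂ) 1)
    (h : meromorphicOrderAt g u = ⊤) : ∀ z ∈ ball (0:ℂ) 1, meromorphicOrderAt g z = ⊤ := by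
  intro z hz
  by_contra hcon
  exact (MeromorphicOn.meromorphicOrderAt_ne_top_of_isPreconnected hg
    (convex_ball (0:ℂ) 1).isPreconnected hz hu hcon) h

theorem sphere_mem_ball {r : ℝ} (hr : 0 < r) (hr1 : r < 1) {x : ℂ} (hx : x ∈ sphere (0:ℂ) |r|) :
    x ∈ ball (0:ℂ) 1 := by
  rw [abs_of_pos hr, mem_sphere_zero_iff_norm] at hx
  rw [mem_ball_zero_iff, hx]
  exact hr1

theorem ev_zero {g : ℂ → ℂ} (hg : MeromorphicOn g (ball 0 1)) {u : ℂ} (hu : u ∈ ball (0:ℂ) 1)
    (h : meromorphicOrderAt g u = ⊤) {r : ℝ} (hr : 0 < r) (hr1 : r < 1) :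
    ∀ᶠ z in codiscreteWithin (sphere (0:ℂ) |r|), g z = 0 ∧ deriv g z = 0 := by
  refine mem_codiscreteWithin_iff_forall_mem_nhdsNE.2 fun x hx ↦ ?_
  have h1 := meromorphicOrderAt_eq_top_iff.1 (top_all hg hu h x (sphere_mem_ball hr hr1 hx))
  have h2 : g =ᶠ[𝓝[≠] x] fun _ => (0:ℂ) := h1
  refine mem_of_superset ?_ Set.subset_union_left
  filter_upwards [h1, h2.nhdsNE_deriv] with z hz1 hz2
  refine ⟨hz1, ?_⟩
  rw [hz2]
  simp

theorem ev_ne_zero {g : ℂ → ℂ} (hg : MeromorphicOn g (ball 0 1))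
    (h : ∀ u ∈ ball (0:ℂ) 1, meromorphicOrderAt g u ≠ ⊤) {r : ℝ} (hr : 0 < r) (hr1 : r < 1) :
    ∀ᶠ z in codiscreteWithin (sphere (0:ℂ) |r|), g z ≠ 0 := by
  rw [abs_of_pos hr]
  have hsub : sphere (0:ℂ) r ⊆ ball 0 1 := sphere_subset_closedBall.trans (closedBall_sub hr1)
  apply (hg.mono_set hsub).eventually_codiscreteWithin_apply_ne_zero
  intro u hu
  exact h u (hsub hu)

theorem ev_zero_imp {g : ℂ → ℂ} (hg : MeromorphicOn g (ball 0 1)) {r : ℝ} (hr : 0 < r)
    (hr1 : r < 1) :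
    ∀ᶠ z in codiscreteWithin (sphere (0:ℂ) |r|), g z = 0 → deriv g z = 0 := by
  by_cases h : ∃ u ∈ ball (0:ℂ) 1, meromorphicOrderAt g u = ⊤
  · obtain ⟨u, hu, h⟩ := h
    filter_upwards [ev_zero hg hu h hr hr1] with z hz _ using hz.2
  · push Not at h
    filter_upwards [ev_ne_zero hg h hr hr1] with z hz h0
    exact absurd h0 hz

theorem mero_logDeriv {g : ℂ → ℂ} (hg : MeromorphicOn g (ball 0 1)) :
    MeromorphicOn (logDeriv g) (ball 0 1) := by
  intro z hz
  exact (hg z hz).deriv.div (hg z hz)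

theorem ld_single {g : ℂ → ℂ} (hg : MeromorphicOn g (ball 0 1)) (hL : BigL g)
    {ε : ℝ} (hε : 0 < ε) :
    ∃ K : ℝ, ∀ᶠ r in 𝓝[<] (1:ℝ),
      circleAverage (fun w => log⁺ ‖logDeriv g w‖) 0 r ≤ (1 + ε) * Lr r + K := by
  by_cases h : ∃ u ∈ ball (0:ℂ) 1, meromorphicOrderAt g u = ⊤
  · obtain ⟨u, hu, h⟩ := h
    refine ⟨0, ?_⟩
    filter_upwards [ev_near, Lr_tendsto.eventually_ge_atTop 0] with r hr hr2
    have hr0 : 0 < r := by linarith [hr.1]
    have h1 : (fun w => log⁺ ‖logDeriv g w‖) =ᶠ[codiscreteWithin (sphere (0:ℂ) |r|)]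
        fun _ => (0:ℝ) := by
      filter_upwards [ev_zero hg hu h hr0 hr.2] with z hz
      rw [logDeriv_apply, hz.1, div_zero]
      simp
    rw [circleAverage_congr_codiscreteWithin h1 hr0.ne', circleAverage_const]
    positivity
  · push Not at h
    obtain ⟨K, hK⟩ := ld_sum hg hL {0} (by
      intro a ha u hu
      rw [Finset.mem_singleton] at ha
      subst ha
      simpa using h u hu) hε
    refine ⟨K, ?_⟩
    simpa using hK

theorem counting_ind_le {f : ℂ → ℂ} {r : ℝ} (hr : 1 / 2 ≤ r)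
    (hf : MeromorphicOn f (closedBall 0 r)) :
    counting (poleInd f) r ≤ counting (poleMult f) r + (poleMult f 0 : ℝ) * Real.log 2 := by
  have hF := zp_finite hf
  rw [counting_eq_sum (μ := poleMult f) hF.toFinset
      (fun z hz => ((Set.Finite.mem_toFinset hF).1 hz).1)
      (fun z hz h => (Set.Finite.mem_toFinset hF).2 (poleMult_mem z hz h)),
    counting_eq_sum (μ := poleInd f) hF.toFinset
      (fun z hz => ((Set.Finite.mem_toFinset hF).1 hz).1)
      (fun z hz h => (Set.Finite.mem_toFinset hF).2 (poleInd_mem z hz h))]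
  have h1 : ∑ z ∈ hF.toFinset, (poleInd f z : ℝ) * Real.log (r * ‖z‖⁻¹)
      ≤ ∑ z ∈ hF.toFinset, (poleMult f z : ℝ) * Real.log (r * ‖z‖⁻¹) := by
    apply Finset.sum_le_sum
    intro z hz
    apply mul_le_mul_of_nonneg_right _ (log_nonneg' ((Set.Finite.mem_toFinset hF).1 hz).1)
    exact_mod_cast poleInd_le f z
  have h2 : -Real.log 2 ≤ Real.log r := by
    rw [← Real.log_inv]
    apply Real.log_le_log (by norm_num)
    linarith
  have h3 : (poleInd f 0 : ℝ) ≤ poleMult f 0 := by exact_mod_cast poleInd_le f 0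
  have h4 : (0:ℝ) ≤ poleInd f 0 := by exact_mod_cast poleInd_nonneg f 0
  rcases le_or_gt r 1 with hr1 | hr1
  · have h5 : Real.log r ≤ 0 := Real.log_nonpos (by linarith) hr1
    nlinarith
  · have h5 : 0 ≤ Real.log r := Real.log_nonneg hr1.le
    have h6 : 0 ≤ Real.log 2 := Real.log_nonneg (by norm_num)
    nlinarith
theorem prox_deriv_le {g : ℂ → ℂ} (hg : MeromorphicOn g (ball 0 1)) {r : ℝ} (hr : 0 < r)
    (hr1 : r < 1) :
    proxInf (deriv g) r ≤ proxInf g r + circleAverage (fun w => log⁺ ‖logDeriv g w‖) 0 r := by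
  have hsub := closedBall_sub hr1
  have hgr : MeromorphicOn g (closedBall 0 r) := hg.mono_set hsub
  have hdr : MeromorphicOn (deriv g) (closedBall 0 r) := hgr.deriv
  have hlr : MeromorphicOn (logDeriv g) (closedBall 0 r) := (mero_logDeriv hg).mono_set hsub
  unfold proxInf
  rw [← circleAverage_fun_add (ci_posLog hr.le hgr) (ci_posLog hr.le hlr)]
  apply circleAverage_mono_codiscrete hr.ne' (ci_posLog hr.le hdr)
    ((ci_posLog hr.le hgr).add (ci_posLog hr.le hlr))
  filter_upwards [ev_zero_imp hg hr hr1] with z hz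
  by_cases h0 : g z = 0
  · rw [hz h0]
    simp only [norm_zero]
    have h1 : log⁺ (0:ℝ) = 0 := by simp
    rw [h1]
    exact add_nonneg posLog_nonneg posLog_nonneg
  · have h1 : ‖deriv g z‖ = ‖g z‖ * ‖logDeriv g z‖ := by
      rw [logDeriv_apply, norm_div]
      have : ‖g z‖ ≠ 0 := norm_ne_zero_iff.2 h0
      field_simp
    rw [h1]
    exact posLog_mul

theorem bigL_deriv {g : ℂ → ℂ} (hg : MeromorphicOn g (ball 0 1)) (hL : BigL g) :
    BigL (deriv g) := by
  obtain ⟨K, hK⟩ := ld_single hg hL one_pos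
  obtain ⟨A, hA⟩ := hL
  apply bigL_of_le (A := 2 * A + 2) (B := K + (poleMult g 0 : ℝ) * Real.log 2)
  filter_upwards [hK, hA, ev_near] with r h1 h2 h3
  have hr0 : 0 < r := by linarith [h3.1]
  have hgr : MeromorphicOn g (closedBall 0 r) := hg.mono_set (closedBall_sub h3.2)
  have h4 := prox_deriv_le hg hr0 h3.2
  have h5 := counting_add hr0.le hgr
  have h6 := counting_ind_le h3.1 hgr
  have h7 := proxInf_nonneg g r
  have h8 : charT g r = proxInf g r + counting (poleMult g) r := rfl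
  have h9 : charT (deriv g) r = proxInf (deriv g) r + counting (poleMult (deriv g)) r := rfl
  rw [h9, h5]
  linarith

theorem mero_iter {f : ℂ → ℂ} (hf : MeromorphicOn f (ball 0 1)) (j : ℕ) :
    MeromorphicOn (iteratedDeriv j f) (ball 0 1) := by
  induction j with
  | zero => rwa [iteratedDeriv_zero]
  | succ j ih => rw [iteratedDeriv_succ]; exact ih.deriv

theorem bigL_iter {f : ℂ → ℂ} (hf : MeromorphicOn f (ball 0 1)) (hL : BigL f) (j : ℕ) :
    BigL (iteratedDeriv j f) := by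
  induction j with
  | zero => rwa [iteratedDeriv_zero]
  | succ j ih => rw [iteratedDeriv_succ]; exact bigL_deriv (mero_iter hf j) ih

/-! ### Pole multiplicities of sums and products -/

theorem poleMult_mul_le {g h : ℂ → ℂ} {z : ℂ} (hg : MeromorphicAt g z) (hh : MeromorphicAt h z) :
    poleMult (fun z => g z * h z) z ≤ poleMult g z + poleMult h z := by
  have e : (fun z => g z * h z) = g * h := rfl
  have h1 := poleMult_nonneg g z
  have h2 := poleMult_nonneg h z
  rw [e]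
  by_cases hgt : meromorphicOrderAt g z = ⊤
  · have : poleMult (g * h) z = 0 := by
      apply poleMult_eq_zero
      rw [meromorphicOrderAt_mul hg hh, hgt, top_add]
      exact le_top
    omega
  by_cases hht : meromorphicOrderAt h z = ⊤
  · have : poleMult (g * h) z = 0 := by
      apply poleMult_eq_zero
      rw [meromorphicOrderAt_mul hg hh, hht, add_top]
      exact le_top
    omega
  obtain ⟨m, hm⟩ := WithTop.ne_top_iff_exists.1 hgt
  obtain ⟨n, hn⟩ := WithTop.ne_top_iff_exists.1 hht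
  unfold poleMult
  rw [meromorphicOrderAt_mul hg hh, ← hm, ← hn]
  have : ((m : WithTop ℤ) + (n : WithTop ℤ)).untop₀ = m + n := by
    rw [← WithTop.coe_add]; rfl
  rw [this]
  simp only [WithTop.untop₀_coe]
  omega

theorem poleMult_add_le {g h : ℂ → ℂ} {z : ℂ} (hg : MeromorphicAt g z) (hh : MeromorphicAt h z) :
    poleMult (fun z => g z + h z) z ≤ poleMult g z + poleMult h z := by
  have e : (fun z => g z + h z) = g + h := rfl
  have h1 := poleMult_nonneg g z
  have h2 := poleMult_nonneg h z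
  rw [e]
  have h3 := meromorphicOrderAt_add hg hh
  have key : ∀ (q : ℤ) (F : ℂ → ℂ), 0 ≤ q → ((-q : ℤ) : WithTop ℤ) ≤ meromorphicOrderAt F z →
      poleMult F z ≤ q := by
    intro q F hq hF
    by_cases ht : meromorphicOrderAt F z = ⊤
    · have : poleMult F z = 0 := poleMult_eq_zero (by rw [ht]; exact le_top)
      omega
    obtain ⟨m, hm⟩ := WithTop.ne_top_iff_exists.1 ht
    unfold poleMult
    rw [← hm] at hF ⊢
    have h4 : -q ≤ m := by exact_mod_cast hF
    simp only [WithTop.untop₀_coe]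
    omega
  have key2 : ∀ F : ℂ → ℂ, ((-(poleMult F z) : ℤ) : WithTop ℤ) ≤ meromorphicOrderAt F z := by
    intro F
    by_cases ht : meromorphicOrderAt F z = ⊤
    · rw [ht]; exact le_top
    obtain ⟨m, hm⟩ := WithTop.ne_top_iff_exists.1 ht
    unfold poleMult
    rw [← hm]
    simp only [WithTop.untop₀_coe]
    have h4 : -max 0 (-m) ≤ m := by omega
    exact_mod_cast h4
  apply key _ _ (by omega)
  refine le_trans (le_min ?_ ?_) h3
  · refine le_trans ?_ (key2 g)
    exact_mod_cast (by omega : -(poleMult g z + poleMult h z) ≤ -poleMult g z)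
  · refine le_trans ?_ (key2 h)
    exact_mod_cast (by omega : -(poleMult g z + poleMult h z) ≤ -poleMult h z)

theorem mero_sum {s : Finset ℕ} {a b : ℕ → ℂ → ℂ} {U : Set ℂ}
    (ha : ∀ i ∈ s, MeromorphicOn (a i) U) (hb : ∀ i ∈ s, MeromorphicOn (b i) U) :
    MeromorphicOn (fun z => ∑ i ∈ s, a i z * b i z) U := by
  classical
  induction s using Finset.induction_on with
  | empty => simp only [Finset.sum_empty]; exact MeromorphicOn.const 0
  | insert i s hi ih =>
    simp only [Finset.sum_insert hi]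
    have h1 : MeromorphicOn (fun z => a i z * b i z) U :=
      (ha i (Finset.mem_insert_self _ _)).mul (hb i (Finset.mem_insert_self _ _))
    exact h1.add (ih (fun j hj => ha j (Finset.mem_insert_of_mem hj))
      (fun j hj => hb j (Finset.mem_insert_of_mem hj)))

theorem poleMult_sum_le {s : Finset ℕ} {a b : ℕ → ℂ → ℂ} {z : ℂ}
    (ha : ∀ i ∈ s, MeromorphicAt (a i) z) (hb : ∀ i ∈ s, MeromorphicAt (b i) z) :
    poleMult (fun z => ∑ i ∈ s, a i z * b i z) z ≤ ∑ i ∈ s, (poleMult (a i) z + poleMult (b i) z) := by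
  classical
  induction s using Finset.induction_on with
  | empty =>
    simp only [Finset.sum_empty]
    apply le_of_eq
    apply poleMult_eq_zero
    exact analyticAt_const.meromorphicOrderAt_nonneg
  | insert i s hi ih =>
    simp only [Finset.sum_insert hi]
    have h1 : MeromorphicAt (fun z => a i z * b i z) z :=
      (ha i (Finset.mem_insert_self _ _)).mul (hb i (Finset.mem_insert_self _ _))
    have h2 : MeromorphicAt (fun z => ∑ i ∈ s, a i z * b i z) z := by
      have := mero_sum (s := s) (a := a) (b := b) (U := {z})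
        (fun j hj w hw => by
          rw [mem_singleton_iff] at hw; subst hw; exact ha j (Finset.mem_insert_of_mem hj))
        (fun j hj w hw => by
          rw [mem_singleton_iff] at hw; subst hw; exact hb j (Finset.mem_insert_of_mem hj))
      exact this z (mem_singleton z)
    have h3 := poleMult_add_le h1 h2
    have h4 := poleMult_mul_le (ha i (Finset.mem_insert_self _ _)) (hb i (Finset.mem_insert_self _ _))
    have h5 := ih (fun j hj => ha j (Finset.mem_insert_of_mem hj))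
      (fun j hj => hb j (Finset.mem_insert_of_mem hj))
    linarith

/-- Comparison of integrated counting functions. -/
theorem counting_le_sum {κ : Type*} {s : Finset κ} {μ : ℂ → ℤ} {ν : κ → ℂ → ℤ} {r : ℝ}
    (hr : 1 / 2 ≤ r) (hr1 : r < 1) (F : Finset ℂ) (hF : ∀ z ∈ F, z ∈ closedBall (0:ℂ) r)
    (hμ : ∀ z ∈ closedBall (0:ℂ) r, μ z ≠ 0 → z ∈ F)
    (hν : ∀ i ∈ s, ∀ z ∈ closedBall (0:ℂ) r, ν i z ≠ 0 → z ∈ F)
    (hle : ∀ z ∈ closedBall (0:ℂ) r, μ z ≤ ∑ i ∈ s, ν i z) :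
    counting μ r ≤ (∑ i ∈ s, counting (ν i) r) + ((∑ i ∈ s, (ν i 0 : ℝ)) - μ 0) * Real.log 2 := by
  rw [counting_eq_sum F hF hμ]
  have h1 : ∑ i ∈ s, counting (ν i) r = (∑ z ∈ F, (∑ i ∈ s, (ν i z : ℝ)) * Real.log (r * ‖z‖⁻¹)) +
      (∑ i ∈ s, (ν i 0 : ℝ)) * Real.log r := by
    rw [Finset.sum_congr rfl (fun i hi => counting_eq_sum F hF (hν i hi)), Finset.sum_add_distrib,
      Finset.sum_comm, Finset.sum_mul]
    congr 1
    apply Finset.sum_congr rfl
    intro z _
    rw [Finset.sum_mul]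
  rw [h1]
  have h2 : ∑ z ∈ F, (μ z : ℝ) * Real.log (r * ‖z‖⁻¹) ≤
      ∑ z ∈ F, (∑ i ∈ s, (ν i z : ℝ)) * Real.log (r * ‖z‖⁻¹) := by
    apply Finset.sum_le_sum
    intro z hz
    apply mul_le_mul_of_nonneg_right _ (log_nonneg' (hF z hz))
    exact_mod_cast hle z (hF z hz)
  have h3 : (μ 0 : ℝ) ≤ ∑ i ∈ s, (ν i 0 : ℝ) := by
    have : (0:ℂ) ∈ closedBall (0:ℂ) r := by simp; linarith
    exact_mod_cast hle 0 this
  have h4 : -Real.log 2 ≤ Real.log r := by
    rw [← Real.log_inv]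
    apply Real.log_le_log (by norm_num)
    linarith
  nlinarith

/-- Finitely many points contribute a bounded amount. -/
theorem counting_bdd {μ : ℂ → ℤ} (hnn : ∀ z, 0 ≤ μ z) (F : Finset ℂ) (hF : ∀ z ∈ F, z ∈ ball (0:ℂ) 1)
    (hμ : ∀ z ∈ ball (0:ℂ) 1, μ z ≠ 0 → z ∈ F) :
    ∃ C : ℝ, ∀ r : ℝ, 1 / 2 ≤ r → r < 1 → counting μ r ≤ C := by
  classical
  refine ⟨∑ z ∈ F, (μ z : ℝ) * Real.log (‖z‖⁻¹), ?_⟩
  intro r hr hr1
  rw [counting_eq_sum (F.filter (fun z => z ∈ closedBall (0:ℂ) r))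
    (fun z hz => (Finset.mem_filter.1 hz).2)
    (fun z hz h => Finset.mem_filter.2 ⟨hμ z (closedBall_sub hr1 hz) h, hz⟩)]
  have hr0 : 0 < r := by linarith
  have h1 : (μ 0 : ℝ) * Real.log r ≤ 0 := by
    apply mul_nonpos_of_nonneg_of_nonpos
    · exact_mod_cast hnn 0
    · exact Real.log_nonpos hr0.le hr1.le
  have h2 : ∑ z ∈ F.filter (fun z => z ∈ closedBall (0:ℂ) r), (μ z : ℝ) * Real.log (r * ‖z‖⁻¹) ≤
      ∑ z ∈ F.filter (fun z => z ∈ closedBall (0:ℂ) r), (μ z : ℝ) * Real.log (‖z‖⁻¹) := by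
    apply Finset.sum_le_sum
    intro z hz
    apply mul_le_mul_of_nonneg_left _ (by exact_mod_cast hnn z)
    rcases eq_or_ne z 0 with rfl | h0
    · simp
    · have h3 : 0 < ‖z‖⁻¹ := inv_pos.2 (norm_pos_iff.2 h0)
      apply Real.log_le_log (mul_pos hr0 h3)
      nlinarith
  have h3 : ∑ z ∈ F.filter (fun z => z ∈ closedBall (0:ℂ) r), (μ z : ℝ) * Real.log (‖z‖⁻¹) ≤
      ∑ z ∈ F, (μ z : ℝ) * Real.log (‖z‖⁻¹) := by
    apply Finset.sum_le_sum_of_subset_of_nonneg (Finset.filter_subset _ _)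
    intro z hz _
    apply mul_nonneg (by exact_mod_cast hnn z)
    rcases eq_or_ne z 0 with rfl | h0
    · simp
    · apply Real.log_nonneg
      have h4 : 0 < ‖z‖ := norm_pos_iff.2 h0
      have h5 := mem_ball_zero_iff.1 (hF z hz)
      rw [one_le_inv₀ h4]
      exact h5.le
  linarith

theorem order_deriv_ne {f : ℂ → ℂ} {u : ℂ} (hf : MeromorphicAt f u)
    (hne : ∀ a : ℂ, meromorphicOrderAt (fun z => f z - a) u ≠ ⊤) :
    meromorphicOrderAt (deriv f) u ≠ ⊤ := by
  intro h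
  have hne0 : meromorphicOrderAt f u ≠ ⊤ := by
    have := hne 0
    simpa using this
  obtain ⟨n, hn⟩ := WithTop.ne_top_iff_exists.1 hne0
  rcases eq_or_ne n 0 with h0 | h0
  · have hnn : 0 ≤ meromorphicOrderAt f u := by
      rw [← hn, h0]; rfl
    obtain ⟨g, hg, hfg⟩ := hf.meromorphicOrderAt_nonneg_iff.1 hnn
    have h1 : ∀ᶠ z in 𝓝[≠] u, deriv g z = 0 := by
      have h2 := meromorphicOrderAt_eq_top_iff.1 h
      filter_upwards [h2, hfg.nhdsNE_deriv] with z hz1 hz2
      rw [← hz2]; exact hz1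
    have h3 : ∀ᶠ z in 𝓝 u, deriv g z = 0 := by
      have := hg.deriv.frequently_zero_iff_eventually_zero.1 h1.frequently
      exact this
    have h4 : ∀ᶠ z in 𝓝 u, g z = g u := by
      have h5 : ∀ᶠ z in 𝓝 u, DifferentiableAt ℂ g z :=
        hg.eventually_analyticAt.mono fun z hz => hz.differentiableAt
      obtain ⟨ε, hε, hball⟩ := Metric.eventually_nhds_iff_ball.1 (h3.and h5)
      rw [Metric.eventually_nhds_iff_ball]
      refine ⟨ε, hε, fun z hz => ?_⟩
      have hd : DifferentiableOn ℂ g (ball u ε) := fun y hy =>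
        (hball y hy).2.differentiableWithinAt
      refine (convex_ball u ε).is_const_of_fderivWithin_eq_zero (𝕜 := ℂ) hd ?_ hz
        (mem_ball_self hε)
      intro y hy
      rw [fderivWithin_of_isOpen isOpen_ball hy]
      ext
      simp [(hball y hy).1]
    apply hne (g u)
    rw [meromorphicOrderAt_eq_top_iff]
    filter_upwards [hfg, h4.filter_mono nhdsWithin_le_nhds] with z hz1 hz2
    rw [hz1, hz2, sub_self]
  · have := meromorphicOrderAt_deriv_eq_sub_one (f := f) (x := u) (n := n)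
      (by exact_mod_cast h0) hn.symm
    rw [this] at h
    exact WithTop.coe_ne_top h

/-- The second main theorem for the values `0`, `w`, `∞`, with `w` taken finitely often. -/
theorem smt {Ψ : ℂ → ℂ} (hΨ : MeromorphicOn Ψ (ball 0 1)) (hL : BigL Ψ)
    (hne : ∀ a : ℂ, ∀ u ∈ ball (0:ℂ) 1, meromorphicOrderAt (fun z => Ψ z - a) u ≠ ⊤)
    {w : ℂ} (hw : w ≠ 0)
    (hfin : {z | z ∈ ball (0:ℂ) 1 ∧ 0 < meromorphicOrderAt (fun z => Ψ z - w) z}.Finite)
    {ε : ℝ} (hε : 0 < ε) :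
    ∃ K : ℝ, ∀ᶠ r in 𝓝[<] (1:ℝ), circleAverage (fun z => log⁺ (‖Ψ z‖⁻¹)) 0 r ≤
      counting (poleMult Ψ) r + (1 + ε) * Lr r + K := by
  classical
  set S : Finset ℂ := {0, w} with hS
  have hd : ∀ u ∈ ball (0:ℂ) 1, meromorphicOrderAt (deriv Ψ) u ≠ ⊤ := fun u hu =>
    order_deriv_ne (hΨ u hu) (fun a => hne a u hu)
  obtain ⟨K, hK⟩ := ld_sum hΨ hL S (fun a _ u hu => hne a u hu) hε
  set g : ℂ → ℂ := fun z => Ψ z - w with hg
  have hgm : MeromorphicOn g (ball 0 1) := mero_sub_const w hΨ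
  obtain ⟨C3, hC3⟩ := counting_bdd (μ := zeroMult g) (zeroMult_nonneg g) hfin.toFinset
    (fun z hz => ((Set.Finite.mem_toFinset hfin).1 hz).1)
    (fun z hz h => (Set.Finite.mem_toFinset hfin).2 ⟨hz, by
      by_contra hcon
      rw [not_lt] at hcon
      apply h
      unfold zeroMult
      apply max_eq_left
      have h2 := hne w z hz
      obtain ⟨m, hm⟩ := WithTop.ne_top_iff_exists.1 h2
      rw [← hm] at hcon ⊢
      have : m ≤ 0 := by exact_mod_cast hcon
      simpa using this⟩)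
  set c2 : ℝ := Real.log ‖meromorphicTrailingCoeffAt g 0‖ with hc2
  set c : ℝ := Real.log ‖meromorphicTrailingCoeffAt (deriv Ψ) 0‖ with hc
  set M2 : ℝ := sep S + ∑ a ∈ S, (log⁺ ‖a‖ + Real.log 2) with hM2
  refine ⟨K + M2 + (C3 + c2 + (log⁺ ‖-w‖ + Real.log 2)) - c +
    (zeroMult (deriv Ψ) 0 : ℝ) * Real.log 2 + (poleMult Ψ 0 : ℝ) * Real.log 2, ?_⟩
  filter_upwards [hK, ev_near] with r h1 h2
  have hr0 : 0 < r := by linarith [h2.1]
  have hsub := closedBall_sub h2.2
  have hΨr : MeromorphicOn Ψ (closedBall 0 r) := hΨ.mono_set hsub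
  have hgr : MeromorphicOn g (closedBall 0 r) := hgm.mono_set hsub
  have hdr : MeromorphicOn (deriv Ψ) (closedBall 0 r) := hΨr.deriv
  obtain ⟨-, i2⟩ := integrated hΨ S ⟨0, by simp [hS]⟩ (fun a _ u hu => hne a u hu) hd hr0 h2.2
  have hsum : ∑ a ∈ S, prox a Ψ r = prox 0 Ψ r + prox w Ψ r := by
    rw [hS, Finset.sum_pair hw.symm]
  rw [hsum] at i2
  have j1 := jensen hr0 hdr
  have j3 := counting_zero_ge h2.1 hdr
  have j4 := counting_add hr0.le hΨr
  have j5 := counting_ind_le h2.1 hΨr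
  have j6 : prox 0 Ψ r = circleAverage (fun z => log⁺ (‖Ψ z‖⁻¹)) 0 r := by
    unfold prox
    simp only [sub_zero]
  have k1 := fmt hr0 hgr
  have k2 : charT g r = proxInf g r + counting (poleMult g) r := rfl
  have k3 := counting_pole_sub w hr0.le hΨr
  have k4 := hC3 r h2.1 h2.2
  have k5 := proxInf_sub_le (-w) hr0.le hgr
  have k6 : (fun z => g z - -w) = Ψ := by
    funext z; simp [hg]
  rw [k6] at k5
  have k7 : circleAverage (fun z => log⁺ (‖g z‖⁻¹)) 0 r = prox w Ψ r := rfl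
  rw [k7] at k1
  rw [← hg] at k3
  rw [j6] at i2
  rw [← hM2] at i2
  rw [← hc] at j1
  rw [← hc2] at k1
  linarith

/-- Pointwise bound for a linear combination. -/
theorem posLog_comb {s : Finset ℕ} (hs : 0 < s.card) (a q : ℕ → ℂ) {M : ℝ}
    (hM : ∀ i ∈ s, log⁺ ‖q i‖ ≤ M) (hM0 : 0 ≤ M) :
    log⁺ ‖∑ i ∈ s, a i * q i‖ ≤ Real.log s.card + (∑ i ∈ s, log⁺ ‖a i‖) + M := by
  have hx : ∀ x : ℝ, 0 ≤ x → x ≤ Real.exp (log⁺ x) := by
    intro x hx
    rcases eq_or_lt_of_le hx with h | h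
    · rw [← h]; positivity
    · calc x = Real.exp (Real.log x) := (Real.exp_log h).symm
        _ ≤ _ := Real.exp_le_exp.2 (le_max_right _ _)
  have h1 : ‖∑ i ∈ s, a i * q i‖ ≤
      ∑ i ∈ s, Real.exp ((∑ i ∈ s, log⁺ ‖a i‖) + M) := by
    refine (norm_sum_le _ _).trans (Finset.sum_le_sum ?_)
    intro i hi
    rw [norm_mul, Real.exp_add]
    apply mul_le_mul
    · refine (hx _ (norm_nonneg _)).trans (Real.exp_le_exp.2 ?_)
      exact Finset.single_le_sum (f := fun i => log⁺ ‖a i‖) (fun _ _ => posLog_nonneg) hi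
    · exact (hx _ (norm_nonneg _)).trans (Real.exp_le_exp.2 (hM i hi))
    · exact norm_nonneg _
    · positivity
  rw [Finset.sum_const, nsmul_eq_mul] at h1
  have hs' : (1:ℝ) ≤ s.card := by exact_mod_cast hs
  have hS0 : 0 ≤ ∑ i ∈ s, log⁺ ‖a i‖ := Finset.sum_nonneg fun _ _ => posLog_nonneg
  have h2 : Real.log ((s.card : ℝ) * Real.exp ((∑ i ∈ s, log⁺ ‖a i‖) + M)) =
      Real.log s.card + ((∑ i ∈ s, log⁺ ‖a i‖) + M) := by
    rw [Real.log_mul (by positivity) (Real.exp_ne_zero _), Real.log_exp]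
  have h3 : 0 ≤ Real.log s.card := Real.log_nonneg hs'
  rw [posLog_apply]
  apply max_le
  · linarith
  · rcases eq_or_lt_of_le (norm_nonneg (∑ i ∈ s, a i * q i)) with h | h
    · rw [← h, Real.log_zero]; linarith
    · refine (Real.log_le_log h h1).trans ?_
      rw [h2]; linarith

/-- Successive quotients. -/
theorem quot_bound {f : ℂ → ℂ} {l : ℕ} {z : ℂ} (h0 : f z ≠ 0)
    (hz : ∀ j < l, iteratedDeriv j f z = 0 → deriv (iteratedDeriv j f) z = 0) :
    ∀ j ≤ l, log⁺ ‖iteratedDeriv j f z / f z‖ ≤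
      ∑ i ∈ Finset.range l, log⁺ ‖logDeriv (iteratedDeriv i f) z‖ := by
  have key : ∀ j ≤ l, log⁺ ‖iteratedDeriv j f z / f z‖ ≤
      ∑ i ∈ Finset.range j, log⁺ ‖logDeriv (iteratedDeriv i f) z‖ := by
    intro j
    induction j with
    | zero =>
      intro _
      rw [iteratedDeriv_zero, div_self h0]
      simp
    | succ j ih =>
      intro hj
      have h1 := ih (by omega)
      rw [Finset.sum_range_succ, iteratedDeriv_succ]
      by_cases hj0 : iteratedDeriv j f z = 0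
      · rw [hz j (by omega) hj0, zero_div]
        have : log⁺ ‖(0:ℂ)‖ = 0 := by simp
        rw [this]
        exact add_nonneg (Finset.sum_nonneg fun _ _ => posLog_nonneg) posLog_nonneg
      · have h2 : deriv (iteratedDeriv j f) z / f z =
            (iteratedDeriv j f z / f z) * logDeriv (iteratedDeriv j f) z := by
          rw [logDeriv_apply]
          field_simp
        rw [h2, norm_mul]
        exact posLog_mul.trans (by linarith)
  intro j hj
  refine (key j hj).trans ?_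
  apply Finset.sum_le_sum_of_subset_of_nonneg
  · exact Finset.range_mono hj
  · intro _ _ _; exact posLog_nonneg

end

end Pool.Agent.Helper160.Nev
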