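import Mathlib
import Pool.Agent.Helper160.NevLDP

set_option autoImplicit false

namespace Pool.Agent.Helper160.Nev

open Complex Metric Real Set Filter Topology MeromorphicOn Function MeasureTheory
open scoped ENNReal

noncomputable section

theorem prox_sum_le {s : Finset ℕ} (hs : 0 < s.card) {a b : ℕ → ℂ → ℂ} {r : ℝ} (hr : 0 < r)
    (ha : ∀ i ∈ s, MeromorphicOn (a i) (closedBall 0 r))
    (hb : ∀ i ∈ s, MeromorphicOn (b i) (closedBall 0 r)) :
    proxInf (fun z => ∑ i ∈ s, a i z * b i z) r ≤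
      Real.log s.card + (∑ i ∈ s, proxInf (a i) r) + ∑ i ∈ s, proxInf (b i) r := by
  have h1 : CircleIntegrable (fun z => ∑ i ∈ s, log⁺ ‖a i z‖) 0 r :=
    CircleIntegrable.fun_sum _ fun i hi => ci_posLog hr.le (ha i hi)
  have h2 : CircleIntegrable (fun z => ∑ i ∈ s, log⁺ ‖b i z‖) 0 r :=
    CircleIntegrable.fun_sum _ fun i hi => ci_posLog hr.le (hb i hi)
  have h3 : CircleIntegrable (fun _ : ℂ => Real.log s.card) 0 r := circleIntegrable_const _ _ _
  have e1 : ∑ i ∈ s, proxInf (a i) r = circleAverage (fun z => ∑ i ∈ s, log⁺ ‖a i z‖) 0 r := by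
    rw [circleAverage_fun_sum fun i hi => ci_posLog hr.le (ha i hi)]
    rfl
  have e2 : ∑ i ∈ s, proxInf (b i) r = circleAverage (fun z => ∑ i ∈ s, log⁺ ‖b i z‖) 0 r := by
    rw [circleAverage_fun_sum fun i hi => ci_posLog hr.le (hb i hi)]
    rfl
  have e3 : Real.log s.card = circleAverage (fun _ : ℂ => Real.log s.card) 0 r := by
    rw [circleAverage_const]
  rw [e1, e2]
  conv_rhs => rw [e3]
  have h31 : CircleIntegrable (fun z : ℂ => Real.log s.card + ∑ i ∈ s, log⁺ ‖a i z‖) 0 r :=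
    h3.add h1
  rw [← circleAverage_fun_add h3 h1, ← circleAverage_fun_add h31 h2]
  unfold proxInf
  apply circleAverage_mono (ci_posLog hr.le (mero_sum ha hb)) (h31.add h2)
  intro z _
  exact posLog_comb hs (fun i => a i z) (fun i => b i z)
    (fun i hi => Finset.single_le_sum (f := fun i => log⁺ ‖b i z‖) (fun _ _ => posLog_nonneg) hi)
    (Finset.sum_nonneg fun _ _ => posLog_nonneg)

theorem counting_add_eq {μ ν : ℂ → ℤ} {r : ℝ} (F : Finset ℂ)
    (hF : ∀ z ∈ F, z ∈ closedBall (0:ℂ) r)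
    (hμ : ∀ z ∈ closedBall (0:ℂ) r, μ z ≠ 0 → z ∈ F)
    (hν : ∀ z ∈ closedBall (0:ℂ) r, ν z ≠ 0 → z ∈ F) :
    counting (fun z => μ z + ν z) r = counting μ r + counting ν r := by
  rw [counting_eq_sum F hF hμ, counting_eq_sum F hF hν, counting_eq_sum (μ := fun z => μ z + ν z) F hF]
  · push_cast
    simp only [add_mul, Finset.sum_add_distrib]
    ring
  · intro z hz h
    by_contra hcon
    apply h
    have h1 : μ z = 0 := by
      by_contra h2; exact hcon (hμ z hz h2)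
    have h2 : ν z = 0 := by
      by_contra h2; exact hcon (hν z hz h2)
    rw [h1, h2]; rfl

/-- Poles of a linear combination. -/
theorem counting_comb {s : Finset ℕ} {a b : ℕ → ℂ → ℂ}
    (ha : ∀ i ∈ s, MeromorphicOn (a i) (ball 0 1))
    (hb : ∀ i ∈ s, MeromorphicOn (b i) (ball 0 1)) :
    ∃ C : ℝ, ∀ r : ℝ, 1 / 2 ≤ r → r < 1 →
      counting (poleMult (fun z => ∑ i ∈ s, a i z * b i z)) r ≤
        (∑ i ∈ s, counting (poleMult (a i)) r) + (∑ i ∈ s, counting (poleMult (b i)) r) + C := by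
  classical
  set Ψ : ℂ → ℂ := fun z => ∑ i ∈ s, a i z * b i z with hΨ
  refine ⟨((∑ i ∈ s, ((poleMult (a i) 0 + poleMult (b i) 0 : ℤ) : ℝ)) - poleMult Ψ 0) *
    Real.log 2, ?_⟩
  intro r hr hr1
  have hsub := closedBall_sub hr1
  have har : ∀ i ∈ s, MeromorphicOn (a i) (closedBall 0 r) := fun i hi => (ha i hi).mono_set hsub
  have hbr : ∀ i ∈ s, MeromorphicOn (b i) (closedBall 0 r) := fun i hi => (hb i hi).mono_set hsub
  have hfin : ((⋃ i ∈ s, zp (a i) r) ∪ (⋃ i ∈ s, zp (b i) r) ∪ zp Ψ r).Finite := by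
    apply Set.Finite.union (Set.Finite.union _ _)
    · exact zp_finite (mero_sum har hbr)
    · exact Set.Finite.biUnion s.finite_toSet (fun i hi => zp_finite (har i hi))
    · exact Set.Finite.biUnion s.finite_toSet (fun i hi => zp_finite (hbr i hi))
  have hF : ∀ z ∈ hfin.toFinset, z ∈ closedBall (0:ℂ) r := by
    intro z hz
    rw [Set.Finite.mem_toFinset] at hz
    rcases hz with (hz | hz) | hz
    · obtain ⟨i, -, hz⟩ := Set.mem_iUnion₂.1 hz
      exact hz.1
    · obtain ⟨i, -, hz⟩ := Set.mem_iUnion₂.1 hz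
      exact hz.1
    · exact hz.1
  have hA : ∀ i ∈ s, ∀ z ∈ closedBall (0:ℂ) r, poleMult (a i) z ≠ 0 → z ∈ hfin.toFinset := by
    intro i hi z hz h
    rw [Set.Finite.mem_toFinset]
    exact Or.inl (Or.inl (Set.mem_iUnion₂.2 ⟨i, hi, poleMult_mem z hz h⟩))
  have hB : ∀ i ∈ s, ∀ z ∈ closedBall (0:ℂ) r, poleMult (b i) z ≠ 0 → z ∈ hfin.toFinset := by
    intro i hi z hz h
    rw [Set.Finite.mem_toFinset]
    exact Or.inl (Or.inr (Set.mem_iUnion₂.2 ⟨i, hi, poleMult_mem z hz h⟩))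
  have h1 := counting_le_sum (s := s) (μ := poleMult Ψ)
    (ν := fun i z => poleMult (a i) z + poleMult (b i) z) hr hr1 hfin.toFinset hF
    (fun z hz h => by
      rw [Set.Finite.mem_toFinset]
      exact Or.inr (poleMult_mem z hz h))
    (fun i hi z hz h => by
      by_contra hcon
      apply h
      have h1 : poleMult (a i) z = 0 := by
        by_contra h2; exact hcon (hA i hi z hz h2)
      have h2 : poleMult (b i) z = 0 := by
        by_contra h2; exact hcon (hB i hi z hz h2)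
      rw [h1, h2]; rfl)
    (fun z hz => poleMult_sum_le (fun i hi => har i hi z hz) (fun i hi => hbr i hi z hz))
  refine h1.trans (le_of_eq ?_)
  rw [Finset.sum_congr rfl (fun i hi => counting_add_eq hfin.toFinset hF (hA i hi) (hB i hi)),
    Finset.sum_add_distrib]

theorem order_deriv_nonneg {g : ℂ → ℂ} {z : ℂ} (hg : MeromorphicAt g z)
    (h : 0 ≤ meromorphicOrderAt g z) : 0 ≤ meromorphicOrderAt (deriv g) z := by
  obtain ⟨F, hF, hfg⟩ := hg.meromorphicOrderAt_nonneg_iff.1 h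
  rw [meromorphicOrderAt_congr hfg.nhdsNE_deriv]
  exact hF.deriv.meromorphicOrderAt_nonneg

theorem order_iter_nonneg {g : ℂ → ℂ} {z : ℂ} (hg : MeromorphicOn g (ball 0 1))
    (hz : z ∈ ball (0:ℂ) 1) (h : 0 ≤ meromorphicOrderAt g z) (j : ℕ) :
    0 ≤ meromorphicOrderAt (iteratedDeriv j g) z := by
  induction j with
  | zero => rwa [iteratedDeriv_zero]
  | succ j ih =>
    rw [iteratedDeriv_succ]
    exact order_deriv_nonneg (mero_iter hg j z hz) ih

/-- The main inequality. -/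
theorem main_ineq {f : ℂ → ℂ} (hf : MeromorphicOn f (ball 0 1)) (hL : BigL f)
    (hne : ∀ u ∈ ball (0:ℂ) 1, meromorphicOrderAt f u ≠ ⊤)
    (hzp : {z | z ∈ ball (0:ℂ) 1 ∧ meromorphicOrderAt f z ≠ 0}.Finite)
    (l : ℕ) (a : ℕ → ℂ → ℂ) (ha : ∀ i ∈ Finset.range (l + 1), MeromorphicOn (a i) (ball 0 1))
    (hLa : ∀ i ∈ Finset.range (l + 1), BigL (a i))
    (hΨ : ∀ c : ℂ, ∀ u ∈ ball (0:ℂ) 1, meromorphicOrderAt
      (fun z => (∑ i ∈ Finset.range (l + 1), a i z * iteratedDeriv i f z) - c) u ≠ ⊤)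
    {w : ℂ} (hw : w ≠ 0)
    (hfin : {z | z ∈ ball (0:ℂ) 1 ∧ 0 < meromorphicOrderAt
      (fun z => (∑ i ∈ Finset.range (l + 1), a i z * iteratedDeriv i f z) - w) z}.Finite)
    {ε : ℝ} (hε : 0 < ε) :
    ∃ K : ℝ, ∀ᶠ r in 𝓝[<] (1:ℝ), charT f r ≤ ((l : ℝ) + 1) * ((1 + ε) * Lr r) +
      (∑ i ∈ Finset.range (l + 1), charT (a i) r) + K := by
  classical
  set s := Finset.range (l + 1) with hs
  have hscard : 0 < s.card := by rw [hs, Finset.card_range]; omega
  set b : ℕ → ℂ → ℂ := fun i => iteratedDeriv i f with hb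
  set Ψ : ℂ → ℂ := fun z => ∑ i ∈ s, a i z * iteratedDeriv i f z with hΨdef
  have hbm : ∀ i ∈ s, MeromorphicOn (b i) (ball 0 1) := fun i _ => mero_iter hf i
  have hΨm : MeromorphicOn Ψ (ball 0 1) := mero_sum ha hbm
  have hΨ0 : ∀ u ∈ ball (0:ℂ) 1, meromorphicOrderAt Ψ u ≠ ⊤ := by
    intro u hu
    have := hΨ 0 u hu
    simpa using this
  obtain ⟨C1, hC1⟩ := counting_comb (s := s) ha hbm
  -- the characteristic of the combination
  have hLΨ : BigL Ψ := by
    choose! A hA using hLa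
    have hLb : ∀ i, BigL (b i) := fun i => bigL_iter hf hL i
    choose B hB using hLb
    apply bigL_of_le (A := (∑ i ∈ s, A i) + ∑ i ∈ s, B i) (B := Real.log s.card + C1)
    have h1 : ∀ᶠ r in 𝓝[<] (1:ℝ), ∀ i ∈ s, charT (a i) r ≤ A i * Lr r :=
      (Filter.eventually_all_finset s).2 hA
    have h2 : ∀ᶠ r in 𝓝[<] (1:ℝ), ∀ i ∈ s, charT (b i) r ≤ B i * Lr r :=
      (Filter.eventually_all_finset s).2 (fun i _ => hB i)
    filter_upwards [h1, h2, ev_near] with r h3 h4 h5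
    have hr0 : 0 < r := by linarith [h5.1]
    have hsub := closedBall_sub h5.2
    have h6 := prox_sum_le hscard hr0 (fun i hi => (ha i hi).mono_set hsub)
      (fun i hi => (hbm i hi).mono_set hsub)
    have h7 := hC1 r h5.1 h5.2
    have h8 : charT Ψ r = proxInf Ψ r + counting (poleMult Ψ) r := rfl
    have h9 : ∑ i ∈ s, charT (a i) r = (∑ i ∈ s, proxInf (a i) r) +
      ∑ i ∈ s, counting (poleMult (a i)) r := by rw [← Finset.sum_add_distrib]; rfl
    have h10 : ∑ i ∈ s, charT (b i) r = (∑ i ∈ s, proxInf (b i) r) +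
      ∑ i ∈ s, counting (poleMult (b i)) r := by rw [← Finset.sum_add_distrib]; rfl
    have h11 := Finset.sum_le_sum h3
    have h12 := Finset.sum_le_sum h4
    rw [← Finset.sum_mul] at h11 h12
    rw [h8, add_mul]
    have h13 : proxInf (fun z => ∑ i ∈ s, a i z * b i z) r = proxInf Ψ r := rfl
    have h14 : counting (poleMult (fun z => ∑ i ∈ s, a i z * b i z)) r =
      counting (poleMult Ψ) r := rfl
    linarith
  obtain ⟨K1, hK1⟩ := smt hΨm hLΨ hΨ hw hfin hε
  -- logarithmic derivatives of the derivatives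
  have hLD : ∀ j, ∃ K : ℝ, ∀ᶠ r in 𝓝[<] (1:ℝ),
      circleAverage (fun w => log⁺ ‖logDeriv (iteratedDeriv j f) w‖) 0 r ≤ (1 + ε) * Lr r + K :=
    fun j => ld_single (mero_iter hf j) (bigL_iter hf hL j) hε
  choose KD hKD using hLD
  have hKD' : ∀ᶠ r in 𝓝[<] (1:ℝ), ∀ j ∈ Finset.range l,
      circleAverage (fun w => log⁺ ‖logDeriv (iteratedDeriv j f) w‖) 0 r ≤
        (1 + ε) * Lr r + KD j :=
    (Filter.eventually_all_finset _).2 (fun j _ => hKD j)
  -- poles of the derivatives of `f`, and zeros of `f`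
  have hBdd : ∀ i, ∃ C : ℝ, ∀ r : ℝ, 1 / 2 ≤ r → r < 1 → counting (poleMult (b i)) r ≤ C := by
    intro i
    apply counting_bdd (poleMult_nonneg _) hzp.toFinset
      (fun z hz => ((Set.Finite.mem_toFinset hzp).1 hz).1)
    intro z hz h
    rw [Set.Finite.mem_toFinset]
    refine ⟨hz, fun h0 => h ?_⟩
    exact poleMult_eq_zero (order_iter_nonneg hf hz h0.ge i)
  choose CB hCB using hBdd
  obtain ⟨C2, hC2⟩ := counting_bdd (μ := zeroMult f) (zeroMult_nonneg f) hzp.toFinset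
    (fun z hz => ((Set.Finite.mem_toFinset hzp).1 hz).1)
    (fun z hz h => (Set.Finite.mem_toFinset hzp).2 ⟨hz, fun h0 => h (by
      unfold zeroMult
      rw [h0]; rfl)⟩)
  set c : ℝ := Real.log ‖meromorphicTrailingCoeffAt f 0‖ with hc
  refine ⟨K1 + (∑ j ∈ Finset.range l, KD j) + Real.log s.card + (∑ i ∈ s, CB i) + C1 + C2 + c, ?_⟩
  filter_upwards [hK1, hKD', ev_near] with r h1 h2 h3
  have hr0 : 0 < r := by linarith [h3.1]
  have hsub := closedBall_sub h3.2
  have hfr : MeromorphicOn f (closedBall 0 r) := hf.mono_set hsub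
  have hΨr : MeromorphicOn Ψ (closedBall 0 r) := hΨm.mono_set hsub
  have har : ∀ i ∈ s, MeromorphicOn (a i) (closedBall 0 r) := fun i hi => (ha i hi).mono_set hsub
  have hlr : ∀ j, MeromorphicOn (logDeriv (iteratedDeriv j f)) (closedBall 0 r) := fun j =>
    (mero_logDeriv (mero_iter hf j)).mono_set hsub
  -- the pointwise estimate
  have i1 : CircleIntegrable (fun z => log⁺ (‖f z‖⁻¹)) 0 r := ci_posLog_inv hr0.le hfr
  have i2 : CircleIntegrable (fun z => log⁺ (‖Ψ z‖⁻¹)) 0 r := ci_posLog_inv hr0.le hΨr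
  have i3 : CircleIntegrable (fun z => ∑ i ∈ s, log⁺ ‖a i z‖) 0 r :=
    CircleIntegrable.fun_sum _ fun i hi => ci_posLog hr0.le (har i hi)
  have i4 : CircleIntegrable (fun z => ∑ j ∈ Finset.range l,
      log⁺ ‖logDeriv (iteratedDeriv j f) z‖) 0 r :=
    CircleIntegrable.fun_sum _ fun j _ => ci_posLog hr0.le (hlr j)
  have i5 : CircleIntegrable (fun _ : ℂ => Real.log s.card) 0 r := circleIntegrable_const _ _ _
  have e1 : ∑ i ∈ s, proxInf (a i) r = circleAverage (fun z => ∑ i ∈ s, log⁺ ‖a i z‖) 0 r := by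
    rw [circleAverage_fun_sum fun i hi => ci_posLog hr0.le (har i hi)]
    rfl
  have e2 : ∑ j ∈ Finset.range l, circleAverage (fun w => log⁺ ‖logDeriv (iteratedDeriv j f) w‖) 0 r
      = circleAverage (fun z => ∑ j ∈ Finset.range l,
        log⁺ ‖logDeriv (iteratedDeriv j f) z‖) 0 r := by
    rw [circleAverage_fun_sum fun j _ => ci_posLog hr0.le (hlr j)]
  have e3 : circleAverage (fun _ : ℂ => Real.log s.card) 0 r = Real.log s.card := by
    rw [circleAverage_const]
  have hmain : circleAverage (fun z => log⁺ (‖f z‖⁻¹)) 0 r ≤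
      Real.log s.card + (∑ i ∈ s, proxInf (a i) r) +
      (∑ j ∈ Finset.range l, circleAverage (fun w => log⁺ ‖logDeriv (iteratedDeriv j f) w‖) 0 r) +
      circleAverage (fun z => log⁺ (‖Ψ z‖⁻¹)) 0 r := by
    rw [e1, e2]
    conv_rhs => rw [← e3]
    have i53 : CircleIntegrable (fun z : ℂ => Real.log s.card + ∑ i ∈ s, log⁺ ‖a i z‖) 0 r :=
      i5.add i3
    have i534 : CircleIntegrable (fun z : ℂ => (Real.log s.card + ∑ i ∈ s, log⁺ ‖a i z‖) +
        ∑ j ∈ Finset.range l, log⁺ ‖logDeriv (iteratedDeriv j f) z‖) 0 r := i53.add i4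
    rw [← circleAverage_fun_add i5 i3, ← circleAverage_fun_add i53 i4,
      ← circleAverage_fun_add i534 i2]
    apply circleAverage_mono_codiscrete hr0.ne' i1 (i534.add i2)
    have z1 := ev_ne_zero hf hne hr0 h3.2
    have z2 := ev_ne_zero hΨm hΨ0 hr0 h3.2
    have z3 : ∀ᶠ z in codiscreteWithin (sphere (0:ℂ) |r|), ∀ j ∈ Finset.range l,
        iteratedDeriv j f z = 0 → deriv (iteratedDeriv j f) z = 0 :=
      (Filter.eventually_all_finset _).2 (fun j _ => ev_zero_imp (mero_iter hf j) hr0 h3.2)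
    filter_upwards [z1, z2, z3] with z hz1 hz2 hz3
    have q1 := quot_bound hz1 (l := l) (fun j hj => hz3 j (Finset.mem_range.2 hj))
    have q2 := posLog_comb hscard (fun i => a i z) (fun i => iteratedDeriv i f z / f z)
      (M := ∑ i ∈ Finset.range l, log⁺ ‖logDeriv (iteratedDeriv i f) z‖)
      (fun i hi => q1 i (by rw [hs, Finset.mem_range] at hi; omega))
      (Finset.sum_nonneg fun _ _ => posLog_nonneg)
    have q3 : ∑ i ∈ s, a i z * (iteratedDeriv i f z / f z) = Ψ z / f z := by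
      rw [hΨdef]
      simp only
      rw [Finset.sum_div]
      apply Finset.sum_congr rfl
      intro i _
      rw [mul_div_assoc]
    rw [q3] at q2
    have q4 : ‖f z‖⁻¹ = ‖Ψ z / f z‖ * ‖Ψ z‖⁻¹ := by
      rw [norm_div]
      have : ‖Ψ z‖ ≠ 0 := norm_ne_zero_iff.2 hz2
      field_simp
    have q5 : log⁺ (‖f z‖⁻¹) ≤ log⁺ ‖Ψ z / f z‖ + log⁺ (‖Ψ z‖⁻¹) := by
      rw [q4]; exact posLog_mul
    rw [Pi.add_apply]
    linarith
  have h4 := fmt hr0 hfr
  have h5 := hC2 r h3.1 h3.2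
  have h6 := hC1 r h3.1 h3.2
  have h7 : ∑ i ∈ s, counting (poleMult (b i)) r ≤ ∑ i ∈ s, CB i :=
    Finset.sum_le_sum fun i _ => hCB i r h3.1 h3.2
  have h8 : ∑ i ∈ s, charT (a i) r = (∑ i ∈ s, proxInf (a i) r) +
      ∑ i ∈ s, counting (poleMult (a i)) r := by rw [← Finset.sum_add_distrib]; rfl
  have h9 := Finset.sum_le_sum h2
  rw [Finset.sum_add_distrib, Finset.sum_const, Finset.card_range, nsmul_eq_mul] at h9
  have h10 : counting (poleMult (fun z => ∑ i ∈ s, a i z * b i z)) r =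
      counting (poleMult Ψ) r := rfl
  rw [h10] at h6
  rw [← hc] at h4
  linarith

end

end Pool.Agent.Helper160.Nev
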