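import Mathlib
import Pool.Agent.Helper160.NevMain

set_option autoImplicit false

namespace Pool.Agent.Helper160.Nev

open Complex Metric Real Set Filter Topology MeromorphicOn Function MeasureTheory
open scoped ENNReal

noncomputable section

theorem Lr_eq (r : ℝ) : -Real.log (1 - r) = Lr r := by
  unfold Lr
  rw [one_div, Real.log_inv]

theorem charT_ge {f : ℂ → ℂ} (hf : MeromorphicOn f (ball 0 1)) :
    ∃ C : ℝ, 0 ≤ C ∧ ∀ r : ℝ, 1 / 2 ≤ r → r < 1 → |charT f r| ≤ charT f r + C := by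
  have h0 : (0:ℝ) ≤ (poleMult f 0 : ℝ) * Real.log 2 := by
    have h1 : (0:ℝ) ≤ poleMult f 0 := by exact_mod_cast poleMult_nonneg f 0
    have := Real.log_nonneg (x := 2) (by norm_num)
    positivity
  refine ⟨2 * ((poleMult f 0 : ℝ) * Real.log 2), by positivity, ?_⟩
  intro r hr hr1
  have hfr : MeromorphicOn f (closedBall 0 r) := hf.mono_set (closedBall_sub hr1)
  have h1 := counting_pole_ge hr hfr
  have h2 := proxInf_nonneg f r
  have h3 : charT f r = proxInf f r + counting (poleMult f) r := rfl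
  rcases abs_cases (charT f r) with h | h <;> linarith [h.1]

theorem final {f : ℂ → ℂ} (hf : MeromorphicOn f (ball 0 1))
    (hfc : ∃ z ∈ ball (0:ℂ) 1, meromorphicOrderAt f z ≠ ⊤)
    (hzp : {z | z ∈ ball (0:ℂ) 1 ∧ meromorphicOrderAt f z ≠ 0}.Finite)
    (l : ℕ)
    (hg1 : limsup (fun r : ℝ => ENNReal.ofReal (charT f r / (-Real.log (1 - r)))) (𝓝[<] 1) ≠ ⊤)
    (hg2 : (l : ℝ≥0∞) + 1 <
      limsup (fun r : ℝ => ENNReal.ofReal (charT f r / (-Real.log (1 - r)))) (𝓝[<] 1))
    (a : ℕ → ℂ → ℂ) (ha : ∀ i ∈ Finset.range (l + 1), MeromorphicOn (a i) (ball 0 1))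
    (hsmall : ∀ i ∈ Finset.range (l + 1), (charT (a i)) =o[𝓝[<] 1] (charT f))
    (hΨ : ∀ c : ℂ, ∃ z ∈ ball (0:ℂ) 1, meromorphicOrderAt
      (fun z => (∑ i ∈ Finset.range (l + 1), a i z * iteratedDeriv i f z) - c) z ≠ ⊤)
    {w : ℂ} (hw : w ≠ 0) :
    {z | z ∈ ball (0:ℂ) 1 ∧ 0 < meromorphicOrderAt
      (fun z => (∑ i ∈ Finset.range (l + 1), a i z * iteratedDeriv i f z) - w) z}.Infinite := by
  intro hfin
  have hne : ∀ u ∈ ball (0:ℂ) 1, meromorphicOrderAt f u ≠ ⊤ := by
    intro u hu htop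
    obtain ⟨z, hz, h⟩ := hfc
    exact h (top_all hf hu htop z hz)
  have hΨm : MeromorphicOn (fun z => ∑ i ∈ Finset.range (l + 1), a i z * iteratedDeriv i f z)
      (ball 0 1) := mero_sum ha (fun i _ => mero_iter hf i)
  have hΨne : ∀ c : ℂ, ∀ u ∈ ball (0:ℂ) 1, meromorphicOrderAt
      (fun z => (∑ i ∈ Finset.range (l + 1), a i z * iteratedDeriv i f z) - c) u ≠ ⊤ := by
    intro c u hu htop
    obtain ⟨z, hz, h⟩ := hΨ c
    exact h (top_all (mero_sub_const c hΨm) hu htop z hz)
  simp only [Lr_eq] at hg1 hg2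
  obtain ⟨C, hC0, hC⟩ := charT_ge hf
  -- upper bound for the growth
  obtain ⟨A, hA⟩ : ∃ A : ℝ, ∀ᶠ r in 𝓝[<] (1:ℝ), charT f r ≤ A * Lr r := by
    obtain ⟨A, hA⟩ := ENNReal.lt_iff_exists_nnreal_btwn.1 (lt_top_iff_ne_top.2 hg1)
    refine ⟨A, ?_⟩
    filter_upwards [eventually_lt_of_limsup_lt hA.1, Lr_tendsto.eventually_ge_atTop 1]
      with r h1 h2
    have h3 : ENNReal.ofReal (charT f r / Lr r) < ENNReal.ofReal A := by
      rwa [ENNReal.ofReal_coe_nnreal]
    have h4 : charT f r / Lr r < A := by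
      by_contra hcon
      push Not at hcon
      exact absurd (ENNReal.ofReal_le_ofReal hcon) (not_le.2 h3)
    have h5 : 0 < Lr r := by linarith
    rw [div_lt_iff₀ h5] at h4
    exact h4.le
  have hL : BigL f := ⟨A, hA⟩
  -- lower bound for the growth
  obtain ⟨c, hc1, hc2⟩ : ∃ c : ℝ, (l : ℝ) + 1 < c ∧
      ∃ᶠ r in 𝓝[<] (1:ℝ), c * Lr r < charT f r := by
    obtain ⟨c, hc⟩ := ENNReal.lt_iff_exists_nnreal_btwn.1 hg2
    refine ⟨c, ?_, ?_⟩
    · have h1 : ((l : ℝ≥0∞) + 1) = ((l + 1 : NNReal) : ℝ≥0∞) := by push_cast; rfl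
      have h2 := hc.1
      rw [h1] at h2
      have h3 : ((l : NNReal) + 1) < c := by exact_mod_cast h2
      exact_mod_cast h3
    · have h1 := frequently_lt_of_lt_limsup (by isBoundedDefault) hc.2
      apply (h1.and_eventually (Lr_tendsto.eventually_ge_atTop 1)).mono
      rintro r ⟨h2, h3⟩
      have h4 : 0 < Lr r := by linarith
      rw [← lt_div_iff₀ h4]
      have h5 : ENNReal.ofReal (c:ℝ) < ENNReal.ofReal (charT f r / Lr r) := by
        rwa [ENNReal.ofReal_coe_nnreal]
      exact (ENNReal.ofReal_lt_ofReal_iff_of_nonneg c.2).1 h5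
  -- the coefficients
  have hLa : ∀ i ∈ Finset.range (l + 1), BigL (a i) := by
    intro i hi
    apply bigL_of_le (A := A) (B := C)
    have h1 := (hsmall i hi).bound one_pos
    filter_upwards [h1, hA, ev_near] with r h2 h3 h4
    rw [Real.norm_eq_abs, Real.norm_eq_abs, one_mul] at h2
    have h5 := hC r h4.1 h4.2
    have h6 := le_abs_self (charT (a i) r)
    linarith
  set n : ℝ := (l : ℝ) + 1 with hn
  have hn0 : 0 < n := by positivity
  set d : ℝ := c - n with hd
  have hd0 : 0 < d := by linarith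
  have hc0 : 0 < c := by linarith
  set ε : ℝ := d / (4 * n) with hε
  have hε0 : 0 < ε := by positivity
  set δ : ℝ := d / (4 * n * c) with hδ
  have hδ0 : 0 < δ := by positivity
  obtain ⟨K, hK⟩ := main_ineq hf hL hne hzp l a ha hLa hΨne hw hfin hε0
  have hsm : ∀ᶠ r in 𝓝[<] (1:ℝ), ∀ i ∈ Finset.range (l + 1),
      ‖charT (a i) r‖ ≤ δ * ‖charT f r‖ :=
    (Filter.eventually_all_finset _).2 (fun i hi => (hsmall i hi).bound hδ0)
  have hev : ∀ᶠ r in 𝓝[<] (1:ℝ), charT f r ≤ c * Lr r := by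
    filter_upwards [hK, hsm, ev_near,
      Lr_tendsto.eventually_ge_atTop (2 * (|K| + n * δ * C) / d)] with r h1 h2 h3 h4
    by_contra hcon
    push Not at hcon
    have h5 : ∑ i ∈ Finset.range (l + 1), charT (a i) r ≤ n * (δ * (charT f r + C)) := by
      have h6 : ∀ i ∈ Finset.range (l + 1), charT (a i) r ≤ δ * (charT f r + C) := by
        intro i hi
        have h7 := h2 i hi
        rw [Real.norm_eq_abs, Real.norm_eq_abs] at h7
        have h8 := hC r h3.1 h3.2
        have h9 := le_abs_self (charT (a i) r)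
        have h10 : δ * |charT f r| ≤ δ * (charT f r + C) :=
          mul_le_mul_of_nonneg_left h8 hδ0.le
        linarith
      have h7 := Finset.sum_le_sum h6
      rw [Finset.sum_const, Finset.card_range, nsmul_eq_mul] at h7
      push_cast at h7
      exact h7
    have h6 : charT f r ≤ n * ((1 + ε) * Lr r) + n * (δ * (charT f r + C)) + K := by
      linarith
    have e1 : n * ε = d / 4 := by rw [hε]; field_simp
    have e2 : n * δ * c = d / 4 := by rw [hδ]; field_simp
    have e3 : n * δ < 1 := by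
      have h7 : n * δ = d / (4 * c) := by rw [hδ]; field_simp
      rw [h7, div_lt_one (by positivity)]
      linarith
    rw [div_le_iff₀ hd0] at h4
    have h8 := le_abs_self K
    have h9 : (1 - n * δ) * (c * Lr r) ≤ (1 - n * δ) * charT f r :=
      mul_le_mul_of_nonneg_left hcon.le (by linarith)
    have h10 : (1 - n * δ) * (c * Lr r) = c * Lr r - d / 4 * Lr r := by
      linear_combination (-Lr r) * e2
    have h11 : n * ((1 + ε) * Lr r) = n * Lr r + d / 4 * Lr r := by
      linear_combination (Lr r) * e1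
    have h12 : (1 - n * δ) * charT f r ≤ n * Lr r + d / 4 * Lr r + n * δ * C + K := by
      rw [h11] at h6
      linarith
    have h13 : c * Lr r = n * Lr r + d * Lr r := by rw [hd]; ring
    -- strict contradiction
    have h14 : (1 - n * δ) * (c * Lr r) < (1 - n * δ) * charT f r :=
      mul_lt_mul_of_pos_left hcon (by linarith)
    nlinarith
  obtain ⟨r, h1, h2⟩ := (hc2.and_eventually hev).exists
  linarith

end

end Pool.Agent.Helper160.Nev
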