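import Mathlib

set_option autoImplicit false

namespace Pool.Agent.Helper160.PolSep

open Subgroup
open scoped commutatorElement

variable {N : Type} [Group N]

/-- Left translation of functions. -/
def T (a : N) : (N → ℚ) →ₗ[ℚ] (N → ℚ) where
  toFun F := fun x => F (a * x)
  map_add' _ _ := rfl
  map_smul' _ _ := rfl

theorem T_apply (a : N) (F : N → ℚ) (x : N) : T a F x = F (a * x) := rfl

theorem T_T (a b : N) (F : N → ℚ) : T a (T b F) = T (b * a) F := by
  funext x; simp [T_apply, mul_assoc]

theorem T_one (F : N → ℚ) : T 1 F = F := by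
  funext x; simp [T_apply]

/-- Functions killed by all products of `d` differences along `M`. -/
def Pol (M : Subgroup N) : ℕ → Submodule ℚ (N → ℚ)
  | 0 => ⊥
  | d + 1 =>
    { carrier := {F | ∀ m ∈ M, T m F - F ∈ Pol M d}
      add_mem' := by
        intro F G hF hG m hm
        have : T m (F + G) - (F + G) = (T m F - F) + (T m G - G) := by rw [map_add]; abel
        rw [this]; exact Submodule.add_mem _ (hF m hm) (hG m hm)
      zero_mem' := by
        intro m _
        rw [map_zero, sub_zero]; exact Submodule.zero_mem _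
      smul_mem' := by
        intro c F hF m hm
        have : T m (c • F) - c • F = c • (T m F - F) := by rw [map_smul, smul_sub]
        rw [this]; exact Submodule.smul_mem _ _ (hF m hm) }

theorem mem_Pol_zero {M : Subgroup N} {F : N → ℚ} : F ∈ Pol M 0 ↔ F = 0 := by
  simp [Pol]

theorem mem_Pol_succ {M : Subgroup N} {d : ℕ} {F : N → ℚ} :
    F ∈ Pol M (d + 1) ↔ ∀ m ∈ M, T m F - F ∈ Pol M d := Iff.rfl

theorem Pol_le_succ (M : Subgroup N) (d : ℕ) : Pol M d ≤ Pol M (d + 1) := by
  induction d with
  | zero =>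
    intro F hF
    rw [mem_Pol_zero] at hF
    rw [hF]; exact Submodule.zero_mem _
  | succ d ih =>
    intro F hF m hm
    exact ih (hF m hm)

theorem Pol_mono (M : Subgroup N) : Monotone (Pol M) :=
  monotone_nat_of_le_succ (Pol_le_succ M)

theorem Pol_stable (M : Subgroup N) [M.Normal] (d : ℕ) : ∀ {F : N → ℚ}, F ∈ Pol M d →
    ∀ a : N, T a F ∈ Pol M d := by
  induction d with
  | zero =>
    intro F hF a
    rw [mem_Pol_zero] at hF
    rw [hF, map_zero]; exact Submodule.zero_mem _
  | succ d ih =>
    intro F hF a m hm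
    have h1 : T m (T a F) = T a (T (a * m * a⁻¹) F) := by
      rw [T_T, T_T]; congr 1; group
    rw [h1, ← map_sub]
    exact ih (hF _ (Normal.conj_mem inferInstance m hm a)) a

/-- Separation property. -/
def R (M : Subgroup N) : Prop :=
  ∀ g ∈ M, g ≠ 1 → ∃ d, ∃ F ∈ Pol M d, F g ≠ F 1

theorem R_bot : R (⊥ : Subgroup N) := by
  intro g hg hg1
  exact absurd (Subgroup.mem_bot.mp hg) hg1

section Step

variable (M K : Subgroup N) (t : N)

/-- Right-`t`-invariant functions supported in `K`. -/
def Vt : Submodule ℚ (N → ℚ) where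
  carrier := {F | (∀ x, F (x * t) = F x) ∧ ∀ x, x ∉ K → F x = 0}
  add_mem' := by
    rintro F G ⟨h1, h2⟩ ⟨h3, h4⟩
    refine ⟨fun x => ?_, fun x hx => ?_⟩
    · simp [h1 x, h3 x]
    · simp [h2 x hx, h4 x hx]
  zero_mem' := ⟨fun _ => rfl, fun _ _ => rfl⟩
  smul_mem' := by
    rintro c F ⟨h1, h2⟩
    refine ⟨fun x => ?_, fun x hx => ?_⟩
    · simp [h1 x]
    · simp [h2 x hx]

variable {M K t}

theorem Vt_stable {F : N → ℚ} (hF : F ∈ Vt K t) {a : N} (ha : a ∈ K) : T a F ∈ Vt K t := by
  refine ⟨fun x => ?_, fun x hx => ?_⟩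
  · rw [T_apply, T_apply, ← mul_assoc]; exact hF.1 _
  · rw [T_apply]
    apply hF.2
    intro h
    exact hx ((K.mul_mem_cancel_left ha).mp h)

/-- The difference operator along `t`. -/
noncomputable def A (t : N) : (N → ℚ) →ₗ[ℚ] (N → ℚ) := T t - LinearMap.id

theorem A_apply (t : N) (F : N → ℚ) : A t F = T t F - F := rfl

theorem A_Vt (ht : t ∈ K) {F : N → ℚ} (hF : F ∈ Vt K t) : A t F ∈ Vt K t := by
  rw [A_apply]; exact Submodule.sub_mem _ (Vt_stable hF ht) hF

theorem Apow_Vt (ht : t ∈ K) (k : ℕ) {F : N → ℚ} (hF : F ∈ Vt K t) :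
    (A t ^ k) F ∈ Vt K t := by
  induction k with
  | zero => simpa using hF
  | succ k ih =>
    rw [pow_succ']
    exact A_Vt ht ih

theorem A_stable (M : Subgroup N) [M.Normal] (t : N) {d : ℕ} {F : N → ℚ} (hF : F ∈ Pol M d) :
    A t F ∈ Pol M d := by
  rw [A_apply]; exact Submodule.sub_mem _ (Pol_stable M d hF t) hF

theorem Apow_stable (M : Subgroup N) [M.Normal] (t : N) {d : ℕ} (k : ℕ) {F : N → ℚ}
    (hF : F ∈ Pol M d) : (A t ^ k) F ∈ Pol M d := by
  induction k with
  | zero => simpa using hF
  | succ k ih =>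
    rw [pow_succ']
    exact A_stable M t ih

theorem T_Apow (t : N) (l : ℤ) (k : ℕ) (F : N → ℚ) :
    (A t ^ k) (T (t ^ l) F) = T (t ^ l) ((A t ^ k) F) := by
  induction k with
  | zero => simp
  | succ k ih =>
    rw [pow_succ', Module.End.mul_apply, Module.End.mul_apply, ih, A_apply, A_apply, map_sub,
      T_T, T_T]
    congr 2
    have : (t ^ l) * t = t * t ^ l := by
      rw [← zpow_add_one, ← zpow_one_add, add_comm]
    rw [this]

/-- Base case: `M`-invariant elements of `Vt` are constant on `K`. -/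
theorem const_on (hK : ∀ x ∈ K, ∃ k : ℤ, x * t ^ (-k) ∈ M) {F : N → ℚ} (hF : F ∈ Vt K t)
    (hF1 : F ∈ Pol M 1) : ∀ x ∈ K, F x = F 1 := by
  have hinv : ∀ m ∈ M, ∀ x, F (m * x) = F x := by
    intro m hm x
    have h1 := hF1 m hm
    rw [mem_Pol_zero, sub_eq_zero] at h1
    exact congrFun h1 x
  have hpow : ∀ k : ℤ, ∀ x, F (x * t ^ k) = F x := by
    intro k
    induction k using Int.induction_on with
    | zero => intro x; simp
    | succ k ih =>
      intro x
      rw [zpow_add_one, ← mul_assoc, hF.1, ih]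
    | pred k ih =>
      intro x
      rw [← ih x]
      have : x * t ^ (-(k : ℤ)) = x * t ^ (-(k : ℤ) - 1) * t := by
        rw [mul_assoc, ← zpow_add_one, sub_add_cancel]
      rw [this, hF.1]
  intro x hx
  obtain ⟨k, hk⟩ := hK x hx
  have h1 : F x = F ((x * t ^ (-k)) * t ^ k) := by
    congr 1; rw [mul_assoc, ← zpow_add]; simp
  rw [h1, hpow]
  have h2 := hinv _ hk 1
  rw [mul_one] at h2
  exact h2

theorem claimC [hM : M.Normal] (hMK : M ≤ K) (ht : t ∈ K)
    (hK : ∀ x ∈ K, ∃ k : ℤ, x * t ^ (-k) ∈ M)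
    {c : ℕ} (hc : (⊤ : Subgroup N).lowerCentralSeries c = ⊥) (d : ℕ) :
    ∃ e : ℕ, ∀ F ∈ Vt K t, F ∈ Pol M (d + 1) → (A t ^ e) F ∈ Pol M d := by
  induction d with
  | zero =>
    refine ⟨1, fun F hF hF1 => ?_⟩
    rw [mem_Pol_zero, pow_one, A_apply, sub_eq_zero]
    funext x
    rw [T_apply]
    by_cases hx : x ∈ K
    · rw [const_on hK hF hF1 x hx, const_on hK hF hF1 _ (K.mul_mem ht hx)]
    · rw [hF.2 x hx, hF.2]
      intro h; exact hx ((K.mul_mem_cancel_left ht).mp h)
  | succ d ih =>
    obtain ⟨e, he⟩ := ih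
    -- downward induction along the lower central series
    have claim : ∀ i, i ≤ c → ∃ e' : ℕ, ∀ F ∈ Vt K t, F ∈ Pol M (d + 2) →
        ∀ m ∈ M, m ∈ (⊤ : Subgroup N).lowerCentralSeries (c - i) →
          T m ((A t ^ e') F) - (A t ^ e') F ∈ Pol M d := by
      intro i
      induction i with
      | zero =>
        intro _
        refine ⟨0, fun F _ _ m _ hm => ?_⟩
        rw [Nat.sub_zero, hc, Subgroup.mem_bot] at hm
        rw [hm, T_one, sub_self]; exact Submodule.zero_mem _
      | succ i ihi =>
        intro hi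
        obtain ⟨e1, he1⟩ := ihi (by omega)
        refine ⟨e + e1, fun F hF hF2 m hm hmj => ?_⟩
        obtain ⟨G, hG⟩ : ∃ G, G = (A t ^ e1) F := ⟨_, rfl⟩
        have hGV : G ∈ Vt K t := hG ▸ Apow_Vt ht e1 hF
        have hGP : G ∈ Pol M (d + 2) := hG ▸ Apow_stable M t e1 hF2
        have hGd : ∀ m' ∈ M, m' ∈ (⊤ : Subgroup N).lowerCentralSeries (c - i) →
            T m' G - G ∈ Pol M d := by
          intro m' hm' hm'j; rw [hG]; exact he1 F hF hF2 m' hm' hm'j
        have hi' : c - (i + 1) + 1 = c - i := by omega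
        -- (i)
        have hA1 : ∀ k : ℕ, ∀ m' ∈ M, m' ∈ (⊤ : Subgroup N).lowerCentralSeries (c - i) →
            T m' ((A t ^ k) G) - (A t ^ k) G ∈ Pol M d := by
          intro k
          induction k with
          | zero => simpa using hGd
          | succ k ihk =>
            intro m' hm' hm'j
            have hc1 : t * m' * t⁻¹ ∈ M := hM.conj_mem m' hm' t
            have hc2 : t * m' * t⁻¹ ∈ (⊤ : Subgroup N).lowerCentralSeries (c - i) :=
              Normal.conj_mem inferInstance m' hm'j t
            have h1 := ihk _ hc1 hc2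
            have h2 := ihk _ hm' hm'j
            have h3 := Pol_stable M d h1 t
            have e3 : T m' (A t ((A t ^ k) G)) - A t ((A t ^ k) G)
                = T t (T (t * m' * t⁻¹) ((A t ^ k) G) - (A t ^ k) G)
                  - (T m' ((A t ^ k) G) - (A t ^ k) G) := by
              rw [A_apply, map_sub, map_sub, T_T, T_T]
              have : t * m' * t⁻¹ * t = t * m' := by group
              rw [this]; abel
            rw [pow_succ', Module.End.mul_apply, e3]
            exact Submodule.sub_mem _ h3 h2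
        -- (ii)
        have hA2 : ∀ k : ℕ, (T m ((A t ^ k) G) - (A t ^ k) G) - (A t ^ k) (T m G - G)
            ∈ Pol M d := by
          intro k
          induction k with
          | zero => simp
          | succ k ihk =>
            obtain ⟨Gk, hGk⟩ : ∃ Gk, Gk = (A t ^ k) G := ⟨_, rfl⟩
            have hcm : t * m * t⁻¹ * m⁻¹ ∈ M :=
              M.mul_mem (hM.conj_mem m hm t) (M.inv_mem hm)
            have hcm2 : t * m * t⁻¹ * m⁻¹ ∈ (⊤ : Subgroup N).lowerCentralSeries (c - i) := by
              rw [← hi', Subgroup.lowerCentralSeries_succ]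
              have h1 : ⁅m, t⁆ ∈ ⁅(⊤ : Subgroup N).lowerCentralSeries (c - (i + 1)), (⊤ : Subgroup N)⁆ :=
                Subgroup.commutator_mem_commutator hmj (Subgroup.mem_top t)
              have h2 := Subgroup.inv_mem _ h1
              rw [commutatorElement_inv] at h2
              exact h2
            have h1 := hA1 k _ hcm hcm2
            rw [← hGk] at h1 ihk
            -- T m T t Gk = T (t m) Gk = T (m t) (T [t,m] Gk)
            have h2 : T m (T t Gk) = T (m * t) (T (t * m * t⁻¹ * m⁻¹) Gk) := by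
              rw [T_T, T_T]; congr 1; group
            have h3 : T m (A t Gk) - A t Gk
                = A t (T m Gk - Gk)
                  + T (m * t) (T (t * m * t⁻¹ * m⁻¹) Gk - Gk) := by
              rw [A_apply, A_apply, map_sub, map_sub, map_sub, h2, T_T t m]
              abel
            have h4 : (T m (A t Gk) - A t Gk) - A t ((A t ^ k) (T m G - G))
                = A t ((T m Gk - Gk) - (A t ^ k) (T m G - G))
                  + T (m * t) (T (t * m * t⁻¹ * m⁻¹) Gk - Gk) := by
              rw [h3, map_sub (A t) (T m Gk - Gk)]; abel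
            rw [pow_succ', Module.End.mul_apply, Module.End.mul_apply, ← hGk, h4]
            exact Submodule.add_mem _ (A_stable M t ihk) (Pol_stable M d h1 _)
        have h5 := hA2 e
        have h6 : (A t ^ e) (T m G - G) ∈ Pol M d :=
          he _ (Submodule.sub_mem _ (Vt_stable hGV (hMK hm)) hGV) (hGP m hm)
        have h7 := Submodule.add_mem _ h5 h6
        rw [sub_add_cancel] at h7
        rw [pow_add, Module.End.mul_apply, ← hG]
        exact h7
    obtain ⟨e', he'⟩ := claim c le_rfl
    refine ⟨e', fun F hF hF2 m hm => he' F hF hF2 m hm ?_⟩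
    rw [Nat.sub_self, Subgroup.lowerCentralSeries_zero]; trivial

theorem PolK [hM : M.Normal] (hMK : M ≤ K) (ht : t ∈ K)
    (hK : ∀ x ∈ K, ∃ k : ℤ, x * t ^ (-k) ∈ M)
    {c : ℕ} (hc : (⊤ : Subgroup N).lowerCentralSeries c = ⊥) (d : ℕ) :
    ∃ D : ℕ, ∀ F ∈ Vt K t, F ∈ Pol M d → F ∈ Pol K D := by
  induction d with
  | zero =>
    refine ⟨0, fun F _ hF0 => ?_⟩
    rw [mem_Pol_zero] at *
    exact hF0
  | succ d ih =>
    obtain ⟨D, hD⟩ := ih
    obtain ⟨e, he⟩ := claimC (M := M) (K := K) (t := t) hMK ht hK hc d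
    have claim : ∀ i : ℕ, ∀ F ∈ Vt K t, F ∈ Pol M (d + 1) → (A t ^ i) F ∈ Pol M d →
        F ∈ Pol K (D + i) := by
      intro i
      induction i with
      | zero =>
        intro F hF _ h0
        exact hD F hF (by simpa using h0)
      | succ i ihi =>
        intro F hF hF1 hi h hh
        obtain ⟨k, hk⟩ := hK h hh
        obtain ⟨m, hm⟩ : ∃ m, m = h * t ^ (-k) := ⟨_, rfl⟩
        rw [← hm] at hk
        have hh' : h = m * t ^ k := by rw [hm, mul_assoc, ← zpow_add]; simp
        have htk : t ^ k ∈ K := K.zpow_mem ht k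
        have e1 : T h F - F = T (t ^ k) (T m F - F) + (T (t ^ k) F - F) := by
          rw [map_sub, T_T, ← hh']; abel
        have hAk : ∀ k : ℤ, (A t ^ i) (T (t ^ k) F - F) ∈ Pol M d := by
          intro k
          induction k using Int.induction_on with
          | zero => simp [T_one]
          | succ k ihk =>
            have e2 : T (t ^ ((k : ℤ) + 1)) F - F = T (t ^ (k : ℤ)) (A t F) + (T (t ^ (k : ℤ)) F - F) := by
              rw [A_apply, map_sub, T_T, ← zpow_one_add, add_comm 1 (k : ℤ)]; abel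
            rw [e2, map_add, T_Apow]
            refine Submodule.add_mem _ (Pol_stable M d ?_ _) ihk
            rw [pow_succ, Module.End.mul_apply] at hi
            exact hi
          | pred k ihk =>
            have e2 : T (t ^ (-(k : ℤ) - 1)) F - F
                = (T (t ^ (-(k : ℤ))) F - F) - T (t ^ (-(k : ℤ) - 1)) (A t F) := by
              rw [A_apply, map_sub, T_T, ← zpow_one_add]
              have : 1 + (-(k : ℤ) - 1) = -(k : ℤ) := by ring
              rw [this]; abel
            rw [e2, map_sub, T_Apow]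
            refine Submodule.sub_mem _ ihk (Pol_stable M d ?_ _)
            rw [pow_succ, Module.End.mul_apply] at hi
            exact hi
        have hP1 : T (t ^ k) (T m F - F) ∈ Pol M d := Pol_stable M d (hF1 m hk) _
        have hV : T h F - F ∈ Vt K t := Submodule.sub_mem _ (Vt_stable hF hh) hF
        have hP : T h F - F ∈ Pol M (d + 1) :=
          Submodule.sub_mem _ (Pol_stable M _ hF1 h) hF1
        have hQ : (A t ^ i) (T h F - F) ∈ Pol M d := by
          rw [e1, map_add]
          exact Submodule.add_mem _ (Apow_stable M t i hP1) (hAk k)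
        exact ihi _ hV hP hQ
    exact ⟨D + e, fun F hF hF1 => claim e F hF hF1 (he F hF hF1)⟩

theorem step [hM : M.Normal] (hMK : M ≤ K) (ht : t ∈ K)
    (hK : ∀ x ∈ K, ∃ k : ℤ, x * t ^ (-k) ∈ M) (htM : ∀ k : ℤ, t ^ k ∈ M → k = 0)
    {c : ℕ} (hc : (⊤ : Subgroup N).lowerCentralSeries c = ⊥) (hR : R M) : R K := by
  classical
  -- the exponent function
  obtain ⟨κ, hκ⟩ : ∃ κ : N → ℤ, ∀ x ∈ K, x * t ^ (-κ x) ∈ M := by
    refine ⟨fun x => if h : x ∈ K then (hK x h).choose else 0, fun x hx => ?_⟩
    simp only [hx, dif_pos]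
    exact (hK x hx).choose_spec
  have huniq : ∀ x : N, ∀ k l : ℤ, x * t ^ (-k) ∈ M → x * t ^ (-l) ∈ M → k = l := by
    intro x k l h1 h2
    have h3 := M.mul_mem (M.inv_mem h1) h2
    have h4 : (x * t ^ (-k))⁻¹ * (x * t ^ (-l)) = t ^ (k - l) := by
      rw [mul_inv_rev, ← zpow_neg, neg_neg, mul_assoc, ← mul_assoc x⁻¹, inv_mul_cancel, one_mul,
        ← zpow_add, sub_eq_add_neg]
    rw [h4] at h3
    have := htM _ h3
    omega
  have hκmul : ∀ x ∈ K, ∀ y ∈ K, κ (x * y) = κ x + κ y := by
    intro x hx y hy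
    apply huniq (x * y) _ _ (hκ _ (K.mul_mem hx hy))
    have h1 := hκ x hx
    have h2 := hM.conj_mem _ (hκ y hy) (t ^ κ x)
    have h3 := M.mul_mem h1 h2
    have h4 : x * t ^ (-κ x) * (t ^ κ x * (y * t ^ (-κ y)) * (t ^ κ x)⁻¹)
        = x * y * t ^ (-(κ x + κ y)) := by
      rw [neg_add_rev, zpow_add, ← zpow_neg (t) (κ x)]
      have : t ^ (-κ x) * t ^ κ x = 1 := by rw [← zpow_add]; simp
      calc x * t ^ (-κ x) * (t ^ κ x * (y * t ^ (-κ y)) * t ^ (-κ x))
          = x * (t ^ (-κ x) * t ^ κ x) * y * t ^ (-κ y) * t ^ (-κ x) := by group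
        _ = _ := by rw [this]; group
    rw [h4] at h3
    exact h3
  have hκM : ∀ m ∈ M, κ m = 0 := by
    intro m hm
    apply huniq m _ _ (hκ _ (hMK hm))
    simpa using hm
  have hκt : κ t = 1 := by
    apply huniq t _ _ (hκ _ ht)
    simp [M.one_mem]
  intro g hg hg1
  by_cases hgM : g ∈ M
  · obtain ⟨d, F, hF, hFg⟩ := hR g hgM hg1
    -- the extension operator
    let E : (N → ℚ) → (N → ℚ) := fun F x => if x ∈ K then F (x * t ^ (-κ x)) else 0
    have hEV : ∀ F, E F ∈ Vt K t := by
      intro F
      refine ⟨fun x => ?_, fun x hx => ?_⟩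
      · by_cases hx : x ∈ K
        · have hxt : x * t ∈ K := K.mul_mem hx ht
          simp only [E, hx, hxt, if_true]
          rw [hκmul x hx t ht, hκt]
          congr 1
          rw [neg_add, add_comm, zpow_add, mul_assoc, ← mul_assoc t]
          simp
        · have hxt : x * t ∉ K := fun h => hx ((K.mul_mem_cancel_right ht).mp h)
          simp only [E, hx, hxt, if_false]
      · simp only [E, hx, if_false]
    have hEP : ∀ d, ∀ F ∈ Pol M d, E F ∈ Pol M d := by
      intro d
      induction d with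
      | zero =>
        intro F hF
        rw [mem_Pol_zero] at *
        funext x
        simp only [E, hF]; simp
      | succ d ih =>
        intro F hF m hm
        have h1 : T m (E F) - E F = E (T m F - F) := by
          funext x
          simp only [Pi.sub_apply, T_apply, E]
          by_cases hx : x ∈ K
          · have hmx : m * x ∈ K := K.mul_mem (hMK hm) hx
            simp only [hx, hmx, if_true]
            rw [hκmul m (hMK hm) x hx, hκM m hm, zero_add, mul_assoc]
          · have hmx : m * x ∉ K := fun h => hx ((K.mul_mem_cancel_left (hMK hm)).mp h)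
            simp only [hx, hmx, if_false, sub_self]
        rw [h1]
        exact ih _ (hF m hm)
    obtain ⟨D, hD⟩ := PolK (M := M) (K := K) (t := t) hMK ht hK hc d
    refine ⟨D, E F, hD _ (hEV F) (hEP d F hF), ?_⟩
    simp only [E, hg, K.one_mem, if_true]
    rw [hκM g hgM, hκM 1 M.one_mem]
    simpa using hFg
  · -- the linear function
    refine ⟨2, fun x => if x ∈ K then (κ x : ℚ) else 0, ?_, ?_⟩
    · intro h hh
      intro h' hh'
      rw [mem_Pol_zero]
      funext x
      simp only [Pi.sub_apply, T_apply, Pi.zero_apply]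
      by_cases hx : x ∈ K
      · have h1 : h * x ∈ K := K.mul_mem hh hx
        have h2 : h' * x ∈ K := K.mul_mem hh' hx
        have h3 : h * (h' * x) ∈ K := K.mul_mem hh h2
        simp only [hx, h1, h2, h3, if_true]
        rw [hκmul h hh x hx, hκmul h hh _ h2, hκmul h' hh' x hx]
        push_cast; ring
      · have h1 : h * x ∉ K := fun h0 => hx ((K.mul_mem_cancel_left hh).mp h0)
        have h2 : h' * x ∉ K := fun h0 => hx ((K.mul_mem_cancel_left hh').mp h0)
        have h3 : h * (h' * x) ∉ K := fun h0 => h2 ((K.mul_mem_cancel_left hh).mp h0)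
        simp only [hx, h1, h2, h3, if_false]; ring
    · simp only [hg, K.one_mem, if_true]
      rw [hκM 1 M.one_mem]
      intro h
      apply hgM
      have h0 : κ g = 0 := by exact_mod_cast h
      have := hκ g hg
      rw [h0] at this
      simpa using this

end Step

end Pool.Agent.Helper160.PolSep
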