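import Mathlib
import Pool.Agent.Helper160.PolSep

set_option autoImplicit false

namespace Pool.Agent.Helper160.NilpFG

open Subgroup
open scoped commutatorElement
open Pool.Agent.Helper160.PolSep

/-- Torsion-freeness as in the statement. -/
def TF (G : Type) [Group G] : Prop := ∀ g : G, g ≠ 1 → ∀ k : ℕ, 0 < k → g ^ k ≠ 1

/-- If `⁅x, y⁆` commutes with `x`, then `⁅x ^ n, y⁆ = ⁅x, y⁆ ^ n`. -/
theorem comm_pow {G : Type} [Group G] (x y : G) (h : Commute x ⁅x, y⁆) (n : ℕ) :
    ⁅x ^ n, y⁆ = ⁅x, y⁆ ^ n := by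
  induction n with
  | zero => simp
  | succ n ih =>
    have h1 : ⁅x ^ (n + 1), y⁆ = x * ⁅x ^ n, y⁆ * x⁻¹ * ⁅x, y⁆ := by
      rw [pow_succ']; simp only [commutatorElement_def]; group
    rw [h1, ih, (h.pow_right n).eq, pow_succ]
    group

/-- The factors of the upper central series of a torsion-free group are torsion-free. -/
theorem ucs_isolated {G : Type} [Group G] (hG : TF G) (i : ℕ) :
    ∀ x ∈ Subgroup.upperCentralSeries G (i + 1), ∀ n : ℕ, 0 < n → x ^ n ∈ Subgroup.upperCentralSeries G i →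
      x ∈ Subgroup.upperCentralSeries G i := by
  induction i with
  | zero =>
    intro x _ n hn hx
    rw [Subgroup.upperCentralSeries_zero, Subgroup.mem_bot] at *
    by_contra h
    exact hG x h n hn hx
  | succ i ih =>
    intro x hx n hn hxn
    rw [Subgroup.mem_upperCentralSeries_succ_iff]
    intro y
    have h1 : ⁅x, y⁆ ∈ Subgroup.upperCentralSeries G (i + 1) := (Subgroup.mem_upperCentralSeries_succ_iff.mp hx) y
    apply ih _ h1 n hn
    have h2 : ⁅x ^ n, y⁆ ∈ Subgroup.upperCentralSeries G i := (Subgroup.mem_upperCentralSeries_succ_iff.mp hxn) y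
    -- work in the quotient
    let q := QuotientGroup.mk' (Subgroup.upperCentralSeries G i)
    have h3 : Commute (q x) ⁅q x, q y⁆ := by
      have h4 : ⁅⁅x, y⁆, x⁆ ∈ Subgroup.upperCentralSeries G i := (Subgroup.mem_upperCentralSeries_succ_iff.mp h1) x
      have h5 : q ⁅⁅x, y⁆, x⁆ = 1 := (QuotientGroup.eq_one_iff _).mpr h4
      rw [map_commutatorElement, map_commutatorElement] at h5
      exact (commutatorElement_eq_one_iff_commute.mp h5).symm
    have h6 := comm_pow (q x) (q y) h3 n
    rw [← map_pow, ← map_commutatorElement, ← map_commutatorElement, ← map_pow] at h6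
    have h7 : q ⁅x ^ n, y⁆ = 1 := (QuotientGroup.eq_one_iff _).mpr h2
    rw [h7] at h6
    exact (QuotientGroup.eq_one_iff _).mp h6.symm

theorem center_isolated {G : Type} [Group G] [hN : Group.IsNilpotent G] (hG : TF G)
    (x : G) (n : ℕ) (hn : 0 < n) (hx : x ^ n ∈ center G) : x ∈ center G := by
  obtain ⟨c, hc⟩ := hN.nilpotent
  have claim : ∀ i, i ≤ c → x ∈ Subgroup.upperCentralSeries G (c - i + 1) := by
    intro i
    induction i with
    | zero =>
      intro _
      have : Subgroup.upperCentralSeries G c ≤ Subgroup.upperCentralSeries G (c + 1) :=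
        Subgroup.upperCentralSeries_mono G (Nat.le_succ c)
      rw [hc] at this
      exact this trivial
    | succ i ih =>
      intro hi
      have h1 := ih (by omega)
      have h2 : c - (i + 1) + 1 = c - i := by omega
      rw [h2]
      apply ucs_isolated hG _ x h1 n hn
      have h3 : Subgroup.upperCentralSeries G 1 ≤ Subgroup.upperCentralSeries G (c - i) :=
        Subgroup.upperCentralSeries_mono G (by omega)
      apply h3
      rw [Subgroup.upperCentralSeries_one]
      exact hx
  have h := claim c le_rfl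
  rw [Nat.sub_self, zero_add, Subgroup.upperCentralSeries_one] at h
  exact h

/-- All subgroups finitely generated. -/
def Noe (G : Type) [Group G] : Prop := ∀ H : Subgroup G, H.FG

theorem noe_of_ext {G : Type} [Group G] (K : Subgroup G) [K.Normal]
    (hK : ∀ H : Subgroup G, H ≤ K → H.FG) (hQ : Noe (G ⧸ K)) : Noe G := by
  classical
  intro H
  obtain ⟨S', hS'⟩ := hQ (H.map (QuotientGroup.mk' K))
  obtain ⟨T, hT⟩ := hK (H ⊓ K) inf_le_right
  -- choose lifts in H
  have hlift : ∀ s ∈ S', ∃ h ∈ H, QuotientGroup.mk' K h = s := by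
    intro s hs
    have : s ∈ closure (S' : Set (G ⧸ K)) := Subgroup.subset_closure hs
    rw [hS'] at this
    exact this
  choose! f hf1 hf2 using hlift
  refine ⟨S'.image f ∪ T, ?_⟩
  apply le_antisymm
  · rw [closure_le]
    intro x hx
    simp only [Finset.coe_union, Finset.coe_image, Set.mem_union, Set.mem_image,
      Finset.mem_coe] at hx
    rcases hx with ⟨s, hs, rfl⟩ | hx
    · exact hf1 s hs
    · have : x ∈ closure (T : Set G) := Subgroup.subset_closure hx
      rw [hT] at this
      exact this.1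
  · intro h hh
    obtain ⟨L, hL⟩ : ∃ L, L = closure ((S'.image f ∪ T : Finset G) : Set G) := ⟨_, rfl⟩
    rw [← hL]
    have hLH : L ≤ H := by
      rw [hL, closure_le]
      intro x hx
      simp only [Finset.coe_union, Finset.coe_image, Set.mem_union, Set.mem_image,
        Finset.mem_coe] at hx
      rcases hx with ⟨s, hs, rfl⟩ | hx
      · exact hf1 s hs
      · have : x ∈ closure (T : Set G) := Subgroup.subset_closure hx
        rw [hT] at this
        exact this.1
    have h1 : QuotientGroup.mk' K h ∈ L.map (QuotientGroup.mk' K) := by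
      have h2 : QuotientGroup.mk' K h ∈ H.map (QuotientGroup.mk' K) := ⟨h, hh, rfl⟩
      rw [← hS'] at h2
      refine (closure_le _).mpr ?_ h2
      intro s hs
      refine ⟨f s, ?_, hf2 s hs⟩
      rw [hL]
      apply Subgroup.subset_closure
      simp only [Finset.coe_union, Finset.coe_image, Set.mem_union, Set.mem_image,
        Finset.mem_coe]
      exact Or.inl ⟨s, hs, rfl⟩
    obtain ⟨l, hl, hl2⟩ := h1
    have h3 : l⁻¹ * h ∈ K := by
      rw [← QuotientGroup.eq_one_iff]
      have : (QuotientGroup.mk' K) (l⁻¹ * h) = 1 := by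
        rw [map_mul, map_inv, hl2, inv_mul_cancel]
      exact this
    have h4 : l⁻¹ * h ∈ H ⊓ K := ⟨H.mul_mem (H.inv_mem (hLH hl)) hh, h3⟩
    rw [← hT] at h4
    have h5 : l⁻¹ * h ∈ L := by
      rw [hL]
      refine closure_mono ?_ h4
      intro x hx
      simp only [Finset.coe_union, Set.mem_union]
      exact Or.inr hx
    have := L.mul_mem hl h5
    simpa using this

/-- Subgroups of a finitely generated central subgroup are finitely generated. -/
theorem central_fg {G : Type} [Group G] (K : Subgroup G) (hKc : K ≤ center G) (hK : K.FG) :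
    ∀ H : Subgroup G, H ≤ K → H.FG := by
  intro H hH
  let _ : CommGroup K := { (inferInstance : Group K) with
    mul_comm := by
      rintro ⟨a, ha⟩ ⟨b, hb⟩
      apply Subtype.ext
      exact (Subgroup.mem_center_iff.mp (hKc hb) a) }
  have h1 : Group.FG K := (Group.fg_iff_subgroup_fg K).mpr hK
  have h2 : AddGroup.FG (Additive K) := GroupFG.iff_add_fg.mp h1
  have h3 : Module.Finite ℤ (Additive K) := Module.Finite.iff_addGroup_fg.mpr h2
  have h4 : IsNoetherian ℤ (Additive K) := inferInstance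
  -- the subgroup as a submodule
  have h5 : (AddSubgroup.toIntSubmodule (Subgroup.toAddSubgroup (H.subgroupOf K))).FG :=
    h4.noetherian _
  have h6 : (Subgroup.toAddSubgroup (H.subgroupOf K)).FG :=
    (Submodule.fg_iff_addSubgroup_fg _).mp h5
  have h7 : (H.subgroupOf K).FG := (Subgroup.fg_iff_add_fg _).mpr h6
  have h8 : Group.FG (H.subgroupOf K) := (Group.fg_iff_subgroup_fg _).mpr h7
  have h9 : Group.FG H :=
    Group.fg_of_surjective (f := (Subgroup.subgroupOfEquivOfLe hH).toMonoidHom)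
      (Subgroup.subgroupOfEquivOfLe hH).surjective
  exact (Group.fg_iff_subgroup_fg _).mp h9

theorem comm_mul_right' {G : Type} [Group G] (a y y' : G) (h : ⁅a, y'⁆ ∈ center G) :
    ⁅a, y * y'⁆ = ⁅a, y⁆ * ⁅a, y'⁆ := by
  have h1 : y * ⁅a, y'⁆ = ⁅a, y'⁆ * y := Subgroup.mem_center_iff.mp h y
  have h2 : ⁅a, y * y'⁆ = ⁅a, y⁆ * (y * ⁅a, y'⁆ * y⁻¹) := by
    simp only [commutatorElement_def]; group
  rw [h2, h1]; group

theorem comm_mul_left' {G : Type} [Group G] (x x' y : G) (h : ⁅x', y⁆ ∈ center G) :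
    ⁅x * x', y⁆ = ⁅x', y⁆ * ⁅x, y⁆ := by
  have h1 : x * ⁅x', y⁆ = ⁅x', y⁆ * x := Subgroup.mem_center_iff.mp h x
  have h2 : ⁅x * x', y⁆ = (x * ⁅x', y⁆ * x⁻¹) * ⁅x, y⁆ := by
    simp only [commutatorElement_def]; group
  rw [h2, h1]; group

theorem comm_inv_right' {G : Type} [Group G] (a y : G) (h : ⁅a, y⁆ ∈ center G) :
    ⁅a, y⁻¹⁆ = ⁅a, y⁆⁻¹ := by
  have h1 : y⁻¹ * ⁅a, y⁆ = ⁅a, y⁆ * y⁻¹ := Subgroup.mem_center_iff.mp h y⁻¹
  have h2 : ⁅a, y⁻¹⁆ = (y⁻¹ * ⁅a, y⁆ * y)⁻¹ := by
    simp only [commutatorElement_def]; group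
  rw [h2, h1]; group

theorem comm_inv_left' {G : Type} [Group G] (x y : G) (h : ⁅x, y⁆ ∈ center G) :
    ⁅x⁻¹, y⁆ = ⁅x, y⁆⁻¹ := by
  have h1 : x⁻¹ * ⁅x, y⁆ = ⁅x, y⁆ * x⁻¹ := Subgroup.mem_center_iff.mp h x⁻¹
  have h2 : ⁅x⁻¹, y⁆ = (x⁻¹ * ⁅x, y⁆ * x)⁻¹ := by
    simp only [commutatorElement_def]; group
  rw [h2, h1]; group

theorem noe_of_lcs (c : ℕ) : ∀ (G : Type) [Group G] [Group.FG G],
    (⊤ : Subgroup G).lowerCentralSeries c = ⊥ → Noe G := by
  classical
  induction c with
  | zero =>
    intro G _ _ h H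
    rw [Subgroup.lowerCentralSeries_zero] at h
    have : H = ⊥ := by rw [eq_bot_iff, ← h]; exact le_top
    rw [this]; exact Subgroup.FG.bot
  | succ c ih =>
    intro G _ hFG h
    obtain ⟨L, hL⟩ : ∃ L, L = (⊤ : Subgroup G).lowerCentralSeries c := ⟨_, rfl⟩
    have hLn : L.Normal := by rw [hL]; infer_instance
    have hLc : L ≤ center G := by
      intro x hx
      rw [Subgroup.mem_center_iff]
      intro g
      have h1 : ⁅x, g⁆ ∈ (⊤ : Subgroup G).lowerCentralSeries (c + 1) := by
        rw [Subgroup.lowerCentralSeries_succ, ← hL]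
        exact Subgroup.commutator_mem_commutator hx (Subgroup.mem_top g)
      rw [h, Subgroup.mem_bot] at h1
      exact (commutatorElement_eq_one_iff_mul_comm.mp h1).symm
    have hQ : (⊤ : Subgroup (G ⧸ L)).lowerCentralSeries c = ⊥ := by
      have h1 := Subgroup.map_lowerCentralSeries (⊤ : Subgroup G) (QuotientGroup.mk' L) c
      rw [← hL, Subgroup.map_top_of_surjective _ (QuotientGroup.mk'_surjective L)] at h1
      rw [← h1, eq_bot_iff]
      rintro _ ⟨x, hx, rfl⟩
      exact (QuotientGroup.eq_one_iff x).mpr hx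
    have hQN : Noe (G ⧸ L) := ih (G ⧸ L) hQ
    refine noe_of_ext L (central_fg L hLc ?_) hQN
    -- L is finitely generated
    rcases c with _ | c
    · rw [hL, Subgroup.lowerCentralSeries_zero]; exact Group.fg_def.mp hFG
    · obtain ⟨P, hP⟩ : ∃ P, P = (⊤ : Subgroup G).lowerCentralSeries c := ⟨_, rfl⟩
      have hLP : L = ⁅P, (⊤ : Subgroup G)⁆ := by
        rw [hL, hP, Subgroup.lowerCentralSeries_succ]
      have hcen : ∀ x ∈ P, ∀ y : G, ⁅x, y⁆ ∈ center G := by
        intro x hx y
        apply hLc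
        rw [hLP]
        exact Subgroup.commutator_mem_commutator hx (Subgroup.mem_top y)
      obtain ⟨T', hT'⟩ := hQN (P.map (QuotientGroup.mk' L))
      obtain ⟨S, hS⟩ := Group.fg_def.mp hFG
      have hlift : ∀ s ∈ T', ∃ h ∈ P, QuotientGroup.mk' L h = s := by
        intro s hs
        have : s ∈ closure (T' : Set (G ⧸ L)) := Subgroup.subset_closure hs
        rw [hT'] at this
        exact this
      choose! f hf1 hf2 using hlift
      obtain ⟨C, hC⟩ : ∃ C, C = closure
        (((T' ×ˢ S).image fun p => ⁅f p.1, p.2⁆ : Finset G) : Set G) := ⟨_, rfl⟩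
      have hTS : ∀ a ∈ T', ∀ y : G, ⁅f a, y⁆ ∈ C := by
        intro a ha y
        have hy : y ∈ closure (S : Set G) := by rw [hS]; trivial
        induction hy using Subgroup.closure_induction with
        | mem s hs =>
          rw [hC]
          apply Subgroup.subset_closure
          simp only [Finset.coe_image, Set.mem_image, Finset.mem_coe, Finset.mem_product,
            Prod.exists]
          exact ⟨a, s, ⟨ha, hs⟩, rfl⟩
        | one => rw [commutatorElement_one_right]; exact C.one_mem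
        | mul y y' _ _ h1 h2 =>
          rw [comm_mul_right' _ _ _ (hcen _ (hf1 a ha) y')]
          exact C.mul_mem h1 h2
        | inv y _ h1 =>
          rw [comm_inv_right' _ _ (hcen _ (hf1 a ha) y)]
          exact C.inv_mem h1
      -- closure of the lifts
      have hcl : ∀ x ∈ closure ((T'.image f : Finset G) : Set G), x ∈ P ∧ ∀ y, ⁅x, y⁆ ∈ C := by
        intro x hx
        induction hx using Subgroup.closure_induction with
        | mem s hs =>
          simp only [Finset.coe_image, Set.mem_image, Finset.mem_coe] at hs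
          obtain ⟨a, ha, rfl⟩ := hs
          exact ⟨hf1 a ha, hTS a ha⟩
        | one =>
          refine ⟨P.one_mem, fun y => ?_⟩
          rw [commutatorElement_one_left]; exact C.one_mem
        | mul x x' _ _ h1 h2 =>
          refine ⟨P.mul_mem h1.1 h2.1, fun y => ?_⟩
          rw [comm_mul_left' _ _ _ (hcen _ h2.1 y)]
          exact C.mul_mem (h2.2 y) (h1.2 y)
        | inv x _ h1 =>
          refine ⟨P.inv_mem h1.1, fun y => ?_⟩
          rw [comm_inv_left' _ _ (hcen _ h1.1 y)]
          exact C.inv_mem (h1.2 y)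
      have hall : ∀ x ∈ P, ∀ y, ⁅x, y⁆ ∈ C := by
        intro x hx y
        have h1 : QuotientGroup.mk' L x ∈
            (closure ((T'.image f : Finset G) : Set G)).map (QuotientGroup.mk' L) := by
          have h2 : QuotientGroup.mk' L x ∈ P.map (QuotientGroup.mk' L) := ⟨x, hx, rfl⟩
          rw [← hT'] at h2
          refine (closure_le _).mpr ?_ h2
          intro s hs
          refine ⟨f s, ?_, hf2 s hs⟩
          apply Subgroup.subset_closure
          simp only [Finset.coe_image, Set.mem_image, Finset.mem_coe]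
          exact ⟨s, hs, rfl⟩
        obtain ⟨a, ha, ha2⟩ := h1
        have h3 : a⁻¹ * x ∈ L := by
          rw [← QuotientGroup.eq_one_iff]
          have : (QuotientGroup.mk' L) (a⁻¹ * x) = 1 := by
            rw [map_mul, map_inv, ha2, inv_mul_cancel]
          exact this
        have h4 : ⁅a⁻¹ * x, y⁆ = 1 := by
          rw [commutatorElement_eq_one_iff_mul_comm]
          exact ((Subgroup.mem_center_iff.mp (hLc h3)) y).symm
        have h5 : ⁅x, y⁆ = ⁅a, y⁆ := by
          have h6 : x = a * (a⁻¹ * x) := by group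
          have h7 := comm_mul_left' a (a⁻¹ * x) y (by rw [h4]; exact Subgroup.one_mem _)
          rw [← h6, h4, one_mul] at h7
          exact h7
        rw [h5]
        exact (hcl a ha).2 y
      refine ⟨(T' ×ˢ S).image fun p => ⁅f p.1, p.2⁆, ?_⟩
      rw [← hC]
      apply le_antisymm
      · rw [hC, closure_le]
        intro x hx
        simp only [Finset.coe_image, Set.mem_image, Finset.mem_coe, Finset.mem_product,
            Prod.exists] at hx
        obtain ⟨a, s, ⟨ha, _⟩, rfl⟩ := hx
        rw [hLP]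
        exact Subgroup.commutator_mem_commutator (hf1 a ha) (Subgroup.mem_top s)
      · rw [hLP, Subgroup.commutator_le]
        intro x hx y _
        exact hall x hx y

/-- Zorn-type lemma: a chain of subgroups in a Noetherian group attains its supremum. -/
theorem exists_maximal {G : Type} [Group G] (hN : Noe G) (P : Subgroup G → Prop)
    (M₀ : Subgroup G) (h0 : P M₀) : ∃ M, P M ∧ ∀ M', P M' → M ≤ M' → M' = M := by
  have hz : ∃ m, Maximal (fun x => x ∈ {M : Subgroup G | P M}) m := by
    apply zorn_le_nonempty₀ {M : Subgroup G | P M} ?_ M₀ h0 |>.imp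
    · intro m hm; exact hm.2
    · intro c hc hchain y hy
      obtain ⟨S, hS⟩ := hN (sSup c)
      have hdir : DirectedOn (· ≤ ·) c := hchain.directedOn
      have hne : c.Nonempty := ⟨y, hy⟩
      have hfin : ∀ F : Finset G, (F : Set G) ⊆ (sSup c : Subgroup G) → ∃ M ∈ c, (F : Set G) ⊆ M := by
        classical
        intro F
        induction F using Finset.induction_on with
        | empty => intro _; exact ⟨y, hy, by simp⟩
        | insert a F _ ih =>
          intro hF
          obtain ⟨M1, hM1, hFM1⟩ := ih (fun x hx => hF (by simp; right; exact hx))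
          have ha : a ∈ sSup c := hF (by simp)
          rw [Subgroup.mem_sSup_of_directedOn hne hdir] at ha
          obtain ⟨M2, hM2, haM2⟩ := ha
          obtain ⟨M3, hM3, h13, h23⟩ := hdir M1 hM1 M2 hM2
          refine ⟨M3, hM3, ?_⟩
          intro x hx
          simp only [Finset.coe_insert, Set.mem_insert_iff] at hx
          rcases hx with rfl | hx
          · exact h23 haM2
          · exact h13 (hFM1 hx)
      obtain ⟨M, hM, hSM⟩ := hfin S (by rw [← hS]; exact Subgroup.subset_closure)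
      refine ⟨M, hc hM, fun z hz => ?_⟩
      have : sSup c ≤ M := by rw [← hS, closure_le]; exact hSM
      exact (le_sSup hz).trans this
  obtain ⟨m, hm⟩ := hz
  exact ⟨m, hm.1, fun M' hM' hle => le_antisymm (hm.2 hM' hle) hle⟩

/-- In a torsion-free abelian-like situation, a maximal cyclic central subgroup is isolated. -/
theorem exists_isolated_central {Q : Type} [Group Q] [hQn : Group.IsNilpotent Q] (hQ : TF Q)
    (hN : Noe Q) (hne : ∃ x : Q, x ≠ 1) :
    ∃ t ∈ center Q, t ≠ 1 ∧ ∀ x : Q, ∀ n : ℕ, 0 < n → x ^ n ∈ zpowers t → x ∈ zpowers t := by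
  have : Nontrivial Q := by
    obtain ⟨x, hx⟩ := hne; exact ⟨x, 1, hx⟩
  have hc : center Q ≠ ⊥ := Group.IsNilpotent.center_ne_bot Q
  obtain ⟨z, hz, hz1⟩ : ∃ z ∈ center Q, z ≠ 1 := by
    by_contra h
    push Not at h
    exact hc ((Subgroup.eq_bot_iff_forall _).mpr h)
  obtain ⟨M, ⟨t, ht, ht1, rfl⟩, hmax⟩ := exists_maximal hN
    (fun M => ∃ t ∈ center Q, t ≠ 1 ∧ zpowers t = M) (zpowers z) ⟨z, hz, hz1, rfl⟩
  refine ⟨t, ht, ht1, fun x n hn hx => ?_⟩
  obtain ⟨k, hk⟩ := Subgroup.mem_zpowers_iff.mp hx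
  -- x is central
  have hxc : x ∈ center Q := by
    apply center_isolated hQ x n hn
    rw [← hk]; exact (center Q).zpow_mem ht k
  have hcomm : Commute t x := (Subgroup.mem_center_iff.mp ht x).symm
  -- reduce by the gcd
  obtain ⟨d, hd⟩ : ∃ d, d = Int.gcd n k := ⟨_, rfl⟩
  have hd0 : 0 < d := by
    rw [hd]; exact Int.gcd_pos_of_ne_zero_left _ (by omega)
  obtain ⟨n', hn'⟩ : (d : ℤ) ∣ n := by rw [hd]; exact Int.gcd_dvd_left _ _
  obtain ⟨k', hk'⟩ : (d : ℤ) ∣ k := by rw [hd]; exact Int.gcd_dvd_right _ _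
  have hpow : (x ^ n' * t ^ (-k')) ^ d = 1 := by
    have hc2 : Commute (x ^ n') (t ^ (-k')) := (hcomm.symm.zpow_zpow _ _)
    rw [hc2.mul_pow]
    have e1 : (x ^ n') ^ d = x ^ n := by
      rw [← zpow_natCast, ← zpow_mul, mul_comm, ← hn', zpow_natCast]
    have e2 : (t ^ (-k')) ^ d = t ^ (-k) := by
      rw [← zpow_natCast, ← zpow_mul]; congr 1; rw [hk']; ring
    rw [e1, e2, ← hk, ← zpow_add]; simp
  have hrel : x ^ n' = t ^ k' := by
    by_contra h
    refine hQ (x ^ n' * t ^ (-k')) ?_ d hd0 hpow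
    intro h2
    apply h
    rw [zpow_neg] at h2
    exact mul_inv_eq_one.mp h2
  -- Bezout
  have hb : (d : ℤ) = n * Int.gcdA n k + k * Int.gcdB n k := by
    rw [hd]; exact Int.gcd_eq_gcd_ab _ _
  obtain ⟨u, hu⟩ : ∃ u, u = Int.gcdA n k := ⟨_, rfl⟩
  obtain ⟨v, hv⟩ : ∃ v, v = Int.gcdB n k := ⟨_, rfl⟩
  rw [← hu, ← hv] at hb
  have hb2 : n' * u + k' * v = 1 := by
    have hd0' : (d : ℤ) ≠ 0 := by omega
    have h1 : (d : ℤ) * (n' * u + k' * v) = d * 1 := by
      rw [mul_one]
      calc (d : ℤ) * (n' * u + k' * v) = (d * n') * u + (d * k') * v := by ring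
        _ = n * u + k * v := by rw [← hn', ← hk']
        _ = d := hb.symm
    exact mul_left_cancel₀ hd0' h1
  obtain ⟨y, hy⟩ : ∃ y, y = t ^ u * x ^ v := ⟨_, rfl⟩
  have hyt : y ^ n' = t := by
    rw [hy, (hcomm.zpow_zpow _ _).mul_zpow, ← zpow_mul, ← zpow_mul, mul_comm v n', zpow_mul x,
      hrel, ← zpow_mul, ← zpow_add]
    have : u * n' + k' * v = 1 := by rw [← hb2]; ring
    rw [this, zpow_one]
  have hyx : y ^ k' = x := by
    rw [hy, (hcomm.zpow_zpow _ _).mul_zpow, ← zpow_mul, ← zpow_mul, mul_comm u k', zpow_mul t,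
      ← hrel, ← zpow_mul, ← zpow_add]
    have : n' * u + v * k' = 1 := by rw [← hb2]; ring
    rw [this, zpow_one]
  have hyc : y ∈ center Q := by
    rw [hy]; exact (center Q).mul_mem ((center Q).zpow_mem ht u) ((center Q).zpow_mem hxc v)
  have hy1 : y ≠ 1 := by
    intro h; apply ht1; rw [← hyt, h, one_zpow]
  have hle : zpowers t ≤ zpowers y := by
    rw [Subgroup.zpowers_le]
    exact Subgroup.mem_zpowers_iff.mpr ⟨n', hyt⟩
  have heq := hmax (zpowers y) ⟨y, hyc, hy1, rfl⟩ hle
  rw [← heq]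
  exact Subgroup.mem_zpowers_iff.mpr ⟨k', hyx⟩

theorem R_top {N : Type} [Group N] [hNn : Group.IsNilpotent N] [hFG : Group.FG N] (hTF : TF N) :
    R (⊤ : Subgroup N) := by
  obtain ⟨c, hc⟩ := Subgroup.nilpotent_iff_lowerCentralSeries.mp hNn
  have hNoe : Noe N := noe_of_lcs c N hc
  obtain ⟨M, ⟨hMn, hMi, hMR⟩, hmax⟩ := exists_maximal hNoe
    (fun M => M.Normal ∧ (∀ x : N, ∀ n : ℕ, 0 < n → x ^ n ∈ M → x ∈ M) ∧ R M) ⊥
    ⟨inferInstance, fun x n hn hx => by
      rw [Subgroup.mem_bot] at *
      by_contra h; exact hTF x h n hn hx, R_bot⟩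
  have := hMn
  by_cases hM : M = ⊤
  · rw [← hM]; exact hMR
  exfalso
  have hQTF : TF (N ⧸ M) := by
    intro g hg k hk hgk
    obtain ⟨x, rfl⟩ := QuotientGroup.mk_surjective g
    apply hg
    rw [QuotientGroup.eq_one_iff]
    apply hMi x k hk
    rw [← QuotientGroup.eq_one_iff]
    exact hgk
  have hQNoe : Noe (N ⧸ M) := by
    intro H
    have h1 := hNoe (H.comap (QuotientGroup.mk' M))
    have h2 : Group.FG (H.comap (QuotientGroup.mk' M)) := (Group.fg_iff_subgroup_fg _).mpr h1
    have h3 : Group.FG H := by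
      refine Group.fg_of_surjective (G := (H.comap (QuotientGroup.mk' M)))
        (f := ((QuotientGroup.mk' M).subgroupComap H)) ?_
      rintro ⟨x, hx⟩
      obtain ⟨y, rfl⟩ := QuotientGroup.mk'_surjective M x
      exact ⟨⟨y, hx⟩, rfl⟩
    exact (Group.fg_iff_subgroup_fg _).mp h3
  have hne : ∃ x : N ⧸ M, x ≠ 1 := by
    by_contra h
    push Not at h
    apply hM
    rw [eq_top_iff]
    intro x _
    rw [← QuotientGroup.eq_one_iff]
    exact h _
  obtain ⟨tb, htc, ht1, hti⟩ := exists_isolated_central hQTF hQNoe hne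
  obtain ⟨t, rfl⟩ := QuotientGroup.mk'_surjective M tb
  obtain ⟨K, hK⟩ : ∃ K, K = (zpowers (QuotientGroup.mk' M t)).comap (QuotientGroup.mk' M) :=
    ⟨_, rfl⟩
  have hzn : (zpowers (QuotientGroup.mk' M t)).Normal := by
    refine ⟨fun x hx g => ?_⟩
    have hxc : x ∈ center (N ⧸ M) := by
      obtain ⟨k, rfl⟩ := Subgroup.mem_zpowers_iff.mp hx
      exact Subgroup.zpow_mem _ htc k
    have : g * x * g⁻¹ = x := by
      rw [Subgroup.mem_center_iff.mp hxc g]; group
    rw [this]; exact hx
  have hKn : K.Normal := by rw [hK]; exact Subgroup.Normal.comap hzn _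
  have hMK : M ≤ K := by
    intro x hx
    rw [hK, Subgroup.mem_comap]
    have : QuotientGroup.mk' M x = 1 := (QuotientGroup.eq_one_iff x).mpr hx
    rw [this]; exact Subgroup.one_mem _
  have htK : t ∈ K := by
    rw [hK, Subgroup.mem_comap]; exact Subgroup.mem_zpowers _
  have hKd : ∀ x ∈ K, ∃ k : ℤ, x * t ^ (-k) ∈ M := by
    intro x hx
    rw [hK, Subgroup.mem_comap] at hx
    obtain ⟨k, hk⟩ := Subgroup.mem_zpowers_iff.mp hx
    refine ⟨k, ?_⟩
    rw [← QuotientGroup.eq_one_iff]
    have : QuotientGroup.mk' M (x * t ^ (-k)) = 1 := by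
      rw [map_mul, map_zpow, ← hk, ← zpow_add]; simp
    exact this
  have htM : ∀ k : ℤ, t ^ k ∈ M → k = 0 := by
    intro k hk
    by_contra hk0
    have h1 : (QuotientGroup.mk' M t) ^ k = 1 := by
      rw [← map_zpow]; exact (QuotientGroup.eq_one_iff _).mpr hk
    have h2 : (QuotientGroup.mk' M t) ^ k.natAbs = 1 := by
      rcases Int.natAbs_eq k with h | h
      · rw [h, zpow_natCast] at h1
        exact h1
      · rw [h, zpow_neg, zpow_natCast, inv_eq_one] at h1
        exact h1
    exact hQTF _ ht1 k.natAbs (Int.natAbs_pos.mpr hk0) h2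
  have hRK : R K := step (M := M) (K := K) (t := t) hMK htK hKd htM hc hMR
  have hKi : ∀ x : N, ∀ n : ℕ, 0 < n → x ^ n ∈ K → x ∈ K := by
    intro x n hn hx
    rw [hK, Subgroup.mem_comap] at *
    rw [map_pow] at hx
    exact hti _ n hn hx
  have := hmax K ⟨hKn, hKi, hRK⟩ hMK
  apply ht1
  rw [this] at htK
  exact (QuotientGroup.eq_one_iff t).mpr htK

end Pool.Agent.Helper160.NilpFG
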