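import Mathlib

set_option autoImplicit false

open Finset

namespace Pool.Agent.Helper160.NonNilp

variable {S : Type*} [CommRing S]

theorem ht_exists (e : S) (he : IsNilpotent e) (w : S) : ∃ k, e ^ k * w = 0 := by
  obtain ⟨n, hn⟩ := he
  exact ⟨n, by rw [hn, zero_mul]⟩

open Classical in
/-- The height of `w`: the least power of `e` which kills it. -/
noncomputable def ht (e : S) (he : IsNilpotent e) (w : S) : ℕ := Nat.find (ht_exists e he w)

section
variable (e : S) (he : IsNilpotent e)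

theorem ht_spec (w : S) : e ^ (ht e he w) * w = 0 := by
  classical
  exact Nat.find_spec (ht_exists e he w)

theorem ht_le {w : S} {k : ℕ} (h : e ^ k * w = 0) : ht e he w ≤ k := by
  classical
  exact Nat.find_min' (ht_exists e he w) h

theorem pow_mul_eq_zero_of_ht_le {w : S} {k : ℕ} (h : ht e he w ≤ k) : e ^ k * w = 0 := by
  obtain ⟨j, rfl⟩ := Nat.exists_eq_add_of_le h
  rw [add_comm, pow_add, mul_assoc, ht_spec, mul_zero]

theorem lt_ht {w : S} {k : ℕ} (h : e ^ k * w ≠ 0) : k < ht e he w := by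
  by_contra hc
  exact h (pow_mul_eq_zero_of_ht_le e he (not_lt.1 hc))

theorem pow_mul_ne_zero_of_lt_ht {w : S} {k : ℕ} (h : k < ht e he w) : e ^ k * w ≠ 0 := by
  intro hc
  exact absurd (ht_le e he hc) (not_le.2 h)

theorem ht_pos {w : S} (h : w ≠ 0) : 0 < ht e he w := by
  apply lt_ht
  simpa using h

theorem ht_shift {w : S} {j : ℕ} (h : e ^ j * w ≠ 0) :
    ht e he w = ht e he (e ^ j * w) + j := by
  apply le_antisymm
  · apply ht_le
    rw [pow_add, mul_assoc]
    exact ht_spec e he _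
  · have h1 : j < ht e he w := lt_ht e he h
    have h2 : ht e he (e ^ j * w) ≤ ht e he w - j := by
      apply ht_le
      rw [← mul_assoc, ← pow_add, Nat.sub_add_cancel h1.le]
      exact ht_spec e he _
    omega

end

variable [Algebra ℚ S]

/-- The height argument: a minimal-height representative cannot be a combination of `e^(m j) v_j`
when `m` divides no difference of heights. -/
theorem key (e : S) (he : IsNilpotent e) (V : Submodule ℚ S) (z : S) (hz : z ∉ V)
    (m : ℕ) (hm : 0 < m) (z' : S) (hz' : z' - z ∈ V)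
    (hmin : ∀ y, y - z ∈ V → ht e he z' ≤ ht e he y)
    (hgood : ∀ v ∈ V, ∀ w ∈ V, v ≠ 0 → w ≠ 0 → ht e he v < ht e he w →
      ¬ m ∣ ht e he w - ht e he v)
    (hgood' : ∀ v ∈ V, v ≠ 0 → ht e he z' < ht e he v → ¬ m ∣ ht e he v - ht e he z')
    (J : ℕ) (u : ℕ → S) (hu : ∀ j, u j ∈ V) :
    ∑ j ∈ range (J + 1), e ^ (m * j) * u j ≠ z' := by
  classical
  intro hsum
  have hz'0 : z' ≠ 0 := by
    rintro rfl
    apply hz
    have := V.neg_mem hz'
    simpa using this
  set T := (range (J + 1)).filter (fun j => e ^ (m * j) * u j ≠ 0) with hT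
  have hTne : T.Nonempty := by
    by_contra hc
    rw [Finset.not_nonempty_iff_eq_empty] at hc
    apply hz'0
    rw [← hsum]
    apply Finset.sum_eq_zero
    intro j hj
    by_contra hne
    have : j ∈ T := by
      rw [hT, Finset.mem_filter]
      exact ⟨hj, hne⟩
    rw [hc] at this
    simp at this
  obtain ⟨j0, hj0, hmax⟩ := Finset.exists_max_image T (fun j => ht e he (e ^ (m * j) * u j)) hTne
  have hj0' := (Finset.mem_filter.1 hj0)
  have hterm : ∀ j ∈ T, ht e he (u j) = ht e he (e ^ (m * j) * u j) + m * j := by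
    intro j hj
    exact ht_shift e he (Finset.mem_filter.1 hj).2
  have hune : ∀ j ∈ T, u j ≠ 0 := by
    intro j hj h0
    apply (Finset.mem_filter.1 hj).2
    rw [h0, mul_zero]
  have hlt : ∀ j ∈ T, j ≠ j0 →
      ht e he (e ^ (m * j) * u j) < ht e he (e ^ (m * j0) * u j0) := by
    intro j hj hne
    refine lt_of_le_of_ne (hmax j hj) ?_
    intro heq
    have h1 := hterm j hj
    have h2 := hterm j0 hj0
    rcases lt_or_gt_of_ne hne with h | h
    · have hmm : m * j < m * j0 := Nat.mul_lt_mul_of_pos_left h hm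
      apply hgood (u j) (hu j) (u j0) (hu j0) (hune j hj) (hune j0 hj0) (by omega)
      have : ht e he (u j0) - ht e he (u j) = m * j0 - m * j := by omega
      rw [this, ← Nat.mul_sub]
      exact dvd_mul_right _ _
    · have hmm : m * j0 < m * j := Nat.mul_lt_mul_of_pos_left h hm
      apply hgood (u j0) (hu j0) (u j) (hu j) (hune j0 hj0) (hune j hj) (by omega)
      have : ht e he (u j) - ht e he (u j0) = m * j - m * j0 := by omega
      rw [this, ← Nat.mul_sub]
      exact dvd_mul_right _ _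
  set H := ht e he (e ^ (m * j0) * u j0) with hH
  have hHpos : 0 < H := ht_pos e he hj0'.2
  -- all other terms are killed by e^(H-1)
  have hkill : ∀ j ∈ range (J + 1), j ≠ j0 → e ^ (H - 1) * (e ^ (m * j) * u j) = 0 := by
    intro j hj hne
    by_cases h0 : e ^ (m * j) * u j = 0
    · rw [h0, mul_zero]
    · have hjT : j ∈ T := Finset.mem_filter.2 ⟨hj, h0⟩
      apply pow_mul_eq_zero_of_ht_le e he
      have := hlt j hjT hne
      omega
  have hz1 : e ^ (H - 1) * z' = e ^ (H - 1) * (e ^ (m * j0) * u j0) := by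
    rw [← hsum, Finset.mul_sum]
    exact Finset.sum_eq_single_of_mem j0 hj0'.1 (fun j hj hne => hkill j hj hne)
  have hz2 : e ^ (H - 1) * z' ≠ 0 := by
    rw [hz1]
    apply pow_mul_ne_zero_of_lt_ht e he
    omega
  have hz3 : e ^ H * z' = 0 := by
    have : e ^ H = e * e ^ (H - 1) := by
      rw [← pow_succ']
      congr 1
      omega
    rw [this, mul_assoc, hz1, ← mul_assoc, ← this]
    exact ht_spec e he _
  have hhtz : ht e he z' = H := by
    have h1 := lt_ht e he hz2
    have h2 := ht_le e he hz3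
    omega
  rcases Nat.eq_zero_or_pos j0 with h0 | h0
  · -- contradiction with minimality
    have hy : (z' - u j0) - z ∈ V := by
      have : (z' - u j0) - z = (z' - z) - u j0 := by ring
      rw [this]
      exact V.sub_mem hz' (hu j0)
    have h1 := hmin _ hy
    have h2 : ht e he (z' - u j0) ≤ H - 1 := by
      apply ht_le
      rw [mul_sub, hz1, h0]
      simp
    omega
  · have h1 := hterm j0 hj0
    have hmm : 0 < m * j0 := Nat.mul_pos hm h0
    apply hgood' (u j0) (hu j0) (hune j0 hj0) (by omega)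
    have : ht e he (u j0) - ht e he z' = m * j0 := by omega
    rw [this]
    exact dvd_mul_right _ _

theorem key' (e : S) (he : IsNilpotent e) (V : Submodule ℚ S) (z : S) (hz : z ∉ V)
    (m : ℕ) (hm : 0 < m) (z' : S) (hz' : z' - z ∈ V)
    (hmin : ∀ y, y - z ∈ V → ht e he z' ≤ ht e he y)
    (hgood : ∀ v ∈ V, ∀ w ∈ V, v ≠ 0 → w ≠ 0 → ht e he v < ht e he w →
      ¬ m ∣ ht e he w - ht e he v)
    (hgood' : ∀ v ∈ V, v ≠ 0 → ht e he z' < ht e he v → ¬ m ∣ ht e he v - ht e he z')
    (J : ℕ) (v : ℕ → S) (hv : ∀ j, v j ∈ V) :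
    ∑ j ∈ range (J + 1), e ^ (m * j) * v j ≠ z := by
  classical
  intro hsum
  apply key e he V z hz m hm z' hz' hmin hgood hgood' J
    (fun j => if j = 0 then v 0 + (z' - z) else v j)
  · intro j
    by_cases hj : j = 0
    · subst hj
      simpa using V.add_mem (hv 0) hz'
    · simpa [hj] using hv j
  · rw [Finset.sum_range_succ'] at hsum ⊢
    simp only [Nat.add_eq_zero_iff, one_ne_zero, and_false, if_false, if_true, mul_zero,
      pow_zero, one_mul] at hsum ⊢
    rw [← add_assoc, hsum]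
    ring

theorem card_heights (e : S) (he : IsNilpotent e) (V : Submodule ℚ S) [FiniteDimensional ℚ V]
    (F : Finset ℕ) (hF : ∀ k ∈ F, ∃ v ∈ V, v ≠ 0 ∧ ht e he v = k) :
    F.card ≤ Module.finrank ℚ V := by
  classical
  choose! v hv using hF
  let w : F → V := fun k => ⟨v k.1, (hv k.1 k.2).1⟩
  have hli : LinearIndependent ℚ w := by
    rw [linearIndependent_iff']
    intro s g hg
    by_contra hne
    push Not at hne
    obtain ⟨i1, hi1s, hi1⟩ := hne
    set T := s.filter (fun i => g i ≠ 0) with hT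
    have hTne : T.Nonempty := ⟨i1, Finset.mem_filter.2 ⟨hi1s, hi1⟩⟩
    obtain ⟨i0, hi0, hmax⟩ := Finset.exists_max_image T (fun i => (i : ℕ)) hTne
    have hi0' := Finset.mem_filter.1 hi0
    have hpos : 0 < (i0 : ℕ) := by
      have h1 := hv i0.1 i0.2
      rw [← h1.2.2]
      exact ht_pos e he h1.2.1
    have hg' : ∑ i ∈ s, g i • v i.1 = 0 := by
      have := congrArg (fun x : V => (x : S)) hg
      simpa [w] using this
    have h2 : e ^ ((i0 : ℕ) - 1) * ∑ i ∈ s, g i • v i.1 = 0 := by rw [hg', mul_zero]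
    rw [Finset.mul_sum] at h2
    rw [Finset.sum_eq_single_of_mem i0 hi0'.1] at h2
    · rw [mul_smul_comm] at h2
      rcases smul_eq_zero.1 h2 with h3 | h3
      · exact hi0'.2 h3
      · have h4 := hv i0.1 i0.2
        refine pow_mul_ne_zero_of_lt_ht e he (w := v i0.1) (k := (i0 : ℕ) - 1) ?_ h3
        rw [h4.2.2]
        omega
    · intro j hj hne
      by_cases h0 : g j = 0
      · rw [h0, zero_smul, mul_zero]
      · have hjT : j ∈ T := Finset.mem_filter.2 ⟨hj, h0⟩
        have h3 := hmax j hjT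
        have h4 : (j : ℕ) ≠ (i0 : ℕ) := fun h => hne (Subtype.ext h)
        rw [mul_smul_comm]
        have h5 : e ^ ((i0 : ℕ) - 1) * v j.1 = 0 := by
          apply pow_mul_eq_zero_of_ht_le e he
          rw [(hv j.1 j.2).2.2]
          omega
        rw [h5, smul_zero]
  have := hli.fintype_card_le_finrank
  simpa using this

/-- The number-theoretic choice of the exponent. -/
theorem exists_good (M K q : ℕ) (hK : 0 < K) (D : Finset ℕ) (hD : D.card ≤ q)
    (hDM : ∀ δ ∈ D, δ ≤ M) (hD0 : ∀ δ ∈ D, 0 < δ) (hM : 2 * K * (q * (2 * K) + 1) ≤ M) :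
    ∃ m, 0 < m ∧ m * K ≤ M ∧ ∀ δ ∈ D, ¬ m ∣ δ := by
  classical
  by_contra hcon
  push Not at hcon
  set I := Finset.Ioc (M / (2 * K)) (M / K) with hI
  have hsub : I ⊆ (D ×ˢ range (2 * K)).image (fun p => p.1 / p.2) := by
    intro m hm
    rw [hI, Finset.mem_Ioc] at hm
    have hm0 : 0 < m := lt_of_le_of_lt (Nat.zero_le _) hm.1
    have hmK : m * K ≤ M := (Nat.le_div_iff_mul_le hK).1 hm.2
    obtain ⟨δ, hδ, c, hc⟩ := hcon m hm0 hmK
    rw [Finset.mem_image]
    have hcpos : 0 < c := by
      rcases Nat.eq_zero_or_pos c with h | h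
      · have := hD0 δ hδ
        rw [hc, h] at this
        simp at this
      · exact h
    refine ⟨(δ, c), ?_, ?_⟩
    · rw [Finset.mem_product, Finset.mem_range]
      refine ⟨hδ, ?_⟩
      have h1 : δ ≤ M := hDM δ hδ
      have h2 : M < m * (2 * K) := (Nat.div_lt_iff_lt_mul (by omega)).1 hm.1
      rw [hc] at h1
      have h3 : m * c < m * (2 * K) := lt_of_le_of_lt h1 h2
      exact lt_of_mul_lt_mul_left h3 (Nat.zero_le _)
    · simp only
      rw [hc]
      exact Nat.mul_div_cancel _ hcpos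
  have h1 : I.card ≤ q * (2 * K) := by
    calc I.card ≤ ((D ×ˢ range (2 * K)).image (fun p => p.1 / p.2)).card :=
          Finset.card_le_card hsub
      _ ≤ (D ×ˢ range (2 * K)).card := Finset.card_image_le
      _ = D.card * (2 * K) := by rw [Finset.card_product, Finset.card_range]
      _ ≤ q * (2 * K) := Nat.mul_le_mul_right _ hD
  have h2 : q * (2 * K) + 1 ≤ M / (2 * K) := by
    rw [Nat.le_div_iff_mul_le (by omega)]
    calc (q * (2 * K) + 1) * (2 * K) = 2 * K * (q * (2 * K) + 1) := by ring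
      _ ≤ M := hM
  have h3 : 2 * (M / (2 * K)) ≤ M / K := by
    rw [Nat.le_div_iff_mul_le hK]
    calc 2 * (M / (2 * K)) * K = 2 * K * (M / (2 * K)) := by ring
      _ ≤ M := Nat.mul_div_le _ _
  rw [hI, Nat.card_Ioc] at h1
  omega

/-- Given a finite-dimensional `V` avoiding `z`, every nilpotent element of large enough index has
a power of large index such that `z` is not in the `ℚ[e^m]`-span of `V`. -/
theorem exists_power (V : Submodule ℚ S) [FiniteDimensional ℚ V] (z : S) (hz : z ∉ V)
    (K : ℕ) (hK : 0 < K) :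
    ∃ M0 : ℕ, ∀ e : S, IsNilpotent e → e ^ M0 ≠ 0 → ∃ m, 0 < m ∧ e ^ (m * K) ≠ 0 ∧
      ∀ (J : ℕ) (v : ℕ → S), (∀ j, v j ∈ V) → ∑ j ∈ range (J + 1), e ^ (m * j) * v j ≠ z := by
  classical
  set d := Module.finrank ℚ V with hd
  refine ⟨2 * K * ((d + 1) * (d + 1) * (2 * K) + 1), ?_⟩
  intro e he hM0
  -- minimal representative
  have hex : ∃ k, ∃ y, y - z ∈ V ∧ ht e he y = k := ⟨ht e he z, z, by simp, rfl⟩
  obtain ⟨z', hz', hk⟩ := Nat.find_spec hex
  have hmin : ∀ y, y - z ∈ V → ht e he z' ≤ ht e he y := by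
    intro y hy
    rw [hk]
    exact Nat.find_min' hex ⟨y, hy, rfl⟩
  -- nilpotency index
  set M := ht e he 1 - 1 with hM
  have h1 : 2 * K * ((d + 1) * (d + 1) * (2 * K) + 1) < ht e he 1 := by
    apply lt_ht
    simpa using hM0
  have hle : ∀ w, ht e he w ≤ M + 1 := by
    intro w
    apply ht_le
    have : e ^ (M + 1) * 1 = 0 := by
      apply pow_mul_eq_zero_of_ht_le e he
      omega
    rw [mul_one] at this
    rw [this, zero_mul]
  set F := (range (M + 2)).filter (fun k => ∃ v ∈ V, v ≠ 0 ∧ ht e he v = k) with hF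
  have hFc : F.card ≤ d := by
    apply card_heights e he V F
    intro k hk
    exact (Finset.mem_filter.1 hk).2
  set F' := insert (ht e he z') F with hF'
  have hFc' : F'.card ≤ d + 1 := (Finset.card_insert_le _ _).trans (by omega)
  set D := ((F' ×ˢ F').image (fun p => p.2 - p.1)).filter (fun δ => 0 < δ ∧ δ ≤ M) with hD
  have hDc : D.card ≤ (d + 1) * (d + 1) := by
    calc D.card ≤ ((F' ×ˢ F').image (fun p => p.2 - p.1)).card := Finset.card_filter_le _ _
      _ ≤ (F' ×ˢ F').card := Finset.card_image_le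
      _ = F'.card * F'.card := Finset.card_product _ _
      _ ≤ (d + 1) * (d + 1) := Nat.mul_le_mul hFc' hFc'
  obtain ⟨m, hm0, hmK, hmD⟩ := exists_good M K ((d + 1) * (d + 1)) hK D hDc
    (fun δ hδ => (Finset.mem_filter.1 hδ).2.2) (fun δ hδ => (Finset.mem_filter.1 hδ).2.1)
    (by omega)
  have hmemF : ∀ v ∈ V, v ≠ 0 → ht e he v ∈ F := by
    intro v hv hv0
    rw [hF, Finset.mem_filter, Finset.mem_range]
    have := hle v
    exact ⟨by omega, v, hv, hv0, rfl⟩
  have hgen : ∀ a ∈ F', ∀ b ∈ F', 0 < a → b ≤ M + 1 → a < b → ¬ m ∣ b - a := by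
    intro a ha b hb ha0 hbM hab hdvd
    refine hmD (b - a) ?_ hdvd
    rw [hD, Finset.mem_filter]
    refine ⟨?_, by omega, by omega⟩
    rw [Finset.mem_image]
    exact ⟨(a, b), Finset.mem_product.2 ⟨ha, hb⟩, rfl⟩
  have hz'0 : z' ≠ 0 := by
    rintro rfl
    apply hz
    have := V.neg_mem hz'
    simpa using this
  refine ⟨m, hm0, ?_, ?_⟩
  · have : m * K < ht e he 1 := by omega
    have := pow_mul_ne_zero_of_lt_ht e he this
    simpa using this
  · intro J v hv
    apply key' e he V z hz m hm0 z' hz' hmin ?_ ?_ J v hv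
    · intro v hv w hw hv0 hw0 hlt
      exact hgen _ (Finset.mem_insert_of_mem (hmemF v hv hv0)) _
        (Finset.mem_insert_of_mem (hmemF w hw hw0)) (ht_pos e he hv0) (hle w) hlt
    · intro v hv hv0 hlt
      exact hgen _ (Finset.mem_insert_self _ _) _
        (Finset.mem_insert_of_mem (hmemF v hv hv0)) (ht_pos e he hz'0) (hle v) hlt

end Pool.Agent.Helper160.NonNilp
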