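import Mathlib
import Pool.Agent.Helper160.NonNilpHt

set_option autoImplicit false

open Finset

namespace Pool.Agent.Helper160.NonNilp

/-- A subset of a ring is nilpotent when all products of some fixed length vanish. -/
def NilpSet {R : Type*} [Ring R] (X : Set R) : Prop :=
  ∃ n : ℕ, ∀ l : List R, (∀ x ∈ l, x ∈ X) → l.length = n → l.prod = 0

variable {S : Type*} [CommRing S] [Algebra ℚ S]

theorem pow_eq_zero_iff_of_ne (n : ℕ) (t : ℚ) (h : t ^ n = 0) : t = 0 := by
  by_contra hc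
  exact pow_ne_zero n hc h

theorem polar_step (A : NonUnitalSubalgebra ℚ S) (w : S) (m : ℕ)
    (h : ∀ x ∈ A, x ^ (m + 1) * w = 0) (x y : S) (hx : x ∈ A) (hy : y ∈ A) :
    x ^ m * (y * w) = 0 := by
  classical
  have key : ∀ f : Module.Dual ℚ S, f (((m + 1 : ℕ) : ℚ) • (x ^ m * (y * w))) = 0 := by
    intro f
    set P : Polynomial ℚ := ∑ i ∈ range (m + 1 + 1),
      Polynomial.C (f (y ^ i * x ^ (m + 1 - i) * ((m + 1).choose i : S) * w)) * Polynomial.X ^ i
      with hP
    have hev : P = 0 := by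
      apply Polynomial.funext
      intro t
      rw [Polynomial.eval_zero, hP, Polynomial.eval_finsetSum]
      have h1 : (t • y + x) ^ (m + 1) * w = 0 := by
        apply h
        exact A.add_mem (SMulMemClass.smul_mem t hy) hx
      rw [add_pow, Finset.sum_mul] at h1
      have h2 := congrArg f h1
      rw [map_sum, map_zero] at h2
      rw [← h2]
      apply Finset.sum_congr rfl
      intro i _
      rw [Polynomial.eval_mul, Polynomial.eval_C, Polynomial.eval_pow, Polynomial.eval_X,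
        smul_pow, smul_mul_assoc, smul_mul_assoc, smul_mul_assoc, map_smul, smul_eq_mul, mul_comm]
    have hc : P.coeff 1 = 0 := by rw [hev, Polynomial.coeff_zero]
    rw [hP, Polynomial.finsetSum_coeff] at hc
    rw [Finset.sum_eq_single_of_mem 1 (by simp)] at hc
    · rw [Polynomial.coeff_C_mul_X_pow, if_pos rfl] at hc
      rw [← hc]
      congr 1
      rw [Nat.choose_one_right, Nat.add_sub_cancel, pow_one, Nat.cast_smul_eq_nsmul ℚ,
        nsmul_eq_mul]
      ring
    · intro i _ hi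
      rw [Polynomial.coeff_C_mul_X_pow, if_neg (Ne.symm hi)]
  have h0 := (Module.forall_dual_apply_eq_zero_iff ℚ _).1 key
  rcases smul_eq_zero.1 h0 with h1 | h1
  · exact absurd h1 (by positivity)
  · exact h1

theorem polar (A : NonUnitalSubalgebra ℚ S) (n : ℕ) (h : ∀ x ∈ A, x ^ n = 0)
    (l : List S) (hl : ∀ x ∈ l, x ∈ A) (hn : l.length = n) : l.prod = 0 := by
  have main : ∀ k, k ≤ n → ∀ l : List S, (∀ x ∈ l, x ∈ A) → l.length = k → ∀ x ∈ A,
      x ^ (n - k) * l.prod = 0 := by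
    intro k
    induction k with
    | zero =>
      intro _ l _ hk x hx
      rw [Nat.sub_zero, h x hx, zero_mul]
    | succ k ih =>
      intro hkn l hl hk x hx
      cases l with
      | nil => simp at hk
      | cons y l' =>
        rw [List.prod_cons]
        apply polar_step A l'.prod (n - (k + 1)) ?_ x y hx (hl y (by simp))
        intro x hx
        have : n - (k + 1) + 1 = n - k := by omega
        rw [this]
        exact ih (by omega) l' (fun z hz => hl z (by simp [hz])) (by simpa using hk) x hx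
  have := main n le_rfl l hl hn 0 A.zero_mem
  simpa using this

theorem pow_mem_of_pos {R : Type*} [Ring R] [Algebra ℚ R] (A : NonUnitalSubalgebra ℚ R) (e : R)
    (he : e ∈ A) (m : ℕ) (hm : 0 < m) : e ^ m ∈ A := by
  obtain ⟨k, rfl⟩ : ∃ k, m = k + 1 := ⟨m - 1, by omega⟩
  clear hm
  induction k with
  | zero => simpa using he
  | succ k ih =>
    rw [pow_succ]
    exact A.mul_mem ih he

theorem step (A : NonUnitalSubalgebra ℚ S) (hnil : ∀ a ∈ A, IsNilpotent a)
    (hunb : ∀ N : ℕ, ∃ e ∈ A, e ^ N ≠ 0) (z : S) (V : Subalgebra ℚ S)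
    (hV : Module.Finite ℚ V) (hz : z ∉ V) (k : ℕ) :
    ∃ V' : Subalgebra ℚ S, V ≤ V' ∧ Module.Finite ℚ V' ∧ z ∉ V' ∧ ∃ c ∈ A, c ∈ V' ∧ c ^ k ≠ 0 := by
  have : FiniteDimensional ℚ (Subalgebra.toSubmodule V) := hV
  obtain ⟨M0, hM0⟩ := exists_power (Subalgebra.toSubmodule V) z
    (by simpa using hz) (k + 1) (Nat.succ_pos _)
  obtain ⟨e, heA, heM⟩ := hunb M0
  obtain ⟨m, hm0, hmK, hm⟩ := hM0 e (hnil e heA) heM
  have hcnil : IsNilpotent (e ^ m) := (hnil e heA).pow_of_pos (by omega)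
  have hint' : IsIntegral ℚ (e ^ m) := by
    obtain ⟨n, hn⟩ := hcnil
    have hn0 : 0 < n + 1 := Nat.succ_pos _
    apply IsIntegral.of_pow hn0
    rw [pow_succ, hn, zero_mul]
    exact isIntegral_zero
  refine ⟨(Algebra.adjoin V {e ^ m}).restrictScalars ℚ, ?_, ?_, ?_, e ^ m,
    pow_mem_of_pos A e heA m hm0, ?_, ?_⟩
  · intro x hx
    rw [Subalgebra.mem_restrictScalars]
    exact (Algebra.adjoin V {e ^ m}).algebraMap_mem ⟨x, hx⟩
  · have hfin1 : Module.Finite ℚ (Algebra.adjoin ℚ {e ^ m}) :=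
      Module.Finite.iff_fg.2 hint'.fg_adjoin_singleton
    have hfin2 : Module.Finite ℚ (V ⊔ Algebra.adjoin ℚ {e ^ m} : Subalgebra ℚ S) :=
      Subalgebra.finite_sup V (Algebra.adjoin ℚ {e ^ m})
    have heq : (Algebra.adjoin V {e ^ m}).restrictScalars ℚ = V ⊔ Algebra.adjoin ℚ {e ^ m} := by
      rw [Algebra.restrictScalars_adjoin, Algebra.adjoin_union, Algebra.adjoin_eq]
    rw [heq]
    exact hfin2
  · rw [Subalgebra.mem_restrictScalars, Algebra.adjoin_singleton_eq_range_aeval]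
    rintro ⟨p, hp⟩
    apply hm p.natDegree (fun j => (p.coeff j : S)) (fun j => (p.coeff j).2)
    have hp' : Polynomial.aeval (e ^ m) p = z := hp
    rw [← hp', Polynomial.aeval_eq_sum_range]
    apply Finset.sum_congr rfl
    intro j _
    rw [Algebra.smul_def, pow_mul, mul_comm]
    rfl
  · rw [Subalgebra.mem_restrictScalars]
    exact Algebra.subset_adjoin (Set.mem_singleton _)
  · intro h0
    apply hmK
    rw [pow_mul, pow_succ, h0, zero_mul]

/-- The commutative theorem, for a nil non-unital subalgebra of a commutative algebra. -/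
theorem comm_main (A : NonUnitalSubalgebra ℚ S) (hnil : ∀ a ∈ A, IsNilpotent a)
    (hprop : ∀ B : NonUnitalSubalgebra ℚ S, B ≤ A → B ≠ A → NilpSet (B : Set S)) :
    NilpSet (A : Set S) := by
  classical
  by_contra hA
  have hz : ∃ z ∈ A, z ≠ 0 := by
    by_contra hc
    push Not at hc
    apply hA
    refine ⟨1, fun l hl h1 => ?_⟩
    obtain ⟨a, rfl⟩ := List.length_eq_one_iff.1 h1
    simpa using hc a (hl a (by simp))
  obtain ⟨z, hzA, hz0⟩ := hz
  have hunb : ∀ N : ℕ, ∃ e ∈ A, e ^ N ≠ 0 := by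
    intro N
    by_contra hc
    push Not at hc
    exact hA ⟨N, fun l hl hn => polar A N hc l hl hn⟩
  have hzbot : z ∉ (⊥ : Subalgebra ℚ S) := by
    intro hmem
    obtain ⟨t, ht⟩ := Algebra.mem_bot.1 hmem
    obtain ⟨n, hn⟩ := hnil z hzA
    have : Nontrivial S := ⟨⟨z, 0, hz0⟩⟩
    rw [← ht, ← map_pow] at hn
    have h1 : t ^ n = 0 := by
      apply (algebraMap ℚ S).injective
      rw [hn, map_zero]
    have h2 : t = 0 := pow_eq_zero_iff_of_ne n t h1
    apply hz0
    rw [← ht, h2, map_zero]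
  let P : Subalgebra ℚ S → Prop := fun V => Module.Finite ℚ V ∧ z ∉ V
  have hstep : ∀ V : {V // P V}, ∀ k : ℕ, ∃ V' : {V // P V}, V.1 ≤ V'.1 ∧
      ∃ c ∈ A, c ∈ V'.1 ∧ c ^ k ≠ 0 := by
    intro V k
    obtain ⟨V', h1, h2, h3, h4⟩ := step A hnil hunb z V.1 V.2.1 V.2.2 k
    exact ⟨⟨V', h2, h3⟩, h1, h4⟩
  choose nxt hnxt1 hnxt2 using hstep
  have h0 : P ⊥ := ⟨inferInstance, hzbot⟩
  let seq : ℕ → {V // P V} := fun n => Nat.rec ⟨⊥, h0⟩ (fun k V => nxt V k) n
  have hseq : ∀ k, seq (k + 1) = nxt (seq k) k := fun k => rfl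
  have hmono : Monotone (fun k => (seq k).1) := by
    apply monotone_nat_of_le_succ
    intro k
    show (seq k).1 ≤ (seq (k + 1)).1
    rw [hseq]
    exact hnxt1 (seq k) k
  let B : NonUnitalSubalgebra ℚ S :=
    { carrier := {x | x ∈ A ∧ ∃ k, x ∈ (seq k).1}
      add_mem' := by
        rintro x y ⟨hx, k, hk⟩ ⟨hy, j, hj⟩
        exact ⟨A.add_mem hx hy, max k j, (seq (max k j)).1.add_mem
          (hmono (le_max_left _ _) hk) (hmono (le_max_right _ _) hj)⟩
      zero_mem' := ⟨A.zero_mem, 0, (seq 0).1.zero_mem⟩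
      mul_mem' := by
        rintro x y ⟨hx, k, hk⟩ ⟨hy, j, hj⟩
        exact ⟨A.mul_mem hx hy, max k j, (seq (max k j)).1.mul_mem
          (hmono (le_max_left _ _) hk) (hmono (le_max_right _ _) hj)⟩
      smul_mem' := by
        rintro c x ⟨hx, k, hk⟩
        exact ⟨SMulMemClass.smul_mem c hx, k, (seq k).1.smul_mem hk c⟩ }
  have hBA : B ≤ A := fun x hx => hx.1
  have hBne : B ≠ A := by
    intro heq
    have : z ∈ B := by rw [heq]; exact hzA
    obtain ⟨_, k, hk⟩ := this
    exact (seq k).2.2 hk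
  obtain ⟨n, hn⟩ := hprop B hBA hBne
  obtain ⟨c, hcA, hcV, hcn⟩ := hnxt2 (seq n) n
  have hcB : c ∈ B := ⟨hcA, n + 1, by rw [hseq]; exact hcV⟩
  apply hcn
  have := hn (List.replicate n c) (by
    intro x hx
    rw [List.eq_of_mem_replicate hx]
    exact hcB) (List.length_replicate)
  rwa [List.prod_replicate] at this

end Pool.Agent.Helper160.NonNilp
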