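import Mathlib
import Pool.Agent.Helper160.NonNilpComm

set_option autoImplicit false

open Finset

namespace Pool.Agent.Helper160.NonNilp

variable {R : Type*} [Ring R] [Algebra ℚ R]

theorem list_prod_mem_pow (M : Submodule ℚ R) (l : List R) (hl : ∀ x ∈ l, x ∈ M) :
    l.prod ∈ M ^ l.length := by
  induction l with
  | nil =>
    rw [List.prod_nil, List.length_nil, pow_zero]
    exact Submodule.one_le.1 (le_refl (1 : Submodule ℚ R))
  | cons a l ih =>
    rw [List.prod_cons, List.length_cons, pow_succ']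
    exact Submodule.mul_mem_mul (hl a (by simp)) (ih (fun x hx => hl x (by simp [hx])))

theorem pow_le_of_list (M N : Submodule ℚ R) (n : ℕ)
    (h : ∀ l : List R, (∀ x ∈ l, x ∈ M) → l.length = n → l.prod ∈ N) : M ^ n ≤ N := by
  rw [Submodule.pow_eq_span_pow_set, Submodule.span_le]
  intro x hx
  obtain ⟨f, rfl⟩ := Set.mem_pow.1 hx
  apply h
  · intro y hy
    obtain ⟨i, rfl⟩ := (List.mem_ofFn' _ _).1 hy
    exact (f i).2
  · simp

theorem nilpSet_iff (M : Submodule ℚ R) : NilpSet (M : Set R) ↔ ∃ n : ℕ, M ^ n = ⊥ := by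
  constructor
  · rintro ⟨n, hn⟩
    refine ⟨n, le_bot_iff.1 (pow_le_of_list M ⊥ n fun l hl h => ?_)⟩
    rw [Submodule.mem_bot]
    exact hn l hl h
  · rintro ⟨n, hn⟩
    refine ⟨n, fun l hl h => ?_⟩
    have := list_prod_mem_pow M l hl
    rw [h, hn, Submodule.mem_bot] at this
    exact this

/-- The quotient by a two-sided ideal containing all commutators. -/
theorem quot_main (I : Ideal R) [I.IsTwoSided] (hcomm : ∀ x y : R, x * y - y * x ∈ I)
    (A : NonUnitalSubalgebra ℚ R) (hnil : ∀ a ∈ A, IsNilpotent a)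
    (hprop : ∀ B : NonUnitalSubalgebra ℚ R, B ≤ A → B ≠ A → NilpSet (B : Set R)) :
    ∃ n : ℕ, ∀ l : List R, (∀ x ∈ l, x ∈ A) → l.length = n → l.prod ∈ I := by
  classical
  let Q := R ⧸ I
  let r1 : Ring Q := inferInstanceAs (Ring (R ⧸ I))
  let a1 : Algebra ℚ Q := inferInstanceAs (Algebra ℚ (R ⧸ I))
  let π : R →ₐ[ℚ] Q := Ideal.Quotient.mkₐ ℚ I
  have hπs : Function.Surjective π := Ideal.Quotient.mkₐ_surjective ℚ I
  have hπ0 : ∀ x, π x = 0 ↔ x ∈ I := fun x => Ideal.Quotient.eq_zero_iff_mem
  have hc : ∀ x y : Q, x * y = y * x := by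
    intro x y
    obtain ⟨x, rfl⟩ := hπs x
    obtain ⟨y, rfl⟩ := hπs y
    rw [← sub_eq_zero, ← map_mul, ← map_mul, ← map_sub, hπ0]
    exact hcomm x y
  let c1 : CommRing Q := { r1 with mul_comm := hc }
  let a2 : @Algebra ℚ Q _ c1.toRing.toSemiring := a1
  let A' : NonUnitalSubalgebra ℚ Q := A.map π
  have hmem : ∀ x, x ∈ A' ↔ ∃ a ∈ A, π a = x := fun x => Iff.rfl
  have key : NilpSet (A' : Set Q) := by
    apply comm_main A'
    · intro a ha
      obtain ⟨b, hb, rfl⟩ := (hmem a).1 ha
      exact (hnil b hb).map π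
    · intro B' hB' hBne
      let B : NonUnitalSubalgebra ℚ R := A ⊓ B'.comap π
      have hBA : B ≤ A := inf_le_left
      have hBne' : B ≠ A := by
        intro heq
        apply hBne
        apply le_antisymm hB'
        intro x hx
        obtain ⟨a, ha, rfl⟩ := (hmem x).1 hx
        have : a ∈ B := by rw [heq]; exact ha
        exact this.2
      obtain ⟨n, hn⟩ := hprop B hBA hBne'
      refine ⟨n, fun l hl hlen => ?_⟩
      -- lift the list
      have hlift : ∀ l : List Q, (∀ x ∈ l, x ∈ B') → ∃ l' : List R, (∀ x ∈ l', x ∈ B) ∧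
          l'.length = l.length ∧ π l'.prod = l.prod := by
        intro l
        induction l with
        | nil => intro _; exact ⟨[], by simp, rfl, by simp⟩
        | cons x l ih =>
          intro hl
          obtain ⟨l', h1, h2, h3⟩ := ih (fun y hy => hl y (by simp [hy]))
          obtain ⟨a, ha, hax⟩ := (hmem x).1 (hB' (hl x (by simp)))
          refine ⟨a :: l', ?_, by simp [h2], ?_⟩
          · intro y hy
            rcases List.mem_cons.1 hy with rfl | hy
            · refine ⟨ha, ?_⟩
              show π y ∈ B'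
              rw [hax]
              exact hl x (by simp)
            · exact h1 y hy
          · rw [List.prod_cons, List.prod_cons, map_mul, h3, hax]
      obtain ⟨l', h1, h2, h3⟩ := hlift l hl
      rw [← h3, hn l' h1 (h2.trans hlen), map_zero]
  obtain ⟨n, hn⟩ := key
  refine ⟨n, fun l hl hlen => ?_⟩
  rw [← hπ0, map_list_prod]
  apply hn
  · intro x hx
    obtain ⟨a, ha, rfl⟩ := List.mem_map.1 hx
    exact (hmem _).2 ⟨a, hl a ha, rfl⟩
  · simpa using hlen

/-- If `D` is a nilpotent subalgebra normalised by `R`, then `D R` is a nilpotent ideal. -/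
theorem pow_ideal_le (D : Submodule ℚ R) (hD : ∀ r : R, ∀ d ∈ D, r * d - d * r ∈ D) (n : ℕ) :
    (D * ⊤) ^ n ≤ D ^ n * ⊤ := by
  have h1 : (⊤ : Submodule ℚ R) * D ≤ D * ⊤ := by
    rw [Submodule.mul_le]
    intro r _ d hd
    have : r * d = d * r + (r * d - d * r) * 1 := by noncomm_ring
    rw [this]
    exact Submodule.add_mem _ (Submodule.mul_mem_mul hd trivial)
      (Submodule.mul_mem_mul (hD r d hd) trivial)
  induction n with
  | zero => simp
  | succ n ih =>
    calc (D * ⊤) ^ (n + 1) = (D * ⊤) ^ n * (D * ⊤) := pow_succ _ _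
      _ ≤ (D ^ n * ⊤) * (D * ⊤) := mul_le_mul_left ih _
      _ = D ^ n * (⊤ * D) * ⊤ := by simp only [mul_assoc]
      _ ≤ D ^ n * (D * ⊤) * ⊤ := by
          gcongr
      _ = D ^ (n + 1) * (⊤ * ⊤) := by rw [pow_succ]; simp only [mul_assoc]
      _ ≤ D ^ (n + 1) * ⊤ := by
          gcongr
          exact le_top

theorem lie_main (A : NonUnitalSubalgebra ℚ R)
    (hR : ∀ r : R, ∃ t : ℚ, ∃ a ∈ A, r = algebraMap ℚ R t + a)
    (hnil : ∀ a ∈ A, IsNilpotent a)
    (hprop : ∀ B : NonUnitalSubalgebra ℚ R, B ≤ A → B ≠ A → NilpSet (B : Set R))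
    (W : Set R) (hgen : NonUnitalAlgebra.adjoin ℚ W = A)
    (D : NonUnitalSubalgebra ℚ R) (hDA : D ≤ A) (hDne : D ≠ A)
    (hDlie : ∀ a ∈ A, ∀ d ∈ D, a * d - d * a ∈ D)
    (hWD : ∀ w ∈ W, ∀ w' ∈ W, w * w' - w' * w ∈ D) : NilpSet (A : Set R) := by
  classical
  have hDR : ∀ r : R, ∀ d ∈ D.toSubmodule, r * d - d * r ∈ D.toSubmodule := by
    intro r d hd
    obtain ⟨t, a, ha, rfl⟩ := hR r
    have : (algebraMap ℚ R t + a) * d - d * (algebraMap ℚ R t + a) = a * d - d * a := by
      rw [add_mul, mul_add, Algebra.commutes t d]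
      abel
    rw [this]
    exact hDlie a ha d hd
  obtain ⟨n, hn⟩ := (nilpSet_iff D.toSubmodule).1 (hprop D hDA hDne)
  set J : Submodule ℚ R := D.toSubmodule * ⊤ with hJ
  have hJn : J ^ n = ⊥ := by
    rw [← le_bot_iff]
    refine (pow_ideal_le D.toSubmodule hDR n).trans ?_
    rw [hn, Submodule.bot_mul]
  have hJr : ∀ x ∈ J, ∀ r : R, x * r ∈ J := by
    intro x hx r
    have h1 : x * r ∈ J * ⊤ := Submodule.mul_mem_mul hx trivial
    have h2 : J * ⊤ ≤ J := by
      rw [hJ, mul_assoc]
      gcongr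
      exact le_top
    exact h2 h1
  have hJl : ∀ x ∈ J, ∀ r : R, r * x ∈ J := by
    intro x hx r
    have h1 : r * x ∈ ⊤ * J := Submodule.mul_mem_mul trivial hx
    have h2 : ⊤ * J ≤ J := by
      rw [hJ, ← mul_assoc]
      rw [Submodule.mul_le]
      intro y hy s _
      have hy' : y ∈ D.toSubmodule * ⊤ := by
        have h3 : (⊤ : Submodule ℚ R) * D.toSubmodule ≤ D.toSubmodule * ⊤ := by
          rw [Submodule.mul_le]
          intro r _ d hd
          have : r * d = d * r + (r * d - d * r) * 1 := by noncomm_ring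
          rw [this]
          exact Submodule.add_mem _ (Submodule.mul_mem_mul hd trivial)
            (Submodule.mul_mem_mul (hDR r d hd) trivial)
        exact h3 hy
      exact hJr y hy' s
    exact h2 h1
  let I : Ideal R :=
    { carrier := J
      add_mem' := fun ha hb => J.add_mem ha hb
      zero_mem' := J.zero_mem
      smul_mem' := fun r x hx => hJl x hx r }
  have hI : ∀ x, x ∈ I ↔ x ∈ J := fun x => Iff.rfl
  have : I.IsTwoSided := ⟨fun {a} b ha => hJr a ha b⟩
  have hDJ : ∀ d ∈ D, d ∈ J := by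
    intro d hd
    have := Submodule.mul_mem_mul (M := D.toSubmodule) (N := ⊤) hd (trivial : (1 : R) ∈ ⊤)
    rwa [mul_one] at this
  -- commutators lie in I
  have hc1 : ∀ w ∈ W, ∀ a ∈ A, a * w - w * a ∈ J := by
    intro w hw a ha
    rw [← hgen] at ha
    induction ha using NonUnitalAlgebra.adjoin_induction with
    | mem x hx => exact hDJ _ (hWD x hx w hw)
    | add x y _ _ hx hy =>
      have : (x + y) * w - w * (x + y) = (x * w - w * x) + (y * w - w * y) := by noncomm_ring
      rw [this]
      exact J.add_mem hx hy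
    | zero => simp
    | mul x y _ _ hx hy =>
      have : x * y * w - w * (x * y) = x * (y * w - w * y) + (x * w - w * x) * y := by
        noncomm_ring
      rw [this]
      exact J.add_mem (hJl _ hy _) (hJr _ hx _)
    | smul t x _ hx =>
      have : (t • x) * w - w * (t • x) = t • (x * w - w * x) := by
        rw [smul_mul_assoc, mul_smul_comm, smul_sub]
      rw [this]
      exact J.smul_mem t hx
  have hc2 : ∀ b ∈ A, ∀ a ∈ A, a * b - b * a ∈ J := by
    intro b hb a ha
    rw [← hgen] at hb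
    induction hb using NonUnitalAlgebra.adjoin_induction with
    | mem x hx => exact hc1 x hx a ha
    | add x y _ _ hx hy =>
      have : a * (x + y) - (x + y) * a = (a * x - x * a) + (a * y - y * a) := by noncomm_ring
      rw [this]
      exact J.add_mem hx hy
    | zero => simp
    | mul x y _ _ hx hy =>
      have : a * (x * y) - x * y * a = (a * x - x * a) * y + x * (a * y - y * a) := by
        noncomm_ring
      rw [this]
      exact J.add_mem (hJr _ hx _) (hJl _ hy _)
    | smul t x _ hx =>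
      have : a * (t • x) - (t • x) * a = t • (a * x - x * a) := by
        rw [smul_mul_assoc, mul_smul_comm, smul_sub]
      rw [this]
      exact J.smul_mem t hx
  have hcomm : ∀ x y : R, x * y - y * x ∈ I := by
    intro x y
    obtain ⟨s, a, ha, rfl⟩ := hR x
    obtain ⟨t, b, hb, rfl⟩ := hR y
    have : (algebraMap ℚ R s + a) * (algebraMap ℚ R t + b) -
        (algebraMap ℚ R t + b) * (algebraMap ℚ R s + a) = a * b - b * a := by
      have h1 := Algebra.commutes s b
      have h2 := Algebra.commutes t a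
      have h3 := Algebra.commutes s (algebraMap ℚ R t)
      simp only [add_mul, mul_add]
      rw [h1, h2, h3]
      abel
    rw [this, hI]
    exact hc2 b hb a ha
  obtain ⟨m, hm⟩ := quot_main I hcomm A hnil hprop
  rw [show (A : Set R) = (A.toSubmodule : Set R) from rfl, nilpSet_iff]
  refine ⟨m * n, ?_⟩
  rw [← le_bot_iff, pow_mul, ← hJn]
  have h1 : A.toSubmodule ^ m ≤ J := pow_le_of_list _ _ m (fun l hl h => hm l hl h)
  exact pow_le_pow_left' h1 n

end Pool.Agent.Helper160.NonNilp
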