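import Mathlib
import Pool.Agent.Helper160.NonNilpGen

set_option autoImplicit false

open Finset

namespace Pool.Agent.Helper160.NonNilp

section
variable {R : Type*} [Ring R] [Algebra ℚ R]

theorem mem_adjoin_sq (a x : R) (hx : x ∈ NonUnitalAlgebra.adjoin ℚ ({a ^ 2} : Set R)) :
    ∃ p : Polynomial ℚ, x = Polynomial.aeval a (Polynomial.X ^ 2 * p) := by
  induction hx using NonUnitalAlgebra.adjoin_induction with
  | mem x hx =>
    rw [Set.mem_singleton_iff] at hx
    exact ⟨1, by simp [hx]⟩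
  | add x y _ _ hx hy =>
    obtain ⟨p, rfl⟩ := hx
    obtain ⟨q, rfl⟩ := hy
    exact ⟨p + q, by rw [mul_add, map_add]⟩
  | zero => exact ⟨0, by simp⟩
  | mul x y _ _ hx hy =>
    obtain ⟨p, rfl⟩ := hx
    obtain ⟨q, rfl⟩ := hy
    exact ⟨p * (Polynomial.X ^ 2 * q), by rw [← map_mul, mul_assoc]⟩
  | smul t x _ hx =>
    obtain ⟨p, rfl⟩ := hx
    exact ⟨t • p, by rw [mul_smul_comm, map_smul]⟩

theorem mem_adjoin_idem (e : R) (he : e * e = e) (x : R)
    (hx : x ∈ NonUnitalAlgebra.adjoin ℚ ({e} : Set R)) : ∃ t : ℚ, x = t • e := by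
  induction hx using NonUnitalAlgebra.adjoin_induction with
  | mem x hx =>
    rw [Set.mem_singleton_iff] at hx
    exact ⟨1, by rw [hx, one_smul]⟩
  | add x y _ _ hx hy =>
    obtain ⟨p, rfl⟩ := hx
    obtain ⟨q, rfl⟩ := hy
    exact ⟨p + q, by rw [add_smul]⟩
  | zero => exact ⟨0, by simp⟩
  | mul x y _ _ hx hy =>
    obtain ⟨p, rfl⟩ := hx
    obtain ⟨q, rfl⟩ := hy
    exact ⟨p * q, by rw [smul_mul_smul_comm, he]⟩
  | smul t x _ hx =>
    obtain ⟨p, rfl⟩ := hx
    exact ⟨t * p, by rw [mul_smul]⟩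

theorem pow_eq_zero_of_nilpSet (B : NonUnitalSubalgebra ℚ R) (hB : NilpSet (B : Set R)) (x : R)
    (hx : x ∈ B) : ∃ n : ℕ, x ^ n = 0 := by
  obtain ⟨n, hn⟩ := hB
  refine ⟨n, ?_⟩
  have := hn (List.replicate n x) (by
    intro y hy
    rw [List.eq_of_mem_replicate hy]
    exact hx) (List.length_replicate)
  rwa [List.prod_replicate] at this

/-- In an algebra all of whose proper subalgebras are nilpotent, and which is not one-dimensional,
every element is nilpotent. -/
theorem nil_of (A : NonUnitalSubalgebra ℚ R)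
    (hR : ∀ r : R, ∃ t : ℚ, ∃ a ∈ A, r = algebraMap ℚ R t + a)
    (hrank : ¬ ∃ e ∈ A, ∀ a ∈ A, ∃ t : ℚ, a = t • e)
    (hprop : ∀ B : NonUnitalSubalgebra ℚ R, B ≤ A → B ≠ A → NilpSet (B : Set R)) :
    ∀ a ∈ A, IsNilpotent a := by
  intro a ha
  by_contra hnil
  have hAr : ∀ x ∈ A, ∀ r : R, r * x ∈ A := by
    intro x hx r
    obtain ⟨t, b, hb, rfl⟩ := hR r
    rw [add_mul, ← Algebra.smul_def]
    exact A.add_mem (SMulMemClass.smul_mem t hx) (A.mul_mem hb hx)
  -- the subalgebra generated by `a ^ 2` is everything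
  have h2 : NonUnitalAlgebra.adjoin ℚ ({a ^ 2} : Set R) = A := by
    by_contra hne
    have hle : NonUnitalAlgebra.adjoin ℚ ({a ^ 2} : Set R) ≤ A := by
      apply NonUnitalAlgebra.adjoin_le
      rintro x hx
      rw [Set.mem_singleton_iff] at hx
      rw [hx, pow_two]
      exact A.mul_mem ha ha
    obtain ⟨n, hn⟩ := pow_eq_zero_of_nilpSet _ (hprop _ hle hne) (a ^ 2)
      (NonUnitalAlgebra.subset_adjoin ℚ (Set.mem_singleton _))
    exact hnil ⟨2 * n, by rw [pow_mul, hn]⟩
  have ha2 : a ∈ NonUnitalAlgebra.adjoin ℚ ({a ^ 2} : Set R) := by rw [h2]; exact ha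
  obtain ⟨p, hp⟩ := mem_adjoin_sq a a ha2
  set e := Polynomial.aeval a p * a with he
  have hae : a * e = a := by
    rw [he]
    have : a * (Polynomial.aeval a p * a) = Polynomial.aeval a (Polynomial.X ^ 2 * p) := by
      rw [map_mul, map_pow, Polynomial.aeval_X]
      have hc : Polynomial.aeval a p * a = a * Polynomial.aeval a p := by
        have : Polynomial.aeval a (p * Polynomial.X) = Polynomial.aeval a (Polynomial.X * p) := by
          rw [mul_comm]
        simpa using this
      rw [hc, ← mul_assoc, pow_two]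
    rw [this, ← hp]
  have hee : e * e = e := by
    conv_lhs => rw [he, mul_assoc, hae]
  have heA : e ∈ A := hAr a ha _
  have he0 : e ≠ 0 := by
    intro h0
    rw [h0, mul_zero] at hae
    exact hnil ⟨1, by rw [← hae]; simp⟩
  have h3 : NonUnitalAlgebra.adjoin ℚ ({e} : Set R) = A := by
    by_contra hne
    have hle : NonUnitalAlgebra.adjoin ℚ ({e} : Set R) ≤ A := by
      apply NonUnitalAlgebra.adjoin_le
      rintro x hx
      rw [Set.mem_singleton_iff] at hx
      rw [hx]
      exact heA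
    obtain ⟨n, hn⟩ := pow_eq_zero_of_nilpSet _ (hprop _ hle hne) e
      (NonUnitalAlgebra.subset_adjoin ℚ (Set.mem_singleton _))
    have hpow : ∀ k : ℕ, e ^ (k + 1) = e := by
      intro k
      induction k with
      | zero => simp
      | succ k ih => rw [pow_succ, ih, hee]
    apply he0
    rw [← hpow n, pow_succ, hn, zero_mul]
  exact hrank ⟨e, heA, fun x hx => mem_adjoin_idem e hee x (by rw [h3]; exact hx)⟩

end

section
variable (A : Type*) [NonUnitalRing A] [Module ℚ A] [IsScalarTower ℚ A A] [SMulCommClass ℚ A A]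

/-- The derived series of `A` as a Lie algebra, `U_0 = A` and `U_{k+1} = span [U_k, U_k]`. -/
def lieDer : ℕ → Submodule ℚ A
  | 0 => ⊤
  | k + 1 => Submodule.span ℚ {c | ∃ x ∈ lieDer k, ∃ y ∈ lieDer k, c = x * y - y * x}

variable {A}

theorem lieDer_lie (k : ℕ) : ∀ a : A, ∀ u ∈ lieDer A k, a * u - u * a ∈ lieDer A k := by
  induction k with
  | zero => intro a u _; exact Submodule.mem_top
  | succ k ih =>
    intro a u hu
    change u ∈ Submodule.span ℚ {c | ∃ x ∈ lieDer A k, ∃ y ∈ lieDer A k, c = x * y - y * x} at hu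
    change _ ∈ Submodule.span ℚ {c | ∃ x ∈ lieDer A k, ∃ y ∈ lieDer A k, c = x * y - y * x}
    induction hu using Submodule.span_induction with
    | mem c hc =>
      obtain ⟨x, hx, y, hy, rfl⟩ := hc
      have : a * (x * y - y * x) - (x * y - y * x) * a =
          ((a * x - x * a) * y - y * (a * x - x * a)) +
          (x * (a * y - y * a) - (a * y - y * a) * x) := by noncomm_ring
      rw [this]
      exact Submodule.add_mem _ (Submodule.subset_span ⟨_, ih a x hx, y, hy, rfl⟩)
        (Submodule.subset_span ⟨x, hx, _, ih a y hy, rfl⟩)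
    | zero => simp
    | add x y _ _ hx hy =>
      have : a * (x + y) - (x + y) * a = (a * x - x * a) + (a * y - y * a) := by noncomm_ring
      rw [this]
      exact Submodule.add_mem _ hx hy
    | smul t x _ hx =>
      have : a * (t • x) - (t • x) * a = t • (a * x - x * a) := by
        rw [smul_mul_assoc, mul_smul_comm, smul_sub]
      rw [this]
      exact Submodule.smul_mem _ t hx

theorem adjoin_lie (k : ℕ) (a d : A) (hd : d ∈ NonUnitalAlgebra.adjoin ℚ (lieDer A k : Set A)) :
    a * d - d * a ∈ NonUnitalAlgebra.adjoin ℚ (lieDer A k : Set A) := by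
  induction hd using NonUnitalAlgebra.adjoin_induction with
  | mem x hx => exact NonUnitalAlgebra.subset_adjoin ℚ (lieDer_lie k a x hx)
  | add x y _ _ hx hy =>
    have : a * (x + y) - (x + y) * a = (a * x - x * a) + (a * y - y * a) := by noncomm_ring
    rw [this]
    exact add_mem hx hy
  | zero => simp
  | mul x y hx' hy' hx hy =>
    have : a * (x * y) - x * y * a = (a * x - x * a) * y + x * (a * y - y * a) := by
      noncomm_ring
    rw [this]
    exact add_mem (mul_mem hx hy') (mul_mem hx' hy)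
  | smul t x _ hx =>
    have : a * (t • x) - (t • x) * a = t • (a * x - x * a) := by
      rw [smul_mul_assoc, mul_smul_comm, smul_sub]
    rw [this]
    exact SMulMemClass.smul_mem t hx

theorem inr_foldl (l : List A) (a : A) :
    (Unitization.inr (l.foldl (fun x y => x * y) a) : Unitization ℚ A) =
      Unitization.inr a * (l.map (fun x => (Unitization.inr x : Unitization ℚ A))).prod := by
  induction l generalizing a with
  | nil => simp
  | cons b l ih =>
    rw [List.foldl_cons, ih, List.map_cons, List.prod_cons, Unitization.inr_mul, mul_assoc]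

theorem main (hrank : 1 < Module.rank ℚ A)
    (hprop : ∀ B : NonUnitalSubalgebra ℚ A, B ≠ ⊤ →
        ∃ n : ℕ, ∀ a ∈ B, ∀ l : List A, (∀ x ∈ l, x ∈ B) → l.length = n →
          l.foldl (fun x y => x * y) a = 0)
    (hlie : ∃ k : ℕ, NonUnitalAlgebra.adjoin ℚ (lieDer A k : Set A) ≠ ⊤) :
    ∃ n : ℕ, ∀ a : A, ∀ l : List A, l.length = n → l.foldl (fun x y => x * y) a = 0 := by
  classical
  let φ : A →ₙₐ[ℚ] Unitization ℚ A := Unitization.inrNonUnitalAlgHom ℚ A
  have hφ : ∀ a, φ a = Unitization.inr a := fun a => rfl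
  have hφinj : Function.Injective φ := Unitization.inr_injective
  let A' : NonUnitalSubalgebra ℚ (Unitization ℚ A) := (⊤ : NonUnitalSubalgebra ℚ A).map φ
  have hmem : ∀ x, x ∈ A' ↔ ∃ a, φ a = x := by
    intro x
    constructor
    · rintro ⟨a, _, rfl⟩
      exact ⟨a, rfl⟩
    · rintro ⟨a, rfl⟩
      exact ⟨a, trivial, rfl⟩
  have hR : ∀ r : Unitization ℚ A, ∃ t : ℚ, ∃ a ∈ A', r = algebraMap ℚ _ t + a := by
    intro r
    refine ⟨r.fst, φ r.snd, (hmem _).2 ⟨_, rfl⟩, ?_⟩
    rw [Unitization.algebraMap_eq_inl, hφ]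
    exact (Unitization.inl_fst_add_inr_snd_eq r).symm
  have hprop' : ∀ B : NonUnitalSubalgebra ℚ (Unitization ℚ A), B ≤ A' → B ≠ A' →
      NilpSet (B : Set (Unitization ℚ A)) := by
    intro B hB hne
    have hne' : B.comap φ ≠ ⊤ := by
      intro heq
      apply hne
      apply le_antisymm hB
      intro x hx
      obtain ⟨a, rfl⟩ := (hmem x).1 hx
      have : a ∈ B.comap φ := by rw [heq]; trivial
      exact this
    obtain ⟨n, hn⟩ := hprop _ hne'
    refine ⟨n + 1, fun l hl hlen => ?_⟩
    have hlift : ∀ l : List (Unitization ℚ A), (∀ x ∈ l, x ∈ B) → ∃ l' : List A,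
        (∀ x ∈ l', x ∈ B.comap φ) ∧
        l'.map (fun x => (Unitization.inr x : Unitization ℚ A)) = l := by
      intro l
      induction l with
      | nil => intro _; exact ⟨[], by simp, rfl⟩
      | cons x l ih =>
        intro hl
        obtain ⟨l', h1, h2⟩ := ih (fun y hy => hl y (by simp [hy]))
        obtain ⟨a, ha⟩ := (hmem x).1 (hB (hl x (by simp)))
        refine ⟨a :: l', ?_, by rw [List.map_cons, h2, ← ha, hφ]⟩
        intro y hy
        rcases List.mem_cons.1 hy with rfl | hy
        · show φ y ∈ B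
          rw [ha]
          exact hl x (by simp)
        · exact h1 y hy
    obtain ⟨l', h1, h2⟩ := hlift l hl
    cases l' with
    | nil =>
      rw [← h2] at hlen
      simp at hlen
    | cons a l' =>
      rw [← h2, List.map_cons, List.prod_cons, ← inr_foldl,
        hn a (h1 a (by simp)) l' (fun x hx => h1 x (by simp [hx])), Unitization.inr_zero]
      rw [← h2] at hlen
      simpa using hlen
  have hrank' : ¬ ∃ e ∈ A', ∀ a ∈ A', ∃ t : ℚ, a = t • e := by
    rintro ⟨e, he, h⟩
    obtain ⟨e0, rfl⟩ := (hmem e).1 he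
    apply absurd hrank
    rw [not_lt, rank_le_one_iff]
    refine ⟨e0, fun a => ?_⟩
    obtain ⟨t, ht⟩ := h (φ a) ((hmem _).2 ⟨a, rfl⟩)
    refine ⟨t, hφinj ?_⟩
    rw [map_smul, ht]
  have hnil := nil_of A' hR hrank' hprop'
  -- the first term of the derived series which does not generate
  obtain ⟨hk, hkmin⟩ := And.intro (Nat.find_spec hlie) (fun m (hm : m < Nat.find hlie) => Nat.find_min hlie hm)
  set k := Nat.find hlie with hkdef
  have hk0 : k ≠ 0 := by
    intro h0
    rw [h0] at hk
    apply hk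
    rw [eq_top_iff]
    intro x _
    exact NonUnitalAlgebra.subset_adjoin ℚ (show x ∈ (lieDer A 0 : Set A) from trivial)
  obtain ⟨j, hj⟩ : ∃ j, k = j + 1 := ⟨k - 1, by omega⟩
  have hj1 : NonUnitalAlgebra.adjoin ℚ (lieDer A j : Set A) = ⊤ := by
    by_contra hc
    exact hkmin j (by omega) hc
  rw [hj] at hk
  set D0 := NonUnitalAlgebra.adjoin ℚ (lieDer A (j + 1) : Set A) with hD0
  have hDne : D0.map φ ≠ A' := by
    intro heq
    apply hk
    rw [eq_top_iff]
    intro x _
    have : φ x ∈ D0.map φ := by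
      rw [heq]
      exact (hmem _).2 ⟨x, rfl⟩
    obtain ⟨y, hy, hyx⟩ := this
    rw [← hφinj hyx]
    exact hy
  have hconc : NilpSet (A' : Set (Unitization ℚ A)) := by
    apply lie_main A' hR hnil hprop' (φ '' (lieDer A j : Set A)) ?_ (D0.map φ) ?_ hDne
    · intro a ha d hd
      obtain ⟨a, rfl⟩ := (hmem a).1 ha
      obtain ⟨d, hd, rfl⟩ := hd
      refine ⟨a * d - d * a, adjoin_lie (j + 1) a d hd, ?_⟩
      show φ (a * d - d * a) = φ a * φ d - φ d * φ a
      rw [map_sub, map_mul, map_mul]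
    · intro w hw w' hw'
      obtain ⟨w, hw, rfl⟩ := hw
      obtain ⟨w', hw', rfl⟩ := hw'
      refine ⟨w * w' - w' * w, ?_, ?_⟩
      · apply NonUnitalAlgebra.subset_adjoin ℚ
        exact Submodule.subset_span ⟨w, hw, w', hw', rfl⟩
      · show φ (w * w' - w' * w) = φ w * φ w' - φ w' * φ w
        rw [map_sub, map_mul, map_mul]
    · rw [← NonUnitalAlgHom.map_adjoin, hj1]
    · intro x hx
      obtain ⟨d, _, rfl⟩ := hx
      exact (hmem _).2 ⟨d, rfl⟩
  obtain ⟨n, hn⟩ := hconc
  refine ⟨n, fun a l hl => ?_⟩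
  have h1 : (Unitization.inr (l.foldl (fun x y => x * y) a) : Unitization ℚ A) = 0 := by
    rw [inr_foldl, hn, mul_zero]
    · intro x hx
      obtain ⟨b, _, rfl⟩ := List.mem_map.1 hx
      exact (hmem _).2 ⟨b, rfl⟩
    · simpa using hl
  exact hφinj (h1.trans (map_zero φ).symm)

end

end Pool.Agent.Helper160.NonNilp
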