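import Mathlib

set_option autoImplicit false
set_option linter.unusedSectionVars false

open Finset

namespace Pool.Agent.Helper160.R3

section
variable {α : Type*} [DecidableEq α]

/-- The monomial of a finite set. -/
def mon (z : α → ℝ) (D : Finset α) : ℝ := ∏ a ∈ D, z a

/-- Elementary symmetric function of `z` over `s`. -/
def es (z : α → ℝ) (s : Finset α) (k : ℕ) : ℝ := ∑ D ∈ powersetCard k s, mon z D

theorem mon_nonneg {z : α → ℝ} (hz : ∀ a, 0 ≤ z a) (D : Finset α) : 0 ≤ mon z D :=
  Finset.prod_nonneg fun a _ => hz a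

theorem mon_insert (z : α → ℝ) {a : α} {D : Finset α} (h : a ∉ D) :
    mon z (insert a D) = z a * mon z D := Finset.prod_insert h

theorem es_nonneg {z : α → ℝ} (hz : ∀ a, 0 ≤ z a) (s : Finset α) (k : ℕ) : 0 ≤ es z s k :=
  Finset.sum_nonneg fun D _ => mon_nonneg hz D

theorem es_zero (z : α → ℝ) (s : Finset α) : es z s 0 = 1 := by
  simp [es, mon]

theorem es_insert_succ (z : α → ℝ) {a : α} {s : Finset α} (h : a ∉ s) (k : ℕ) :
    es z (insert a s) (k + 1) = es z s (k + 1) + z a * es z s k := by
  unfold es
  rw [powersetCard_succ_insert h, sum_union, sum_image, mul_sum]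
  · congr 1
    apply sum_congr rfl
    intro D hD
    rw [mon_insert]
    intro haD
    exact h ((mem_powersetCard.1 hD).1 haD)
  · intro D hD E hE hDE
    have h1 : a ∉ D := fun haD => h ((mem_powersetCard.1 hD).1 haD)
    have h2 : a ∉ E := fun haD => h ((mem_powersetCard.1 hE).1 haD)
    have h3 : (insert a D).erase a = (insert a E).erase a := congrArg (fun x => x.erase a) hDE
    rwa [erase_insert h1, erase_insert h2] at h3
  · rw [disjoint_left]
    intro D hD hD2
    obtain ⟨E, hE, rfl⟩ := mem_image.1 hD2
    exact h ((mem_powersetCard.1 hD).1 (mem_insert_self a E))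

theorem es_empty_succ (z : α → ℝ) (k : ℕ) : es z (∅ : Finset α) (k + 1) = 0 := by
  unfold es
  rw [powersetCard_eq_empty.2 (by simp), sum_empty]

theorem es_one (z : α → ℝ) (s : Finset α) : es z s 1 = ∑ a ∈ s, z a := by
  induction s using Finset.induction_on with
  | empty => rw [es_empty_succ]; simp
  | insert a s h ih => rw [es_insert_succ z h, ih, es_zero, sum_insert h]; ring

theorem es_two (z : α → ℝ) (s : Finset α) :
    2 * es z s 2 = (∑ a ∈ s, z a) ^ 2 - ∑ a ∈ s, z a ^ 2 := by
  induction s using Finset.induction_on with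
  | empty => rw [es_empty_succ]; simp
  | insert a s h ih =>
    rw [es_insert_succ z h, es_one, sum_insert h, sum_insert h]
    linear_combination ih

theorem es_three (z : α → ℝ) (s : Finset α) :
    6 * es z s 3 = (∑ a ∈ s, z a) ^ 3 - 3 * (∑ a ∈ s, z a) * (∑ a ∈ s, z a ^ 2) +
      2 * ∑ a ∈ s, z a ^ 3 := by
  induction s using Finset.induction_on with
  | empty => rw [es_empty_succ]; simp
  | insert a s h ih =>
    rw [es_insert_succ z h, sum_insert h, sum_insert h, sum_insert h]
    have h2 := es_two z s
    linear_combination ih + 3 * z a * h2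

/-- Sum over sets not containing `a`, re-indexed. -/
theorem sum_insert_card [Fintype α] (a : α) (k : ℕ) (f : Finset α → ℝ) :
    ∑ D ∈ (powersetCard k (univ : Finset α)).filter (fun D => a ∉ D), f (insert a D) =
      ∑ D ∈ (powersetCard (k + 1) (univ : Finset α)).filter (fun D => a ∈ D), f D := by
  refine sum_bij' (fun D _ => insert a D) (fun D _ => D.erase a) ?_ ?_ ?_ ?_ ?_
  · intro D hD
    rw [mem_filter, mem_powersetCard] at hD ⊢
    refine ⟨⟨subset_univ _, ?_⟩, mem_insert_self _ _⟩
    rw [card_insert_of_notMem hD.2, hD.1.2]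
  · intro D hD
    rw [mem_filter, mem_powersetCard] at hD ⊢
    refine ⟨⟨subset_univ _, ?_⟩, notMem_erase _ _⟩
    rw [card_erase_of_mem hD.2, hD.1.2, Nat.add_sub_cancel]
  · intro D hD
    exact erase_insert (mem_filter.1 hD).2
  · intro D hD
    exact insert_erase (mem_filter.1 hD).2
  · intro D hD
    rfl

theorem es_mul_sum [Fintype α] (z : α → ℝ) (k : ℕ) :
    es z univ k * ∑ a, z a = (k + 1) * es z univ (k + 1) +
      ∑ D ∈ powersetCard k (univ : Finset α), mon z D * ∑ a ∈ D, z a := by
  have h1 : ∀ a : α, es z univ k * z a =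
      (∑ D ∈ (powersetCard (k + 1) (univ : Finset α)).filter (fun D => a ∈ D), mon z D) +
      ∑ D ∈ (powersetCard k (univ : Finset α)).filter (fun D => a ∈ D), mon z D * z a := by
    intro a
    unfold es
    rw [← sum_filter_add_sum_filter_not (powersetCard k (univ : Finset α)) (fun D => a ∉ D),
      add_mul, sum_mul, sum_mul]
    congr 1
    · rw [← sum_insert_card a k]
      apply sum_congr rfl
      intro D hD
      rw [mon_insert z (mem_filter.1 hD).2, mul_comm]
    · apply sum_congr _ (fun _ _ => rfl)
      ext D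
      simp
  rw [mul_sum, sum_congr rfl (fun a _ => h1 a), sum_add_distrib]
  congr 1
  · simp only [sum_filter]
    rw [sum_comm]
    unfold es
    rw [mul_sum]
    apply sum_congr rfl
    intro D hD
    rw [← sum_filter, sum_const, nsmul_eq_mul]
    congr 1
    have : (univ.filter (fun a => a ∈ D)) = D := by ext a; simp
    rw [this, (mem_powersetCard.1 hD).2]
    push_cast
    ring
  · simp only [sum_filter]
    rw [sum_comm]
    apply sum_congr rfl
    intro D _
    rw [← sum_filter, mul_sum]
    apply sum_congr _ (fun _ _ => rfl)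
    ext a; simp

end

end Pool.Agent.Helper160.R3
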