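import Mathlib
import Pool.Agent.Helper160.R3Esymm

set_option autoImplicit false
set_option linter.unusedSectionVars false

open Finset

namespace Pool.Agent.Helper160.R3

variable {ι κ : Type*} [Fintype ι] [Fintype κ] [DecidableEq ι] [DecidableEq κ]

/-- Two cells in different rows and different columns. -/
def gen (a b : ι × κ) : Prop := a.1 ≠ b.1 ∧ a.2 ≠ b.2

instance (a b : ι × κ) : Decidable (gen a b) := by unfold gen; infer_instance

theorem gen_symm {a b : ι × κ} (h : gen a b) : gen b a := ⟨h.1.symm, h.2.symm⟩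

theorem gen_comm (a b : ι × κ) : gen a b ↔ gen b a := ⟨gen_symm, gen_symm⟩

def Rw (z : ι × κ → ℝ) (i : ι) : ℝ := ∑ j, z (i, j)
def Cl (z : ι × κ → ℝ) (j : κ) : ℝ := ∑ i, z (i, j)

theorem sum_row_eq (g : ι × κ → ℝ) (i : ι) :
    ∑ b : ι × κ, (if b.1 = i then g b else 0) = ∑ j, g (i, j) := by
  rw [Fintype.sum_prod_type]
  rw [Finset.sum_eq_single i]
  · simp
  · intro k _ hk
    simp [hk]
  · simp

theorem sum_col_eq (g : ι × κ → ℝ) (j : κ) :
    ∑ b : ι × κ, (if b.2 = j then g b else 0) = ∑ i, g (i, j) := by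
  rw [Fintype.sum_prod_type]
  apply Finset.sum_congr rfl
  intro i _
  simp

theorem sum_gen (a : ι × κ) (g : ι × κ → ℝ) :
    ∑ b, (if gen a b then g b else 0) =
      (∑ b, g b) - (∑ j, g (a.1, j)) - (∑ i, g (i, a.2)) + g a := by
  have h1 : ∀ b : ι × κ, (if gen a b then g b else 0) =
      g b - (if b.1 = a.1 then g b else 0) - (if b.2 = a.2 then g b else 0) +
        (if b = a then g b else 0) := by
    intro b
    by_cases h : b.1 = a.1 <;> by_cases h' : b.2 = a.2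
    · have hb : b = a := Prod.ext h h'
      subst hb
      simp [gen]
    · have hb : b ≠ a := fun hc => h' (by rw [hc])
      simp [gen, h, h', hb]
    · have hb : b ≠ a := fun hc => h (by rw [hc])
      simp [gen, h, h', hb]
    · have hb : b ≠ a := fun hc => h (by rw [hc])
      have h2 : a.1 ≠ b.1 := fun hc => h hc.symm
      have h3 : a.2 ≠ b.2 := fun hc => h' hc.symm
      simp [gen, h, h', hb, h2, h3]
  rw [Finset.sum_congr rfl (fun b _ => h1 b), Finset.sum_add_distrib, Finset.sum_sub_distrib,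
    Finset.sum_sub_distrib, sum_row_eq, sum_col_eq]
  congr 1
  simp

/-- Twice the sum over generic pairs. -/
def tt (z : ι × κ → ℝ) : ℝ := ∑ a, ∑ b, if gen a b then z a * z b else 0

theorem sum_rw (z : ι × κ → ℝ) (g : ι → ℝ) : ∑ a : ι × κ, z a * g a.1 = ∑ i, Rw z i * g i := by
  rw [Fintype.sum_prod_type]
  apply Finset.sum_congr rfl
  intro i _
  rw [Rw, Finset.sum_mul]

theorem sum_cl (z : ι × κ → ℝ) (g : κ → ℝ) : ∑ a : ι × κ, z a * g a.2 = ∑ j, Cl z j * g j := by
  rw [Fintype.sum_prod_type_right]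
  apply Finset.sum_congr rfl
  intro i _
  rw [Cl, Finset.sum_mul]

/-- Master formula: sum over generic pairs of `z a * z b * g a`. -/
theorem sum_gen_left (z g : ι × κ → ℝ) :
    ∑ a, ∑ b, (if gen a b then z a * z b * g a else 0) =
      ∑ a, z a * g a * ((∑ b, z b) - Rw z a.1 - Cl z a.2 + z a) := by
  apply Finset.sum_congr rfl
  intro a _
  have h := sum_gen a (fun b => z a * z b * g a)
  rw [h]
  simp only [Rw, Cl]
  have h1 : ∑ b, z a * z b * g a = z a * g a * ∑ b, z b := by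
    rw [Finset.mul_sum]; exact Finset.sum_congr rfl (fun b _ => by ring)
  have h2 : ∑ j, z a * z (a.1, j) * g a = z a * g a * ∑ j, z (a.1, j) := by
    rw [Finset.mul_sum]; exact Finset.sum_congr rfl (fun b _ => by ring)
  have h3 : ∑ i, z a * z (i, a.2) * g a = z a * g a * ∑ i, z (i, a.2) := by
    rw [Finset.mul_sum]; exact Finset.sum_congr rfl (fun b _ => by ring)
  rw [h1, h2, h3]
  ring

theorem sum_gen_right (z g : ι × κ → ℝ) :
    ∑ a, ∑ b, (if gen a b then z a * z b * g b else 0) =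
      ∑ a, ∑ b, (if gen a b then z a * z b * g a else 0) := by
  rw [Finset.sum_comm]
  apply Finset.sum_congr rfl
  intro a _
  apply Finset.sum_congr rfl
  intro b _
  by_cases h : gen a b
  · rw [if_pos h, if_pos (gen_symm h)]; ring
  · rw [if_neg h, if_neg (fun hc => h (gen_symm hc))]

theorem tt_eq (z : ι × κ → ℝ) :
    tt z = (∑ a, z a) ^ 2 - (∑ i, Rw z i ^ 2) - (∑ j, Cl z j ^ 2) + ∑ a, z a ^ 2 := by
  have h := sum_gen_left z (fun _ => 1)
  simp only [mul_one] at h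
  rw [tt, h]
  have h1 : ∑ a, z a * ((∑ b, z b) - Rw z a.1 - Cl z a.2 + z a) =
      (∑ a, z a * ∑ b, z b) - (∑ a, z a * Rw z a.1) - (∑ a, z a * Cl z a.2) + ∑ a, z a ^ 2 := by
    rw [← Finset.sum_sub_distrib, ← Finset.sum_sub_distrib, ← Finset.sum_add_distrib]
    exact Finset.sum_congr rfl (fun a _ => by ring)
  rw [h1, sum_rw, sum_cl, ← Finset.sum_mul]
  simp only [← pow_two]

/-- The mass outside two rows and two columns. -/
theorem mass_out (z : ι × κ → ℝ) (a b : ι × κ) (h : gen a b) :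
    ∑ d, (if gen a d then (if gen b d then z d else 0) else 0) =
      (∑ d, z d) - Rw z a.1 - Rw z b.1 - Cl z a.2 - Cl z b.2 + z a + z b + z (a.1, b.2) +
        z (b.1, a.2) := by
  rw [sum_gen a (fun d => if gen b d then z d else 0), sum_gen b z]
  have h1 : ∑ j, (if gen b (a.1, j) then z (a.1, j) else 0) = Rw z a.1 - z (a.1, b.2) := by
    have h2 : ∀ j, (if gen b (a.1, j) then z (a.1, j) else 0) =
        z (a.1, j) - (if j = b.2 then z (a.1, j) else 0) := by
      intro j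
      by_cases hj : j = b.2
      · subst hj; simp [gen]
      · have : b.2 ≠ j := fun hc => hj hc.symm
        have h3 : b.1 ≠ a.1 := h.1.symm
        simp [gen, hj, this, h3]
    rw [Finset.sum_congr rfl (fun j _ => h2 j), Finset.sum_sub_distrib, Rw]
    simp
  have h2 : ∑ i, (if gen b (i, a.2) then z (i, a.2) else 0) = Cl z a.2 - z (b.1, a.2) := by
    have h2 : ∀ i, (if gen b (i, a.2) then z (i, a.2) else 0) =
        z (i, a.2) - (if i = b.1 then z (i, a.2) else 0) := by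
      intro j
      by_cases hj : j = b.1
      · subst hj; simp [gen]
      · have : b.1 ≠ j := fun hc => hj hc.symm
        have h3 : b.2 ≠ a.2 := h.2.symm
        simp [gen, hj, this, h3]
    rw [Finset.sum_congr rfl (fun j _ => h2 j), Finset.sum_sub_distrib, Cl]
    simp
  rw [h1, h2, if_pos (gen_symm h)]
  simp only [Rw, Cl]
  ring

/-- Six times the sum over generic triples. -/
def ttt (z : ι × κ → ℝ) : ℝ :=
  ∑ a, ∑ b, if gen a b then z a * z b *
    (∑ d, (if gen a d then (if gen b d then z d else 0) else 0)) else 0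

theorem ttt_nonneg {z : ι × κ → ℝ} (hz : ∀ a, 0 ≤ z a) : 0 ≤ ttt z := by
  apply Finset.sum_nonneg
  intro a _
  apply Finset.sum_nonneg
  intro b _
  split_ifs
  · apply mul_nonneg (mul_nonneg (hz a) (hz b))
    apply Finset.sum_nonneg
    intro d _
    split_ifs
    · exact hz d
    · exact le_refl _
    · exact le_refl _
  · exact le_refl _

theorem corner (z : ι × κ → ℝ) :
    ∑ a, ∑ b, (if gen a b then z a * z b * z (a.1, b.2) else 0) =
      ∑ e : ι × κ, z e * (Rw z e.1 - z e) * (Cl z e.2 - z e) := by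
  have h1 : ∀ i j, (∑ j' : κ, if j' ≠ j then z (i, j') else 0) = Rw z i - z (i, j) := by
    intro i j
    have : ∀ j', (if j' ≠ j then z (i, j') else 0) = z (i, j') - (if j' = j then z (i, j') else 0) := by
      intro j'
      by_cases h : j' = j <;> simp [h]
    rw [Finset.sum_congr rfl (fun j' _ => this j'), Finset.sum_sub_distrib, Rw]
    simp
  have h2 : ∀ i j, (∑ i' : ι, if i ≠ i' then z (i', j) else 0) = Cl z j - z (i, j) := by
    intro i j
    have : ∀ i', (if i ≠ i' then z (i', j) else 0) = z (i', j) - (if i = i' then z (i', j) else 0) := by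
      intro j'
      by_cases h : i = j' <;> simp [h]
    rw [Finset.sum_congr rfl (fun j' _ => this j'), Finset.sum_sub_distrib, Cl]
    simp
  rw [Fintype.sum_prod_type, Fintype.sum_prod_type]
  apply Finset.sum_congr rfl
  intro i _
  have h3 : ∀ j' : κ, ∑ b : ι × κ, (if gen (i, j') b then z (i, j') * z b * z (i, b.2) else 0) =
      ∑ j : κ, ∑ i' : ι, (if j' ≠ j then z (i, j') else 0) * (if i ≠ i' then z (i', j) else 0) *
        z (i, j) := by
    intro j'
    rw [Fintype.sum_prod_type_right]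
    apply Finset.sum_congr rfl
    intro j _
    apply Finset.sum_congr rfl
    intro i' _
    by_cases ha : i = i' <;> by_cases hb : j' = j <;> simp [gen, ha, hb]
  rw [Finset.sum_congr rfl (fun j' _ => h3 j'), Finset.sum_comm]
  apply Finset.sum_congr rfl
  intro j _
  have h4 : ∀ j' : κ, ∑ i' : ι, (if j' ≠ j then z (i, j') else 0) *
      (if i ≠ i' then z (i', j) else 0) * z (i, j) =
      (if j' ≠ j then z (i, j') else 0) * ((Cl z j - z (i, j)) * z (i, j)) := by
    intro j'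
    rw [← h2 i j, Finset.sum_mul, Finset.mul_sum]
    exact Finset.sum_congr rfl (fun _ _ => by ring)
  rw [Finset.sum_congr rfl (fun j' _ => h4 j'), ← Finset.sum_mul, h1]
  ring

theorem corner' (z : ι × κ → ℝ) :
    ∑ a, ∑ b, (if gen a b then z a * z b * z (b.1, a.2) else 0) =
      ∑ e : ι × κ, z e * (Rw z e.1 - z e) * (Cl z e.2 - z e) := by
  rw [← corner z, Finset.sum_comm]
  apply Finset.sum_congr rfl
  intro a _
  apply Finset.sum_congr rfl
  intro b _
  by_cases h : gen a b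
  · rw [if_pos h, if_pos (gen_symm h)]; ring
  · rw [if_neg h, if_neg (fun hc => h (gen_symm hc))]

theorem ttt_eq (z : ι × κ → ℝ) :
    ttt z = (∑ a, z a) ^ 3 - 3 * (∑ a, z a) * (∑ i, Rw z i ^ 2)
      - 3 * (∑ a, z a) * (∑ j, Cl z j ^ 2) + 3 * (∑ a, z a) * (∑ a, z a ^ 2)
      + 6 * (∑ a, z a * Rw z a.1 * Cl z a.2) + 2 * (∑ i, Rw z i ^ 3) + 2 * (∑ j, Cl z j ^ 3)
      - 6 * (∑ a, z a ^ 2 * Rw z a.1) - 6 * (∑ a, z a ^ 2 * Cl z a.2) + 4 * ∑ a, z a ^ 3 := by
  set S := ∑ a, z a with hS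
  have h0 : ttt z = ∑ a, ∑ b, ((if gen a b then z a * z b * S else 0)
      - (if gen a b then z a * z b * Rw z a.1 else 0)
      - (if gen a b then z a * z b * Rw z b.1 else 0)
      - (if gen a b then z a * z b * Cl z a.2 else 0)
      - (if gen a b then z a * z b * Cl z b.2 else 0)
      + (if gen a b then z a * z b * z a else 0)
      + (if gen a b then z a * z b * z b else 0)
      + (if gen a b then z a * z b * z (a.1, b.2) else 0)
      + (if gen a b then z a * z b * z (b.1, a.2) else 0)) := by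
    unfold ttt
    apply Finset.sum_congr rfl
    intro a _
    apply Finset.sum_congr rfl
    intro b _
    by_cases h : gen a b
    · simp only [if_pos h]
      rw [mass_out z a b h]
      ring
    · simp only [if_neg h]
      ring
  rw [h0]
  simp only [Finset.sum_add_distrib, Finset.sum_sub_distrib]
  rw [sum_gen_right z (fun b => Rw z b.1), sum_gen_right z (fun b => Cl z b.2), sum_gen_right z z,
    sum_gen_left z (fun _ => S), sum_gen_left z (fun b => Rw z b.1),
    sum_gen_left z (fun b => Cl z b.2), sum_gen_left z z, corner, corner']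
  -- express everything through power sums
  have e1 : ∑ a, z a * Rw z a.1 = ∑ i, Rw z i ^ 2 := by
    rw [sum_rw]; exact Finset.sum_congr rfl (fun _ _ => by ring)
  have e2 : ∑ a, z a * Cl z a.2 = ∑ j, Cl z j ^ 2 := by
    rw [sum_cl]; exact Finset.sum_congr rfl (fun _ _ => by ring)
  have e3 : ∑ a : ι × κ, z a * Rw z a.1 ^ 2 = ∑ i, Rw z i ^ 3 := by
    rw [sum_rw z (fun i => Rw z i ^ 2)]; exact Finset.sum_congr rfl (fun _ _ => by ring)
  have e4 : ∑ a : ι × κ, z a * Cl z a.2 ^ 2 = ∑ j, Cl z j ^ 3 := by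
    rw [sum_cl z (fun i => Cl z i ^ 2)]; exact Finset.sum_congr rfl (fun _ _ => by ring)
  have f1 : ∑ a, z a * S * (S - Rw z a.1 - Cl z a.2 + z a) =
      S * (S * ∑ a, z a) - S * (∑ a, z a * Rw z a.1) - S * (∑ a, z a * Cl z a.2)
        + S * ∑ a, z a ^ 2 := by
    simp only [Finset.mul_sum, ← Finset.sum_sub_distrib, ← Finset.sum_add_distrib]
    exact Finset.sum_congr rfl (fun _ _ => by ring)
  have f2 : ∑ a, z a * Rw z a.1 * (S - Rw z a.1 - Cl z a.2 + z a) =
      S * (∑ a, z a * Rw z a.1) - (∑ a, z a * Rw z a.1 ^ 2) - (∑ a, z a * Rw z a.1 * Cl z a.2)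
        + ∑ a, z a ^ 2 * Rw z a.1 := by
    simp only [Finset.mul_sum, ← Finset.sum_sub_distrib, ← Finset.sum_add_distrib]
    exact Finset.sum_congr rfl (fun _ _ => by ring)
  have f3 : ∑ a, z a * Cl z a.2 * (S - Rw z a.1 - Cl z a.2 + z a) =
      S * (∑ a, z a * Cl z a.2) - (∑ a, z a * Rw z a.1 * Cl z a.2) - (∑ a, z a * Cl z a.2 ^ 2)
        + ∑ a, z a ^ 2 * Cl z a.2 := by
    simp only [Finset.mul_sum, ← Finset.sum_sub_distrib, ← Finset.sum_add_distrib]
    exact Finset.sum_congr rfl (fun _ _ => by ring)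
  have f4 : ∑ a, z a * z a * (S - Rw z a.1 - Cl z a.2 + z a) =
      S * (∑ a, z a ^ 2) - (∑ a, z a ^ 2 * Rw z a.1) - (∑ a, z a ^ 2 * Cl z a.2)
        + ∑ a, z a ^ 3 := by
    simp only [Finset.mul_sum, ← Finset.sum_sub_distrib, ← Finset.sum_add_distrib]
    exact Finset.sum_congr rfl (fun _ _ => by ring)
  have f5 : ∑ e, z e * (Rw z e.1 - z e) * (Cl z e.2 - z e) =
      (∑ a, z a * Rw z a.1 * Cl z a.2) - (∑ a, z a ^ 2 * Rw z a.1) - (∑ a, z a ^ 2 * Cl z a.2)
        + ∑ a, z a ^ 3 := by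
    simp only [← Finset.sum_sub_distrib, ← Finset.sum_add_distrib]
    exact Finset.sum_congr rfl (fun _ _ => by ring)
  rw [f1, f2, f3, f4, f5, e1, e2, e3, e4, ← hS]
  ring

/-- The sum of elementary symmetric functions over rows. -/
def Pr (z : ι × κ → ℝ) (k : ℕ) : ℝ := ∑ i, es z (univ.filter (fun a : ι × κ => a.1 = i)) k
def Qc (z : ι × κ → ℝ) (k : ℕ) : ℝ := ∑ j, es z (univ.filter (fun a : ι × κ => a.2 = j)) k

theorem sum_rowF (g : ι × κ → ℝ) (i : ι) :
    ∑ a ∈ univ.filter (fun a : ι × κ => a.1 = i), g a = ∑ j, g (i, j) := by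
  rw [Finset.sum_filter, sum_row_eq]

theorem sum_colF (g : ι × κ → ℝ) (j : κ) :
    ∑ a ∈ univ.filter (fun a : ι × κ => a.2 = j), g a = ∑ i, g (i, j) := by
  rw [Finset.sum_filter, sum_col_eq]

theorem Pr_one (z : ι × κ → ℝ) : Pr z 1 = ∑ a, z a := by
  unfold Pr
  rw [Fintype.sum_prod_type]
  exact Finset.sum_congr rfl (fun i _ => by rw [es_one, sum_rowF])

theorem Qc_one (z : ι × κ → ℝ) : Qc z 1 = ∑ a, z a := by
  unfold Qc
  rw [Fintype.sum_prod_type_right]
  exact Finset.sum_congr rfl (fun i _ => by rw [es_one, sum_colF])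

theorem Pr_two (z : ι × κ → ℝ) : 2 * Pr z 2 = (∑ i, Rw z i ^ 2) - ∑ a, z a ^ 2 := by
  unfold Pr
  rw [Fintype.sum_prod_type, ← Finset.sum_sub_distrib, Finset.mul_sum]
  apply Finset.sum_congr rfl
  intro i _
  rw [es_two, sum_rowF, sum_rowF]
  rfl

theorem Qc_two (z : ι × κ → ℝ) : 2 * Qc z 2 = (∑ j, Cl z j ^ 2) - ∑ a, z a ^ 2 := by
  unfold Qc
  rw [Fintype.sum_prod_type_right, ← Finset.sum_sub_distrib, Finset.mul_sum]
  apply Finset.sum_congr rfl
  intro i _
  rw [es_two, sum_colF, sum_colF]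
  rfl

theorem Pr_three (z : ι × κ → ℝ) :
    6 * Pr z 3 = (∑ i, Rw z i ^ 3) - 3 * (∑ a, z a ^ 2 * Rw z a.1) + 2 * ∑ a, z a ^ 3 := by
  unfold Pr
  rw [Fintype.sum_prod_type, Fintype.sum_prod_type, Finset.mul_sum, Finset.mul_sum,
    Finset.mul_sum, ← Finset.sum_sub_distrib, ← Finset.sum_add_distrib]
  apply Finset.sum_congr rfl
  intro i _
  rw [es_three, sum_rowF, sum_rowF, sum_rowF]
  have h : ∑ j, z (i, j) ^ 2 * Rw z i = Rw z i * ∑ j, z (i, j) ^ 2 := by
    rw [Finset.mul_sum]; exact Finset.sum_congr rfl (fun _ _ => by ring)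
  simp only
  rw [h]
  simp only [Rw]
  ring

theorem Qc_three (z : ι × κ → ℝ) :
    6 * Qc z 3 = (∑ j, Cl z j ^ 3) - 3 * (∑ a, z a ^ 2 * Cl z a.2) + 2 * ∑ a, z a ^ 3 := by
  unfold Qc
  rw [Fintype.sum_prod_type_right, Fintype.sum_prod_type_right, Finset.mul_sum, Finset.mul_sum,
    Finset.mul_sum, ← Finset.sum_sub_distrib, ← Finset.sum_add_distrib]
  apply Finset.sum_congr rfl
  intro i _
  rw [es_three, sum_colF, sum_colF, sum_colF]
  have h : ∑ j, z (j, i) ^ 2 * Cl z i = Cl z i * ∑ j, z (j, i) ^ 2 := by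
    rw [Finset.mul_sum]; exact Finset.sum_congr rfl (fun _ _ => by ring)
  simp only
  rw [h]
  simp only [Cl]
  ring

theorem F3_eq (z : ι × κ → ℝ) :
    (∑ a, z a) * (Pr z 2 + Qc z 2) - es z univ 2 * (∑ a, z a) + (∑ a, z a) * (tt z / 2) = 0 := by
  have h1 := Pr_two z
  have h2 := Qc_two z
  have h3 := es_two z univ
  have h4 := tt_eq z
  have e1 : Pr z 2 = ((∑ i, Rw z i ^ 2) - ∑ a, z a ^ 2) / 2 := by linarith
  have e2 : Qc z 2 = ((∑ j, Cl z j ^ 2) - ∑ a, z a ^ 2) / 2 := by linarith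
  have e3 : es z univ 2 = ((∑ a, z a) ^ 2 - ∑ a, z a ^ 2) / 2 := by linarith
  rw [e1, e2, e3, h4]
  ring

theorem F4_nonneg {z : ι × κ → ℝ} (hz : ∀ a, 0 ≤ z a) :
    0 ≤ (∑ a, z a) * (Pr z 3 + Qc z 3) + Pr z 2 * Qc z 2 - es z univ 3 * (∑ a, z a) +
      es z univ 2 * (tt z / 2) := by
  have h1 := Pr_two z
  have h2 := Qc_two z
  have h3 := es_two z univ
  have h4 := tt_eq z
  have h5 := Pr_three z
  have h6 := Qc_three z
  have h7 := es_three z univ
  have h8 := ttt_eq z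
  have hS : 0 ≤ ∑ a, z a := Finset.sum_nonneg (fun a _ => hz a)
  have h9 := mul_nonneg hS (ttt_nonneg hz)
  have h10 : 0 ≤ ∑ a : ι × κ, ((∑ b, z b) * z a - Rw z a.1 * Cl z a.2) ^ 2 :=
    Finset.sum_nonneg (fun a _ => sq_nonneg _)
  have h11 : ∑ a : ι × κ, ((∑ b, z b) * z a - Rw z a.1 * Cl z a.2) ^ 2 =
      (∑ b, z b) ^ 2 * (∑ a, z a ^ 2) - 2 * (∑ b, z b) * (∑ a, z a * Rw z a.1 * Cl z a.2) +
        (∑ i, Rw z i ^ 2) * (∑ j, Cl z j ^ 2) := by
    have : (∑ i, Rw z i ^ 2) * (∑ j, Cl z j ^ 2) = ∑ a : ι × κ, Rw z a.1 ^ 2 * Cl z a.2 ^ 2 := by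
      rw [Finset.sum_mul_sum, Fintype.sum_prod_type]
    rw [this]
    generalize (∑ b, z b) = T
    simp only [Finset.mul_sum, ← Finset.sum_sub_distrib, ← Finset.sum_add_distrib]
    exact Finset.sum_congr rfl (fun _ _ => by ring)
  rw [h11] at h10
  set S := ∑ a, z a
  set r := ∑ i, Rw z i ^ 2
  set c := ∑ j, Cl z j ^ 2
  set Z2 := ∑ a, z a ^ 2
  set Z3 := ∑ a, z a ^ 3
  set R3 := ∑ i, Rw z i ^ 3
  set C3 := ∑ j, Cl z j ^ 3
  set A := ∑ a, z a ^ 2 * Rw z a.1
  set B := ∑ a, z a ^ 2 * Cl z a.2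
  set W := ∑ a, z a * Rw z a.1 * Cl z a.2
  have e1 : Pr z 2 = (r - Z2) / 2 := by linarith
  have e2 : Qc z 2 = (c - Z2) / 2 := by linarith
  have e3 : es z univ 2 = (S ^ 2 - Z2) / 2 := by linarith
  have e5 : Pr z 3 = (R3 - 3 * A + 2 * Z3) / 6 := by linarith
  have e6 : Qc z 3 = (C3 - 3 * B + 2 * Z3) / 6 := by linarith
  have e7 : es z univ 3 = (S ^ 3 - 3 * S * Z2 + 2 * Z3) / 6 := by linarith
  rw [e1, e2, e3, e5, e6, e7, h4]
  rw [h8] at h9
  have key : S * ((R3 - 3 * A + 2 * Z3) / 6 + (C3 - 3 * B + 2 * Z3) / 6) +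
      (r - Z2) / 2 * ((c - Z2) / 2) - (S ^ 3 - 3 * S * Z2 + 2 * Z3) / 6 * S +
      (S ^ 2 - Z2) / 2 * ((S ^ 2 - r - c + Z2) / 2) =
      (3 * (S ^ 2 * Z2 - 2 * S * W + r * c) + S * (S ^ 3 - 3 * S * r - 3 * S * c + 3 * S * Z2 +
        6 * W + 2 * R3 + 2 * C3 - 6 * A - 6 * B + 4 * Z3)) / 12 := by
    ring
  rw [key]
  linarith

end Pool.Agent.Helper160.R3
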