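import Mathlib
import Pool.Agent.Helper160.R3Quart

set_option autoImplicit false
set_option linter.unusedSectionVars false

open Finset

namespace Pool.Agent.Helper160.R3

variable {ι κ : Type*} [Fintype ι] [Fintype κ] [DecidableEq ι] [DecidableEq κ]

/-- Nonempty sets inside one row / one column. -/
def isR (D : Finset (ι × κ)) : Prop := D.Nonempty ∧ ∀ a ∈ D, ∀ b ∈ D, a.1 = b.1
def isC (D : Finset (ι × κ)) : Prop := D.Nonempty ∧ ∀ a ∈ D, ∀ b ∈ D, a.2 = b.2

instance (D : Finset (ι × κ)) : Decidable (isR D) := by unfold isR; infer_instance
instance (D : Finset (ι × κ)) : Decidable (isC D) := by unfold isC; infer_instance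

def gs (D : Finset (ι × κ)) : Finset ((ι × κ) × (ι × κ)) :=
  (D ×ˢ D).filter (fun p => gen p.1 p.2)

def Ws (D : Finset (ι × κ)) : Finset (Finset (ι × κ)) :=
  D.powerset.filter (fun X => isR X ∧ isC (D \ X))

def exc (D : Finset (ι × κ)) : Prop :=
  ∃ a ∈ D, ∃ b ∈ D, gen a b ∧ (a.1, b.2) ∈ D ∧ (b.1, a.2) ∈ D

instance (D : Finset (ι × κ)) : Decidable (exc D) := by unfold exc; infer_instance

/-- Number of elements of `D` generic to `c`. -/
def gn (D : Finset (ι × κ)) (c : ι × κ) : ℕ := (D.filter (gen c)).card

theorem sum_gs {M : Type*} [AddCommMonoid M] (D : Finset (ι × κ)) (f : (ι × κ) → (ι × κ) → M) :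
    ∑ p ∈ gs D, f p.1 p.2 = ∑ a ∈ D, ∑ b ∈ D.filter (gen a), f a b := by
  unfold gs
  rw [sum_filter, sum_product]
  apply sum_congr rfl
  intro a _
  rw [sum_filter]

theorem card_gs (D : Finset (ι × κ)) : (gs D).card = ∑ c ∈ D, gn D c := by
  have := sum_gs D (fun _ _ => 1)
  rw [card_eq_sum_ones, this]
  apply sum_congr rfl
  intro c _
  rw [gn, card_eq_sum_ones]

theorem split_card (D : Finset (ι × κ)) (c : ι × κ) (hc : c ∈ D) :
    D = insert c ((D.filter (fun a => a.1 = c.1 ∧ a ≠ c)) ∪ ((D.filter (fun a => a.2 = c.2 ∧ a ≠ c)) ∪
      D.filter (gen c))) := by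
  ext a
  simp only [mem_insert, mem_union, mem_filter, gen]
  constructor
  · intro ha
    by_cases h1 : a = c
    · exact Or.inl h1
    · by_cases h2 : a.1 = c.1
      · exact Or.inr (Or.inl ⟨ha, h2, h1⟩)
      · by_cases h3 : a.2 = c.2
        · exact Or.inr (Or.inr (Or.inl ⟨ha, h3, h1⟩))
        · exact Or.inr (Or.inr (Or.inr ⟨ha, fun h => h2 h.symm, fun h => h3 h.symm⟩))
  · rintro (h | h | h | h)
    · rw [h]; exact hc
    · exact h.1
    · exact h.1
    · exact h.1

theorem sum_split {M : Type*} [AddCommMonoid M] (D : Finset (ι × κ)) (c : ι × κ) (hc : c ∈ D)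
    (f : ι × κ → M) :
    ∑ a ∈ D, f a = f c + ((∑ a ∈ D.filter (fun a => a.1 = c.1 ∧ a ≠ c), f a) +
      ((∑ a ∈ D.filter (fun a => a.2 = c.2 ∧ a ≠ c), f a) + ∑ a ∈ D.filter (gen c), f a)) := by
  conv_lhs => rw [split_card D c hc]
  rw [sum_insert, sum_union, sum_union]
  · rw [disjoint_left]
    intro a ha hb
    rw [mem_filter] at ha hb
    exact hb.2.2 ha.2.1.symm
  · rw [disjoint_left]
    intro a ha hb
    rw [mem_filter] at ha
    rw [mem_union, mem_filter, mem_filter] at hb
    rcases hb with hb | hb
    · exact ha.2.2 (Prod.ext ha.2.1 hb.2.1)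
    · exact hb.2.1 ha.2.1.symm
  · simp only [mem_union, mem_filter, gen]
    rintro (h | h | h)
    · exact h.2.2 rfl
    · exact h.2.2 rfl
    · exact h.2.1 rfl

theorem CL (D : Finset (ι × κ)) (hD : 5 ≤ D.card) :
    2 * D.card ≤ 2 * (Ws D).card + (gs D).card + (if D.card = 5 ∧ exc D then 2 else 0) := by
  by_cases hall : ∀ c ∈ D, 2 ≤ gn D c
  · have h1 : 2 * D.card ≤ (gs D).card := by
      rw [card_gs]
      calc 2 * D.card = ∑ c ∈ D, 2 := by rw [sum_const, smul_eq_mul, mul_comm]
        _ ≤ ∑ c ∈ D, gn D c := sum_le_sum hall
    omega
  push Not at hall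
  obtain ⟨c, hc, hgc⟩ := hall
  set A := D.filter (fun a => a.1 = c.1 ∧ a ≠ c) with hA
  set B := D.filter (fun a => a.2 = c.2 ∧ a ≠ c) with hB
  set Y := D.filter (gen c) with hY
  have hYc : Y.card ≤ 1 := by
    have : gn D c = Y.card := rfl
    omega
  have hcard : D.card = 1 + (A.card + (B.card + Y.card)) := by
    have := sum_split D c hc (fun _ => 1)
    simp only [sum_const, smul_eq_mul, mul_one] at this
    exact this
  have hDeq : D = insert c (A ∪ (B ∪ Y)) := split_card D c hc
  -- membership facts
  have mA : ∀ a, a ∈ A ↔ a ∈ D ∧ a.1 = c.1 ∧ a ≠ c := fun a => by rw [hA, mem_filter]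
  have mB : ∀ a, a ∈ B ↔ a ∈ D ∧ a.2 = c.2 ∧ a ≠ c := fun a => by rw [hB, mem_filter]
  have mY : ∀ a, a ∈ Y ↔ a ∈ D ∧ gen c a := fun a => by rw [hY, mem_filter]
  have hA2 : ∀ a ∈ A, a.2 ≠ c.2 := fun a ha h => ((mA a).1 ha).2.2 (Prod.ext ((mA a).1 ha).2.1 h)
  have hB1 : ∀ a ∈ B, a.1 ≠ c.1 := fun a ha h => ((mB a).1 ha).2.2 (Prod.ext h ((mB a).1 ha).2.1)
  have cases4 : ∀ a ∈ D, a = c ∨ a ∈ A ∨ a ∈ B ∨ a ∈ Y := by
    intro a ha
    rw [hDeq] at ha
    simpa [mem_insert, mem_union] using ha
  -- generic counts
  have gA : ∀ x ∈ A, B.card + (Y.filter (gen x)).card ≤ gn D x := by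
    intro x hx
    rw [← card_union_of_disjoint]
    · apply card_le_card
      intro b hb
      rw [mem_filter]
      rcases mem_union.1 hb with hb | hb
      · refine ⟨((mB b).1 hb).1, ?_, ?_⟩
        · rw [((mA x).1 hx).2.1]; exact (hB1 b hb).symm
        · rw [((mB b).1 hb).2.1]; exact hA2 x hx
      · rw [mem_filter] at hb
        exact ⟨((mY b).1 hb.1).1, hb.2⟩
    · rw [disjoint_left]
      intro b hb hb2
      rw [mem_filter] at hb2
      exact ((mY b).1 hb2.1).2.2 ((mB b).1 hb).2.1.symm
  have gB : ∀ x ∈ B, A.card + (Y.filter (gen x)).card ≤ gn D x := by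
    intro x hx
    rw [← card_union_of_disjoint]
    · apply card_le_card
      intro b hb
      rw [mem_filter]
      rcases mem_union.1 hb with hb | hb
      · refine ⟨((mA b).1 hb).1, ?_, ?_⟩
        · rw [((mA b).1 hb).2.1]; exact hB1 x hx
        · rw [((mB x).1 hx).2.1]; exact (hA2 b hb).symm
      · rw [mem_filter] at hb
        exact ⟨((mY b).1 hb.1).1, hb.2⟩
    · rw [disjoint_left]
      intro b hb hb2
      rw [mem_filter] at hb2
      exact ((mY b).1 hb2.1).2.1 ((mA b).1 hb).2.1.symm
  have gY : ∀ y ∈ Y, 1 + ((A.filter (gen y)).card + (B.filter (gen y)).card) ≤ gn D y := by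
    intro y hy
    have hy' := (mY y).1 hy
    have h1 : insert c ((A.filter (gen y)) ∪ (B.filter (gen y))) ⊆ D.filter (gen y) := by
      intro b hb
      rw [mem_filter]
      rcases mem_insert.1 hb with rfl | hb
      · exact ⟨hc, gen_symm hy'.2⟩
      · rcases mem_union.1 hb with hb | hb
        · have hb' := mem_filter.1 hb
          exact ⟨((mA b).1 hb'.1).1, hb'.2⟩
        · have hb' := mem_filter.1 hb
          exact ⟨((mB b).1 hb'.1).1, hb'.2⟩
    have h2 := card_le_card h1
    rw [card_insert_of_notMem, card_union_of_disjoint] at h2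
    · unfold gn; omega
    · rw [disjoint_left]
      intro b hb hb2
      exact hA2 b (mem_filter.1 hb).1 ((mB b).1 (mem_filter.1 hb2).1).2.1
    · intro hcon
      rcases mem_union.1 hcon with h | h
      · exact ((mA c).1 (mem_filter.1 h).1).2.2 rfl
      · exact ((mB c).1 (mem_filter.1 h).1).2.2 rfl
  have hgs : (gs D).card = gn D c + ((∑ a ∈ A, gn D a) + ((∑ a ∈ B, gn D a) + ∑ a ∈ Y, gn D a)) := by
    rw [card_gs, sum_split D c hc (gn D)]
  have hsA : A.card * B.card + ∑ x ∈ A, (Y.filter (gen x)).card ≤ ∑ a ∈ A, gn D a := by
    calc A.card * B.card + ∑ x ∈ A, (Y.filter (gen x)).card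
        = ∑ x ∈ A, (B.card + (Y.filter (gen x)).card) := by
          rw [sum_add_distrib, sum_const, smul_eq_mul]
      _ ≤ _ := sum_le_sum gA
  have hsB : A.card * B.card + ∑ x ∈ B, (Y.filter (gen x)).card ≤ ∑ a ∈ B, gn D a := by
    calc A.card * B.card + ∑ x ∈ B, (Y.filter (gen x)).card
        = ∑ x ∈ B, (A.card + (Y.filter (gen x)).card) := by
          rw [sum_add_distrib, sum_const, smul_eq_mul, mul_comm]
      _ ≤ _ := sum_le_sum gB
  rcases Nat.eq_zero_or_pos Y.card with hY0 | hY0
  · -- Y empty
    have hYe : Y = ∅ := card_eq_zero.1 hY0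
    rcases A.eq_empty_or_nonempty with hAe | hAne
    · -- D is a column
      have hcol : ∀ a ∈ D, a.2 = c.2 := by
        intro a ha
        rcases cases4 a ha with h | h | h | h
        · rw [h]
        · rw [hAe] at h; simp at h
        · exact ((mB a).1 h).2.1
        · rw [hYe] at h; simp at h
      have hw : D.card ≤ (Ws D).card := by
        apply card_le_card_of_injOn (fun x => ({x} : Finset (ι × κ)))
        · intro x hx
          have hx : x ∈ D := hx
          simp only [Ws, coe_filter, Set.mem_ofPred_eq, mem_powerset, singleton_subset_iff]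
          refine ⟨hx, ⟨⟨x, by simp⟩, ?_⟩, ?_, ?_⟩
          · intro a ha b hb
            rw [mem_singleton] at ha hb
            rw [ha, hb]
          · rw [← card_pos]
            have := le_card_sdiff ({x} : Finset (ι × κ)) D
            rw [card_singleton] at this
            omega
          · intro a ha b hb
            rw [hcol a (mem_sdiff.1 ha).1, hcol b (mem_sdiff.1 hb).1]
        · intro x _ y _ h
          exact singleton_injective h
      omega
    rcases B.eq_empty_or_nonempty with hBe | hBne
    · have hrow : ∀ a ∈ D, a.1 = c.1 := by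
        intro a ha
        rcases cases4 a ha with h | h | h | h
        · rw [h]
        · exact ((mA a).1 h).2.1
        · rw [hBe] at h; simp at h
        · rw [hYe] at h; simp at h
      have hw : D.card ≤ (Ws D).card := by
        apply card_le_card_of_injOn (fun x => D.erase x)
        · intro x hx
          have hx : x ∈ D := hx
          simp only [Ws, coe_filter, Set.mem_ofPred_eq, mem_powerset]
          have hsd : D \ D.erase x = {x} := by
            ext a
            simp only [mem_sdiff, mem_erase, mem_singleton]
            constructor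
            · rintro ⟨h1, h2⟩
              by_contra h3
              exact h2 ⟨h3, h1⟩
            · rintro rfl
              exact ⟨hx, fun h => h.1 rfl⟩
          refine ⟨erase_subset _ _, ⟨?_, ?_⟩, ?_⟩
          · rw [← card_pos, card_erase_of_mem hx]; omega
          · intro a ha b hb
            rw [hrow a (mem_of_mem_erase ha), hrow b (mem_of_mem_erase hb)]
          · rw [hsd]
            refine ⟨⟨x, by simp⟩, ?_⟩
            intro a ha b hb
            rw [mem_singleton] at ha hb
            rw [ha, hb]
        · intro x hx y hy h
          have hx : x ∈ D := hx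
          by_contra hne
          have h1 : x ∈ D.erase y := mem_erase.2 ⟨hne, hx⟩
          have h2 : D.erase x = D.erase y := h
          rw [← h2] at h1
          simp at h1
      omega
    · -- both nonempty
      have hcA : c ∉ A := fun h => ((mA c).1 h).2.2 rfl
      have hw : 2 ≤ (Ws D).card := by
        have h1 : A ∈ Ws D := by
          simp only [Ws, mem_filter, mem_powerset]
          refine ⟨filter_subset _ _, ⟨hAne, ?_⟩, ⟨c, ?_⟩, ?_⟩
          · intro a ha b hb
            rw [((mA a).1 ha).2.1, ((mA b).1 hb).2.1]
          · exact mem_sdiff.2 ⟨hc, hcA⟩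
          · intro a ha b hb
            have key : ∀ a ∈ D \ A, a.2 = c.2 := by
              intro a ha
              rcases cases4 a (mem_sdiff.1 ha).1 with h | h | h | h
              · rw [h]
              · exact absurd h (mem_sdiff.1 ha).2
              · exact ((mB a).1 h).2.1
              · rw [hYe] at h; simp at h
            rw [key a ha, key b hb]
        have h2 : insert c A ∈ Ws D := by
          simp only [Ws, mem_filter, mem_powerset]
          have key : ∀ a ∈ D \ insert c A, a ∈ B := by
            intro a ha
            rw [mem_sdiff, mem_insert] at ha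
            rcases cases4 a ha.1 with h | h | h | h
            · exact absurd (Or.inl h) ha.2
            · exact absurd (Or.inr h) ha.2
            · exact h
            · rw [hYe] at h; simp at h
          refine ⟨insert_subset hc (filter_subset _ _), ⟨⟨c, mem_insert_self _ _⟩, ?_⟩, ?_, ?_⟩
          · have key2 : ∀ a ∈ insert c A, a.1 = c.1 := by
              intro a ha
              rcases mem_insert.1 ha with h | h
              · rw [h]
              · exact ((mA a).1 h).2.1
            intro a ha b hb
            rw [key2 a ha, key2 b hb]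
          · obtain ⟨b, hb⟩ := hBne
            refine ⟨b, mem_sdiff.2 ⟨((mB b).1 hb).1, ?_⟩⟩
            intro h
            rcases mem_insert.1 h with h | h
            · exact ((mB b).1 hb).2.2 h
            · exact hA2 b h ((mB b).1 hb).2.1
          · intro a ha b hb
            rw [((mB a).1 (key a ha)).2.1, ((mB b).1 (key b hb)).2.1]
        have h3 : ({A, insert c A} : Finset (Finset (ι × κ))) ⊆ Ws D := by
          intro X hX
          rcases mem_insert.1 hX with h | h
          · rw [h]; exact h1
          · rw [mem_singleton.1 h]; exact h2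
        have h4 := card_le_card h3
        rw [card_pair] at h4
        · exact h4
        · intro h
          exact hcA (by rw [h]; exact mem_insert_self _ _)
      have ha : 1 ≤ A.card := card_pos.2 hAne
      have hb : 1 ≤ B.card := card_pos.2 hBne
      have hab : A.card + B.card ≤ 1 + A.card * B.card := by nlinarith
      have : 0 ≤ gn D c := Nat.zero_le _
      omega
  · -- Y is a singleton
    obtain ⟨y, hYy⟩ := card_eq_one.1 (le_antisymm hYc hY0)
    have hyY : y ∈ Y := by rw [hYy]; exact mem_singleton_self _
    have hyD := ((mY y).1 hyY).1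
    have hyg := ((mY y).1 hyY).2
    have hgcY : gn D c = 1 := by
      have : gn D c = Y.card := rfl
      omega
    have hsumY : ∑ a ∈ Y, gn D a = gn D y := by rw [hYy, sum_singleton]
    have hgy := gY y hyY
    have hdcA : ∑ x ∈ A, (Y.filter (gen x)).card = (A.filter (gen y)).card := by
      rw [card_filter]
      apply sum_congr rfl
      intro x _
      rw [hYy, filter_singleton]
      by_cases h : gen x y
      · rw [if_pos h, if_pos (gen_symm h), card_singleton]
      · rw [if_neg h, if_neg (fun hc => h (gen_symm hc)), card_empty]
    have hdcB : ∑ x ∈ B, (Y.filter (gen x)).card = (B.filter (gen y)).card := by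
      rw [card_filter]
      apply sum_congr rfl
      intro x _
      rw [hYy, filter_singleton]
      by_cases h : gen x y
      · rw [if_pos h, if_pos (gen_symm h), card_singleton]
      · rw [if_neg h, if_neg (fun hc => h (gen_symm hc)), card_empty]
    -- lower bounds on the generic parts
    have hAy1 : A.card ≤ (A.filter (gen y)).card + 1 := by
      have h1 : A ⊆ (A.filter (gen y)) ∪ {(c.1, y.2)} := by
        intro a ha
        rw [mem_union, mem_filter, mem_singleton]
        by_cases h : a.2 = y.2
        · right; exact Prod.ext ((mA a).1 ha).2.1 h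
        · left
          refine ⟨ha, ?_, fun h2 => h h2.symm⟩
          rw [((mA a).1 ha).2.1]
          exact hyg.1.symm
      calc A.card ≤ _ := card_le_card h1
        _ ≤ _ := card_union_le _ _
        _ = _ := by rw [card_singleton]
    have hAy2 : (c.1, y.2) ∉ D → A.card ≤ (A.filter (gen y)).card := by
      intro hn
      apply card_le_card
      intro a ha
      rw [mem_filter]
      refine ⟨ha, ?_, ?_⟩
      · rw [((mA a).1 ha).2.1]; exact hyg.1.symm
      · intro h
        apply hn
        have : a = (c.1, y.2) := Prod.ext ((mA a).1 ha).2.1 h.symm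
        rw [← this]; exact ((mA a).1 ha).1
    have hBy1 : B.card ≤ (B.filter (gen y)).card + 1 := by
      have h1 : B ⊆ (B.filter (gen y)) ∪ {(y.1, c.2)} := by
        intro a ha
        rw [mem_union, mem_filter, mem_singleton]
        by_cases h : a.1 = y.1
        · right; exact Prod.ext h ((mB a).1 ha).2.1
        · left
          refine ⟨ha, fun h2 => h h2.symm, ?_⟩
          rw [((mB a).1 ha).2.1]
          exact hyg.2.symm
      calc B.card ≤ _ := card_le_card h1
        _ ≤ _ := card_union_le _ _
        _ = _ := by rw [card_singleton]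
    have hBy2 : (y.1, c.2) ∉ D → B.card ≤ (B.filter (gen y)).card := by
      intro hn
      apply card_le_card
      intro a ha
      rw [mem_filter]
      refine ⟨ha, ?_, ?_⟩
      · intro h
        apply hn
        have : a = (y.1, c.2) := Prod.ext h.symm ((mB a).1 ha).2.1
        rw [← this]; exact ((mB a).1 ha).1
      · rw [((mB a).1 ha).2.1]; exact hyg.2.symm
    have hyc : y ≠ c := fun h => hyg.1 (by rw [h])
    have hyA : y ∉ A := fun h => hyg.1 ((mA y).1 h).2.1.symm
    have hyB : y ∉ B := fun h => hyg.2 ((mB y).1 h).2.1.symm
    rcases Nat.eq_zero_or_pos B.card with hB0 | hB0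
    · -- row plus a point
      have hBe : B = ∅ := card_eq_zero.1 hB0
      have rowD : ∀ a ∈ D, a ≠ y → a.1 = c.1 := by
        intro a ha hne
        rcases cases4 a ha with h | h | h | h
        · rw [h]
        · exact ((mA a).1 h).2.1
        · rw [hBe] at h; simp at h
        · rw [hYy, mem_singleton] at h; exact absurd h hne
      have hX1 : D.erase y ∈ Ws D := by
        simp only [Ws, mem_filter, mem_powerset]
        have hsd : D \ D.erase y = {y} := by
          ext a
          simp only [mem_sdiff, mem_erase, mem_singleton]
          constructor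
          · rintro ⟨h1, h2⟩
            by_contra h3
            exact h2 ⟨h3, h1⟩
          · rintro rfl
            exact ⟨hyD, fun h => h.1 rfl⟩
        refine ⟨erase_subset _ _, ⟨⟨c, mem_erase.2 ⟨hyc.symm, hc⟩⟩, ?_⟩, ?_⟩
        · intro a ha b hb
          rw [mem_erase] at ha hb
          rw [rowD a ha.2 ha.1, rowD b hb.2 hb.1]
        · rw [hsd]
          refine ⟨⟨y, by simp⟩, ?_⟩
          intro a ha b hb
          rw [mem_singleton] at ha hb
          rw [ha, hb]
      by_cases hin : (c.1, y.2) ∈ D
      · have hne1 : (c.1, y.2) ≠ y := fun h => by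
          have h' := congrArg Prod.fst h
          exact hyg.1 h'
        have hX2 : (D.erase y).erase (c.1, y.2) ∈ Ws D := by
          simp only [Ws, mem_filter, mem_powerset]
          have hsd : D \ (D.erase y).erase (c.1, y.2) = {(c.1, y.2), y} := by
            ext a
            simp only [mem_sdiff, mem_erase, mem_insert, mem_singleton]
            constructor
            · rintro ⟨h1, h2⟩
              by_contra h3
              push Not at h3
              exact h2 ⟨h3.1, h3.2, h1⟩
            · rintro (rfl | rfl)
              · exact ⟨hin, fun h => h.1 rfl⟩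
              · exact ⟨hyD, fun h => h.2.1 rfl⟩
          refine ⟨(erase_subset _ _).trans (erase_subset _ _), ⟨⟨c, ?_⟩, ?_⟩, ?_⟩
          · rw [mem_erase, mem_erase]
            refine ⟨?_, hyc.symm, hc⟩
            intro h
            have h' := congrArg Prod.snd h
            exact hyg.2 h'
          · intro a ha b hb
            rw [mem_erase, mem_erase] at ha hb
            rw [rowD a ha.2.2 ha.2.1, rowD b hb.2.2 hb.2.1]
          · rw [hsd]
            refine ⟨⟨y, by simp⟩, ?_⟩
            intro a ha b hb
            simp only [mem_insert, mem_singleton] at ha hb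
            rcases ha with rfl | rfl <;> rcases hb with rfl | rfl <;> rfl
        have hw : 2 ≤ (Ws D).card := by
          have h3 : ({D.erase y, (D.erase y).erase (c.1, y.2)} : Finset (Finset (ι × κ))) ⊆ Ws D := by
            intro X hX
            rcases mem_insert.1 hX with h | h
            · rw [h]; exact hX1
            · rw [mem_singleton.1 h]; exact hX2
          have h4 := card_le_card h3
          rw [card_pair] at h4
          · exact h4
          · intro h
            have : (c.1, y.2) ∈ D.erase y := mem_erase.2 ⟨hne1, hin⟩
            rw [h] at this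
            simp at this
        rw [hB0] at hsA hsB
        omega
      · have h1 := hAy2 hin
        have hw : 1 ≤ (Ws D).card := card_pos.2 ⟨_, hX1⟩
        rw [hB0] at hsA hsB
        omega
    rcases Nat.eq_zero_or_pos A.card with hA0 | hA0
    · -- column plus a point
      have hAe : A = ∅ := card_eq_zero.1 hA0
      have colD : ∀ a ∈ D, a ≠ y → a.2 = c.2 := by
        intro a ha hne
        rcases cases4 a ha with h | h | h | h
        · rw [h]
        · rw [hAe] at h; simp at h
        · exact ((mB a).1 h).2.1
        · rw [hYy, mem_singleton] at h; exact absurd h hne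
      have hX1 : {y} ∈ Ws D := by
        simp only [Ws, mem_filter, mem_powerset, singleton_subset_iff]
        refine ⟨hyD, ⟨⟨y, by simp⟩, ?_⟩, ⟨c, ?_⟩, ?_⟩
        · intro a ha b hb
          rw [mem_singleton] at ha hb
          rw [ha, hb]
        · rw [mem_sdiff, mem_singleton]; exact ⟨hc, hyc.symm⟩
        · intro a ha b hb
          rw [mem_sdiff, mem_singleton] at ha hb
          rw [colD a ha.1 ha.2, colD b hb.1 hb.2]
      by_cases hin : (y.1, c.2) ∈ D
      · have hne1 : (y.1, c.2) ≠ y := fun h => by
          have h' := congrArg Prod.snd h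
          exact hyg.2 h'
        have hX2 : {y, (y.1, c.2)} ∈ Ws D := by
          simp only [Ws, mem_filter, mem_powerset]
          refine ⟨?_, ⟨⟨y, by simp⟩, ?_⟩, ⟨c, ?_⟩, ?_⟩
          · intro a ha
            simp only [mem_insert, mem_singleton] at ha
            rcases ha with rfl | rfl
            · exact hyD
            · exact hin
          · intro a ha b hb
            simp only [mem_insert, mem_singleton] at ha hb
            rcases ha with rfl | rfl <;> rcases hb with rfl | rfl <;> rfl
          · rw [mem_sdiff]
            refine ⟨hc, ?_⟩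
            simp only [mem_insert, mem_singleton, not_or]
            exact ⟨hyc.symm, fun h => by
              have h' := congrArg Prod.fst h
              exact hyg.1 h'⟩
          · intro a ha b hb
            simp only [mem_sdiff, mem_insert, mem_singleton, not_or] at ha hb
            rw [colD a ha.1 ha.2.1, colD b hb.1 hb.2.1]
        have hw : 2 ≤ (Ws D).card := by
          have h3 : ({{y}, {y, (y.1, c.2)}} : Finset (Finset (ι × κ))) ⊆ Ws D := by
            intro X hX
            rcases mem_insert.1 hX with h | h
            · rw [h]; exact hX1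
            · rw [mem_singleton.1 h]; exact hX2
          have h4 := card_le_card h3
          rw [card_pair] at h4
          · exact h4
          · intro h
            have : (y.1, c.2) ∈ ({y} : Finset (ι × κ)) := by rw [h]; simp
            rw [mem_singleton] at this
            exact hne1 this
        rw [hA0] at hsA hsB
        omega
      · have h1 := hBy2 hin
        have hw : 1 ≤ (Ws D).card := card_pos.2 ⟨_, hX1⟩
        rw [hA0] at hsA hsB
        omega
    · -- both nonempty
      by_cases h3 : 3 ≤ A.card * B.card
      · omega
      · have hab : A.card * B.card = 2 ∧ A.card + B.card = 3 := by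
          have h5 : A.card + B.card ≥ 3 := by omega
          have hA3 : A.card ≤ 2 := by
            by_contra hcon
            push Not at hcon
            exact h3 (by nlinarith)
          have hB3 : B.card ≤ 2 := by
            by_contra hcon
            push Not at hcon
            exact h3 (by nlinarith)
          interval_cases hA' : A.card <;> interval_cases hB' : B.card <;> omega
        by_cases hin1 : (c.1, y.2) ∈ D
        · by_cases hin2 : (y.1, c.2) ∈ D
          · have hex : exc D := ⟨c, hc, y, hyD, hyg, hin1, hin2⟩
            have h5 : D.card = 5 := by omega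
            rw [if_pos ⟨h5, hex⟩]
            omega
          · have := hBy2 hin2
            omega
        · have := hAy2 hin1
          omega

end Pool.Agent.Helper160.R3
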