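import Mathlib
import Pool.Agent.Helper160.R3Comb

set_option autoImplicit false
set_option linter.unusedSectionVars false

open Finset

namespace Pool.Agent.Helper160.R3

section
variable {α : Type*} [DecidableEq α] [Fintype α]

theorem es_mul_pair (z : α → ℝ) (a b : α) (hab : a ≠ b) (k : ℕ) :
    es z univ k * (z a * z b) =
      (∑ D ∈ powersetCard k (univ : Finset α),
        if a ∈ D ∧ b ∈ D then mon z D * (z a * z b) else 0) +
      (∑ D ∈ powersetCard (k + 1) (univ : Finset α),
        if a ∈ D ∧ b ∈ D then mon z D * (z a + z b) else 0) +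
      (∑ D ∈ powersetCard (k + 2) (univ : Finset α), if a ∈ D ∧ b ∈ D then mon z D else 0) := by
  have h1 : ∀ x y : α, x ≠ y → (∑ D ∈ powersetCard k (univ : Finset α),
      if x ∈ D ∧ y ∉ D then mon z D * (z x * z y) else 0) =
      ∑ D ∈ powersetCard (k + 1) (univ : Finset α), if x ∈ D ∧ y ∈ D then mon z D * z x else 0 := by
    intro x y hxy
    have e1 : (∑ D ∈ powersetCard k (univ : Finset α),
        if x ∈ D ∧ y ∉ D then mon z D * (z x * z y) else 0) =
        ∑ D ∈ (powersetCard k (univ : Finset α)).filter (fun D => y ∉ D),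
          (fun E => if x ∈ E then mon z E * z x else 0) (insert y D) := by
      rw [sum_filter]
      apply sum_congr rfl
      intro D _
      by_cases hy : y ∈ D
      · simp [hy]
      · have : x ∈ insert y D ↔ x ∈ D := by
          rw [mem_insert]
          exact ⟨fun h => h.resolve_left hxy, Or.inr⟩
        simp only [hy, not_false_eq_true, and_true, if_true, this, mon_insert z hy]
        by_cases hx : x ∈ D
        · simp only [hx, if_true]; ring
        · simp only [hx, if_false]
    rw [e1, sum_insert_card y k (fun E => if x ∈ E then mon z E * z x else 0), sum_filter]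
    apply sum_congr rfl
    intro D _
    by_cases hy : y ∈ D <;> by_cases hx : x ∈ D <;> simp [hx, hy]
  have h2 : (∑ D ∈ powersetCard k (univ : Finset α),
      if a ∉ D ∧ b ∉ D then mon z D * (z a * z b) else 0) =
      ∑ D ∈ powersetCard (k + 2) (univ : Finset α), if a ∈ D ∧ b ∈ D then mon z D else 0 := by
    have e1 : (∑ D ∈ powersetCard k (univ : Finset α),
        if a ∉ D ∧ b ∉ D then mon z D * (z a * z b) else 0) =
        ∑ D ∈ (powersetCard k (univ : Finset α)).filter (fun D => b ∉ D),
          (fun E => if a ∉ E then mon z E * z a else 0) (insert b D) := by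
      rw [sum_filter]
      apply sum_congr rfl
      intro D _
      by_cases hy : b ∈ D
      · simp [hy]
      · have : a ∈ insert b D ↔ a ∈ D := by
          rw [mem_insert]
          exact ⟨fun h => h.resolve_left hab, Or.inr⟩
        simp only [hy, not_false_eq_true, and_true, if_true, this, mon_insert z hy]
        by_cases hx : a ∈ D
        · simp only [hx, not_true_eq_false, if_false]
        · simp only [hx, not_false_eq_true, if_true]; ring
    have e2 : ∑ D ∈ (powersetCard (k + 1) (univ : Finset α)).filter (fun D => b ∈ D),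
          (if a ∉ D then mon z D * z a else 0) =
        ∑ D ∈ (powersetCard (k + 1) (univ : Finset α)).filter (fun D => a ∉ D),
          (fun E => if b ∈ E then mon z E else 0) (insert a D) := by
      rw [sum_filter, sum_filter]
      apply sum_congr rfl
      intro D _
      by_cases hx : a ∈ D
      · simp [hx]
      · have : b ∈ insert a D ↔ b ∈ D := by
          rw [mem_insert]
          exact ⟨fun h => h.resolve_left hab.symm, Or.inr⟩
        simp only [hx, not_false_eq_true, if_true, this, mon_insert z hx]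
        by_cases hy : b ∈ D
        · simp only [hy, if_true]; ring
        · simp only [hy, if_false]
    rw [e1, sum_insert_card b k (fun E => if a ∉ E then mon z E * z a else 0), e2,
      sum_insert_card a (k + 1) (fun E => if b ∈ E then mon z E else 0), sum_filter]
    apply sum_congr rfl
    intro D _
    by_cases hy : b ∈ D <;> by_cases hx : a ∈ D <;> simp [hx, hy]
  have h3 : es z univ k * (z a * z b) =
      (∑ D ∈ powersetCard k (univ : Finset α),
        if a ∈ D ∧ b ∈ D then mon z D * (z a * z b) else 0) +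
      ((∑ D ∈ powersetCard k (univ : Finset α),
        if a ∈ D ∧ b ∉ D then mon z D * (z a * z b) else 0) +
      (∑ D ∈ powersetCard k (univ : Finset α),
        if b ∈ D ∧ a ∉ D then mon z D * (z b * z a) else 0)) +
      (∑ D ∈ powersetCard k (univ : Finset α),
        if a ∉ D ∧ b ∉ D then mon z D * (z a * z b) else 0) := by
    rw [← sum_add_distrib, ← sum_add_distrib, ← sum_add_distrib, es, sum_mul]
    apply sum_congr rfl
    intro D _
    by_cases hy : b ∈ D <;> by_cases hx : a ∈ D <;> simp [hx, hy, mul_comm]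
  rw [h3, h2, h1 a b hab, h1 b a hab.symm, ← sum_add_distrib]
  congr 2
  apply sum_congr rfl
  intro D _
  by_cases hy : b ∈ D <;> by_cases hx : a ∈ D <;> simp [hx, hy, mul_add]

end

variable {ι κ : Type*} [Fintype ι] [Fintype κ] [DecidableEq ι] [DecidableEq κ]

theorem sum_gen_mem (D : Finset (ι × κ)) (f : (ι × κ) → (ι × κ) → ℝ) :
    ∑ a, ∑ b, (if gen a b then (if a ∈ D ∧ b ∈ D then f a b else 0) else 0) =
      ∑ p ∈ gs D, f p.1 p.2 := by
  unfold gs
  rw [sum_filter, sum_product]
  have h1 : ∀ a : ι × κ, ∑ b, (if gen a b then (if a ∈ D ∧ b ∈ D then f a b else 0) else 0) =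
      if a ∈ D then ∑ b ∈ D, (if gen a b then f a b else 0) else 0 := by
    intro a
    by_cases ha : a ∈ D
    · rw [if_pos ha, ← sum_filter_add_sum_filter_not univ (fun b => b ∈ D)]
      have : ∑ b ∈ univ.filter (fun b => b ∉ D),
          (if gen a b then (if a ∈ D ∧ b ∈ D then f a b else 0) else 0) = 0 := by
        apply sum_eq_zero
        intro b hb
        have := (mem_filter.1 hb).2
        simp [this]
      rw [this, add_zero]
      have h2 : univ.filter (fun b => b ∈ D) = D := by ext b; simp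
      rw [h2]
      apply sum_congr rfl
      intro b hb
      simp [ha, hb]
    · rw [if_neg ha]
      apply sum_eq_zero
      intro b _
      simp [ha]
  rw [sum_congr rfl (fun a _ => h1 a), ← sum_filter]
  apply sum_congr _ (fun _ _ => rfl)
  ext b; simp

theorem es_mul_tt (z : ι × κ → ℝ) (k : ℕ) :
    es z univ k * tt z =
      (∑ D ∈ powersetCard k (univ : Finset (ι × κ)),
        mon z D * ∑ p ∈ gs D, z p.1 * z p.2) +
      (∑ D ∈ powersetCard (k + 1) (univ : Finset (ι × κ)),
        mon z D * ∑ p ∈ gs D, (z p.1 + z p.2)) +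
      (∑ D ∈ powersetCard (k + 2) (univ : Finset (ι × κ)), mon z D * ((gs D).card : ℝ)) := by
  have h0 : es z univ k * tt z = ∑ a, ∑ b, if gen a b then es z univ k * (z a * z b) else 0 := by
    unfold tt
    rw [mul_sum]
    apply sum_congr rfl
    intro a _
    rw [mul_sum]
    apply sum_congr rfl
    intro b _
    split_ifs <;> simp
  have h1 : ∀ a b : ι × κ, (if gen a b then es z univ k * (z a * z b) else 0) =
      (∑ D ∈ powersetCard k (univ : Finset (ι × κ)),
        (if gen a b then (if a ∈ D ∧ b ∈ D then mon z D * (z a * z b) else 0) else 0)) +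
      (∑ D ∈ powersetCard (k + 1) (univ : Finset (ι × κ)),
        (if gen a b then (if a ∈ D ∧ b ∈ D then mon z D * (z a + z b) else 0) else 0)) +
      (∑ D ∈ powersetCard (k + 2) (univ : Finset (ι × κ)),
        (if gen a b then (if a ∈ D ∧ b ∈ D then mon z D else 0) else 0)) := by
    intro a b
    by_cases h : gen a b
    · simp only [if_pos h]
      exact es_mul_pair z a b (fun hc => h.1 (by rw [hc])) k
    · simp only [if_neg h, sum_const_zero, add_zero]
  rw [h0, sum_congr rfl (fun a _ => sum_congr rfl (fun b _ => h1 a b))]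
  have hsw : ∀ (m : ℕ) (g : Finset (ι × κ) → (ι × κ) → (ι × κ) → ℝ),
      ∑ a : ι × κ, ∑ b : ι × κ, ∑ D ∈ powersetCard m (univ : Finset (ι × κ)),
        (if gen a b then (if a ∈ D ∧ b ∈ D then g D a b else 0) else 0) =
      ∑ D ∈ powersetCard m (univ : Finset (ι × κ)), ∑ p ∈ gs D, g D p.1 p.2 := by
    intro m g
    rw [sum_congr rfl (fun a _ => sum_comm), sum_comm]
    apply sum_congr rfl
    intro D _
    exact sum_gen_mem D (g D)
  have e1 : ∀ f g h : (ι × κ) → (ι × κ) → ℝ,
      ∑ a : ι × κ, ∑ b : ι × κ, (f a b + g a b + h a b) =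
      (∑ a : ι × κ, ∑ b : ι × κ, f a b) + (∑ a : ι × κ, ∑ b : ι × κ, g a b) +
        ∑ a : ι × κ, ∑ b : ι × κ, h a b := by
    intro f g h
    simp only [sum_add_distrib]
  rw [e1, hsw k (fun D a b => mon z D * (z a * z b)),
    hsw (k + 1) (fun D a b => mon z D * (z a + z b)), hsw (k + 2) (fun D a b => mon z D)]
  congr 1
  · congr 1
    · exact sum_congr rfl (fun D _ => by rw [mul_sum])
    · exact sum_congr rfl (fun D _ => by rw [mul_sum])
  · exact sum_congr rfl (fun D _ => by rw [sum_const, nsmul_eq_mul, mul_comm])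

theorem sum_gs_add (z : ι × κ → ℝ) (D : Finset (ι × κ)) :
    ∑ p ∈ gs D, (z p.1 + z p.2) = 2 * ∑ c ∈ D, (gn D c : ℝ) * z c := by
  rw [sum_add_distrib, sum_gs D (fun a _ => z a), sum_gs D (fun _ b => z b)]
  have h1 : ∑ a ∈ D, ∑ b ∈ D.filter (gen a), z a = ∑ c ∈ D, (gn D c : ℝ) * z c := by
    apply sum_congr rfl
    intro a _
    rw [sum_const, nsmul_eq_mul, gn]
  have h2 : ∑ a ∈ D, ∑ b ∈ D.filter (gen a), z b = ∑ c ∈ D, (gn D c : ℝ) * z c := by
    rw [← h1]
    simp only [sum_filter]
    rw [sum_comm]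
    apply sum_congr rfl
    intro a _
    apply sum_congr rfl
    intro b _
    by_cases h : gen a b
    · rw [if_pos h, if_pos (gen_symm h)]
    · rw [if_neg h, if_neg (fun hc => h (gen_symm hc))]
  rw [h1, h2]
  ring

/-- Sum over pairs (row set, column set) of total size `d`. -/
def AA (z : ι × κ → ℝ) (d : ℕ) : ℝ :=
  ∑ p ∈ (univ : Finset (Finset (ι × κ) × Finset (ι × κ))).filter
    (fun p => isR p.1 ∧ isC p.2 ∧ p.1.card + p.2.card = d), mon z p.1 * mon z p.2

theorem AA_ge {z : ι × κ → ℝ} (hz : ∀ a, 0 ≤ z a) (d : ℕ) :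
    (∑ D ∈ powersetCard (d + 1) (univ : Finset (ι × κ)), mon z D * ((Ws D).card : ℝ)) +
      (∑ D ∈ powersetCard d (univ : Finset (ι × κ)),
        mon z D * ∑ c ∈ D.filter (fun c => gn D c = 0), z c) ≤ AA z (d + 1) := by
  unfold AA
  rw [← sum_filter_add_sum_filter_not ((univ : Finset (Finset (ι × κ) × Finset (ι × κ))).filter
    (fun p => isR p.1 ∧ isC p.2 ∧ p.1.card + p.2.card = d + 1)) (fun p => Disjoint p.1 p.2)]
  apply add_le_add
  · have e1 : (∑ D ∈ powersetCard (d + 1) (univ : Finset (ι × κ)), mon z D * ((Ws D).card : ℝ)) =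
        ∑ q ∈ (powersetCard (d + 1) (univ : Finset (ι × κ))).sigma (fun D => Ws D),
          mon z q.1 := by
      rw [sum_sigma]
      exact sum_congr rfl (fun D _ => by simp only [sum_const, nsmul_eq_mul, mul_comm])
    have e2 : ∑ q ∈ (powersetCard (d + 1) (univ : Finset (ι × κ))).sigma (fun D => Ws D),
          mon z q.1 =
        ∑ p ∈ ((powersetCard (d + 1) (univ : Finset (ι × κ))).sigma (fun D => Ws D)).image
          (fun q => (q.2, q.1 \ q.2)), mon z p.1 * mon z p.2 := by
      rw [sum_image]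
      · apply sum_congr rfl
        intro q hq
        rw [mem_sigma] at hq
        have h1 : q.2 ⊆ q.1 := mem_powerset.1 (mem_filter.1 hq.2).1
        rw [mul_comm]
        exact (prod_sdiff h1).symm
      · rintro ⟨D, X⟩ hq ⟨D', X'⟩ hq' h
        rw [mem_coe, mem_sigma] at hq hq'
        have h1 : X ⊆ D := mem_powerset.1 (mem_filter.1 hq.2).1
        have h1' : X' ⊆ D' := mem_powerset.1 (mem_filter.1 hq'.2).1
        have h2 := congrArg Prod.fst h
        have h3 := congrArg Prod.snd h
        simp only at h2 h3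
        have h4 : D = D' := by
          rw [← sdiff_union_of_subset h1, ← sdiff_union_of_subset h1', h3, h2]
        subst h4
        subst h2
        rfl
    rw [e1, e2]
    apply sum_le_sum_of_subset_of_nonneg
    · intro p hp
      obtain ⟨q, hq, rfl⟩ := mem_image.1 hp
      rw [mem_sigma] at hq
      have h1 : q.2 ⊆ q.1 := mem_powerset.1 (mem_filter.1 hq.2).1
      have h2 := (mem_filter.1 hq.2).2
      rw [mem_filter, mem_filter]
      refine ⟨⟨mem_univ _, h2.1, h2.2, ?_⟩, disjoint_sdiff⟩
      have h3 := card_sdiff_add_card_eq_card h1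
      have h4 := (mem_powersetCard.1 hq.1).2
      simp only
      omega
    · intro p _ _
      exact mul_nonneg (mon_nonneg hz _) (mon_nonneg hz _)
  · have e1 : (∑ D ∈ powersetCard d (univ : Finset (ι × κ)),
        mon z D * ∑ c ∈ D.filter (fun c => gn D c = 0), z c) =
        ∑ q ∈ (powersetCard d (univ : Finset (ι × κ))).sigma
          (fun D => D.filter (fun c => gn D c = 0)), mon z q.1 * z q.2 := by
      rw [sum_sigma]
      exact sum_congr rfl (fun D _ => by rw [mul_sum])
    -- decomposition of such a set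
    have key : ∀ (D : Finset (ι × κ)) (c : ι × κ), c ∈ D → gn D c = 0 →
        (D.filter (fun a => a.1 = c.1)) ∪ (D.filter (fun a => a.2 = c.2)) = D ∧
        (D.filter (fun a => a.1 = c.1)) ∩ (D.filter (fun a => a.2 = c.2)) = {c} := by
      intro D c hc hg
      constructor
      · ext a
        rw [mem_union, mem_filter, mem_filter]
        constructor
        · rintro (h | h)
          · exact h.1
          · exact h.1
        · intro ha
          by_contra hcon
          push Not at hcon
          have h1 : a ∈ D.filter (gen c) := by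
            rw [mem_filter]
            exact ⟨ha, fun h => hcon.1 ha h.symm, fun h => hcon.2 ha h.symm⟩
          rw [gn, card_eq_zero] at hg
          rw [hg] at h1
          simp at h1
      · ext a
        rw [mem_inter, mem_filter, mem_filter, mem_singleton]
        constructor
        · rintro ⟨h1, h2⟩
          exact Prod.ext h1.2 h2.2
        · rintro rfl
          exact ⟨⟨hc, rfl⟩, hc, rfl⟩
    have e2 : ∑ q ∈ (powersetCard d (univ : Finset (ι × κ))).sigma
          (fun D => D.filter (fun c => gn D c = 0)), mon z q.1 * z q.2 =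
        ∑ p ∈ ((powersetCard d (univ : Finset (ι × κ))).sigma
          (fun D => D.filter (fun c => gn D c = 0))).image
          (fun q => (q.1.filter (fun a => a.1 = q.2.1), q.1.filter (fun a => a.2 = q.2.2))),
          mon z p.1 * mon z p.2 := by
      rw [sum_image]
      · apply sum_congr rfl
        rintro ⟨D, c⟩ hq
        rw [mem_sigma, mem_filter] at hq
        obtain ⟨h1, h2⟩ := key D c hq.2.1 hq.2.2
        have h3 := prod_union_inter (s₁ := D.filter (fun a => a.1 = c.1))
          (s₂ := D.filter (fun a => a.2 = c.2)) (f := z)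
        rw [h1, h2, prod_singleton] at h3
        exact h3
      · rintro ⟨D, c⟩ hq ⟨D', c'⟩ hq' h
        rw [mem_coe, mem_sigma, mem_filter] at hq hq'
        obtain ⟨h1, h2⟩ := key D c hq.2.1 hq.2.2
        obtain ⟨h1', h2'⟩ := key D' c' hq'.2.1 hq'.2.2
        have h3 := congrArg Prod.fst h
        have h4 := congrArg Prod.snd h
        simp only at h3 h4
        rw [h3, h4] at h1 h2
        rw [h1'] at h1
        rw [h2'] at h2
        subst h1
        have h5 : c' = c := by simpa using h2
        subst h5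
        rfl
    rw [e1, e2]
    apply sum_le_sum_of_subset_of_nonneg
    · intro p hp
      obtain ⟨⟨D, c⟩, hq, rfl⟩ := mem_image.1 hp
      rw [mem_sigma, mem_filter] at hq
      obtain ⟨h1, h2⟩ := key D c hq.2.1 hq.2.2
      rw [mem_filter, mem_filter]
      refine ⟨⟨mem_univ _, ⟨⟨c, ?_⟩, ?_⟩, ⟨⟨c, ?_⟩, ?_⟩, ?_⟩, ?_⟩
      · exact mem_filter.2 ⟨hq.2.1, rfl⟩
      · intro a ha b hb
        rw [(mem_filter.1 ha).2, (mem_filter.1 hb).2]
      · exact mem_filter.2 ⟨hq.2.1, rfl⟩
      · intro a ha b hb
        rw [(mem_filter.1 ha).2, (mem_filter.1 hb).2]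
      · have h3 := card_union_add_card_inter (D.filter (fun a => a.1 = c.1))
          (D.filter (fun a => a.2 = c.2))
        rw [h1, h2, card_singleton] at h3
        have h4 := (mem_powersetCard.1 hq.1).2
        simp only at h4 ⊢
        omega
      · intro hdis
        have h3 : c ∈ D.filter (fun a => a.1 = c.1) := mem_filter.2 ⟨hq.2.1, rfl⟩
        have h4 : c ∈ D.filter (fun a => a.2 = c.2) := mem_filter.2 ⟨hq.2.1, rfl⟩
        exact disjoint_left.1 hdis h3 h4
    · intro p _ _
      exact mul_nonneg (mon_nonneg hz _) (mon_nonneg hz _)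

/-- Compensation of the exceptional five-element sets. -/
theorem exc_comp {z : ι × κ → ℝ} (hz : ∀ a, 0 ≤ z a) :
    ∑ D ∈ (powersetCard 5 (univ : Finset (ι × κ))).filter exc, 2 * mon z D ≤
      ∑ D ∈ powersetCard 3 (univ : Finset (ι × κ)), mon z D * ∑ p ∈ gs D, z p.1 * z p.2 := by
  set I := (powersetCard 3 (univ : Finset (ι × κ))).sigma (fun D => gs D) with hI
  set f : (Σ _ : Finset (ι × κ), (ι × κ) × (ι × κ)) → ℝ :=
    fun q => mon z q.1 * (z q.2.1 * z q.2.2) with hf
  set rec' : (Σ _ : Finset (ι × κ), (ι × κ) × (ι × κ)) → Finset (ι × κ) :=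
    fun q => q.1 ∪ {(q.2.1.1, q.2.2.2), (q.2.2.1, q.2.1.2)} with hrec
  have hf0 : ∀ q, 0 ≤ f q := fun q =>
    mul_nonneg (mon_nonneg hz _) (mul_nonneg (hz _) (hz _))
  have e1 : ∑ D ∈ powersetCard 3 (univ : Finset (ι × κ)), mon z D * ∑ p ∈ gs D, z p.1 * z p.2 =
      ∑ q ∈ I, f q := by
    rw [hI, sum_sigma]
    exact sum_congr rfl (fun D _ => by rw [mul_sum])
  rw [e1]
  refine le_trans ?_ (sum_fiberwise_le_sum_of_sum_fiber_nonneg
    (t := (powersetCard 5 (univ : Finset (ι × κ))).filter exc) (g := rec')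
    (fun D _ => sum_nonneg (fun q _ => hf0 q)))
  apply sum_le_sum
  intro D hD
  rw [mem_filter, mem_powersetCard] at hD
  obtain ⟨⟨-, hcard⟩, a, ha, b, hb, hab, hu, hv⟩ := hD
  obtain ⟨a1, a2⟩ := a
  obtain ⟨b1, b2⟩ := b
  have h1 : a1 ≠ b1 := hab.1
  have h2 : a2 ≠ b2 := hab.2
  simp only at hu hv
  -- the fifth element
  have hsub : ({(a1, a2), (b1, b2), (a1, b2), (b1, a2)} : Finset (ι × κ)) ⊆ D := by
    intro x hx
    simp only [mem_insert, mem_singleton] at hx
    rcases hx with rfl | rfl | rfl | rfl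
    · exact ha
    · exact hb
    · exact hu
    · exact hv
  have hc4 : ({(a1, a2), (b1, b2), (a1, b2), (b1, a2)} : Finset (ι × κ)).card = 4 := by
    rw [card_insert_of_notMem, card_insert_of_notMem, card_insert_of_notMem, card_singleton]
    · simp [h1]
    · simp [h1.symm, h2.symm]
    · simp [h1, h2]
  have hc1 : (D \ {(a1, a2), (b1, b2), (a1, b2), (b1, a2)}).card = 1 := by
    rw [card_sdiff_of_subset hsub, hcard, hc4]
  obtain ⟨q, hq⟩ := card_eq_one.1 hc1
  have hqD : q ∈ D \ {(a1, a2), (b1, b2), (a1, b2), (b1, a2)} := by rw [hq]; simp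
  rw [mem_sdiff] at hqD
  simp only [mem_insert, mem_singleton, not_or] at hqD
  obtain ⟨hqD, n1, n2, n3, n4⟩ := hqD
  have hDeq : D = {q, (a1, a2), (b1, b2), (a1, b2), (b1, a2)} := by
    rw [← sdiff_union_of_subset hsub, hq]
    rfl
  have hmonD : mon z D = z q * (z (a1, a2) * (z (b1, b2) * (z (a1, b2) * z (b1, a2)))) := by
    rw [hDeq, mon_insert, mon_insert, mon_insert, mon_insert]
    · simp [mon]
    · simp [h1]
    · simp [h1.symm, h2.symm]
    · simp [h1, h2]
    · simp [n1, n2, n3, n4]
  have hm1 : mon z {q, (a1, a2), (b1, b2)} = z q * (z (a1, a2) * z (b1, b2)) := by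
    rw [mon_insert, mon_insert]
    · simp [mon]
    · simp [h1]
    · simp [n1, n2]
  have hm2 : mon z {q, (a1, b2), (b1, a2)} = z q * (z (a1, b2) * z (b1, a2)) := by
    rw [mon_insert, mon_insert]
    · simp [mon]
    · simp [h1]
    · simp [n3, n4]
  have hk1 : ({q, (a1, a2), (b1, b2)} : Finset (ι × κ)).card = 3 := by
    rw [card_insert_of_notMem, card_insert_of_notMem, card_singleton]
    · simp [h1]
    · simp [n1, n2]
  have hk2 : ({q, (a1, b2), (b1, a2)} : Finset (ι × κ)).card = 3 := by
    rw [card_insert_of_notMem, card_insert_of_notMem, card_singleton]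
    · simp [h1]
    · simp [n3, n4]
  have hsub2 : ({⟨{q, (a1, a2), (b1, b2)}, ((a1, a2), (b1, b2))⟩,
      ⟨{q, (a1, b2), (b1, a2)}, ((a1, b2), (b1, a2))⟩} :
      Finset (Σ _ : Finset (ι × κ), (ι × κ) × (ι × κ))) ⊆ I.filter (fun x => rec' x = D) := by
    intro x hx
    simp only [mem_insert, mem_singleton] at hx
    rw [mem_filter, hI, mem_sigma]
    rcases hx with rfl | rfl
    · refine ⟨⟨mem_powersetCard.2 ⟨subset_univ _, hk1⟩, ?_⟩, ?_⟩
      · simp only [gs, mem_filter, mem_product]
        exact ⟨⟨by simp, by simp⟩, h1, h2⟩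
      · rw [hrec, hDeq]
        simp only
        ext x
        simp only [mem_union, mem_insert, mem_singleton]
        tauto
    · refine ⟨⟨mem_powersetCard.2 ⟨subset_univ _, hk2⟩, ?_⟩, ?_⟩
      · simp only [gs, mem_filter, mem_product]
        exact ⟨⟨by simp, by simp⟩, h1, h2.symm⟩
      · rw [hrec, hDeq]
        simp only
        ext x
        simp only [mem_union, mem_insert, mem_singleton]
        tauto
  refine le_trans ?_ (sum_le_sum_of_subset_of_nonneg hsub2 (fun q _ _ => hf0 q))
  rw [sum_pair]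
  · rw [hf]
    simp only
    rw [hm1, hm2, hmonD]
    nlinarith [mul_nonneg (hz q) (sq_nonneg (z (a1, a2) * z (b1, b2) - z (a1, b2) * z (b1, a2)))]
  · intro h
    have h3 := congrArg (fun x => x.2.1.2) h
    exact h2 h3

/-- The degree `d + 2` component of the grid inequality, `d ≥ 3`. -/
theorem Fd_nonneg {z : ι × κ → ℝ} (hz : ∀ a, 0 ≤ z a) (k : ℕ) (hk : 3 ≤ k) :
    0 ≤ AA z (k + 2) - es z univ (k + 1) * (∑ a, z a) + es z univ k * (tt z / 2) := by
  have h1 := AA_ge hz (k + 1)
  have h2 := es_mul_sum z (k + 1)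
  have h3 := es_mul_tt z k
  set U := univ (α := ι × κ)
  -- second-level terms
  have h4 : ∀ D : Finset (ι × κ), 0 ≤ (∑ c ∈ D.filter (fun c => gn D c = 0), z c) - (∑ a ∈ D, z a) +
      ∑ c ∈ D, (gn D c : ℝ) * z c := by
    intro D
    rw [sum_filter, ← sum_sub_distrib, ← sum_add_distrib]
    apply sum_nonneg
    intro c _
    by_cases h : gn D c = 0
    · rw [if_pos h, h]; simp
    · rw [if_neg h]
      have h5 : (1 : ℝ) ≤ gn D c := by exact_mod_cast Nat.one_le_iff_ne_zero.2 h
      nlinarith [hz c]
  have h5 : 0 ≤ ∑ D ∈ powersetCard (k + 1) U, mon z D *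
      ((∑ c ∈ D.filter (fun c => gn D c = 0), z c) - (∑ a ∈ D, z a) +
      ∑ c ∈ D, (gn D c : ℝ) * z c) :=
    sum_nonneg (fun D _ => mul_nonneg (mon_nonneg hz D) (h4 D))
  have h6 : ∑ D ∈ powersetCard (k + 1) U, mon z D *
      ((∑ c ∈ D.filter (fun c => gn D c = 0), z c) - (∑ a ∈ D, z a) +
      ∑ c ∈ D, (gn D c : ℝ) * z c) =
      (∑ D ∈ powersetCard (k + 1) U, mon z D * (∑ c ∈ D.filter (fun c => gn D c = 0), z c)) -
      (∑ D ∈ powersetCard (k + 1) U, mon z D * (∑ a ∈ D, z a)) +
      (∑ D ∈ powersetCard (k + 1) U, mon z D * ∑ p ∈ gs D, (z p.1 + z p.2)) / 2 := by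
    rw [sum_div, ← sum_sub_distrib, ← sum_add_distrib]
    apply sum_congr rfl
    intro D _
    rw [sum_gs_add]
    ring
  rw [h6] at h5
  -- third-level terms
  have h7 : ∀ D ∈ powersetCard (k + 2) U, (0 : ℝ) ≤ mon z D * ((Ws D).card : ℝ) -
      ((k : ℝ) + 2) * mon z D + mon z D * ((gs D).card : ℝ) / 2 +
        (if D.card = 5 ∧ exc D then mon z D else 0) := by
    intro D hD
    have hc := (mem_powersetCard.1 hD).2
    have h8 := CL D (by omega)
    have h10 := mon_nonneg hz D
    have hcr : (D.card : ℝ) = (k : ℝ) + 2 := by rw [hc]; push_cast; ring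
    by_cases hex : D.card = 5 ∧ exc D
    · rw [if_pos hex] at h8 ⊢
      have h9 : (2 : ℝ) * (D.card : ℝ) ≤ 2 * ((Ws D).card : ℝ) + ((gs D).card : ℝ) + 2 := by
        exact_mod_cast h8
      rw [hcr] at h9
      nlinarith
    · rw [if_neg hex] at h8 ⊢
      have h9 : (2 : ℝ) * (D.card : ℝ) ≤ 2 * ((Ws D).card : ℝ) + ((gs D).card : ℝ) := by
        exact_mod_cast h8
      rw [hcr] at h9
      nlinarith
  have h8 := sum_nonneg h7
  have h9 : ∑ D ∈ powersetCard (k + 2) U, (mon z D * ((Ws D).card : ℝ) -
      ((k : ℝ) + 2) * mon z D + mon z D * ((gs D).card : ℝ) / 2 +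
        (if D.card = 5 ∧ exc D then mon z D else 0)) =
      (∑ D ∈ powersetCard (k + 2) U, mon z D * ((Ws D).card : ℝ)) -
      ((k : ℝ) + 2) * es z U (k + 2) +
      (∑ D ∈ powersetCard (k + 2) U, mon z D * ((gs D).card : ℝ)) / 2 +
      ∑ D ∈ powersetCard (k + 2) U, (if D.card = 5 ∧ exc D then mon z D else 0) := by
    rw [es, mul_sum, sum_div, ← sum_sub_distrib, ← sum_add_distrib, ← sum_add_distrib]
  rw [h9] at h8
  -- first-level terms
  have h10 : 2 * ∑ D ∈ powersetCard (k + 2) U, (if D.card = 5 ∧ exc D then mon z D else 0) ≤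
      ∑ D ∈ powersetCard k U, mon z D * ∑ p ∈ gs D, z p.1 * z p.2 := by
    by_cases hk3 : k = 3
    · subst hk3
      refine le_trans (le_of_eq ?_) (exc_comp hz)
      rw [sum_filter, mul_sum]
      apply sum_congr rfl
      intro D hD
      have hc := (mem_powersetCard.1 hD).2
      by_cases h : exc D
      · rw [if_pos ⟨hc, h⟩, if_pos h]
      · rw [if_neg (fun hc => h hc.2), if_neg h, mul_zero]
    · have : ∑ D ∈ powersetCard (k + 2) U, (if D.card = 5 ∧ exc D then mon z D else 0) = 0 := by
        apply sum_eq_zero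
        intro D hD
        have hc := (mem_powersetCard.1 hD).2
        rw [if_neg]
        intro h
        omega
      rw [this, mul_zero]
      apply sum_nonneg
      intro D _
      exact mul_nonneg (mon_nonneg hz D) (sum_nonneg (fun p _ => mul_nonneg (hz _) (hz _)))
  push_cast at h2
  rw [show k + 1 + 1 = k + 2 from rfl] at h1 h2
  have h11 : es z U k * (tt z / 2) = (es z U k * tt z) / 2 := by ring
  rw [h11, h3, h2]
  linarith

end Pool.Agent.Helper160.R3
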