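import Mathlib
import Pool.Agent.Helper160.R3High

set_option autoImplicit false
set_option linter.unusedSectionVars false

open Finset

namespace Pool.Agent.Helper160.R3

variable {ι κ : Type*} [Fintype ι] [Fintype κ] [DecidableEq ι] [DecidableEq κ]

def RS (ι κ : Type*) [Fintype ι] [Fintype κ] [DecidableEq ι] [DecidableEq κ] (k : ℕ) :
    Finset (Finset (ι × κ)) := (powersetCard k univ).filter isR
def CS (ι κ : Type*) [Fintype ι] [Fintype κ] [DecidableEq ι] [DecidableEq κ] (k : ℕ) :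
    Finset (Finset (ι × κ)) := (powersetCard k univ).filter isC

def PR (z : ι × κ → ℝ) (k : ℕ) : ℝ := ∑ X ∈ RS ι κ k, mon z X
def QC (z : ι × κ → ℝ) (k : ℕ) : ℝ := ∑ X ∈ CS ι κ k, mon z X

theorem PR_zero (z : ι × κ → ℝ) : PR z 0 = 0 := by
  apply sum_eq_zero
  intro X hX
  rw [RS, mem_filter, mem_powersetCard, card_eq_zero] at hX
  exact absurd hX.2.1 (by rw [hX.1.2]; simp)

theorem QC_zero (z : ι × κ → ℝ) : QC z 0 = 0 := by
  apply sum_eq_zero
  intro X hX
  rw [CS, mem_filter, mem_powersetCard, card_eq_zero] at hX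
  exact absurd hX.2.1 (by rw [hX.1.2]; simp)

/-- Sets contained in a row, indexed by rows. -/
theorem sum_rowsets (p : Finset (ι × κ) → Prop) [DecidablePred p] (f : Finset (ι × κ) → ℝ) :
    ∑ i : ι, ∑ X ∈ (univ.filter (fun a : ι × κ => a.1 = i)).powerset.filter
        (fun X => X.Nonempty ∧ p X), f X =
      ∑ X ∈ (univ : Finset (Finset (ι × κ))).filter (fun X => isR X ∧ p X), f X := by
  rw [sum_sigma']
  refine sum_bij (fun q _ => q.2) ?_ ?_ ?_ ?_
  · rintro ⟨i, X⟩ hq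
    rw [mem_sigma, mem_filter, mem_powerset] at hq
    rw [mem_filter]
    refine ⟨mem_univ _, ⟨hq.2.2.1, ?_⟩, hq.2.2.2⟩
    intro a ha b hb
    rw [(mem_filter.1 (hq.2.1 ha)).2, (mem_filter.1 (hq.2.1 hb)).2]
  · rintro ⟨i, X⟩ hq ⟨j, Y⟩ hq' h
    rw [mem_sigma, mem_filter, mem_powerset] at hq hq'
    simp only at h hq hq'
    subst h
    obtain ⟨a, ha⟩ := hq.2.2.1
    have h1 := (mem_filter.1 (hq.2.1 ha)).2
    have h2 := (mem_filter.1 (hq'.2.1 ha)).2
    rw [← h1, ← h2]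
  · intro X hX
    rw [mem_filter] at hX
    obtain ⟨a, ha⟩ := hX.2.1.1
    refine ⟨⟨a.1, X⟩, ?_, rfl⟩
    rw [mem_sigma, mem_filter, mem_powerset]
    refine ⟨mem_univ _, ?_, ⟨a, ha⟩, hX.2.2⟩
    intro b hb
    rw [mem_filter]
    exact ⟨mem_univ _, hX.2.1.2 b hb a ha⟩
  · rintro ⟨i, X⟩ hq
    rfl

theorem sum_colsets (p : Finset (ι × κ) → Prop) [DecidablePred p] (f : Finset (ι × κ) → ℝ) :
    ∑ i : κ, ∑ X ∈ (univ.filter (fun a : ι × κ => a.2 = i)).powerset.filter
        (fun X => X.Nonempty ∧ p X), f X =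
      ∑ X ∈ (univ : Finset (Finset (ι × κ))).filter (fun X => isC X ∧ p X), f X := by
  rw [sum_sigma']
  refine sum_bij (fun q _ => q.2) ?_ ?_ ?_ ?_
  · rintro ⟨i, X⟩ hq
    rw [mem_sigma, mem_filter, mem_powerset] at hq
    rw [mem_filter]
    refine ⟨mem_univ _, ⟨hq.2.2.1, ?_⟩, hq.2.2.2⟩
    intro a ha b hb
    rw [(mem_filter.1 (hq.2.1 ha)).2, (mem_filter.1 (hq.2.1 hb)).2]
  · rintro ⟨i, X⟩ hq ⟨j, Y⟩ hq' h
    rw [mem_sigma, mem_filter, mem_powerset] at hq hq'
    simp only at h hq hq'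
    subst h
    obtain ⟨a, ha⟩ := hq.2.2.1
    have h1 := (mem_filter.1 (hq.2.1 ha)).2
    have h2 := (mem_filter.1 (hq'.2.1 ha)).2
    rw [← h1, ← h2]
  · intro X hX
    rw [mem_filter] at hX
    obtain ⟨a, ha⟩ := hX.2.1.1
    refine ⟨⟨a.2, X⟩, ?_, rfl⟩
    rw [mem_sigma, mem_filter, mem_powerset]
    refine ⟨mem_univ _, ?_, ⟨a, ha⟩, hX.2.2⟩
    intro b hb
    rw [mem_filter]
    exact ⟨mem_univ _, hX.2.1.2 b hb a ha⟩
  · rintro ⟨i, X⟩ hq
    rfl

theorem Pr_eq (z : ι × κ → ℝ) (k : ℕ) : Pr z (k + 1) = PR z (k + 1) := by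
  have h := sum_rowsets (fun X : Finset (ι × κ) => X.card = k + 1) (mon z)
  have h2 : PR z (k + 1) = ∑ X ∈ (univ : Finset (Finset (ι × κ))).filter
      (fun X => isR X ∧ X.card = k + 1), mon z X := by
    apply sum_congr _ (fun _ _ => rfl)
    ext X
    simp only [RS, mem_filter, mem_powersetCard, subset_univ, true_and, mem_univ]
    exact and_comm
  rw [h2, ← h]
  apply sum_congr rfl
  intro i _
  apply sum_congr _ (fun _ _ => rfl)
  ext X
  simp only [mem_filter, mem_powersetCard, mem_powerset]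
  constructor
  · rintro ⟨h1, h2⟩
    exact ⟨h1, card_pos.1 (by omega), h2⟩
  · rintro ⟨h1, -, h2⟩
    exact ⟨h1, h2⟩

theorem Qc_eq (z : ι × κ → ℝ) (k : ℕ) : Qc z (k + 1) = QC z (k + 1) := by
  have h := sum_colsets (fun X : Finset (ι × κ) => X.card = k + 1) (mon z)
  have h2 : QC z (k + 1) = ∑ X ∈ (univ : Finset (Finset (ι × κ))).filter
      (fun X => isC X ∧ X.card = k + 1), mon z X := by
    apply sum_congr _ (fun _ _ => rfl)
    ext X
    simp only [CS, mem_filter, mem_powersetCard, subset_univ, true_and, mem_univ]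
    exact and_comm
  rw [h2, ← h]
  apply sum_congr rfl
  intro i _
  apply sum_congr _ (fun _ _ => rfl)
  ext X
  simp only [mem_filter, mem_powersetCard, mem_powerset]
  constructor
  · rintro ⟨h1, h2⟩
    exact ⟨h1, card_pos.1 (by omega), h2⟩
  · rintro ⟨h1, -, h2⟩
    exact ⟨h1, h2⟩

theorem prod_sub_one (z : ι × κ → ℝ) (s : Finset (ι × κ)) :
    (∏ a ∈ s, (1 + z a)) - 1 = ∑ X ∈ s.powerset.filter (fun X => X.Nonempty ∧ True), mon z X := by
  rw [prod_one_add]
  have h1 : s.powerset = insert ∅ (s.powerset.filter (fun X => X.Nonempty ∧ True)) := by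
    ext X
    simp only [mem_powerset, mem_insert, mem_filter, and_true]
    constructor
    · intro h
      rcases X.eq_empty_or_nonempty with h1 | h1
      · exact Or.inl h1
      · exact Or.inr ⟨h, h1⟩
    · rintro (h | h)
      · rw [h]; exact empty_subset _
      · exact h.1
  conv_lhs => rw [h1]
  rw [sum_insert]
  · simp [mon]
  · simp

theorem P_prod (z : ι × κ → ℝ) :
    ∑ i, ((∏ j, (1 + z (i, j))) - 1) = ∑ X ∈ (univ : Finset (Finset (ι × κ))).filter isR, mon z X := by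
  have h := sum_rowsets (fun _ : Finset (ι × κ) => True) (mon z)
  simp only [and_true] at h
  rw [← h]
  apply sum_congr rfl
  intro i _
  have h2 := prod_sub_one z (univ.filter (fun a : ι × κ => a.1 = i))
  simp only [and_true] at h2
  rw [← h2]
  congr 1
  rw [prod_filter, Fintype.prod_prod_type, prod_eq_single i]
  · simp
  · intro k _ hk
    simp [hk]
  · simp

theorem Q_prod (z : ι × κ → ℝ) :
    ∑ j, ((∏ i, (1 + z (i, j))) - 1) = ∑ X ∈ (univ : Finset (Finset (ι × κ))).filter isC, mon z X := by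
  have h := sum_colsets (fun _ : Finset (ι × κ) => True) (mon z)
  simp only [and_true] at h
  rw [← h]
  apply sum_congr rfl
  intro i _
  have h2 := prod_sub_one z (univ.filter (fun a : ι × κ => a.2 = i))
  simp only [and_true] at h2
  rw [← h2]
  congr 1
  rw [prod_filter, Fintype.prod_prod_type_right, prod_eq_single i]
  · simp
  · intro k _ hk
    simp [hk]
  · simp

theorem AA_eq (z : ι × κ → ℝ) (d : ℕ) :
    AA z d = ∑ p ∈ HasAntidiagonal.antidiagonal d, PR z p.1 * QC z p.2 := by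
  unfold AA
  rw [← sum_fiberwise_of_maps_to (s := (univ : Finset (Finset (ι × κ) × Finset (ι × κ))).filter
    (fun p => isR p.1 ∧ isC p.2 ∧ p.1.card + p.2.card = d)) (t := HasAntidiagonal.antidiagonal d)
    (g := fun q => (q.1.card, q.2.card))
    (fun q hq => by
      rw [HasAntidiagonal.mem_antidiagonal]
      exact (mem_filter.1 hq).2.2.2)]
  apply sum_congr rfl
  rintro ⟨k, l⟩ hkl
  rw [HasAntidiagonal.mem_antidiagonal] at hkl
  unfold PR QC
  rw [sum_mul_sum, ← sum_product']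
  apply sum_congr _ (fun _ _ => rfl)
  ext ⟨X, Y⟩
  simp only [mem_filter, mem_univ, true_and, mem_product, RS, CS, mem_powersetCard, subset_univ,
    Prod.mk.injEq]
  constructor
  · rintro ⟨⟨h1, h2, h3⟩, h4, h5⟩
    exact ⟨⟨h4, h1⟩, h5, h2⟩
  · rintro ⟨⟨h4, h1⟩, h5, h2⟩
    refine ⟨⟨h1, h2, ?_⟩, h4, h5⟩
    simp only at hkl
    omega

theorem AA_two (z : ι × κ → ℝ) : AA z 2 = (∑ a, z a) * (∑ a, z a) := by
  have h : HasAntidiagonal.antidiagonal 2 = ({(0, 2), (1, 1), (2, 0)} : Finset (ℕ × ℕ)) := rfl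
  rw [AA_eq, h, sum_insert (by simp), sum_pair (by simp)]
  simp only [PR_zero, QC_zero]
  rw [← Pr_eq z 0, ← Qc_eq z 0]
  simp only [zero_add, Pr_one, Qc_one]
  ring

theorem AA_three (z : ι × κ → ℝ) : AA z 3 = (∑ a, z a) * (Pr z 2 + Qc z 2) := by
  have h : HasAntidiagonal.antidiagonal 3 =
      ({(0, 3), (1, 2), (2, 1), (3, 0)} : Finset (ℕ × ℕ)) := rfl
  rw [AA_eq, h, sum_insert (by simp), sum_insert (by simp), sum_pair (by simp)]
  simp only [PR_zero, QC_zero]
  rw [← Pr_eq z 0, ← Qc_eq z 0, ← Pr_eq z 1, ← Qc_eq z 1]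
  simp only [zero_add, Pr_one, Qc_one]
  ring

theorem AA_four (z : ι × κ → ℝ) :
    AA z 4 = (∑ a, z a) * (Pr z 3 + Qc z 3) + Pr z 2 * Qc z 2 := by
  have h : HasAntidiagonal.antidiagonal 4 =
      ({(0, 4), (1, 3), (2, 2), (3, 1), (4, 0)} : Finset (ℕ × ℕ)) := rfl
  rw [AA_eq, h, sum_insert (by simp), sum_insert (by simp), sum_insert (by simp),
    sum_pair (by simp)]
  simp only [PR_zero, QC_zero]
  rw [← Pr_eq z 0, ← Qc_eq z 0, ← Pr_eq z 1, ← Qc_eq z 1, ← Pr_eq z 2, ← Qc_eq z 2]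
  simp only [zero_add, Pr_one, Qc_one]
  ring

theorem Gk_nonneg {z : ι × κ → ℝ} (hz : ∀ a, 0 ≤ z a) (k : ℕ) :
    0 ≤ AA z (k + 2) - es z univ (k + 1) * (∑ a, z a) +
      (if k = 0 then 0 else es z univ k) * (tt z / 2) := by
  rcases Nat.lt_or_ge k 3 with h | h
  · interval_cases k
    · rw [if_pos rfl, zero_add, AA_two, zero_add, es_one]
      simp
    · rw [if_neg (by norm_num), show 1 + 2 = 3 from rfl, AA_three, es_one]
      exact (F3_eq z).ge
    · rw [if_neg (by norm_num), show 2 + 2 = 4 from rfl, AA_four]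
      exact F4_nonneg hz
  · rw [if_neg (by omega)]
    exact Fd_nonneg hz k h

theorem V_eq (z : ι × κ → ℝ) :
    (∏ a, (1 + z a)) - 1 = ∑ k ∈ range (univ : Finset (ι × κ)).card, es z univ (k + 1) := by
  rw [prod_one_add, sum_powerset, sum_range_succ']
  have : ∑ t ∈ powersetCard 0 (univ : Finset (ι × κ)), ∏ i ∈ t, z i = 1 := by simp
  rw [this, add_sub_cancel_right]
  rfl

/-- **The grid inequality.** -/
theorem grid {z : ι × κ → ℝ} (hz : ∀ a, 0 ≤ z a) :
    ((∏ a, (1 + z a)) - 1) * ((∑ a, z a) - tt z / 2) ≤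
      (∑ i, ((∏ j, (1 + z (i, j))) - 1)) * (∑ j, ((∏ i, (1 + z (i, j))) - 1)) := by
  set N := (univ : Finset (ι × κ)).card with hN
  have h1 : 0 ≤ ∑ k ∈ range (N + 1), (AA z (k + 2) - es z univ (k + 1) * (∑ a, z a) +
      (if k = 0 then 0 else es z univ k) * (tt z / 2)) :=
    sum_nonneg (fun k _ => Gk_nonneg hz k)
  have h2 : ∑ k ∈ range (N + 1), (AA z (k + 2) - es z univ (k + 1) * (∑ a, z a) +
      (if k = 0 then 0 else es z univ k) * (tt z / 2)) =
      (∑ k ∈ range (N + 1), AA z (k + 2)) -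
      (∑ k ∈ range (N + 1), es z univ (k + 1)) * (∑ a, z a) +
      (∑ k ∈ range (N + 1), (if k = 0 then 0 else es z univ k)) * (tt z / 2) := by
    rw [sum_mul, sum_mul, ← sum_sub_distrib, ← sum_add_distrib]
  have h3 : ∑ k ∈ range (N + 1), es z univ (k + 1) = (∏ a, (1 + z a)) - 1 := by
    rw [sum_range_succ, V_eq]
    have : es z univ (N + 1) = 0 := by
      unfold es
      rw [powersetCard_eq_empty.2 (by omega), sum_empty]
    rw [this, add_zero]
  have h4 : ∑ k ∈ range (N + 1), (if k = 0 then 0 else es z univ k) = (∏ a, (1 + z a)) - 1 := by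
    rw [sum_range_succ', V_eq, if_pos rfl, add_zero]
    exact sum_congr rfl (fun k _ => by rw [if_neg (Nat.succ_ne_zero k)])
  have h5 : ∑ k ∈ range (N + 1), AA z (k + 2) ≤
      (∑ i, ((∏ j, (1 + z (i, j))) - 1)) * (∑ j, ((∏ i, (1 + z (i, j))) - 1)) := by
    rw [P_prod, Q_prod, sum_mul_sum, ← sum_product']
    refine le_trans (le_of_eq ?_) (sum_fiberwise_le_sum_of_sum_fiber_nonneg
      (t := range (N + 1)) (g := fun p : Finset (ι × κ) × Finset (ι × κ) =>
        p.1.card + p.2.card - 2)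
      (fun D _ => sum_nonneg (fun q _ => mul_nonneg (mon_nonneg hz _) (mon_nonneg hz _))))
    apply sum_congr rfl
    intro k _
    unfold AA
    apply sum_congr _ (fun _ _ => rfl)
    ext ⟨X, Y⟩
    simp only [mem_filter, mem_univ, true_and, mem_product]
    constructor
    · rintro ⟨h1, h2, h3⟩
      exact ⟨⟨h1, h2⟩, by omega⟩
    · rintro ⟨⟨h1, h2⟩, h3⟩
      have h4 := card_pos.2 h1.1
      have h5 := card_pos.2 h2.1
      exact ⟨h1, h2, by omega⟩
  rw [h2, h3, h4] at h1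
  have h6 : ((∏ a, (1 + z a)) - 1) * ((∑ a, z a) - tt z / 2) =
      ((∏ a, (1 + z a)) - 1) * (∑ a, z a) - ((∏ a, (1 + z a)) - 1) * (tt z / 2) := by ring
  rw [h6]
  linarith

end Pool.Agent.Helper160.R3
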