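import Mathlib
import Pool.Agent.Helper160.R3Grid

set_option autoImplicit false
set_option linter.unusedSectionVars false

open Finset

namespace Pool.Agent.Helper160.R3

section label
variable {α γ : Type*} [DecidableEq α] [Fintype γ] [DecidableEq γ]

theorem prod_one_add_sub_one (w : α → ℝ) (s : Finset α) :
    (∏ a ∈ s, (1 + w a)) - 1 = ∑ X ∈ s.powerset.filter (fun X => X.Nonempty), mon w X := by
  rw [prod_one_add]
  have h1 : s.powerset = insert ∅ (s.powerset.filter (fun X => X.Nonempty)) := by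
    ext X
    simp only [mem_powerset, mem_insert, mem_filter]
    constructor
    · intro h
      rcases X.eq_empty_or_nonempty with h1 | h1
      · exact Or.inl h1
      · exact Or.inr ⟨h, h1⟩
    · rintro (h | h)
      · rw [h]; exact empty_subset _
      · exact h.1
  conv_lhs => rw [h1]
  rw [sum_insert]
  · simp [mon]
  · simp

/-- Nonempty with constant label. -/
def cst (h : α → γ) (D : Finset α) : Prop := D.Nonempty ∧ ∀ a ∈ D, ∀ b ∈ D, h a = h b

instance (h : α → γ) (D : Finset α) : Decidable (cst h D) := by unfold cst; infer_instance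

theorem sum_cst (O : Finset α) (w : α → ℝ) (h : α → γ) :
    ∑ i : γ, ((∏ g ∈ O.filter (fun g => h g = i), (1 + w g)) - 1) =
      ∑ D ∈ O.powerset.filter (cst h), mon w D := by
  rw [sum_congr rfl (fun i _ => prod_one_add_sub_one w (O.filter (fun g => h g = i))), sum_sigma']
  refine sum_bij (fun q _ => q.2) ?_ ?_ ?_ ?_
  · rintro ⟨i, X⟩ hq
    rw [mem_sigma, mem_filter, mem_powerset] at hq
    rw [mem_filter, mem_powerset]
    refine ⟨hq.2.1.trans (filter_subset _ _), ⟨hq.2.2, ?_⟩⟩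
    intro a ha b hb
    rw [(mem_filter.1 (hq.2.1 ha)).2, (mem_filter.1 (hq.2.1 hb)).2]
  · rintro ⟨i, X⟩ hq ⟨j, Y⟩ hq' hXY
    rw [mem_sigma, mem_filter, mem_powerset] at hq hq'
    simp only at hXY hq hq'
    subst hXY
    obtain ⟨a, ha⟩ := hq.2.2
    have h1 := (mem_filter.1 (hq.2.1 ha)).2
    have h2 := (mem_filter.1 (hq'.2.1 ha)).2
    rw [← h1, ← h2]
  · intro X hX
    rw [mem_filter, mem_powerset] at hX
    obtain ⟨a, ha⟩ := hX.2.1
    refine ⟨⟨h a, X⟩, ?_, rfl⟩
    rw [mem_sigma, mem_filter, mem_powerset]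
    refine ⟨mem_univ _, ?_, ⟨a, ha⟩⟩
    intro b hb
    rw [mem_filter]
    exact ⟨hX.1 hb, hX.2.2 b hb a ha⟩
  · rintro ⟨i, X⟩ hq
    rfl

end label

section two
variable {α ι κ : Type*} [DecidableEq α] [Fintype ι] [Fintype κ] [DecidableEq ι] [DecidableEq κ]

/-- `D` splits into two nonempty sets, each with constant labels, in general position. -/
def spl (r : α → ι) (c : α → κ) (D : Finset α) : Prop :=
  ∃ X ∈ D.powerset, X.Nonempty ∧ (D \ X).Nonempty ∧
    (∀ a ∈ X, ∀ b ∈ X, r a = r b ∧ c a = c b) ∧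
    (∀ a ∈ D \ X, ∀ b ∈ D \ X, r a = r b ∧ c a = c b) ∧
    (∀ a ∈ X, ∀ b ∈ D \ X, r a ≠ r b ∧ c a ≠ c b)

instance (r : α → ι) (c : α → κ) (D : Finset α) : Decidable (spl r c D) := by
  unfold spl; infer_instance

/-- The cell weights. -/
def ZZ (O : Finset α) (w : α → ℝ) (r : α → ι) (c : α → κ) (p : ι × κ) : ℝ :=
  (∏ g ∈ O.filter (fun g => (r g, c g) = p), (1 + w g)) - 1

theorem ZZ_nonneg {O : Finset α} {w : α → ℝ} (hw : ∀ a, 0 ≤ w a) (r : α → ι) (c : α → κ)
    (p : ι × κ) : 0 ≤ ZZ O w r c p := by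
  unfold ZZ
  rw [prod_one_add_sub_one]
  exact sum_nonneg (fun X _ => mon_nonneg hw X)

theorem row_prod (O : Finset α) (w : α → ℝ) (r : α → ι) (c : α → κ) (i : ι) :
    ∏ j, (1 + ZZ O w r c (i, j)) = ∏ g ∈ O.filter (fun g => r g = i), (1 + w g) := by
  have h1 : ∀ j, 1 + ZZ O w r c (i, j) =
      ∏ g ∈ (O.filter (fun g => r g = i)).filter (fun g => c g = j), (1 + w g) := by
    intro j
    unfold ZZ
    rw [add_sub_cancel, filter_filter]
    simp only [Prod.mk.injEq]
  rw [prod_congr rfl (fun j _ => h1 j)]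
  exact prod_fiberwise _ _ _

theorem col_prod (O : Finset α) (w : α → ℝ) (r : α → ι) (c : α → κ) (j : κ) :
    ∏ i, (1 + ZZ O w r c (i, j)) = ∏ g ∈ O.filter (fun g => c g = j), (1 + w g) := by
  have h1 : ∀ i, 1 + ZZ O w r c (i, j) =
      ∏ g ∈ (O.filter (fun g => c g = j)).filter (fun g => r g = i), (1 + w g) := by
    intro i
    unfold ZZ
    rw [add_sub_cancel, filter_filter]
    simp only [Prod.mk.injEq]
    apply prod_congr _ (fun _ _ => rfl)
    ext g
    simp only [mem_filter]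
    tauto
  rw [prod_congr rfl (fun j _ => h1 j)]
  exact prod_fiberwise _ _ _

theorem all_prod (O : Finset α) (w : α → ℝ) (r : α → ι) (c : α → κ) :
    ∏ p, (1 + ZZ O w r c p) = ∏ g ∈ O, (1 + w g) := by
  have h1 : ∀ p, 1 + ZZ O w r c p =
      ∏ g ∈ O.filter (fun g => (r g, c g) = p), (1 + w g) := by
    intro p
    unfold ZZ
    rw [add_sub_cancel]
  rw [prod_congr rfl (fun j _ => h1 j)]
  exact prod_fiberwise _ _ _

theorem tt_le (O : Finset α) {w : α → ℝ} (hw : ∀ a, 0 ≤ w a) (r : α → ι) (c : α → κ) :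
    tt (ZZ O w r c) ≤ 2 * ∑ D ∈ O.powerset.filter (spl r c), mon w D := by
  set T : Finset (((ι × κ) × (ι × κ)) × (Finset α × Finset α)) :=
    ((univ ×ˢ univ) ×ˢ (O.powerset ×ˢ O.powerset)).filter (fun t => gen t.1.1 t.1.2 ∧
      (t.2.1.Nonempty ∧ ∀ g ∈ t.2.1, (r g, c g) = t.1.1) ∧
      (t.2.2.Nonempty ∧ ∀ g ∈ t.2.2, (r g, c g) = t.1.2)) with hT
  have e0 : ∀ p, ZZ O w r c p = ∑ X ∈ O.powerset,
      if (X.Nonempty ∧ ∀ g ∈ X, (r g, c g) = p) then mon w X else 0 := by
    intro p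
    unfold ZZ
    rw [prod_one_add_sub_one, ← sum_filter]
    apply sum_congr _ (fun _ _ => rfl)
    ext X
    simp only [mem_filter, mem_powerset, subset_iff]
    constructor
    · rintro ⟨h1, h2⟩
      exact ⟨fun x hx => (h1 hx).1, h2, fun x hx => (h1 hx).2⟩
    · rintro ⟨h1, h2, h3⟩
      exact ⟨fun x hx => ⟨h1 hx, h3 x hx⟩, h2⟩
  have e1 : tt (ZZ O w r c) = ∑ t ∈ T, mon w t.2.1 * mon w t.2.2 := by
    rw [hT, sum_filter, sum_product, sum_product]
    unfold tt
    apply sum_congr rfl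
    intro p _
    apply sum_congr rfl
    intro q _
    by_cases h : gen p q
    · rw [if_pos h, e0, e0, sum_mul_sum, sum_product]
      apply sum_congr rfl
      intro X _
      apply sum_congr rfl
      intro Y _
      by_cases h1 : (X.Nonempty ∧ ∀ g ∈ X, (r g, c g) = p) <;>
        by_cases h2 : (Y.Nonempty ∧ ∀ g ∈ Y, (r g, c g) = q)
      · rw [if_pos h1, if_pos h2, if_pos ⟨h, h1, h2⟩]
      · rw [if_pos h1, if_neg h2, if_neg (fun hc => h2 hc.2.2), mul_zero]
      · rw [if_neg h1, if_pos h2, if_neg (fun hc => h1 hc.2.1), zero_mul]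
      · rw [if_neg h1, if_neg h2, if_neg (fun hc => h1 hc.2.1), zero_mul]
    · rw [if_neg h]
      symm
      apply sum_eq_zero
      intro x _
      rw [if_neg (fun hc => h hc.1)]
  have facts : ∀ t ∈ T, Disjoint t.2.1 t.2.2 := by
    intro t ht
    rw [hT, mem_filter] at ht
    rw [disjoint_left]
    intro a ha hb
    have h1 := ht.2.2.1.2 a ha
    have h2 := ht.2.2.2.2 a hb
    rw [h1] at h2
    exact ht.2.1.1 (by rw [h2])
  have maps : ∀ t ∈ T, t.2.1 ∪ t.2.2 ∈ O.powerset.filter (spl r c) := by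
    intro t ht
    have hd := facts t ht
    rw [hT, mem_filter, mem_product, mem_product, mem_product, mem_powerset, mem_powerset] at ht
    rw [mem_filter, mem_powerset]
    have hsd : (t.2.1 ∪ t.2.2) \ t.2.1 = t.2.2 := union_sdiff_cancel_left hd
    refine ⟨union_subset ht.1.2.1 ht.1.2.2, t.2.1, mem_powerset.2 subset_union_left, ht.2.2.1.1,
      ?_, ?_, ?_, ?_⟩
    · rw [hsd]; exact ht.2.2.2.1
    · intro a ha b hb
      have h1 := ht.2.2.1.2 a ha
      have h2 := ht.2.2.1.2 b hb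
      rw [← h2] at h1
      exact ⟨congrArg Prod.fst h1, congrArg Prod.snd h1⟩
    · rw [hsd]
      intro a ha b hb
      have h1 := ht.2.2.2.2 a ha
      have h2 := ht.2.2.2.2 b hb
      rw [← h2] at h1
      exact ⟨congrArg Prod.fst h1, congrArg Prod.snd h1⟩
    · rw [hsd]
      intro a ha b hb
      have h1 := ht.2.2.1.2 a ha
      have h2 := ht.2.2.2.2 b hb
      have h3 := ht.2.1
      rw [← h1, ← h2] at h3
      exact h3
  rw [e1, ← sum_fiberwise_of_maps_to maps, mul_sum]
  apply sum_le_sum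
  intro D hD
  rw [mem_filter] at hD
  have h1 : ∑ t ∈ T.filter (fun t => t.2.1 ∪ t.2.2 = D), mon w t.2.1 * mon w t.2.2 =
      ((T.filter (fun t => t.2.1 ∪ t.2.2 = D)).card : ℝ) * mon w D := by
    rw [← nsmul_eq_mul, ← sum_const]
    apply sum_congr rfl
    intro t ht
    rw [mem_filter] at ht
    rw [← ht.2]
    exact (prod_union (facts t ht.1)).symm
  rw [h1]
  apply mul_le_mul_of_nonneg_right _ (mon_nonneg hw D)
  -- the fibre has at most two elements
  obtain ⟨X0, hX0, ⟨x0, hx0⟩, -⟩ := hD.2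
  have hx0D : x0 ∈ D := mem_powerset.1 hX0 hx0
  have h2 : (T.filter (fun t => t.2.1 ∪ t.2.2 = D)).card ≤
      ({D.filter (fun g => (r g, c g) = (r x0, c x0)),
        D.filter (fun g => (r g, c g) ≠ (r x0, c x0))} : Finset (Finset α)).card := by
    apply card_le_card_of_injOn (fun t => t.2.1)
    · intro t ht
      have ht' := mem_coe.1 ht
      rw [mem_filter] at ht'
      obtain ⟨hT1, hU⟩ := ht'
      have hdis := facts t hT1
      rw [hT, mem_filter] at hT1
      have hgen := hT1.2.1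
      rw [mem_coe, mem_insert, mem_singleton]
      have hx0' : x0 ∈ t.2.1 ∪ t.2.2 := by rw [hU]; exact hx0D
      rcases mem_union.1 hx0' with hx | hx
      · left
        ext g
        rw [mem_filter]
        constructor
        · intro hg
          refine ⟨by rw [← hU]; exact mem_union_left _ hg, ?_⟩
          rw [hT1.2.2.1.2 g hg, hT1.2.2.1.2 x0 hx]
        · rintro ⟨hg, hg2⟩
          rw [← hU] at hg
          rcases mem_union.1 hg with hg | hg
          · exact hg
          · exfalso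
            rw [hT1.2.2.2.2 g hg, hT1.2.2.1.2 x0 hx] at hg2
            exact hgen.1 (by rw [hg2])
      · right
        ext g
        rw [mem_filter]
        constructor
        · intro hg
          refine ⟨by rw [← hU]; exact mem_union_left _ hg, ?_⟩
          rw [hT1.2.2.1.2 g hg, hT1.2.2.2.2 x0 hx]
          intro hc
          exact hgen.1 (by rw [hc])
        · rintro ⟨hg, hg2⟩
          rw [← hU] at hg
          rcases mem_union.1 hg with hg | hg
          · exact hg
          · exfalso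
            rw [hT1.2.2.2.2 g hg, hT1.2.2.2.2 x0 hx] at hg2
            exact hg2 rfl
    · intro t ht s hs hts
      have ht' := mem_coe.1 ht
      have hs' := mem_coe.1 hs
      rw [mem_filter] at ht' hs'
      simp only at hts
      have hd1 := facts t ht'.1
      have hd2 := facts s hs'.1
      have h3 : t.2.2 = s.2.2 := by
        have e1 : (t.2.1 ∪ t.2.2) \ t.2.1 = t.2.2 := union_sdiff_cancel_left hd1
        have e2 : (s.2.1 ∪ s.2.2) \ s.2.1 = s.2.2 := union_sdiff_cancel_left hd2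
        rw [← e1, ← e2, ht'.2, hs'.2, hts]
      have ht1 := ht'.1
      have hs1 := hs'.1
      rw [hT, mem_filter] at ht1 hs1
      obtain ⟨x, hx⟩ := ht1.2.2.1.1
      obtain ⟨y, hy⟩ := ht1.2.2.2.1
      have h4 : t.1.1 = s.1.1 := by
        rw [← ht1.2.2.1.2 x hx, ← hs1.2.2.1.2 x (by rw [← hts]; exact hx)]
      have h5 : t.1.2 = s.1.2 := by
        rw [← ht1.2.2.2.2 y hy, ← hs1.2.2.2.2 y (by rw [← h3]; exact hy)]
      exact Prod.ext (Prod.ext h4 h5) (Prod.ext hts h3)
  have h3 : (T.filter (fun t => t.2.1 ∪ t.2.2 = D)).card ≤ 2 := h2.trans card_le_two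
  exact_mod_cast h3

/-- The labelled form of the grid inequality. -/
theorem label_grid (O : Finset α) {w : α → ℝ} (hw : ∀ a, 0 ≤ w a) (r : α → ι) (c : α → κ) :
    ((∏ g ∈ O, (1 + w g)) - 1) * ((∑ D ∈ O.powerset.filter (cst (fun g => (r g, c g))), mon w D) -
        ∑ D ∈ O.powerset.filter (spl r c), mon w D) ≤
      (∑ D ∈ O.powerset.filter (cst r), mon w D) * (∑ D ∈ O.powerset.filter (cst c), mon w D) := by
  have h1 := grid (z := ZZ O w r c) (fun p => ZZ_nonneg hw r c p)
  have h2 := tt_le O hw r c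
  rw [all_prod] at h1
  simp only [row_prod, col_prod] at h1
  rw [sum_cst O w r, sum_cst O w c] at h1
  have h3 : ∑ p, ZZ O w r c p = ∑ D ∈ O.powerset.filter (cst (fun g => (r g, c g))), mon w D := by
    rw [← sum_cst O w (fun g => (r g, c g))]
    rfl
  rw [h3] at h1
  refine le_trans (mul_le_mul_of_nonneg_left (by linarith) ?_) h1
  rw [prod_one_add_sub_one]
  exact sum_nonneg (fun X _ => mon_nonneg hw X)

end two

/-- `∏ (1 + w) * (1 - ∑ w) ≤ 1`. -/
theorem prod_mul_one_sub_le {α : Type*} [DecidableEq α] {w : α → ℝ} (hw : ∀ a, 0 ≤ w a)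
    (s : Finset α) : (∏ g ∈ s, (1 + w g)) * (1 - ∑ g ∈ s, w g) ≤ 1 := by
  induction s using Finset.induction_on with
  | empty => simp
  | insert a s h ih =>
    rw [prod_insert h, sum_insert h]
    have h1 : 0 ≤ ∏ g ∈ s, (1 + w g) := prod_nonneg (fun g _ => by linarith [hw g])
    have h2 : 0 ≤ ∑ g ∈ s, w g := sum_nonneg (fun g _ => hw g)
    have h3 := hw a
    nlinarith [mul_nonneg h1 (mul_nonneg h3 h2), mul_nonneg h1 (mul_nonneg h3 h3)]

end Pool.Agent.Helper160.R3
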