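import Mathlib
import Pool.Agent.Helper160.R3Label

set_option autoImplicit false
set_option linter.unusedSectionVars false

open Set

namespace Pool.Agent.Helper160.R3

variable {α : Type*} {M : Matroid α}

theorem not_span_of_pair (h3 : M.eRank = 3) {B : Set α} {x y : α} (hB : B ⊆ M.closure {x, y}) :
    ¬ M.Spanning B := by
  intro hs
  have h1 : M.eRk B ≤ M.eRk (M.closure {x, y}) := M.eRk_mono hB
  rw [M.eRk_closure_eq, hs.eRk_eq, h3] at h1
  have h2 := M.eRk_le_encard {x, y}
  have h4 : ({x, y} : Set α).encard ≤ 2 := by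
    refine le_trans (encard_insert_le _ _) ?_
    rw [encard_singleton]
    norm_num
  have h5 : (3 : ℕ∞) ≤ 2 := h1.trans (h2.trans h4)
  exact absurd h5 (by decide)

theorem span_of_three (h3 : M.eRank = 3) {B : Set α} {x y t : α} (hB : B ⊆ M.E)
    (hx : x ∈ B) (hy : y ∈ B) (ht : t ∈ B) (h1 : x ∉ M.closure ∅) (h2 : y ∉ M.closure {x})
    (h4 : t ∉ M.closure {y, x}) : M.Spanning B := by
  have i0 : M.Indep ∅ := M.empty_indep
  have i1 : M.Indep {x} := by
    rw [← insert_empty_eq x, i0.insert_indep_iff]
    exact Or.inl ⟨hB hx, h1⟩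
  have i2 : M.Indep {y, x} := by
    rw [i1.insert_indep_iff]
    exact Or.inl ⟨hB hy, h2⟩
  have i3 : M.Indep {t, y, x} := by
    rw [i2.insert_indep_iff]
    exact Or.inl ⟨hB ht, h4⟩
  have hyx : y ≠ x := by
    rintro rfl
    exact h2 (M.mem_closure_of_mem' (mem_singleton _) (hB hy))
  have htn : t ∉ ({y, x} : Set α) := fun h =>
    h4 (M.mem_closure_of_mem' h (hB ht))
  have hc : ({t, y, x} : Set α).encard = 3 := by
    rw [encard_insert_of_notMem htn, encard_pair hyx]
    norm_num
  have hbase : M.IsBase {t, y, x} := by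
    apply i3.isBase_of_eRk_ge
    · exact (finite_singleton _).insert _ |>.insert _
    · rw [h3, i3.eRk_eq_encard, hc]
  apply hbase.spanning_of_superset _ hB
  intro a ha
  simp only [mem_insert_iff, mem_singleton_iff] at ha
  rcases ha with rfl | rfl | rfl
  · exact ht
  · exact hy
  · exact hx

section pt
variable {e f : α}

/-- Facts about a pair `e, f` of independent elements. -/
structure PairH (M : Matroid α) (e f : α) : Prop where
  rk : M.eRank = 3
  eE : e ∈ M.E
  fE : f ∈ M.E
  ef : e ∉ M.closure {f}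
  fe : f ∉ M.closure {e}

theorem PairH.symm (h : PairH M e f) : PairH M f e := ⟨h.rk, h.fE, h.eE, h.fe, h.ef⟩

theorem PairH.e0 (h : PairH M e f) : e ∉ M.closure ∅ := fun hc =>
  h.ef (M.closure_subset_closure (empty_subset _) hc)

theorem mem_L_left (h : PairH M e f) : e ∈ M.closure {e, f} :=
  M.mem_closure_of_mem' (mem_insert _ _) h.eE

theorem mem_L_right (h : PairH M e f) : f ∈ M.closure {e, f} :=
  M.mem_closure_of_mem' (mem_insert_of_mem _ (mem_singleton _)) h.fE

theorem cl_e_sub : M.closure {e} ⊆ M.closure {e, f} :=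
  M.closure_subset_closure (by intro a ha; rw [mem_singleton_iff] at ha; rw [ha]; exact mem_insert _ _)

theorem cl_f_sub : M.closure {f} ⊆ M.closure {e, f} :=
  M.closure_subset_closure (by intro a ha; exact mem_insert_of_mem _ ha)

/-- The intersection of the closures of `e` and `f` consists of loops. -/
theorem inter_loops (h : PairH M e f) {x : α} (h1 : x ∈ M.closure {e}) (h2 : x ∈ M.closure {f}) :
    x ∈ M.closure ∅ := by
  by_contra h0
  have e1 : M.closure {x} = M.closure {e} := by
    have := M.closure_insert_congr (e := x) (f := e) (X := ∅) ⟨by rwa [insert_empty_eq], h0⟩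
    rwa [insert_empty_eq, insert_empty_eq] at this
  have e2 : M.closure {x} = M.closure {f} := by
    have := M.closure_insert_congr (e := x) (f := f) (X := ∅) ⟨by rwa [insert_empty_eq], h0⟩
    rwa [insert_empty_eq, insert_empty_eq] at this
  apply h.ef
  rw [← e2, e1]
  exact M.mem_closure_self e h.eE

/-- Spanning sets containing `e` and `f`. -/
theorem span_ef (h : PairH M e f) {B : Set α} (hB : B ⊆ M.E) (he : e ∈ B) (hf : f ∈ B) :
    M.Spanning B ↔ ¬ B ⊆ M.closure {e, f} := by
  constructor
  · intro hs hc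
    exact not_span_of_pair h.rk hc hs
  · intro hc
    obtain ⟨t, ht, ht2⟩ := not_subset.1 hc
    apply span_of_three h.rk hB he hf ht h.e0 h.fe
    rwa [pair_comm]

theorem span_e (h : PairH M e f) {A D : Set α} (hA : A ⊆ M.closure {e, f}) (hD : D ⊆ M.E)
    (hD2 : ∀ g ∈ D, g ∉ M.closure {e, f}) (hne : D.Nonempty) :
    ¬ M.Spanning (insert e (A ∪ D)) ↔
      ((∀ g ∈ D, ∀ g' ∈ D, M.closure {g, e} = M.closure {g', e}) ∧ A ⊆ M.closure {e}) := by
  have hAE : A ⊆ M.E := hA.trans (M.closure_subset_ground _)
  have hBE : insert e (A ∪ D) ⊆ M.E := insert_subset h.eE (union_subset hAE hD)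
  constructor
  · intro hns
    have key : ∀ g ∈ D, ∀ t ∈ A ∪ D, t ∈ M.closure {g, e} := by
      intro g hg t ht
      by_contra hcon
      apply hns
      apply span_of_three h.rk hBE (mem_insert _ _) (mem_insert_of_mem _ (Or.inr hg))
        (mem_insert_of_mem _ ht) h.e0 (fun hc => hD2 g hg (cl_e_sub hc)) hcon
    constructor
    · intro g hg g' hg'
      exact M.closure_insert_congr ⟨key g' hg' g (Or.inr hg), fun hc => hD2 g hg (cl_e_sub hc)⟩
    · intro x hx
      by_contra hcon
      obtain ⟨g, hg⟩ := hne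
      have h1 : M.closure {x, e} = M.closure {g, e} :=
        M.closure_insert_congr ⟨key g hg x (Or.inl hx), hcon⟩
      have h2 : g ∈ M.closure {x, e} := by
        rw [h1]; exact M.mem_closure_of_mem' (mem_insert _ _) (hD hg)
      apply hD2 g hg
      have h3 : ({x, e} : Set α) ⊆ M.closure {e, f} := by
        intro a ha
        rcases ha with rfl | ha
        · exact hA hx
        · rw [mem_singleton_iff] at ha
          rw [ha]; exact mem_L_left h
      exact M.closure_subset_closure_of_subset_closure h3 h2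
  · rintro ⟨h1, h2⟩
    obtain ⟨g, hg⟩ := hne
    apply not_span_of_pair h.rk (x := g) (y := e)
    intro t ht
    rcases ht with rfl | ht | ht
    · exact M.mem_closure_of_mem' (mem_insert_of_mem _ (mem_singleton _)) h.eE
    · exact cl_f_sub (h2 ht)
    · rw [h1 g hg t ht]
      exact M.mem_closure_of_mem' (mem_insert _ _) (hD ht)

/-- Elements of one cell are parallel. -/
theorem cell_par (h : PairH M e f) {g g' : α} (hg : g ∈ M.E) (hg2 : g ∉ M.closure {e, f})
    (hg' : g' ∈ M.E)
    (h1 : M.closure {g, e} = M.closure {g', e}) (h2 : M.closure {g, f} = M.closure {g', f}) :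
    g' ∈ M.closure {g} := by
  by_contra hcon
  have m1 : g' ∈ M.closure {g, e} := by
    rw [h1]; exact M.mem_closure_of_mem' (mem_insert _ _) hg'
  have m2 : g' ∈ M.closure {g, f} := by
    rw [h2]; exact M.mem_closure_of_mem' (mem_insert _ _) hg'
  rw [pair_comm] at m1 m2
  have e1 : M.closure {g', g} = M.closure {e, g} := M.closure_insert_congr ⟨m1, hcon⟩
  have e2 : M.closure {g', g} = M.closure {f, g} := M.closure_insert_congr ⟨m2, hcon⟩
  have m3 : f ∈ M.closure {e, g} := by
    rw [← e1, e2]
    exact M.mem_closure_of_mem' (mem_insert _ _) h.fE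
  rw [pair_comm] at m3
  have e3 : M.closure {f, e} = M.closure {g, e} := M.closure_insert_congr ⟨m3, h.fe⟩
  apply hg2
  rw [pair_comm, e3]
  exact M.mem_closure_of_mem' (mem_insert _ _) hg

end pt

end Pool.Agent.Helper160.R3
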