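import Mathlib
import Pool.Agent.Helper160.R3Mat

set_option autoImplicit false
set_option linter.unusedSectionVars false

open Finset Classical

namespace Pool.Agent.Helper160.R3

section
variable {α : Type*} [DecidableEq α]

theorem sum_sub (w : α → ℝ) {H G : Finset α} (hHG : H ⊆ G) :
    ∑ A ∈ G.powerset, (if A ⊆ H then mon w A else 0) = ∏ g ∈ H, (1 + w g) := by
  rw [← sum_filter, prod_one_add]
  apply sum_congr _ (fun _ _ => rfl)
  ext A
  simp only [mem_filter, mem_powerset]
  exact ⟨fun h => h.2, fun h => ⟨h.trans hHG, h⟩⟩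

theorem sum_ins (w : α → ℝ) {H G : Finset α} (hHG : H ⊆ G) {x : α} (hx : x ∈ G) (hxH : x ∉ H) :
    ∑ A ∈ G.powerset, (if x ∈ A ∧ A.erase x ⊆ H then mon w A else 0) =
      w x * ∏ g ∈ H, (1 + w g) := by
  rw [← sum_filter, prod_one_add, mul_sum]
  refine sum_bij' (fun A _ => A.erase x) (fun A _ => insert x A) ?_ ?_ ?_ ?_ ?_
  · intro A hA
    rw [mem_filter] at hA
    exact mem_powerset.2 hA.2.2
  · intro A hA
    rw [mem_powerset] at hA
    have : x ∉ A := fun h => hxH (hA h)
    rw [mem_filter, mem_powerset]
    refine ⟨insert_subset hx (hA.trans hHG), mem_insert_self _ _, ?_⟩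
    rw [erase_insert this]
    exact hA
  · intro A hA
    rw [mem_filter] at hA
    exact insert_erase hA.2.1
  · intro A hA
    rw [mem_powerset] at hA
    have : x ∉ A := fun h => hxH (hA h)
    exact erase_insert this
  · intro A hA
    rw [mem_filter] at hA
    exact (mul_prod_erase A w hA.2.1).symm

variable [Fintype α] (M : Matroid α) (e f : α)

/-- Elements on the line through `e` and `f`, other than `e` and `f`. -/
noncomputable def LA : Finset α :=
  univ.filter (fun g => g ∈ M.closure {e, f} ∧ g ≠ e ∧ g ≠ f)

/-- Elements off that line. -/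
noncomputable def OO : Finset α := univ.filter (fun g => g ∈ M.E ∧ g ∉ M.closure {e, f})

noncomputable def LAe : Finset α := (LA M e f).filter (fun g => g ∈ M.closure {e})
noncomputable def LAf : Finset α := (LA M e f).filter (fun g => g ∈ M.closure {f})
noncomputable def LA0 : Finset α := (LA M e f).filter (fun g => g ∈ M.closure ∅)
noncomputable def LAr : Finset α :=
  (LA M e f).filter (fun g => g ∉ M.closure {e} ∧ g ∉ M.closure {f})

theorem LA_sub {A : Finset α} (hA : A ∈ (LA M e f).powerset) :
    (A : Set α) ⊆ M.closure {e, f} := by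
  intro a ha
  exact (mem_filter.1 (mem_powerset.1 hA ha)).2.1

theorem OO_sub {A : Finset α} (hA : A ∈ (OO M e f).powerset) : (A : Set α) ⊆ M.E := by
  intro a ha
  exact (mem_filter.1 (mem_powerset.1 hA ha)).2.1

theorem OO_not {A : Finset α} (hA : A ∈ (OO M e f).powerset) :
    ∀ g ∈ (A : Set α), g ∉ M.closure {e, f} := by
  intro a ha
  exact (mem_filter.1 (mem_powerset.1 hA ha)).2.2

variable {M e f}

theorem inner_e (h : PairH M e f) (w : α → ℝ) {D : Finset α} (hD : D ∈ (OO M e f).powerset) :
    ∑ A ∈ (LA M e f).powerset, (if ¬ M.Spanning (insert e ((A : Set α) ∪ D)) then mon w A else 0) =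
      (if D = ∅ then ∏ g ∈ LA M e f, (1 + w g) else 0) +
      (if cst (fun g => M.closure {g, e}) D then ∏ g ∈ LAe M e f, (1 + w g) else 0) := by
  by_cases hD0 : D = ∅
  · have h1 : ¬ cst (fun g => M.closure {g, e}) D := by
      intro hc
      rw [hD0] at hc
      exact absurd hc.1 (by simp)
    rw [if_pos hD0, if_neg h1, add_zero, prod_one_add]
    apply sum_congr rfl
    intro A hA
    rw [if_pos]
    · rfl
    · apply not_span_of_pair h.rk (x := e) (y := f)
      rw [hD0, coe_empty, Set.union_empty]
      exact Set.insert_subset (mem_L_left h) (LA_sub M e f hA)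
  · rw [if_neg hD0, zero_add]
    have hne : D.Nonempty := nonempty_iff_ne_empty.2 hD0
    have key : ∀ A ∈ (LA M e f).powerset, (¬ M.Spanning (insert e ((A : Set α) ∪ D)) ↔
        (cst (fun g => M.closure {g, e}) D ∧ A ⊆ LAe M e f)) := by
      intro A hA
      rw [span_e h (LA_sub M e f hA) (OO_sub M e f hD) (OO_not M e f hD) (coe_nonempty.2 hne)]
      constructor
      · rintro ⟨h1, h2⟩
        refine ⟨⟨hne, h1⟩, ?_⟩
        intro a ha
        exact mem_filter.2 ⟨mem_powerset.1 hA ha, h2 ha⟩
      · rintro ⟨h1, h2⟩
        exact ⟨h1.2, fun a ha => (mem_filter.1 (h2 ha)).2⟩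
    by_cases hc : cst (fun g => M.closure {g, e}) D
    · rw [if_pos hc, ← sum_sub w (show LAe M e f ⊆ LA M e f from filter_subset _ _)]
      apply sum_congr rfl
      intro A hA
      by_cases hs : A ⊆ LAe M e f
      · rw [if_pos hs, if_pos ((key A hA).2 ⟨hc, hs⟩)]
      · rw [if_neg hs, if_neg (fun h2 => hs ((key A hA).1 h2).2)]
    · rw [if_neg hc]
      apply sum_eq_zero
      intro A hA
      rw [if_neg (fun h2 => hc ((key A hA).1 h2).1)]

theorem LA_symm : LA M f e = LA M e f := by
  unfold LA
  rw [Set.pair_comm]
  ext g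
  simp only [mem_filter]
  tauto

theorem OO_symm : OO M f e = OO M e f := by
  unfold OO
  rw [Set.pair_comm]

theorem LAe_symm : LAe M f e = LAf M e f := by
  unfold LAe LAf
  rw [LA_symm]

theorem not_span_e (h : PairH M e f) {A D : Finset α} (hA : A ∈ (LA M e f).powerset)
    (hD : D ∈ (OO M e f).powerset) (hc : cst (fun g => M.closure {g, e}) D)
    (hAe : A ⊆ LAe M e f) : ¬ M.Spanning ((A : Set α) ∪ D) := by
  have h1 := (span_e h (LA_sub M e f hA) (OO_sub M e f hD) (OO_not M e f hD)
    (coe_nonempty.2 hc.1)).2 ⟨hc.2, fun a ha => (mem_filter.1 (hAe ha)).2⟩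
  intro hs
  exact h1 (hs.superset (Set.subset_insert _ _) (Set.insert_subset h.eE hs.subset_ground))

theorem inner_0 (h : PairH M e f) {w : α → ℝ} (hw : ∀ a, 0 ≤ w a) {D : Finset α}
    (hD : D ∈ (OO M e f).powerset) :
    (if D = ∅ then ∏ g ∈ LA M e f, (1 + w g) else 0) +
      (if cst (fun g => M.closure {g, e}) D then ∏ g ∈ LAe M e f, (1 + w g) else 0) +
      (if cst (fun g => M.closure {g, f}) D then ∏ g ∈ LAf M e f, (1 + w g) else 0) +
      (if cst (fun g => (M.closure {g, e}, M.closure {g, f})) D then
        ((∑ g ∈ LAr M e f, w g) - 1) * ∏ g ∈ LA0 M e f, (1 + w g) else 0) +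
      (if spl (fun g => M.closure {g, e}) (fun g => M.closure {g, f}) D then
        ∏ g ∈ LA0 M e f, (1 + w g) else 0) ≤
      ∑ A ∈ (LA M e f).powerset, (if ¬ M.Spanning ((A : Set α) ∪ D) then mon w A else 0) := by
  have hmon := mon_nonneg hw
  have h0sub : LA0 M e f ⊆ LAe M e f := by
    intro a ha
    rw [LA0, mem_filter] at ha
    exact mem_filter.2 ⟨ha.1, M.closure_subset_closure (Set.empty_subset _) ha.2⟩
  have h0subf : LA0 M e f ⊆ LAf M e f := by
    intro a ha
    rw [LA0, mem_filter] at ha
    exact mem_filter.2 ⟨ha.1, M.closure_subset_closure (Set.empty_subset _) ha.2⟩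
  by_cases hD0 : D = ∅
  · have h1 : ¬ cst (fun g => M.closure {g, e}) D := fun hc => by
      rw [hD0] at hc; exact absurd hc.1 (by simp)
    have h2 : ¬ cst (fun g => M.closure {g, f}) D := fun hc => by
      rw [hD0] at hc; exact absurd hc.1 (by simp)
    have h3 : ¬ cst (fun g => (M.closure {g, e}, M.closure {g, f})) D := fun hc => by
      rw [hD0] at hc; exact absurd hc.1 (by simp)
    have h4 : ¬ spl (fun g => M.closure {g, e}) (fun g => M.closure {g, f}) D := by
      rintro ⟨X, hX, -, ⟨y, hy⟩, -⟩
      rw [hD0] at hy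
      simp at hy
    rw [if_pos hD0, if_neg h1, if_neg h2, if_neg h3, if_neg h4, prod_one_add]
    simp only [add_zero]
    apply le_of_eq
    apply sum_congr rfl
    intro A hA
    rw [if_pos]
    · rfl
    · apply not_span_of_pair h.rk (x := e) (y := f)
      rw [hD0, coe_empty, Set.union_empty]
      exact LA_sub M e f hA
  rw [if_neg hD0, zero_add]
  have hne : D.Nonempty := nonempty_iff_ne_empty.2 hD0
  have hmem : ∀ g ∈ D, g ∈ M.E ∧ g ∉ M.closure {e, f} := fun g hg =>
    (mem_filter.1 (mem_powerset.1 hD hg)).2
  have hDE : (D : Set α) ⊆ M.E := OO_sub M e f hD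
  by_cases hr : cst (fun g => M.closure {g, e}) D
  · by_cases hc : cst (fun g => M.closure {g, f}) D
    · -- one cell
      have h3 : cst (fun g => (M.closure {g, e}, M.closure {g, f})) D :=
        ⟨hne, fun a ha b hb => Prod.ext (hr.2 a ha b hb) (hc.2 a ha b hb)⟩
      have h4 : ¬ spl (fun g => M.closure {g, e}) (fun g => M.closure {g, f}) D := by
        rintro ⟨X, hX, ⟨x, hx⟩, ⟨y, hy⟩, -, -, hxy⟩
        exact (hxy x hx y hy).1 (hr.2 x (mem_powerset.1 hX hx) y (mem_sdiff.1 hy).1)
      rw [if_pos hr, if_pos hc, if_pos h3, if_neg h4, add_zero]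
      have e1 := sum_sub w (show LAe M e f ⊆ LA M e f from filter_subset _ _)
      have e2 := sum_sub w (show LAf M e f ⊆ LA M e f from filter_subset _ _)
      have e3 := sum_sub w (show LA0 M e f ⊆ LA M e f from filter_subset _ _)
      have hRn : ∀ x ∈ LAr M e f, x ∉ LA0 M e f := by
        intro x hx hx0
        have h5 := h0sub hx0
        rw [LAr, mem_filter] at hx
        exact hx.2.1 (mem_filter.1 h5).2
      have e4 : (∑ x ∈ LAr M e f, ∑ A ∈ (LA M e f).powerset,
          (if x ∈ A ∧ A.erase x ⊆ LA0 M e f then mon w A else 0)) =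
          (∑ g ∈ LAr M e f, w g) * ∏ g ∈ LA0 M e f, (1 + w g) := by
        rw [sum_mul]
        apply sum_congr rfl
        intro x hx
        exact sum_ins w (filter_subset _ _) (mem_filter.1 hx).1 (hRn x hx)
      rw [sub_mul, one_mul, ← e4, ← e1, ← e2, ← e3, sum_comm, ← sum_sub_distrib,
        ← sum_add_distrib, ← sum_add_distrib]
      apply sum_le_sum
      intro A hA
      have hAs := mem_powerset.1 hA
      by_cases hex : ∃ x ∈ LAr M e f, x ∈ A ∧ A.erase x ⊆ LA0 M e f
      · obtain ⟨x, hxR, hxA, hxs⟩ := hex
        have hxn := hRn x hxR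
        have hxr := mem_filter.1 hxR
        have n1 : ¬ A ⊆ LAe M e f := fun hc => hxr.2.1 (mem_filter.1 (hc hxA)).2
        have n2 : ¬ A ⊆ LAf M e f := fun hc => hxr.2.2 (mem_filter.1 (hc hxA)).2
        have n3 : ¬ A ⊆ LA0 M e f := fun hc => hxn (hc hxA)
        have hns : ¬ M.Spanning ((A : Set α) ∪ D) := by
          obtain ⟨g, hg⟩ := hne
          apply not_span_of_pair h.rk (x := x) (y := g)
          intro t ht
          rcases ht with ht | ht
          · by_cases htx : t = x
            · rw [htx]
              exact M.mem_closure_of_mem' (Set.mem_insert _ _)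
                ((M.closure_subset_ground _) (mem_filter.1 hxr.1).2.1)
            · have : t ∈ LA0 M e f := hxs (mem_erase.2 ⟨htx, ht⟩)
              exact M.closure_subset_closure (Set.empty_subset _) (mem_filter.1 this).2
          · have := cell_par h (hmem g hg).1 (hmem g hg).2 (hmem t ht).1 (hr.2 g hg t ht)
              (hc.2 g hg t ht)
            exact M.closure_subset_closure (fun a ha => Set.mem_insert_of_mem _ ha) this
        rw [if_neg n1, if_neg n2, if_neg n3, if_pos hns]
        have : ∑ y ∈ LAr M e f, (if y ∈ A ∧ A.erase y ⊆ LA0 M e f then mon w A else 0) =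
            mon w A := by
          rw [sum_eq_single x]
          · rw [if_pos ⟨hxA, hxs⟩]
          · intro y hy hyx
            rw [if_neg]
            rintro ⟨hyA, -⟩
            exact hRn y hy (hxs (mem_erase.2 ⟨hyx, hyA⟩))
          · intro hc
            exact absurd hxR hc
        rw [this]
        linarith
      · have hz : ∑ y ∈ LAr M e f, (if y ∈ A ∧ A.erase y ⊆ LA0 M e f then mon w A else 0) = 0 := by
          apply sum_eq_zero
          intro y hy
          rw [if_neg]
          intro hc
          exact hex ⟨y, hy, hc⟩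
        rw [hz]
        have hge : 0 ≤ (if ¬ M.Spanning ((A : Set α) ∪ D) then mon w A else 0) := by
          split_ifs
          · exact le_refl _
          · exact hmon A
        have hmA := hmon A
        by_cases n1 : A ⊆ LAe M e f
        · have hns := not_span_e h hA hD hr n1
          rw [if_pos n1, if_pos hns]
          by_cases n2 : A ⊆ LAf M e f
          · have n3 : A ⊆ LA0 M e f := by
              intro a ha
              have a1 := mem_filter.1 (n1 ha)
              have a2 := mem_filter.1 (n2 ha)
              exact mem_filter.2 ⟨a1.1, inter_loops h a1.2 a2.2⟩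
            rw [if_pos n2, if_pos n3]
            linarith
          · have n3 : ¬ A ⊆ LA0 M e f := fun hc => n2 (hc.trans h0subf)
            rw [if_neg n2, if_neg n3]
            linarith
        · have n3 : ¬ A ⊆ LA0 M e f := fun hc => n1 (hc.trans h0sub)
          rw [if_neg n1, if_neg n3]
          by_cases n2 : A ⊆ LAf M e f
          · have hA' : A ∈ (LA M f e).powerset := by rw [LA_symm]; exact hA
            have hD' : D ∈ (OO M f e).powerset := by rw [OO_symm]; exact hD
            have hns := not_span_e h.symm hA' hD' hc (by rw [LAe_symm]; exact n2)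
            rw [if_pos n2, if_pos hns]
            linarith
          · rw [if_neg n2]
            linarith
    · -- row, not a column
      have h3 : ¬ cst (fun g => (M.closure {g, e}, M.closure {g, f})) D := fun h3 =>
        hc ⟨hne, fun a ha b hb => congrArg Prod.snd (h3.2 a ha b hb)⟩
      have h4 : ¬ spl (fun g => M.closure {g, e}) (fun g => M.closure {g, f}) D := by
        rintro ⟨X, hX, ⟨x, hx⟩, ⟨y, hy⟩, -, -, hxy⟩
        exact (hxy x hx y hy).1 (hr.2 x (mem_powerset.1 hX hx) y (mem_sdiff.1 hy).1)
      rw [if_pos hr, if_neg hc, if_neg h3, if_neg h4]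
      simp only [add_zero]
      rw [← sum_sub w (show LAe M e f ⊆ LA M e f from filter_subset _ _)]
      apply sum_le_sum
      intro A hA
      by_cases n1 : A ⊆ LAe M e f
      · rw [if_pos n1, if_pos (not_span_e h hA hD hr n1)]
      · rw [if_neg n1]
        split_ifs
        · exact le_refl _
        · exact hmon A
  · have h3 : ¬ cst (fun g => (M.closure {g, e}, M.closure {g, f})) D := fun h3 =>
      hr ⟨hne, fun a ha b hb => congrArg Prod.fst (h3.2 a ha b hb)⟩
    by_cases hc : cst (fun g => M.closure {g, f}) D
    · have h4 : ¬ spl (fun g => M.closure {g, e}) (fun g => M.closure {g, f}) D := by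
        rintro ⟨X, hX, ⟨x, hx⟩, ⟨y, hy⟩, -, -, hxy⟩
        exact (hxy x hx y hy).2 (hc.2 x (mem_powerset.1 hX hx) y (mem_sdiff.1 hy).1)
      rw [if_neg hr, if_pos hc, if_neg h3, if_neg h4]
      simp only [add_zero, zero_add]
      rw [← sum_sub w (show LAf M e f ⊆ LA M e f from filter_subset _ _)]
      apply sum_le_sum
      intro A hA
      have hA' : A ∈ (LA M f e).powerset := by rw [LA_symm]; exact hA
      have hD' : D ∈ (OO M f e).powerset := by rw [OO_symm]; exact hD
      by_cases n2 : A ⊆ LAf M e f
      · rw [if_pos n2, if_pos (not_span_e h.symm hA' hD' hc (by rw [LAe_symm]; exact n2))]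
      · rw [if_neg n2]
        split_ifs
        · exact le_refl _
        · exact hmon A
    · rw [if_neg hr, if_neg hc, if_neg h3]
      simp only [zero_add]
      by_cases h4 : spl (fun g => M.closure {g, e}) (fun g => M.closure {g, f}) D
      · rw [if_pos h4, ← sum_sub w (show LA0 M e f ⊆ LA M e f from filter_subset _ _)]
        obtain ⟨X, hX, ⟨x, hx⟩, ⟨y, hy⟩, hXc, hYc, -⟩ := h4
        have hXD := mem_powerset.1 hX
        apply sum_le_sum
        intro A hA
        by_cases n1 : A ⊆ LA0 M e f
        · have hns : ¬ M.Spanning ((A : Set α) ∪ D) := by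
            apply not_span_of_pair h.rk (x := x) (y := y)
            intro t ht
            rcases ht with ht | ht
            · exact M.closure_subset_closure (Set.empty_subset _) (mem_filter.1 (n1 ht)).2
            · have ht : t ∈ D := ht
              by_cases htX : t ∈ X
              · have := cell_par h (hmem x (hXD hx)).1 (hmem x (hXD hx)).2 (hmem t ht).1
                  (hXc x hx t htX).1 (hXc x hx t htX).2
                refine M.closure_subset_closure ?_ this
                intro a ha
                rw [Set.mem_singleton_iff] at ha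
                rw [ha]; exact Set.mem_insert _ _
              · have hy2 := hmem y (mem_sdiff.1 hy).1
                have htY : t ∈ D \ X := mem_sdiff.2 ⟨ht, htX⟩
                have := cell_par h hy2.1 hy2.2 (hmem t ht).1
                  (hYc y hy t htY).1 (hYc y hy t htY).2
                exact M.closure_subset_closure (fun a ha => Set.mem_insert_of_mem _ ha) this
          rw [if_pos n1, if_pos hns]
        · rw [if_neg n1]
          split_ifs
          · exact le_refl _
          · exact hmon A
      · rw [if_neg h4]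
        apply sum_nonneg
        intro A _
        split_ifs
        · exact le_refl _
        · exact hmon A

end

end Pool.Agent.Helper160.R3
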