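import Mathlib
import Pool.Agent.Helper160.R3Inner

set_option autoImplicit false
set_option linter.unusedSectionVars false

open Finset Classical

namespace Pool.Agent.Helper160.R3

section
variable {α : Type*} [DecidableEq α]

theorem sum_union_powerset {s t : Finset α} (h : Disjoint s t) (F : Finset α → ℝ) :
    ∑ B ∈ (s ∪ t).powerset, F B = ∑ D ∈ t.powerset, ∑ A ∈ s.powerset, F (A ∪ D) := by
  rw [← sum_product']
  refine sum_bij' (fun B _ => (B ∩ t, B ∩ s)) (fun q _ => q.2 ∪ q.1) ?_ ?_ ?_ ?_ ?_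
  · intro B _
    rw [mem_product, mem_powerset, mem_powerset]
    exact ⟨inter_subset_right, inter_subset_right⟩
  · rintro ⟨D, A⟩ hq
    rw [mem_product, mem_powerset, mem_powerset] at hq
    rw [mem_powerset]
    exact union_subset_union hq.2 hq.1
  · intro B hB
    rw [mem_powerset] at hB
    show (B ∩ s) ∪ (B ∩ t) = B
    rw [← inter_union_distrib_left]
    exact inter_eq_left.2 hB
  · rintro ⟨D, A⟩ hq
    rw [mem_product, mem_powerset, mem_powerset] at hq
    have h1 : ∀ a ∈ A, a ∉ t := fun a ha ht => disjoint_left.1 h (hq.2 ha) ht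
    have h2 : ∀ a ∈ D, a ∉ s := fun a ha ht => disjoint_left.1 h ht (hq.1 ha)
    apply Prod.ext
    · show (A ∪ D) ∩ t = D
      ext a
      rw [mem_inter, mem_union]
      constructor
      · rintro ⟨ha | ha, hb⟩
        · exact absurd hb (h1 a ha)
        · exact ha
      · intro ha
        exact ⟨Or.inr ha, hq.1 ha⟩
    · show (A ∪ D) ∩ s = A
      ext a
      rw [mem_inter, mem_union]
      constructor
      · rintro ⟨ha | ha, hb⟩
        · exact ha
        · exact absurd hb (h2 a ha)
      · intro ha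
        exact ⟨Or.inl ha, hq.2 ha⟩
  · intro B hB
    rw [mem_powerset] at hB
    show F B = F ((B ∩ s) ∪ (B ∩ t))
    rw [← inter_union_distrib_left, inter_eq_left.2 hB]

variable [Fintype α] {M : Matroid α} {e f : α}

theorem disj_LA_OO : Disjoint (LA M e f) (OO M e f) := by
  rw [disjoint_left]
  intro a h1 h2
  exact (mem_filter.1 h2).2.2 (mem_filter.1 h1).2.1

theorem mon_union_eq (w : α → ℝ) {A D : Finset α} (hA : A ∈ (LA M e f).powerset)
    (hD : D ∈ (OO M e f).powerset) : mon w (A ∪ D) = mon w D * mon w A := by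
  unfold mon
  rw [prod_union, mul_comm]
  exact (disj_LA_OO.mono_left (mem_powerset.1 hA)).mono_right (mem_powerset.1 hD)

/-- A nonspanning sum over the ground set minus `e, f`. -/
noncomputable def NS (M : Matroid α) (e f : α) (w : α → ℝ) (X : Set α) : ℝ :=
  ∑ B ∈ (LA M e f ∪ OO M e f).powerset, (if ¬ M.Spanning (X ∪ B) then mon w B else 0)

theorem NS_eq (w : α → ℝ) (X : Set α) : NS M e f w X =
    ∑ D ∈ (OO M e f).powerset, mon w D *
      ∑ A ∈ (LA M e f).powerset, (if ¬ M.Spanning (X ∪ ((A : Set α) ∪ D)) then mon w A else 0) := by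
  unfold NS
  rw [sum_union_powerset disj_LA_OO]
  apply sum_congr rfl
  intro D hD
  rw [mul_sum]
  apply sum_congr rfl
  intro A hA
  rw [mon_union_eq w hA hD, coe_union]
  split_ifs
  · simp
  · rfl

theorem NS_e (h : PairH M e f) (w : α → ℝ) : NS M e f w {e} =
    (∏ g ∈ LA M e f, (1 + w g)) + (∏ g ∈ LAe M e f, (1 + w g)) *
      ∑ D ∈ (OO M e f).powerset.filter (cst (fun g => M.closure {g, e})), mon w D := by
  rw [NS_eq]
  have h1 : ∀ D ∈ (OO M e f).powerset, mon w D * ∑ A ∈ (LA M e f).powerset,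
      (if ¬ M.Spanning ({e} ∪ ((A : Set α) ∪ D)) then mon w A else 0) =
      (if D = ∅ then ∏ g ∈ LA M e f, (1 + w g) else 0) + (∏ g ∈ LAe M e f, (1 + w g)) *
        (if cst (fun g => M.closure {g, e}) D then mon w D else 0) := by
    intro D hD
    have h2 := inner_e h w hD
    have h2' : ∑ A ∈ (LA M e f).powerset,
        (if ¬ M.Spanning ({e} ∪ ((A : Set α) ∪ D)) then mon w A else 0) =
        ∑ A ∈ (LA M e f).powerset,
          (if ¬ M.Spanning (insert e ((A : Set α) ∪ D)) then mon w A else 0) := by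
      apply sum_congr rfl
      intro A _
      rw [Set.singleton_union]
    rw [h2', h2]
    by_cases hD0 : D = ∅
    · rw [if_pos hD0]
      have h1 : ¬ cst (fun g => M.closure {g, e}) D := by
        intro hc
        rw [hD0] at hc
        exact absurd hc.1 (by simp)
      rw [if_neg h1, if_neg h1, hD0]
      simp [mon]
    · rw [if_neg hD0]
      split_ifs <;> ring
  rw [sum_congr rfl h1, sum_add_distrib, ← mul_sum, sum_filter]
  congr 1
  rw [sum_ite_eq']
  simp

theorem NS_f (h : PairH M e f) (w : α → ℝ) : NS M e f w {f} =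
    (∏ g ∈ LA M e f, (1 + w g)) + (∏ g ∈ LAf M e f, (1 + w g)) *
      ∑ D ∈ (OO M e f).powerset.filter (cst (fun g => M.closure {g, f})), mon w D := by
  have h1 := NS_e h.symm w
  rw [LA_symm, OO_symm, LAe_symm] at h1
  rw [← h1]
  unfold NS
  rw [LA_symm, OO_symm]

theorem NS_ef (h : PairH M e f) (w : α → ℝ) : NS M e f w {e, f} = ∏ g ∈ LA M e f, (1 + w g) := by
  unfold NS
  rw [← sum_filter, prod_one_add]
  apply sum_congr _ (fun _ _ => rfl)
  ext B
  rw [mem_filter, mem_powerset, mem_powerset]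
  have hBE : B ⊆ LA M e f ∪ OO M e f → ({e, f} ∪ (B : Set α)) ⊆ M.E := by
    intro hB
    apply Set.union_subset
    · rintro a (rfl | ha)
      · exact h.eE
      · rw [Set.mem_singleton_iff] at ha
        rw [ha]; exact h.fE
    · intro a ha
      rcases mem_union.1 (hB ha) with h1 | h1
      · exact (M.closure_subset_ground _) (mem_filter.1 h1).2.1
      · exact (mem_filter.1 h1).2.1
  constructor
  · rintro ⟨hB, hs⟩
    rw [span_ef h (hBE hB) (Or.inl (Set.mem_insert _ _))
      (Or.inl (Set.mem_insert_of_mem _ (Set.mem_singleton _))), not_not] at hs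
    intro a ha
    rcases mem_union.1 (hB ha) with h1 | h1
    · exact h1
    · exact absurd (hs (Or.inr ha)) (mem_filter.1 h1).2.2
  · intro hB
    refine ⟨hB.trans subset_union_left, ?_⟩
    rw [span_ef h (hBE (hB.trans subset_union_left)) (Or.inl (Set.mem_insert _ _))
      (Or.inl (Set.mem_insert_of_mem _ (Set.mem_singleton _))), not_not]
    apply Set.union_subset
    · rintro a (rfl | ha)
      · exact mem_L_left h
      · rw [Set.mem_singleton_iff] at ha
        rw [ha]; exact mem_L_right h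
    · intro a ha
      exact (mem_filter.1 (hB ha)).2.1

theorem NS_0 (h : PairH M e f) {w : α → ℝ} (hw : ∀ a, 0 ≤ w a) :
    (∏ g ∈ LA M e f, (1 + w g)) + (∏ g ∈ LAe M e f, (1 + w g)) *
      (∑ D ∈ (OO M e f).powerset.filter (cst (fun g => M.closure {g, e})), mon w D) +
    (∏ g ∈ LAf M e f, (1 + w g)) *
      (∑ D ∈ (OO M e f).powerset.filter (cst (fun g => M.closure {g, f})), mon w D) +
    (((∑ g ∈ LAr M e f, w g) - 1) * ∏ g ∈ LA0 M e f, (1 + w g)) *
      (∑ D ∈ (OO M e f).powerset.filter (cst (fun g => (M.closure {g, e}, M.closure {g, f}))),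
        mon w D) +
    (∏ g ∈ LA0 M e f, (1 + w g)) *
      (∑ D ∈ (OO M e f).powerset.filter (spl (fun g => M.closure {g, e})
        (fun g => M.closure {g, f})), mon w D) ≤ NS M e f w ∅ := by
  rw [NS_eq]
  have h1 : ∀ D ∈ (OO M e f).powerset,
      (if D = ∅ then ∏ g ∈ LA M e f, (1 + w g) else 0) + (∏ g ∈ LAe M e f, (1 + w g)) *
        (if cst (fun g => M.closure {g, e}) D then mon w D else 0) +
      (∏ g ∈ LAf M e f, (1 + w g)) *
        (if cst (fun g => M.closure {g, f}) D then mon w D else 0) +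
      (((∑ g ∈ LAr M e f, w g) - 1) * ∏ g ∈ LA0 M e f, (1 + w g)) *
        (if cst (fun g => (M.closure {g, e}, M.closure {g, f})) D then mon w D else 0) +
      (∏ g ∈ LA0 M e f, (1 + w g)) *
        (if spl (fun g => M.closure {g, e}) (fun g => M.closure {g, f}) D then mon w D else 0) ≤
      mon w D * ∑ A ∈ (LA M e f).powerset,
        (if ¬ M.Spanning (∅ ∪ ((A : Set α) ∪ D)) then mon w A else 0) := by
    intro D hD
    simp only [Set.empty_union]
    have h2 := mul_le_mul_of_nonneg_left (inner_0 h hw hD) (mon_nonneg hw D)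
    refine le_trans (le_of_eq ?_) h2
    have h3 : (if D = ∅ then ∏ g ∈ LA M e f, (1 + w g) else 0) =
        mon w D * (if D = ∅ then ∏ g ∈ LA M e f, (1 + w g) else 0) := by
      split_ifs with hD0
      · rw [hD0]; simp [mon]
      · simp
    rw [mul_add, mul_add, mul_add, mul_add, ← h3]
    clear h2 h3
    split_ifs <;> ring
  have h2 := sum_le_sum h1
  refine le_trans (le_of_eq ?_) h2
  simp only [sum_add_distrib, ← mul_sum, sum_filter]
  congr 4
  rw [sum_ite_eq']
  simp

/-- The main inequality for the nonspanning sums. -/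
theorem main_NS (h : PairH M e f) {w : α → ℝ} (hw : ∀ a, 0 ≤ w a) :
    ((∏ g ∈ LA M e f ∪ OO M e f, (1 + w g)) - NS M e f w {e, f}) *
      ((∏ g ∈ LA M e f ∪ OO M e f, (1 + w g)) - NS M e f w ∅) ≤
    ((∏ g ∈ LA M e f ∪ OO M e f, (1 + w g)) - NS M e f w {e}) *
      ((∏ g ∈ LA M e f ∪ OO M e f, (1 + w g)) - NS M e f w {f}) := by
  have hge1 : ∀ s : Finset α, 1 ≤ ∏ g ∈ s, (1 + w g) := by
    intro s
    rw [prod_one_add]
    have : (∅ : Finset α) ∈ s.powerset := empty_mem_powerset s
    have h1 := single_le_sum (f := fun t => ∏ i ∈ t, w i) (fun t _ => prod_nonneg (fun i _ => hw i)) this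
    simpa using h1
  have e1 := NS_e h w
  have e2 := NS_f h w
  have e3 := NS_ef h w
  have e4 := NS_0 h hw
  have e5 := label_grid (OO M e f) hw (fun g => M.closure {g, e}) (fun g => M.closure {g, f})
  have e6 := prod_mul_one_sub_le hw (LAr M e f)
  have e7 : ∏ g ∈ LA M e f ∪ OO M e f, (1 + w g) =
      (∏ g ∈ LA M e f, (1 + w g)) * ∏ g ∈ OO M e f, (1 + w g) := prod_union disj_LA_OO
  have e8 : (∏ g ∈ LA M e f, (1 + w g)) * (∏ g ∈ LA0 M e f, (1 + w g)) =
      (∏ g ∈ LAe M e f, (1 + w g)) * (∏ g ∈ LAf M e f, (1 + w g)) *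
        ∏ g ∈ LAr M e f, (1 + w g) := by
    have d1 : LA M e f = LAe M e f ∪ ((LAf M e f \ LA0 M e f) ∪ LAr M e f) := by
      ext a
      simp only [LAe, LAf, LA0, LAr, mem_union, mem_sdiff, mem_filter]
      constructor
      · intro ha
        by_cases h1 : a ∈ M.closure {e}
        · exact Or.inl ⟨ha, h1⟩
        · by_cases h2 : a ∈ M.closure {f}
          · refine Or.inr (Or.inl ⟨⟨ha, h2⟩, ?_⟩)
            rintro ⟨-, h3⟩
            exact h1 (M.closure_subset_closure (Set.empty_subset _) h3)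
          · exact Or.inr (Or.inr ⟨ha, h1, h2⟩)
      · rintro (h1 | h1 | h1)
        · exact h1.1
        · exact h1.1.1
        · exact h1.1
    have d2 : LAf M e f = (LAf M e f \ LA0 M e f) ∪ LA0 M e f := by
      rw [sdiff_union_of_subset]
      intro a ha
      simp only [LAf, LA0, mem_filter] at ha ⊢
      exact ⟨ha.1, M.closure_subset_closure (Set.empty_subset _) ha.2⟩
    have d3 : ∏ g ∈ LAf M e f, (1 + w g) =
        (∏ g ∈ LAf M e f \ LA0 M e f, (1 + w g)) * ∏ g ∈ LA0 M e f, (1 + w g) := by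
      conv_lhs => rw [d2]
      rw [prod_union sdiff_disjoint]
    have d4 : ∏ g ∈ LA M e f, (1 + w g) = (∏ g ∈ LAe M e f, (1 + w g)) *
        ((∏ g ∈ LAf M e f \ LA0 M e f, (1 + w g)) * ∏ g ∈ LAr M e f, (1 + w g)) := by
      conv_lhs => rw [d1]
      rw [prod_union, prod_union]
      · rw [disjoint_left]
        intro a h1 h2
        simp only [LAf, LAr, LA0, mem_sdiff, mem_filter] at h1 h2
        exact h2.2.2 h1.1.2
      · rw [disjoint_left]
        intro a h1 h2
        simp only [LAe, LAf, LAr, LA0, mem_union, mem_sdiff, mem_filter] at h1 h2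
        rcases h2 with h2 | h2
        · exact h2.2 ⟨h1.1, inter_loops h h1.2 h2.1.2⟩
        · exact h2.2.1 h1.2
    rw [d4, d3]
    ring
  have g1 := hge1 (LA M e f)
  have g2 := hge1 (LAe M e f)
  have g3 := hge1 (LAf M e f)
  have g4 := hge1 (LA0 M e f)
  have g5 := hge1 (LAr M e f)
  have g6 := hge1 (OO M e f)
  rw [e1, e2, e3, e7]
  have p1 : 0 ≤ ∑ D ∈ (OO M e f).powerset.filter
      (cst (fun g => (M.closure {g, e}, M.closure {g, f}))), mon w D :=
    sum_nonneg (fun D _ => mon_nonneg hw D)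
  have p2 : 0 ≤ ∑ D ∈ (OO M e f).powerset.filter
      (spl (fun g => M.closure {g, e}) (fun g => M.closure {g, f})), mon w D :=
    sum_nonneg (fun D _ => mon_nonneg hw D)
  set N0 := NS M e f w ∅
  set X0 := ∏ g ∈ LA M e f, (1 + w g)
  set ae := ∏ g ∈ LAe M e f, (1 + w g)
  set af := ∏ g ∈ LAf M e f, (1 + w g)
  set L := ∏ g ∈ LA0 M e f, (1 + w g)
  set C := ∏ g ∈ LAr M e f, (1 + w g)
  set U := ∏ g ∈ OO M e f, (1 + w g)
  set cc := ∑ g ∈ LAr M e f, w g
  set P := ∑ D ∈ (OO M e f).powerset.filter (cst (fun g => M.closure {g, e})), mon w D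
  set Q := ∑ D ∈ (OO M e f).powerset.filter (cst (fun g => M.closure {g, f})), mon w D
  set S := ∑ D ∈ (OO M e f).powerset.filter
      (cst (fun g => (M.closure {g, e}, M.closure {g, f}))), mon w D
  set Y := ∑ D ∈ (OO M e f).powerset.filter
      (spl (fun g => M.closure {g, e}) (fun g => M.closure {g, f})), mon w D
  have hV : 0 ≤ U - 1 := by linarith
  have k1 : (X0 * U - X0) * (X0 * U - N0) ≤
      (X0 * U - X0) * (X0 * U - (X0 + ae * P + af * Q + (cc - 1) * L * S + L * Y)) := by
    apply mul_le_mul_of_nonneg_left _ (by nlinarith)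
    linarith
  refine k1.trans ?_
  have k2 : (X0 * U - (X0 + ae * P)) * (X0 * U - (X0 + af * Q)) -
      (X0 * U - X0) * (X0 * U - (X0 + ae * P + af * Q + (cc - 1) * L * S + L * Y)) =
      ae * af * (P * Q) + (X0 * L) * (U - 1) * ((cc - 1) * S + Y) := by ring
  rw [← sub_nonneg, k2, e8]
  have k3 : ae * af * (P * Q) + ae * af * C * (U - 1) * ((cc - 1) * S + Y) =
      ae * af * ((P * Q - (U - 1) * (S - Y)) + (U - 1) * (S * (1 - C * (1 - cc)) + Y * (C - 1))) := by
    ring
  rw [k3]
  apply mul_nonneg (by nlinarith)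
  have k4 : 0 ≤ S * (1 - C * (1 - cc)) := mul_nonneg p1 (by linarith)
  have k5 : 0 ≤ Y * (C - 1) := mul_nonneg p2 (by linarith)
  have k6 := mul_nonneg hV (add_nonneg k4 k5)
  linarith

end

end Pool.Agent.Helper160.R3
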