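import Mathlib
import Pool.Agent.Helper160.R3Final

set_option autoImplicit false
set_option linter.unusedSectionVars false

open Finset Classical

namespace Pool.Agent.Helper160.R3

section
variable {α : Type*} [DecidableEq α] [Fintype α] {M : Matroid α} {e f : α}

/-- The ground set without `e` and `f`. -/
noncomputable def GG (M : Matroid α) (e f : α) : Finset α :=
  univ.filter (fun g => g ∈ M.E ∧ g ≠ e ∧ g ≠ f)

noncomputable def bb (M : Matroid α) (e f : α) (z : α → ℝ) (X : Set α) : ℝ :=
  ∑ B ∈ (GG M e f).powerset, (if M.Spanning (X ∪ B) then mon z B else 0)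

theorem e_not_GG : e ∉ GG M e f := fun h => (mem_filter.1 h).2.2.1 rfl
theorem f_not_GG : f ∉ GG M e f := fun h => (mem_filter.1 h).2.2.2 rfl

theorem four_sums (heE : e ∈ M.E) (hfE : f ∈ M.E) (hef : e ≠ f) (z : α → ℝ)
    (p : Prop → Prop → Prop) :
    (∑ A : Finset α, if M.Spanning (A : Set α) ∧ p (e ∈ A) (f ∈ A) then mon z A else 0) =
      (if p False False then bb M e f z ∅ else 0) + (if p False True then z f * bb M e f z {f} else 0) +
      ((if p True False then z e * bb M e f z {e} else 0) +
      (if p True True then z e * z f * bb M e f z {e, f} else 0)) := by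
  have hGe : e ∉ insert f (GG M e f) := by
    rw [mem_insert, not_or]; exact ⟨hef, e_not_GG⟩
  have h1 : (∑ A : Finset α, if M.Spanning (A : Set α) ∧ p (e ∈ A) (f ∈ A) then mon z A else 0) =
      ∑ A ∈ (insert e (insert f (GG M e f))).powerset,
        if M.Spanning (A : Set α) ∧ p (e ∈ A) (f ∈ A) then mon z A else 0 := by
    symm
    apply sum_subset (subset_univ _)
    intro A _ hA
    rw [if_neg]
    rintro ⟨hs, -⟩
    apply hA
    rw [mem_powerset]
    intro a ha
    have haE : a ∈ M.E := hs.subset_ground ha
    rw [mem_insert, mem_insert]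
    by_cases h1 : a = e
    · exact Or.inl h1
    · by_cases h2 : a = f
      · exact Or.inr (Or.inl h2)
      · exact Or.inr (Or.inr (mem_filter.2 ⟨mem_univ _, haE, h1, h2⟩))
  rw [h1, sum_powerset_insert hGe, sum_powerset_insert f_not_GG, sum_powerset_insert f_not_GG]
  congr 1
  · congr 1
    · by_cases hp : p False False
      · rw [if_pos hp]
        apply sum_congr rfl
        intro B hB
        have he : e ∉ B := fun h => e_not_GG (mem_powerset.1 hB h)
        have hf : f ∉ B := fun h => f_not_GG (mem_powerset.1 hB h)
        simp only [he, hf, hp, and_true, Set.empty_union]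
      · rw [if_neg hp]
        apply sum_eq_zero
        intro B hB
        have he : e ∉ B := fun h => e_not_GG (mem_powerset.1 hB h)
        have hf : f ∉ B := fun h => f_not_GG (mem_powerset.1 hB h)
        simp only [he, hf, hp, and_false, if_false]
    · by_cases hp : p False True
      · rw [if_pos hp, bb, mul_sum]
        apply sum_congr rfl
        intro B hB
        have he : e ∉ B := fun h => e_not_GG (mem_powerset.1 hB h)
        have hf : f ∉ B := fun h => f_not_GG (mem_powerset.1 hB h)
        have he' : ¬ e ∈ insert f B := by rw [mem_insert, not_or]; exact ⟨hef, he⟩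
        have hf' : f ∈ insert f B := mem_insert_self _ _
        simp only [he', hf', hp, and_true, Set.singleton_union, coe_insert, mon_insert z hf]
        by_cases hs : M.Spanning (insert f (B : Set α)) <;> simp [hs]
      · rw [if_neg hp]
        apply sum_eq_zero
        intro B hB
        have he : e ∉ B := fun h => e_not_GG (mem_powerset.1 hB h)
        have he' : ¬ e ∈ insert f B := by rw [mem_insert, not_or]; exact ⟨hef, he⟩
        have hf' : f ∈ insert f B := mem_insert_self _ _
        simp only [he', hf', hp, and_false, if_false]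
  · congr 1
    · by_cases hp : p True False
      · rw [if_pos hp, bb, mul_sum]
        apply sum_congr rfl
        intro B hB
        have he : e ∉ B := fun h => e_not_GG (mem_powerset.1 hB h)
        have hf : f ∉ B := fun h => f_not_GG (mem_powerset.1 hB h)
        have he' : e ∈ insert e B := mem_insert_self _ _
        have hf' : ¬ f ∈ insert e B := by rw [mem_insert, not_or]; exact ⟨hef.symm, hf⟩
        simp only [he', hf', hp, and_true, Set.singleton_union, coe_insert, mon_insert z he]
        by_cases hs : M.Spanning (insert e (B : Set α)) <;> simp [hs]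
      · rw [if_neg hp]
        apply sum_eq_zero
        intro B hB
        have hf : f ∉ B := fun h => f_not_GG (mem_powerset.1 hB h)
        have he' : e ∈ insert e B := mem_insert_self _ _
        have hf' : ¬ f ∈ insert e B := by rw [mem_insert, not_or]; exact ⟨hef.symm, hf⟩
        simp only [he', hf', hp, and_false, if_false]
    · by_cases hp : p True True
      · rw [if_pos hp, bb, mul_sum]
        apply sum_congr rfl
        intro B hB
        have he : e ∉ B := fun h => e_not_GG (mem_powerset.1 hB h)
        have hf : f ∉ B := fun h => f_not_GG (mem_powerset.1 hB h)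
        have he' : e ∈ insert e (insert f B) := mem_insert_self _ _
        have hf' : f ∈ insert e (insert f B) := mem_insert_of_mem (mem_insert_self _ _)
        have he2 : e ∉ insert f B := by rw [mem_insert, not_or]; exact ⟨hef, he⟩
        have hset : ({e, f} : Set α) ∪ (B : Set α) = ((insert e (insert f B) : Finset α) : Set α) := by
          rw [coe_insert, coe_insert, Set.insert_union, Set.singleton_union]
        rw [hset]
        simp only [he', hf', hp, and_true, mon_insert z he2, mon_insert z hf, mul_ite,
          mul_zero, mul_assoc]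
      · rw [if_neg hp]
        apply sum_eq_zero
        intro B hB
        have he' : e ∈ insert e (insert f B) := mem_insert_self _ _
        have hf' : f ∈ insert e (insert f B) := mem_insert_of_mem (mem_insert_self _ _)
        simp only [he', hf', hp, and_false, if_false]

theorem bb_nonneg {z : α → ℝ} (hz : ∀ a, 0 ≤ z a) (X : Set α) : 0 ≤ bb M e f z X := by
  apply sum_nonneg
  intro B _
  split_ifs
  · exact mon_nonneg hz B
  · exact le_refl _

theorem GG_sub {B : Finset α} (hB : B ∈ (GG M e f).powerset) : (B : Set α) ⊆ M.E :=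
  fun _ ha => (mem_filter.1 (mem_powerset.1 hB ha)).2.1

theorem bb_mono {z : α → ℝ} (hz : ∀ a, 0 ≤ z a) {X Y : Set α} (hXY : X ⊆ Y) (hY : Y ⊆ M.E) :
    bb M e f z X ≤ bb M e f z Y := by
  apply sum_le_sum
  intro B hB
  by_cases h : M.Spanning (X ∪ B)
  · have h2 : M.Spanning (Y ∪ B) :=
      h.superset (Set.union_subset_union_left _ hXY) (Set.union_subset hY (GG_sub hB))
    rw [if_pos h, if_pos h2]
  · rw [if_neg h]
    split_ifs
    · exact mon_nonneg hz B
    · exact le_refl _

theorem bb_congr (z : α → ℝ) {X Y : Set α} (hX : X ⊆ M.E) (hY : Y ⊆ M.E)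
    (hc : M.closure X = M.closure Y) : bb M e f z X = bb M e f z Y := by
  apply sum_congr rfl
  intro B hB
  have h1 : M.Spanning (X ∪ B) ↔ M.Spanning (Y ∪ B) := by
    rw [M.spanning_iff_closure_eq (Set.union_subset hX (GG_sub hB)),
      M.spanning_iff_closure_eq (Set.union_subset hY (GG_sub hB)), M.closure_union_congr_left hc]
  simp only [h1]

theorem GG_eq (h : PairH M e f) : GG M e f = LA M e f ∪ OO M e f := by
  ext g
  simp only [GG, LA, OO, mem_union, mem_filter, mem_univ, true_and]
  constructor
  · rintro ⟨h1, h2, h3⟩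
    by_cases h4 : g ∈ M.closure {e, f}
    · exact Or.inl ⟨h4, h2, h3⟩
    · exact Or.inr ⟨h1, h4⟩
  · rintro (⟨h1, h2, h3⟩ | ⟨h1, h2⟩)
    · exact ⟨M.closure_subset_ground _ h1, h2, h3⟩
    · refine ⟨h1, ?_, ?_⟩
      · rintro rfl
        exact h2 (mem_L_left h)
      · rintro rfl
        exact h2 (mem_L_right h)

theorem bb_eq (h : PairH M e f) (z : α → ℝ) (X : Set α) :
    bb M e f z X = (∏ g ∈ LA M e f ∪ OO M e f, (1 + z g)) - NS M e f z X := by
  rw [eq_sub_iff_add_eq, bb, NS, GG_eq h, ← sum_add_distrib, prod_one_add]
  apply sum_congr rfl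
  intro B _
  by_cases hs : M.Spanning (X ∪ B)
  · simp [hs, mon]
  · simp [hs, mon]

theorem key_ineq (h3 : M.eRank = 3) (heE : e ∈ M.E) (hfE : f ∈ M.E) {z : α → ℝ}
    (hz : ∀ a, 0 ≤ z a) :
    bb M e f z {e, f} * bb M e f z ∅ ≤ bb M e f z {e} * bb M e f z {f} := by
  have s1 : ({e} : Set α) ⊆ M.E := Set.singleton_subset_iff.2 heE
  have s2 : ({f} : Set α) ⊆ M.E := Set.singleton_subset_iff.2 hfE
  have s3 : ({e, f} : Set α) ⊆ M.E := Set.insert_subset heE s2
  by_cases h1 : e ∈ M.closure {f}
  · have h2 : M.closure {e, f} = M.closure {f} := M.closure_insert_eq_of_mem_closure h1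
    rw [bb_congr z s3 s2 h2, mul_comm]
    exact mul_le_mul_of_nonneg_right (bb_mono hz (Set.empty_subset _) s1) (bb_nonneg hz _)
  · by_cases h2 : f ∈ M.closure {e}
    · have h4 : M.closure {e, f} = M.closure {e} := by
        rw [Set.pair_comm]; exact M.closure_insert_eq_of_mem_closure h2
      rw [bb_congr z s3 s1 h4]
      exact mul_le_mul_of_nonneg_left (bb_mono hz (Set.empty_subset _) s2) (bb_nonneg hz _)
    · have hp : PairH M e f := ⟨h3, heE, hfE, h1, h2⟩
      rw [bb_eq hp, bb_eq hp, bb_eq hp, bb_eq hp]
      exact main_NS hp hz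

end

/-- Rank-three matroids are spanning-correlated. -/
theorem rank3_spanning {α : Type*} [Fintype α] (M : Matroid α) (h3 : M.eRank = 3)
    (z : α → ℝ) (hz : ∀ x, 0 < z x) (e f : α) (hef : e ≠ f) :
    (∑ A : Finset α, if M.Spanning (A : Set α) ∧ e ∈ A ∧ f ∈ A then ∏ x ∈ A, z x else 0) *
      (∑ A : Finset α, if M.Spanning (A : Set α) then ∏ x ∈ A, z x else 0) ≤
    (∑ A : Finset α, if M.Spanning (A : Set α) ∧ e ∈ A then ∏ x ∈ A, z x else 0) *
      (∑ A : Finset α, if M.Spanning (A : Set α) ∧ f ∈ A then ∏ x ∈ A, z x else 0) := by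
  have hz' : ∀ x, 0 ≤ z x := fun x => (hz x).le
  have hnn : ∀ (p : Finset α → Prop) [DecidablePred p],
      0 ≤ ∑ A : Finset α, if p A then ∏ x ∈ A, z x else 0 := by
    intro p _
    apply sum_nonneg
    intro A _
    split_ifs
    · exact mon_nonneg hz' A
    · exact le_refl _
  by_cases heE : e ∈ M.E
  · by_cases hfE : f ∈ M.E
    · have e1 := four_sums heE hfE hef z (fun a b => a ∧ b)
      have e2 := four_sums heE hfE hef z (fun _ _ => True)
      have e3 := four_sums heE hfE hef z (fun a _ => a)
      have e4 := four_sums heE hfE hef z (fun _ b => b)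
      simp only [mon, and_true, and_false, false_and, if_true, if_false, add_zero, zero_add]
        at e1 e2 e3 e4
      have e1' : (∑ A : Finset α, if M.Spanning (A : Set α) ∧ e ∈ A ∧ f ∈ A then ∏ x ∈ A, z x else 0)
          = z e * z f * bb M e f z {e, f} := by
        refine Eq.trans (sum_congr rfl (fun A _ => ?_)) e1
        congr
      have e2' : (∑ A : Finset α, if M.Spanning (A : Set α) then ∏ x ∈ A, z x else 0) =
          bb M e f z ∅ + z f * bb M e f z {f} +
            (z e * bb M e f z {e} + z e * z f * bb M e f z {e, f}) := by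
        refine Eq.trans (sum_congr rfl (fun A _ => ?_)) e2
        congr
      have e3' : (∑ A : Finset α, if M.Spanning (A : Set α) ∧ e ∈ A then ∏ x ∈ A, z x else 0)
          = z e * bb M e f z {e} + z e * z f * bb M e f z {e, f} := by
        refine Eq.trans (sum_congr rfl (fun A _ => ?_)) e3
        congr
      have e4' : (∑ A : Finset α, if M.Spanning (A : Set α) ∧ f ∈ A then ∏ x ∈ A, z x else 0)
          = z f * bb M e f z {f} + z e * z f * bb M e f z {e, f} := by
        refine Eq.trans (sum_congr rfl (fun A _ => ?_)) e4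
        congr
      rw [e1', e2', e3', e4']
      have hk := key_ineq h3 heE hfE hz'
      have hzz : 0 ≤ z e * z f := mul_nonneg (hz' e) (hz' f)
      nlinarith [mul_le_mul_of_nonneg_left hk hzz]
    · have h0 : (∑ A : Finset α, if M.Spanning (A : Set α) ∧ e ∈ A ∧ f ∈ A
          then ∏ x ∈ A, z x else 0) = 0 := by
        apply sum_eq_zero
        intro A _
        rw [if_neg]
        rintro ⟨hs, -, hf⟩
        exact hfE (hs.subset_ground hf)
      rw [h0, zero_mul]
      exact mul_nonneg (hnn _) (hnn _)
  · have h0 : (∑ A : Finset α, if M.Spanning (A : Set α) ∧ e ∈ A ∧ f ∈ A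
        then ∏ x ∈ A, z x else 0) = 0 := by
      apply sum_eq_zero
      intro A _
      rw [if_neg]
      rintro ⟨hs, he, -⟩
      exact heE (hs.subset_ground he)
    rw [h0, zero_mul]
    exact mul_nonneg (hnn _) (hnn _)

end Pool.Agent.Helper160.R3
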