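import Mathlib
import Pool.Agent.Helper160.R3Span

set_option autoImplicit false
set_option linter.unusedSectionVars false
set_option linter.unusedVariables false

open Finset Classical

namespace Pool.Agent.Helper160.R3

section
variable {α : Type*} [DecidableEq α] [Fintype α] {M : Matroid α} {e f : α}

/-- The ground set as a finset. -/
noncomputable def EE (M : Matroid α) : Finset α := univ.filter (fun g => g ∈ M.E)

theorem coe_EE : ((EE M : Finset α) : Set α) = M.E := by
  ext g; simp [EE]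

theorem dual_sum (heE : e ∈ M.E) (hfE : f ∈ M.E) {z : α → ℝ} (hz : ∀ a, 0 < z a)
    (p : Prop → Prop → Prop) :
    (∑ A : Finset α, if M.Indep (A : Set α) ∧ p (e ∈ A) (f ∈ A) then mon z A else 0) =
      mon z (EE M) * ∑ B : Finset α,
        if M✶.Spanning (B : Set α) ∧ p (¬ e ∈ B) (¬ f ∈ B) then mon (fun x => (z x)⁻¹) B else 0 := by
  have hsubE : ∀ A : Finset α, (A : Set α) ⊆ M.E → A ⊆ EE M := by
    intro A hA a ha
    exact mem_filter.2 ⟨mem_univ _, hA ha⟩
  have hE2 : ∀ A : Finset α, A ⊆ EE M → (A : Set α) ⊆ M.E := by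
    intro A hA a ha
    exact (mem_filter.1 (hA ha)).2
  have h1 : (∑ A : Finset α, if M.Indep (A : Set α) ∧ p (e ∈ A) (f ∈ A) then mon z A else 0) =
      ∑ A ∈ (EE M).powerset, if M.Indep (A : Set α) ∧ p (e ∈ A) (f ∈ A) then mon z A else 0 := by
    symm
    apply sum_subset (subset_univ _)
    intro A _ hA
    rw [if_neg]
    rintro ⟨hs, -⟩
    exact hA (mem_powerset.2 (hsubE A hs.subset_ground))
  have h2 : (∑ B : Finset α,
        if M✶.Spanning (B : Set α) ∧ p (¬ e ∈ B) (¬ f ∈ B) then mon (fun x => (z x)⁻¹) B else 0) =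
      ∑ B ∈ (EE M).powerset,
        if M✶.Spanning (B : Set α) ∧ p (¬ e ∈ B) (¬ f ∈ B) then mon (fun x => (z x)⁻¹) B
          else 0 := by
    symm
    apply sum_subset (subset_univ _)
    intro A _ hA
    rw [if_neg]
    rintro ⟨hs, -⟩
    exact hA (mem_powerset.2 (hsubE A hs.subset_ground))
  rw [h1, h2, mul_sum]
  have heEE : e ∈ EE M := mem_filter.2 ⟨mem_univ _, heE⟩
  have hfEE : f ∈ EE M := mem_filter.2 ⟨mem_univ _, hfE⟩
  refine sum_bij' (fun A _ => EE M \ A) (fun B _ => EE M \ B) ?_ ?_ ?_ ?_ ?_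
  · intro A _
    exact mem_powerset.2 sdiff_subset
  · intro A _
    exact mem_powerset.2 sdiff_subset
  · intro A hA
    exact Finset.sdiff_sdiff_eq_self (mem_powerset.1 hA)
  · intro A hA
    exact Finset.sdiff_sdiff_eq_self (mem_powerset.1 hA)
  · intro A hA
    rw [mem_powerset] at hA
    have hi : M.Indep (A : Set α) ↔ M✶.Spanning ((EE M \ A : Finset α) : Set α) := by
      have h3 : (A : Set α) ⊆ M✶.E := by rw [M.dual_ground]; exact hE2 A hA
      rw [coe_sdiff, coe_EE, ← M.dual_coindep_iff, Matroid.coindep_iff_compl_spanning h3,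
        M.dual_ground]
    have he : (¬ e ∈ EE M \ A) ↔ e ∈ A := by
      rw [mem_sdiff]
      constructor
      · intro h; by_contra hc; exact h ⟨heEE, hc⟩
      · rintro h ⟨-, hc⟩; exact hc h
    have hf : (¬ f ∈ EE M \ A) ↔ f ∈ A := by
      rw [mem_sdiff]
      constructor
      · intro h; by_contra hc; exact h ⟨hfEE, hc⟩
      · rintro h ⟨-, hc⟩; exact hc h
    have hm : mon z A = mon z (EE M) * mon (fun x => (z x)⁻¹) (EE M \ A) := by
      unfold mon
      rw [← prod_sdiff hA, prod_inv_distrib]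
      have : (∏ x ∈ EE M \ A, z x) ≠ 0 := (prod_pos (fun x _ => hz x)).ne'
      field_simp
    have he' : (e ∈ A) = (¬ e ∈ EE M \ A) := propext he.symm
    have hf' : (f ∈ A) = (¬ f ∈ EE M \ A) := propext hf.symm
    rw [show (p (e ∈ A) (f ∈ A)) = p (¬ e ∈ EE M \ A) (¬ f ∈ EE M \ A) by rw [he', hf']]
    by_cases hc : M.Indep (A : Set α) ∧ p (¬ e ∈ EE M \ A) (¬ f ∈ EE M \ A)
    · rw [if_pos hc, if_pos ⟨hi.1 hc.1, hc.2⟩, hm]
    · rw [if_neg hc, if_neg (fun h => hc ⟨hi.2 h.1, h.2⟩), mul_zero]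

theorem four_sums_indep (heE : e ∈ M.E) (hfE : f ∈ M.E) (hef : e ≠ f) {z : α → ℝ}
    (hz : ∀ a, 0 < z a) (p : Prop → Prop → Prop) :
    (∑ A : Finset α, if M.Indep (A : Set α) ∧ p (e ∈ A) (f ∈ A) then mon z A else 0) =
      mon z (EE M) * ((if p True True then bb M✶ e f (fun x => (z x)⁻¹) ∅ else 0) +
        (if p True False then (z f)⁻¹ * bb M✶ e f (fun x => (z x)⁻¹) {f} else 0) +
      ((if p False True then (z e)⁻¹ * bb M✶ e f (fun x => (z x)⁻¹) {e} else 0) +
      (if p False False then (z e)⁻¹ * (z f)⁻¹ * bb M✶ e f (fun x => (z x)⁻¹) {e, f} else 0))) := by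
  rw [dual_sum heE hfE hz p]
  congr 1
  have h1 := four_sums (M := M✶) (e := e) (f := f) (by rwa [M.dual_ground]) (by rwa [M.dual_ground])
    hef (fun x => (z x)⁻¹) (fun a b => p (¬ a) (¬ b))
  simp only [not_true_eq_false, not_false_eq_true] at h1
  rw [← h1]

end

/-- Matroids of corank three are independence-correlated. -/
theorem corank3_indep {α : Type*} [Fintype α] (M : Matroid α) (h3 : M✶.eRank = 3)
    (z : α → ℝ) (hz : ∀ x, 0 < z x) (e f : α) (hef : e ≠ f) :
    (∑ A : Finset α, if M.Indep (A : Set α) ∧ e ∈ A ∧ f ∈ A then ∏ x ∈ A, z x else 0) *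
      (∑ A : Finset α, if M.Indep (A : Set α) then ∏ x ∈ A, z x else 0) ≤
    (∑ A : Finset α, if M.Indep (A : Set α) ∧ e ∈ A then ∏ x ∈ A, z x else 0) *
      (∑ A : Finset α, if M.Indep (A : Set α) ∧ f ∈ A then ∏ x ∈ A, z x else 0) := by
  have hz' : ∀ x, 0 ≤ z x := fun x => (hz x).le
  have hnn : ∀ (p : Finset α → Prop) [DecidablePred p],
      0 ≤ ∑ A : Finset α, if p A then ∏ x ∈ A, z x else 0 := by
    intro p _
    apply sum_nonneg
    intro A _
    split_ifs
    · exact mon_nonneg hz' A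
    · exact le_refl _
  by_cases heE : e ∈ M.E
  · by_cases hfE : f ∈ M.E
    · have e1 := four_sums_indep heE hfE hef hz (fun a b => a ∧ b)
      have e2 := four_sums_indep heE hfE hef hz (fun _ _ => True)
      have e3 := four_sums_indep heE hfE hef hz (fun a _ => a)
      have e4 := four_sums_indep heE hfE hef hz (fun _ b => b)
      simp only [and_true, and_false, if_true, if_false, add_zero, zero_add] at e1 e2 e3 e4
      have hk := key_ineq (M := M✶) h3 (by rwa [M.dual_ground]) (by rwa [M.dual_ground])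
        (e := e) (f := f) (z := fun x => (z x)⁻¹) (fun a => inv_nonneg.2 (hz' a))
      set b0 := bb M✶ e f (fun x => (z x)⁻¹) ∅
      set be := bb M✶ e f (fun x => (z x)⁻¹) {e}
      set bf := bb M✶ e f (fun x => (z x)⁻¹) {f}
      set bef := bb M✶ e f (fun x => (z x)⁻¹) {e, f}
      have e1' : (∑ A : Finset α, if M.Indep (A : Set α) ∧ e ∈ A ∧ f ∈ A then ∏ x ∈ A, z x else 0)
          = mon z (EE M) * b0 := by
        refine Eq.trans (sum_congr rfl (fun A _ => ?_)) e1
        congr
      have e2' : (∑ A : Finset α, if M.Indep (A : Set α) then ∏ x ∈ A, z x else 0) =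
          mon z (EE M) * (b0 + (z f)⁻¹ * bf + ((z e)⁻¹ * be + (z e)⁻¹ * (z f)⁻¹ * bef)) := by
        refine Eq.trans (sum_congr rfl (fun A _ => ?_)) e2
        congr
      have e3' : (∑ A : Finset α, if M.Indep (A : Set α) ∧ e ∈ A then ∏ x ∈ A, z x else 0)
          = mon z (EE M) * (b0 + (z f)⁻¹ * bf) := by
        refine Eq.trans (sum_congr rfl (fun A _ => ?_)) e3
        congr
      have e4' : (∑ A : Finset α, if M.Indep (A : Set α) ∧ f ∈ A then ∏ x ∈ A, z x else 0)
          = mon z (EE M) * (b0 + (z e)⁻¹ * be) := by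
        refine Eq.trans (sum_congr rfl (fun A _ => ?_)) e4
        congr
      rw [e1', e2', e3', e4']
      have hzz : 0 ≤ mon z (EE M) ^ 2 * ((z e)⁻¹ * (z f)⁻¹) :=
        mul_nonneg (sq_nonneg _) (mul_nonneg (inv_nonneg.2 (hz' e)) (inv_nonneg.2 (hz' f)))
      have h5 := mul_le_mul_of_nonneg_left hk hzz
      nlinarith [h5]
    · have h0 : (∑ A : Finset α, if M.Indep (A : Set α) ∧ e ∈ A ∧ f ∈ A
          then ∏ x ∈ A, z x else 0) = 0 := by
        apply sum_eq_zero
        intro A _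
        rw [if_neg]
        rintro ⟨hs, -, hf⟩
        exact hfE (hs.subset_ground hf)
      rw [h0, zero_mul]
      exact mul_nonneg (hnn _) (hnn _)
  · have h0 : (∑ A : Finset α, if M.Indep (A : Set α) ∧ e ∈ A ∧ f ∈ A
        then ∏ x ∈ A, z x else 0) = 0 := by
      apply sum_eq_zero
      intro A _
      rw [if_neg]
      rintro ⟨hs, he, -⟩
      exact heE (hs.subset_ground he)
    rw [h0, zero_mul]
    exact mul_nonneg (hnn _) (hnn _)

end Pool.Agent.Helper160.R3
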