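import Mathlib

set_option autoImplicit false

namespace Pool.Agent.Helper160.Supra

open Filter Topology Classical
open scoped Pointwise ENNReal

noncomputable section

universe u

variable {Γ : Type u} [Group Γ]

/-- For every finite `S` some finite nonempty part of `A` is not doubled by `S`. -/
def NoDoubling (A : Set Γ) : Prop :=
  ∀ S : Finset Γ, ∃ F : Finset Γ, F.Nonempty ∧ (↑F : Set Γ) ⊆ A ∧
    ((S * F).filter (· ∈ A)).card < 2 * F.card

theorem folner {A : Set Γ} (h : NoDoubling A) (S : Finset Γ) {ε : ℝ} (hε : 0 < ε) :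
    ∃ F : Finset Γ, F.Nonempty ∧ (↑F : Set Γ) ⊆ A ∧
      ((((insert 1 S) * F).filter (· ∈ A)).card : ℝ) ≤ (1 + ε) * F.card := by
  by_contra hcon
  push Not at hcon
  set T := insert 1 S with hT
  have h1T : (1 : Γ) ∈ T := Finset.mem_insert_self _ _
  have key : ∀ k : ℕ, ∀ F : Finset Γ, F.Nonempty → (↑F : Set Γ) ⊆ A →
      (1 + ε) ^ k * (F.card : ℝ) ≤ (((T ^ k) * F).filter (· ∈ A)).card := by
    intro k
    induction k with
    | zero =>
      intro F hF hFA
      simp only [pow_zero, one_mul]
      rw [Finset.filter_true_of_mem (fun x hx => hFA hx)]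
    | succ k ih =>
      intro F hF hFA
      have h1 := ih F hF hFA
      set G := ((T ^ k) * F).filter (· ∈ A) with hG
      have hGA : (↑G : Set Γ) ⊆ A := fun x hx => (Finset.mem_filter.1 hx).2
      have hGne : G.Nonempty := by
        rw [← Finset.card_pos]
        have : (0:ℝ) < (G.card : ℝ) := by
          refine lt_of_lt_of_le ?_ h1
          have : (0:ℝ) < F.card := by exact_mod_cast hF.card_pos
          positivity
        exact_mod_cast this
      have h2 := hcon G hGne hGA
      have h3 : (T * G).filter (· ∈ A) ⊆ ((T ^ (k + 1)) * F).filter (· ∈ A) := by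
        apply Finset.filter_subset_filter
        rw [pow_succ', mul_assoc]
        apply Finset.mul_subset_mul_left
        exact Finset.filter_subset _ _
      have h4 : (((T * G).filter (· ∈ A)).card : ℝ) ≤
          (((T ^ (k + 1)) * F).filter (· ∈ A)).card := by
        exact_mod_cast Finset.card_le_card h3
      calc (1 + ε) ^ (k + 1) * (F.card : ℝ) = (1 + ε) * ((1 + ε) ^ k * F.card) := by ring
        _ ≤ (1 + ε) * G.card := by
          apply mul_le_mul_of_nonneg_left h1 (by positivity)
        _ ≤ _ := by linarith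
  obtain ⟨k, hk⟩ := pow_unbounded_of_one_lt 2 (show (1:ℝ) < 1 + ε by linarith)
  obtain ⟨F, hF, hFA, hlt⟩ := h (T ^ k)
  have h1 := key k F hF hFA
  have h2 : (0:ℝ) < F.card := by exact_mod_cast hF.card_pos
  have h3 : ((((T ^ k) * F).filter (· ∈ A)).card : ℝ) < 2 * F.card := by exact_mod_cast hlt
  nlinarith

theorem folner2 {A : Set Γ} (h : NoDoubling A) (S : Finset Γ) {ε : ℝ} (hε : 0 < ε) :
    ∃ F : Finset Γ, F.Nonempty ∧ (↑F : Set Γ) ⊆ A ∧
      ∀ g ∈ S, ((F.filter (fun x => g * x ∈ A ∧ g * x ∉ F)).card : ℝ) ≤ ε * F.card := by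
  obtain ⟨F, hF, hFA, hle⟩ := folner h S hε
  refine ⟨F, hF, hFA, fun g hg => ?_⟩
  have h1 : F ⊆ ((insert 1 S) * F).filter (· ∈ A) := by
    intro x hx
    rw [Finset.mem_filter]
    refine ⟨?_, hFA hx⟩
    rw [← one_mul x]
    exact Finset.mul_mem_mul (Finset.mem_insert_self _ _) hx
  have h2 : (F.filter (fun x => g * x ∈ A ∧ g * x ∉ F)).card ≤
      ((((insert 1 S) * F).filter (· ∈ A)) \ F).card := by
    apply Finset.card_le_card_of_injOn (fun x => g * x)
    · intro x hx
      simp only [Finset.coe_filter, Set.mem_ofPred_eq] at hx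
      simp only [Finset.coe_sdiff, Finset.coe_filter, Set.mem_sdiff, Set.mem_ofPred_eq,
        Finset.mem_coe]
      exact ⟨⟨Finset.mul_mem_mul (Finset.mem_insert_of_mem hg) hx.1, hx.2.1⟩, hx.2.2⟩
    · intro x _ y _ hxy
      exact mul_left_cancel hxy
  rw [Finset.card_sdiff_of_subset h1] at h2
  have h3 := Finset.card_le_card h1
  have h4 : ((F.filter (fun x => g * x ∈ A ∧ g * x ∉ F)).card : ℝ) ≤
      ((((insert 1 S) * F).filter (· ∈ A)).card : ℝ) - F.card := by
    rw [← Nat.cast_sub h3]
    exact_mod_cast h2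
  linarith

/-- A finitely additive set function, normalised on `A` and invariant inside `A`. -/
theorem exists_partial {A : Set Γ} (h : NoDoubling A) :
    ∃ m : Set Γ → ℝ≥0∞, (∀ B C : Set Γ, Disjoint B C → m (B ∪ C) = m B + m C) ∧ m A = 1 ∧
      ∀ (g : Γ) (E : Set Γ), E ⊆ A → g • E ⊆ A → m (g • E) ≤ m E := by
  have hF : ∀ i : Finset Γ × ℕ, ∃ F : Finset Γ, F.Nonempty ∧ (↑F : Set Γ) ⊆ A ∧
      ∀ g ∈ i.1, ((F.filter (fun x => g * x ∈ A ∧ g * x ∉ F)).card : ℝ) ≤
        (1 / ((i.2 : ℝ) + 1)) * F.card := fun i => folner2 h i.1 (by positivity)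
  choose F hFne hFA hFg using hF
  set U : Ultrafilter (Finset Γ × ℕ) := Ultrafilter.of atTop with hU
  have hUle : (U : Filter (Finset Γ × ℕ)) ≤ atTop := Ultrafilter.of_le _
  set d : Finset Γ × ℕ → Set Γ → ℝ≥0∞ := fun i B =>
    ENNReal.ofReal ((((F i).filter (· ∈ B)).card : ℝ) / (F i).card) with hd
  set m : Set Γ → ℝ≥0∞ := fun B => (U.map (fun i => d i B)).lim with hm
  have hlim : ∀ B, Tendsto (fun i => d i B) U (𝓝 (m B)) := by
    intro B
    exact Ultrafilter.le_nhds_lim (U.map (fun i => d i B))
  have hpos : ∀ i, (0:ℝ) < (F i).card := fun i => by exact_mod_cast (hFne i).card_pos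
  refine ⟨m, ?_, ?_, ?_⟩
  · intro B C hBC
    have h1 : ∀ i, d i (B ∪ C) = d i B + d i C := by
      intro i
      rw [hd]
      simp only
      rw [← ENNReal.ofReal_add (by positivity) (by positivity), ← add_div]
      congr 2
      have h2 : (F i).filter (· ∈ B ∪ C) = (F i).filter (· ∈ B) ∪ (F i).filter (· ∈ C) := by
        ext x
        simp only [Finset.mem_filter, Finset.mem_union, Set.mem_union]
        tauto
      have h3 : ((F i).filter (· ∈ B ∪ C)).card =
          ((F i).filter (· ∈ B)).card + ((F i).filter (· ∈ C)).card := by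
        rw [h2, Finset.card_union_of_disjoint]
        rw [Finset.disjoint_left]
        intro x hx hx2
        exact Set.disjoint_left.1 hBC (Finset.mem_filter.1 hx).2 (Finset.mem_filter.1 hx2).2
      rw [← Nat.cast_add, ← h3]
      congr 2
      ext x
      simp only [Finset.mem_filter]
    have h2 := (hlim B).add (hlim C)
    have h3 : Tendsto (fun i => d i (B ∪ C)) U (𝓝 (m B + m C)) := by
      simpa only [h1] using h2
    exact tendsto_nhds_unique (hlim (B ∪ C)) h3
  · have h1 : ∀ i, d i A = 1 := by
      intro i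
      rw [hd]
      simp only
      rw [Finset.filter_true_of_mem (fun x hx => hFA i hx), div_self (hpos i).ne',
        ENNReal.ofReal_one]
    have h3 : Tendsto (fun i => d i A) U (𝓝 1) := by
      simp only [h1]
      exact tendsto_const_nhds
    exact tendsto_nhds_unique (hlim A) h3
  · intro g E hE hgE
    apply ENNReal.le_of_forall_pos_le_add
    intro ε hε _
    obtain ⟨n, hn⟩ := exists_nat_one_div_lt (show (0:ℝ) < ε by exact_mod_cast hε)
    have hev : ∀ᶠ i in (U : Filter (Finset Γ × ℕ)), d i (g • E) ≤ d i E + ε := by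
      apply hUle
      filter_upwards [eventually_ge_atTop (({g⁻¹} : Finset Γ), n)] with i hi
      have hg : g⁻¹ ∈ i.1 := hi.1 (Finset.mem_singleton_self _)
      have h1 := hFg i g⁻¹ hg
      have h2 : 1 / ((i.2 : ℝ) + 1) ≤ ε := by
        refine le_trans ?_ hn.le
        apply one_div_le_one_div_of_le (by positivity)
        have : (n:ℝ) ≤ i.2 := by exact_mod_cast hi.2
        linarith
      have h3 : ((F i).filter (· ∈ g • E)).card ≤ ((F i).filter (· ∈ E)).card +
          ((F i).filter (fun x => g⁻¹ * x ∈ A ∧ g⁻¹ * x ∉ F i)).card := by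
        have h4 : ((F i).filter (· ∈ g • E)).card =
            (((F i).filter (· ∈ g • E)).image (fun x => g⁻¹ * x)).card := by
          rw [Finset.card_image_of_injective _ (mul_right_injective g⁻¹)]
        have h5 : ((F i).filter (· ∈ g • E)) ⊆
            ((F i).filter (fun x => x ∈ g • E ∧ g⁻¹ * x ∈ F i)) ∪
            ((F i).filter (fun x => g⁻¹ * x ∈ A ∧ g⁻¹ * x ∉ F i)) := by
          intro x hx
          rw [Finset.mem_filter] at hx
          rw [Finset.mem_union, Finset.mem_filter, Finset.mem_filter]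
          by_cases hxF : g⁻¹ * x ∈ F i
          · exact Or.inl ⟨hx.1, hx.2, hxF⟩
          · refine Or.inr ⟨hx.1, ?_, hxF⟩
            obtain ⟨y, hy, rfl⟩ := hx.2
            simp only [smul_eq_mul, inv_mul_cancel_left]
            exact hE hy
        refine (Finset.card_le_card h5).trans ((Finset.card_union_le _ _).trans ?_)
        apply Nat.add_le_add_right
        apply Finset.card_le_card_of_injOn (fun x => g⁻¹ * x)
        · intro x hx
          simp only [Finset.coe_filter, Set.mem_ofPred_eq] at hx ⊢
          refine ⟨hx.2.2, ?_⟩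
          obtain ⟨y, hy, rfl⟩ := hx.2.1
          simpa using hy
        · intro x _ y _ hxy
          exact mul_left_cancel hxy
      have h4 : ((((F i).filter (· ∈ g • E)).card : ℝ) / (F i).card) ≤
          (((F i).filter (· ∈ E)).card : ℝ) / (F i).card + ε := by
        rw [div_add' _ _ _ (hpos i).ne', div_le_div_iff_of_pos_right (hpos i)]
        have h5 : (((F i).filter (· ∈ g • E)).card : ℝ) ≤ ((F i).filter (· ∈ E)).card +
          ((F i).filter (fun x => g⁻¹ * x ∈ A ∧ g⁻¹ * x ∉ F i)).card := by exact_mod_cast h3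
        have h6 : 1 / ((i.2 : ℝ) + 1) * (F i).card ≤ ε * (F i).card :=
          mul_le_mul_of_nonneg_right h2 (hpos i).le
        linarith
      calc d i (g • E) ≤ ENNReal.ofReal ((((F i).filter (· ∈ E)).card : ℝ) / (F i).card + ε) :=
            ENNReal.ofReal_le_ofReal h4
        _ = d i E + ε := by
          rw [ENNReal.ofReal_add (by positivity) (by positivity)]
          congr 1
          exact ENNReal.ofReal_coe_nnreal
    exact le_of_tendsto_of_tendsto (hlim (g • E)) ((hlim E).add tendsto_const_nhds) hev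

/-- The Tarski-type statement used here. -/
theorem exists_measure {A : Set Γ} (h : NoDoubling A) :
    ∃ μ : Set Γ → ℝ≥0∞, (∀ B C : Set Γ, Disjoint B C → μ (B ∪ C) = μ B + μ C) ∧
      (∀ (g : Γ) (B : Set Γ), μ ((fun x => g * x) '' B) = μ B) ∧ μ A = 1 := by
  obtain ⟨m, hadd, hA, hinv⟩ := exists_partial h
  have hmono : ∀ B C : Set Γ, B ⊆ C → m B ≤ m C := by
    intro B C hBC
    have := hadd B (C \ B) Set.disjoint_sdiff_right
    rw [Set.union_sdiff_cancel hBC] at this
    rw [this]
    exact le_self_add
  set P : (Γ → Γ) → Set Γ → Γ → Set Γ := fun c B g =>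
    {y | y ∈ A ∧ g⁻¹ * y ∈ B ∧ c (g⁻¹ * y) = g} with hP
  set V : Finset Γ × (Γ → Γ) → Set Γ → ℝ≥0∞ := fun t B => ∑ g ∈ t.1, m (P t.2 B g) with hV
  set μ : Set Γ → ℝ≥0∞ := fun B => ⨆ t, V t B with hμ
  have hVadd : ∀ t B C, Disjoint B C → V t (B ∪ C) = V t B + V t C := by
    intro t B C hBC
    rw [hV]
    simp only
    rw [← Finset.sum_add_distrib]
    apply Finset.sum_congr rfl
    intro g _
    rw [← hadd]
    · congr 1
      ext y
      simp only [hP, Set.mem_union, Set.mem_ofPred_eq]
      tauto
    · rw [Set.disjoint_left]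
      rintro y ⟨_, hy, _⟩ ⟨_, hy2, _⟩
      exact Set.disjoint_left.1 hBC hy hy2
  have hle : ∀ (h : Γ) (B : Set Γ), μ ((fun x => h * x) '' B) ≤ μ B := by
    intro h B
    apply iSup_le
    rintro ⟨T, c⟩
    refine le_trans ?_ (le_iSup (fun t => V t B) (T.image (fun g => g * h),
      fun x => c (h * x) * h))
    rw [hV]
    simp only
    rw [Finset.sum_image (fun x _ y _ hxy => mul_right_cancel hxy)]
    apply le_of_eq
    apply Finset.sum_congr rfl
    intro g _
    congr 1
    ext y
    simp only [hP, Set.mem_ofPred_eq, Set.mem_image]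
    constructor
    · rintro ⟨hy, ⟨x, hx, hxy⟩, hc⟩
      have e : (g * h)⁻¹ * y = x := by
        rw [mul_inv_rev, mul_assoc, ← hxy]; group
      refine ⟨hy, by rwa [e], ?_⟩
      rw [e, hxy, hc]
    · rintro ⟨hy, hx, hc⟩
      have e : h * ((g * h)⁻¹ * y) = g⁻¹ * y := by group
      refine ⟨hy, ⟨_, hx, e⟩, ?_⟩
      rw [e] at hc
      exact mul_right_cancel hc
  refine ⟨μ, ?_, ?_, ?_⟩
  · intro B C hBC
    apply le_antisymm
    · apply iSup_le
      intro t
      rw [hVadd t B C hBC]
      exact add_le_add (le_iSup (fun t => V t B) t) (le_iSup (fun t => V t C) t)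
    · apply ENNReal.iSup_add_iSup_le
      rintro ⟨T1, c1⟩ ⟨T2, c2⟩
      refine le_trans ?_ (le_iSup (fun t => V t (B ∪ C)) (T1 ∪ T2, fun x => if x ∈ B then c1 x
        else c2 x))
      rw [hVadd _ B C hBC]
      apply add_le_add
      · rw [hV]
        simp only
        refine le_trans (le_of_eq ?_) (Finset.sum_le_sum_of_subset Finset.subset_union_left)
        apply Finset.sum_congr rfl
        intro g _
        congr 1
        ext y
        simp only [hP, Set.mem_ofPred_eq]
        constructor
        · rintro ⟨h1, h2, h3⟩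
          exact ⟨h1, h2, by rw [if_pos h2]; exact h3⟩
        · rintro ⟨h1, h2, h3⟩
          rw [if_pos h2] at h3
          exact ⟨h1, h2, h3⟩
      · rw [hV]
        simp only
        refine le_trans (le_of_eq ?_) (Finset.sum_le_sum_of_subset Finset.subset_union_right)
        apply Finset.sum_congr rfl
        intro g _
        congr 1
        ext y
        simp only [hP, Set.mem_ofPred_eq]
        constructor
        · rintro ⟨h1, h2, h3⟩
          exact ⟨h1, h2, by rw [if_neg (fun hb => Set.disjoint_left.1 hBC hb h2)]; exact h3⟩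
        · rintro ⟨h1, h2, h3⟩
          rw [if_neg (fun hb => Set.disjoint_left.1 hBC hb h2)] at h3
          exact ⟨h1, h2, h3⟩
  · intro g B
    apply le_antisymm (hle g B)
    have h1 := hle g⁻¹ ((fun x => g * x) '' B)
    rw [Set.image_image] at h1
    simpa using h1
  · apply le_antisymm
    · apply iSup_le
      rintro ⟨T, c⟩
      rw [hV]
      simp only
      have h1 : ∀ g ∈ T, m (P c A g) ≤ m {x | x ∈ A ∧ c x = g ∧ g * x ∈ A} := by
        intro g _
        have h2 : P c A g = g • {x | x ∈ A ∧ c x = g ∧ g * x ∈ A} := by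
          ext y
          simp only [hP, Set.mem_ofPred_eq, Set.mem_smul_set, smul_eq_mul]
          constructor
          · rintro ⟨h1, h2, h3⟩
            exact ⟨g⁻¹ * y, ⟨h2, h3, by simpa using h1⟩, by simp⟩
          · rintro ⟨x, ⟨h1, h2, h3⟩, rfl⟩
            exact ⟨h3, by simpa using h1, by simpa using h2⟩
        rw [h2]
        apply hinv
        · intro x hx; exact hx.1
        · rintro y ⟨x, hx, rfl⟩
          exact hx.2.2
      refine (Finset.sum_le_sum h1).trans ?_
      have h2 : ∀ T : Finset Γ, ∑ g ∈ T, m {x | x ∈ A ∧ c x = g ∧ g * x ∈ A} =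
          m {x | x ∈ A ∧ c x ∈ T ∧ c x * x ∈ A} := by
        intro T
        induction T using Finset.induction_on with
        | empty =>
          simp only [Finset.sum_empty, Finset.notMem_empty, false_and, and_false]
          have h3 := hadd ∅ ∅ (Set.disjoint_empty _)
          have h4 : m ∅ ≤ 1 := by rw [← hA]; exact hmono _ _ (Set.empty_subset _)
          rw [Set.union_empty] at h3
          have h5 : m ∅ ≠ ⊤ := ne_top_of_le_ne_top ENNReal.one_ne_top h4
          have h6 : m ∅ + 0 = m ∅ + m ∅ := by rw [add_zero]; exact h3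
          have h7 := (ENNReal.add_right_inj h5).1 h6
          rw [Set.ofPred_false]
          exact h7
        | insert a s ha ih =>
          rw [Finset.sum_insert ha, ih, ← hadd]
          · congr 1
            ext x
            simp only [Set.mem_union, Set.mem_ofPred_eq, Finset.mem_insert]
            constructor
            · rintro (⟨h1, h2, h3⟩ | ⟨h1, h2, h3⟩)
              · exact ⟨h1, Or.inl h2, by rw [h2]; exact h3⟩
              · exact ⟨h1, Or.inr h2, h3⟩
            · rintro ⟨h1, h2 | h2, h3⟩
              · exact Or.inl ⟨h1, h2, by rw [← h2]; exact h3⟩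
              · exact Or.inr ⟨h1, h2, h3⟩
          · rw [Set.disjoint_left]
            rintro x ⟨_, h1, _⟩ ⟨_, h2, _⟩
            rw [h1] at h2
            exact ha h2
      rw [h2]
      rw [← hA]
      exact hmono _ _ (fun x hx => hx.1)
    · refine le_trans ?_ (le_iSup (fun t => V t A) ({1}, fun _ => 1))
      rw [hV]
      simp only [Finset.sum_singleton]
      rw [← hA]
      apply hmono
      intro x hx
      exact ⟨hx, by simpa using hx, rfl⟩

end

end Pool.Agent.Helper160.Supra
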