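import Mathlib

set_option autoImplicit false

namespace Pool.Agent.Helper160.Supra

open Classical

noncomputable section

universe u v

variable {X : Type u} {G : Type v} {M : ℕ}

/-- Choices of labels along a ternary tree of depth `n`. -/
def Ch (M : ℕ) : ℕ → Type
  | 0 => Unit
  | n + 1 => Fin 3 → (Fin M × Ch M n)

instance chFintype (M : ℕ) : ∀ n, Fintype (Ch M n)
  | 0 => inferInstanceAs (Fintype Unit)
  | n + 1 =>
    haveI := chFintype M n
    inferInstanceAs (Fintype (Fin 3 → (Fin M × Ch M n)))

theorem card_zero : Fintype.card (Ch M 0) = 1 := rfl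

theorem card_pair (n : ℕ) : Fintype.card (Fin M × Ch M n) = M * Fintype.card (Ch M n) := by
  rw [Fintype.card_prod, Fintype.card_fin]

theorem card_succ (n : ℕ) : Fintype.card (Ch M (n + 1)) = (M * Fintype.card (Ch M n)) ^ 3 := by
  have : Fintype.card (Ch M (n + 1)) = Fintype.card (Fin 3 → (Fin M × Ch M n)) := rfl
  rw [this, Fintype.card_fun, card_pair, Fintype.card_fin]

/-- The position reached from `a` along the word `x`. -/
def pos (φ : Fin 3 → Fin M → X → X) : ∀ n, X → Ch M n → List (Fin 3) → X
  | 0, a, _, _ => a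
  | _ + 1, a, _, [] => a
  | n + 1, a, c, b :: x => pos φ n (φ b (c b).1 a) (c b).2 x

/-- The number of label sequences leading from `a` along the shape `y` to a point over `g`. -/
def cnt (π : X → G) (φ : Fin 3 → Fin M → X → X) : X → List (Fin 3) → G → ℕ
  | a, [], g => if π a = g then 1 else 0
  | a, b :: y, g => ∑ l, cnt π φ (φ b l a) y g

theorem card_fun1 {T : Type} [Fintype T] (b : Fin 3) (Q : T → Prop) :
    (Finset.univ.filter (fun c : Fin 3 → T => Q (c b))).card =
      (Finset.univ.filter Q).card * Fintype.card T ^ 2 := by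
  have h : Finset.univ.filter (fun c : Fin 3 → T => Q (c b)) =
      Fintype.piFinset (fun i => if i = b then Finset.univ.filter Q else Finset.univ) := by
    ext c
    simp only [Finset.mem_filter, Finset.mem_univ, true_and, Fintype.mem_piFinset]
    constructor
    · intro h i
      split_ifs with hi
      · subst hi; simpa using h
      · exact Finset.mem_univ _
    · intro h
      have := h b
      rw [if_pos rfl] at this
      simpa using this
  rw [h, Fintype.card_piFinset, Fin.prod_univ_three]
  fin_cases b <;> simp <;> ring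

theorem third (b b' : Fin 3) (h : b ≠ b') : ∃ b'' : Fin 3, ∀ i : Fin 3, i = b ∨ i = b' ∨ i = b'' := by
  revert b b'
  decide

theorem card_fun2 {T : Type} [Fintype T] {b b' : Fin 3} (hb : b ≠ b') (R : T → T → Prop)
    {N κ : ℕ} (h : ∀ p', N * (Finset.univ.filter (fun p => R p' p)).card ≤ κ) :
    N * (Finset.univ.filter (fun c : Fin 3 → T => R (c b') (c b))).card ≤
      κ * Fintype.card T ^ 2 := by
  rcases isEmpty_or_nonempty T with hT | hT
  · have : (Finset.univ.filter (fun c : Fin 3 → T => R (c b') (c b))) = ∅ := by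
      apply Finset.eq_empty_of_forall_notMem
      intro c
      exact (hT.false (c b)).elim
    rw [this]; simp
  obtain ⟨p0, -, hp0⟩ := Finset.exists_max_image (Finset.univ : Finset T)
    (fun p' => (Finset.univ.filter (fun p => R p' p)).card) Finset.univ_nonempty
  obtain ⟨b'', hb''⟩ := third b b' hb
  have h1 : (Finset.univ.filter (fun c : Fin 3 → T => R (c b') (c b))).card ≤
      (Finset.univ.filter (fun p => R p0 p)).card * (Finset.univ : Finset (T × T)).card := by
    apply Finset.card_le_mul_card_image_of_maps_to (f := fun c : Fin 3 → T => (c b', c b''))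
      (fun _ _ => Finset.mem_univ _)
    rintro ⟨p', q⟩ -
    refine le_trans ?_ (hp0 p' (Finset.mem_univ _))
    apply Finset.card_le_card_of_injOn (fun c => c b)
    · intro c hc
      simp only [Finset.coe_filter, Finset.mem_filter, Finset.mem_univ, true_and,
        Set.mem_ofPred_eq, Prod.mk.injEq] at hc ⊢
      rw [← hc.2.1]
      exact hc.1
    · intro c hc c' hc' hcc
      simp only [Finset.coe_filter, Finset.mem_filter, Finset.mem_univ, true_and,
        Set.mem_ofPred_eq, Prod.mk.injEq] at hc hc' hcc
      funext i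
      rcases hb'' i with rfl | rfl | rfl
      · exact hcc
      · rw [hc.2.1, hc'.2.1]
      · rw [hc.2.2, hc'.2.2]
  have h2 : (Finset.univ : Finset (T × T)).card = Fintype.card T ^ 2 := by
    rw [Finset.card_univ, Fintype.card_prod, sq]
  rw [h2] at h1
  calc N * _ ≤ N * ((Finset.univ.filter (fun p => R p0 p)).card * Fintype.card T ^ 2) :=
        Nat.mul_le_mul_left _ h1
    _ = (N * (Finset.univ.filter (fun p => R p0 p)).card) * Fintype.card T ^ 2 := by ring
    _ ≤ κ * Fintype.card T ^ 2 := Nat.mul_le_mul_right _ (h p0)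

theorem card_prod_filter {S T : Type} [Fintype S] [Fintype T] (Q : S → T → Prop) :
    (Finset.univ.filter (fun p : S × T => Q p.1 p.2)).card =
      ∑ l, (Finset.univ.filter (Q l)).card := by
  simp only [Finset.card_filter, Fintype.sum_prod_type]

/-- The law of a single path. -/
theorem path (π : X → G) (φ : Fin 3 → Fin M → X → X) : ∀ (n : ℕ) (y : List (Fin 3)),
    y.length ≤ n → ∀ (a : X) (g : G),
    M ^ y.length * (Finset.univ.filter (fun c : Ch M n => π (pos φ n a c y) = g)).card =
      cnt π φ a y g * Fintype.card (Ch M n) := by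
  intro n
  induction n with
  | zero =>
    intro y hy a g
    have : y = [] := List.length_eq_zero_iff.1 (Nat.le_zero.1 hy)
    subst this
    simp only [pos, cnt, List.length_nil, pow_zero, one_mul]
    by_cases h : π a = g
    · simp [h]
    · simp [h]
  | succ n ih =>
    intro y hy a g
    cases y with
    | nil =>
      simp only [pos, cnt, List.length_nil, pow_zero, one_mul]
      by_cases h : π a = g
      · simp [h]
      · simp [h]
    | cons b y =>
      simp only [List.length_cons, Nat.add_le_add_iff_right] at hy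
      have h1 : (Finset.univ.filter (fun c : Ch M (n + 1) => π (pos φ (n + 1) a c (b :: y)) = g)).card
          = (Finset.univ.filter (fun p : Fin M × Ch M n =>
            π (pos φ n (φ b p.1 a) p.2 y) = g)).card * Fintype.card (Fin M × Ch M n) ^ 2 :=
        card_fun1 b (fun p : Fin M × Ch M n => π (pos φ n (φ b p.1 a) p.2 y) = g)
      rw [h1, card_prod_filter (fun l c => π (pos φ n (φ b l a) c y) = g), card_succ, card_pair]
      simp only [cnt, List.length_cons]
      have h2 : M ^ y.length * ∑ l, (Finset.univ.filter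
          (fun c : Ch M n => π (pos φ n (φ b l a) c y) = g)).card =
          (∑ l, cnt π φ (φ b l a) y g) * Fintype.card (Ch M n) := by
        rw [Finset.mul_sum, Finset.sum_mul]
        apply Finset.sum_congr rfl
        intro l _
        exact ih y hy (φ b l a) g
      calc M ^ (y.length + 1) * ((∑ l, (Finset.univ.filter
            (fun c : Ch M n => π (pos φ n (φ b l a) c y) = g)).card) *
            (M * Fintype.card (Ch M n)) ^ 2)
          = M * (M ^ y.length * ∑ l, (Finset.univ.filter
            (fun c : Ch M n => π (pos φ n (φ b l a) c y) = g)).card) *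
            (M * Fintype.card (Ch M n)) ^ 2 := by ring
        _ = _ := by rw [h2]; ring

theorem path_pair (π : X → G) (φ : Fin 3 → Fin M → X → X) (n : ℕ) (y : List (Fin 3))
    (hy : y.length ≤ n) (a : X) (b : Fin 3) (g : G) :
    M ^ (y.length + 1) * (Finset.univ.filter (fun p : Fin M × Ch M n =>
      π (pos φ n (φ b p.1 a) p.2 y) = g)).card =
      cnt π φ a (b :: y) g * Fintype.card (Fin M × Ch M n) := by
  rw [card_prod_filter (fun l c => π (pos φ n (φ b l a) c y) = g), card_pair]
  simp only [cnt]
  have h2 : M ^ y.length * ∑ l, (Finset.univ.filter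
      (fun c : Ch M n => π (pos φ n (φ b l a) c y) = g)).card =
      (∑ l, cnt π φ (φ b l a) y g) * Fintype.card (Ch M n) := by
    rw [Finset.mul_sum, Finset.sum_mul]
    apply Finset.sum_congr rfl
    intro l _
    exact path π φ n y hy (φ b l a) g
  calc M ^ (y.length + 1) * (∑ l, (Finset.univ.filter
        (fun c : Ch M n => π (pos φ n (φ b l a) c y) = g)).card)
      = M * (M ^ y.length * ∑ l, (Finset.univ.filter
        (fun c : Ch M n => π (pos φ n (φ b l a) c y) = g)).card) := by ring
    _ = _ := by rw [h2]; ring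

/-- A collision below the root. -/
def Coll (π : X → G) (φ : Fin 3 → Fin M → X → X) (n : ℕ) (a : X) (c : Ch M n) : Prop :=
  ∃ x y : List (Fin 3), y.length ≤ n ∧ x.length ≤ y.length ∧ y ≠ [] ∧ x.head? ≠ y.head? ∧
    π (pos φ n a c x) = π (pos φ n a c y)

/-- A good choice. -/
def Good (π : X → G) (φ : Fin 3 → Fin M → X → X) : ∀ n, X → Ch M n → Prop
  | 0, _, _ => True
  | n + 1, a, c => ¬ Coll π φ (n + 1) a c ∧ ∃ b₁ b₂ : Fin 3, b₁ ≠ b₂ ∧
      Good π φ n (φ b₁ (c b₁).1 a) (c b₁).2 ∧ Good π φ n (φ b₂ (c b₂).1 a) (c b₂).2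

theorem pair_bound (π : X → G) (φ : Fin 3 → Fin M → X → X) {β : ℕ}
    (hcnt : ∀ a y g, y ≠ [] → cnt π φ a y g ≤ β ^ y.length) (n : ℕ) (a : X)
    (x y : List (Fin 3)) (hy : y.length ≤ n + 1) (hy0 : y ≠ []) (hxy : x.length ≤ y.length)
    (hd : x.head? ≠ y.head?) :
    M ^ y.length * (Finset.univ.filter (fun c : Ch M (n + 1) =>
      π (pos φ (n + 1) a c x) = π (pos φ (n + 1) a c y))).card ≤
      β ^ y.length * Fintype.card (Ch M (n + 1)) := by
  cases x with
  | nil =>
    have h := path π φ (n + 1) y hy a (π a)
    have h1 : (Finset.univ.filter (fun c : Ch M (n + 1) =>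
        π (pos φ (n + 1) a c []) = π (pos φ (n + 1) a c y))) =
        (Finset.univ.filter (fun c : Ch M (n + 1) => π (pos φ (n + 1) a c y) = π a)) := by
      apply Finset.filter_congr
      intro c _
      simp only [pos]
      exact eq_comm
    rw [h1, h]
    exact Nat.mul_le_mul_right _ (hcnt a y _ hy0)
  | cons b' x =>
    cases y with
    | nil => exact absurd rfl hy0
    | cons b y =>
      have hb : b ≠ b' := by
        intro h
        apply hd
        rw [h]; rfl
      simp only [List.length_cons, Nat.add_le_add_iff_right] at hy hxy ⊢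
      rw [card_succ, ← card_pair]
      have h := card_fun2 hb (fun p' p : Fin M × Ch M n =>
        π (pos φ n (φ b' p'.1 a) p'.2 x) = π (pos φ n (φ b p.1 a) p.2 y))
        (N := M ^ (y.length + 1)) (κ := β ^ (y.length + 1) * Fintype.card (Fin M × Ch M n)) (by
          intro p'
          have h1 := path_pair π φ n y hy a b (π (pos φ n (φ b' p'.1 a) p'.2 x))
          have h2 : (Finset.univ.filter (fun p : Fin M × Ch M n =>
              π (pos φ n (φ b' p'.1 a) p'.2 x) = π (pos φ n (φ b p.1 a) p.2 y))) =
              (Finset.univ.filter (fun p : Fin M × Ch M n =>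
              π (pos φ n (φ b p.1 a) p.2 y) = π (pos φ n (φ b' p'.1 a) p'.2 x))) := by
            apply Finset.filter_congr
            intro c _
            exact eq_comm
          rw [h2, h1]
          exact Nat.mul_le_mul_right _ (hcnt a (b :: y) _ (by simp)))
      refine le_trans h (le_of_eq ?_)
      ring

theorem geom_bound (N : ℕ) : ∑ m ∈ Finset.Icc 1 N, ((1:ℝ) / 28) ^ m ≤ 1 / 27 := by
  have h : ∑ m ∈ Finset.Icc 1 N, ((1:ℝ) / 28) ^ m ≤ 1 / 27 * (1 - (1 / 28) ^ N) := by
    induction N with
    | zero => simp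
    | succ k ih =>
      rw [Finset.sum_Icc_succ_top (by omega)]
      refine (add_le_add_left ih _).trans (le_of_eq ?_)
      ring
  refine h.trans ?_
  have : (0:ℝ) ≤ (1 / 28) ^ N := by positivity
  linarith

theorem coll_bound (π : X → G) (φ : Fin 3 → Fin M → X → X) {β : ℕ} (hM0 : 0 < M)
    (hM : 252 * β ≤ M)
    (hcnt : ∀ a y g, y ≠ [] → cnt π φ a y g ≤ β ^ y.length) (n : ℕ) (a : X) :
    12 * (Finset.univ.filter (fun c : Ch M (n + 1) => Coll π φ (n + 1) a c)).card ≤
      Fintype.card (Ch M (n + 1)) := by
  set C := Fintype.card (Ch M (n + 1)) with hC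
  set D : List (Fin 3) → List (Fin 3) → Finset (Ch M (n + 1)) := fun x y =>
    if x.head? ≠ y.head? then Finset.univ.filter (fun c : Ch M (n + 1) =>
      π (pos φ (n + 1) a c x) = π (pos φ (n + 1) a c y)) else ∅ with hD
  have hMr : (0:ℝ) < M := by exact_mod_cast hM0
  have hsub : (Finset.univ.filter (fun c : Ch M (n + 1) => Coll π φ (n + 1) a c)) ⊆
      (Finset.Icc 1 (n + 1)).biUnion fun m => (Finset.univ : Finset (Fin m → Fin 3)).biUnion
        fun y => (Finset.range (m + 1)).biUnion fun j =>
          (Finset.univ : Finset (Fin j → Fin 3)).biUnion fun x =>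
            D (List.ofFn x) (List.ofFn y) := by
    intro c hc
    obtain ⟨x, y, h1, h2, h3, h4, h5⟩ := (Finset.mem_filter.1 hc).2
    simp only [Finset.mem_biUnion, Finset.mem_univ, true_and, Finset.mem_Icc, Finset.mem_range]
    refine ⟨y.length, ⟨List.length_pos_iff.2 h3, h1⟩, y.get, x.length, by omega, x.get, ?_⟩
    rw [List.ofFn_get, List.ofFn_get, hD]
    simp only
    rw [if_pos h4]
    exact Finset.mem_filter.2 ⟨Finset.mem_univ _, h5⟩
  have hDb : ∀ m ∈ Finset.Icc 1 (n + 1), ∀ y : Fin m → Fin 3, ∀ j ∈ Finset.range (m + 1),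
      ∀ x : Fin j → Fin 3, ((D (List.ofFn x) (List.ofFn y)).card : ℝ) ≤ (1 / 252) ^ m * C := by
    intro m hm y j hj x
    rw [Finset.mem_Icc] at hm
    rw [Finset.mem_range] at hj
    rw [hD]
    simp only
    split_ifs with h
    · have h1 := pair_bound π φ hcnt n a (List.ofFn x) (List.ofFn y)
        (by rw [List.length_ofFn]; exact hm.2)
        (by
          intro h0
          have := congrArg List.length h0
          rw [List.length_ofFn] at this
          simp at this
          omega)
        (by rw [List.length_ofFn, List.length_ofFn]; omega) h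
      rw [List.length_ofFn] at h1
      have h2 : (M:ℝ) ^ m * ((Finset.univ.filter (fun c : Ch M (n + 1) =>
          π (pos φ (n + 1) a c (List.ofFn x)) = π (pos φ (n + 1) a c (List.ofFn y)))).card : ℝ) ≤
          (β:ℝ) ^ m * C := by exact_mod_cast h1
      have h3 : (252:ℝ) * β ≤ M := by exact_mod_cast hM
      have h4 : (β:ℝ) ^ m ≤ (M / 252) ^ m := by
        apply pow_le_pow_left₀ (by positivity)
        linarith
      have h5 : ((M:ℝ) / 252) ^ m = M ^ m * (1 / 252) ^ m := by
        rw [← mul_pow]; congr 1; ring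
      rw [h5] at h4
      have h6 : (0:ℝ) < (M:ℝ) ^ m := by positivity
      have h7 : (0:ℝ) ≤ C := by positivity
      have h8 : (M:ℝ) ^ m * ((Finset.univ.filter (fun c : Ch M (n + 1) =>
          π (pos φ (n + 1) a c (List.ofFn x)) = π (pos φ (n + 1) a c (List.ofFn y)))).card : ℝ) ≤
          (M:ℝ) ^ m * ((1 / 252) ^ m * C) := by
        refine h2.trans ?_
        rw [← mul_assoc]
        exact mul_le_mul_of_nonneg_right h4 h7
      exact le_of_mul_le_mul_left h8 h6
    · simp only [Finset.card_empty, Nat.cast_zero]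
      positivity
  have hcard : ((Finset.univ.filter (fun c : Ch M (n + 1) => Coll π φ (n + 1) a c)).card : ℝ) ≤
      ∑ m ∈ Finset.Icc 1 (n + 1), ∑ y : Fin m → Fin 3, ∑ j ∈ Finset.range (m + 1),
        ∑ x : Fin j → Fin 3, ((D (List.ofFn x) (List.ofFn y)).card : ℝ) := by
    have h1 := Finset.card_le_card hsub
    have h2 : (Finset.univ.filter (fun c : Ch M (n + 1) => Coll π φ (n + 1) a c)).card ≤
      ∑ m ∈ Finset.Icc 1 (n + 1), ∑ y : Fin m → Fin 3, ∑ j ∈ Finset.range (m + 1),
        ∑ x : Fin j → Fin 3, (D (List.ofFn x) (List.ofFn y)).card := by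
      refine h1.trans ?_
      refine Finset.card_biUnion_le.trans ?_
      apply Finset.sum_le_sum
      intro m _
      refine Finset.card_biUnion_le.trans ?_
      apply Finset.sum_le_sum
      intro y _
      refine Finset.card_biUnion_le.trans ?_
      apply Finset.sum_le_sum
      intro j _
      exact Finset.card_biUnion_le
    exact_mod_cast h2
  have hsum : ∑ m ∈ Finset.Icc 1 (n + 1), ∑ y : Fin m → Fin 3, ∑ j ∈ Finset.range (m + 1),
        ∑ x : Fin j → Fin 3, ((D (List.ofFn x) (List.ofFn y)).card : ℝ) ≤
      ∑ m ∈ Finset.Icc 1 (n + 1), (3 / 2 : ℝ) * C * (1 / 28) ^ m := by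
    apply Finset.sum_le_sum
    intro m hm
    have h1 : ∀ y : Fin m → Fin 3, ∑ j ∈ Finset.range (m + 1),
        ∑ x : Fin j → Fin 3, ((D (List.ofFn x) (List.ofFn y)).card : ℝ) ≤
        (3 / 2 * 3 ^ m) * ((1 / 252) ^ m * C) := by
      intro y
      have h2 : ∀ j ∈ Finset.range (m + 1), ∑ x : Fin j → Fin 3,
          ((D (List.ofFn x) (List.ofFn y)).card : ℝ) ≤ 3 ^ j * ((1 / 252) ^ m * C) := by
        intro j hj
        refine (Finset.sum_le_sum (fun x _ => hDb m hm y j hj x)).trans (le_of_eq ?_)
        rw [Finset.sum_const, Finset.card_univ, Fintype.card_fun, Fintype.card_fin,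
          Fintype.card_fin, nsmul_eq_mul]
        push_cast
        ring
      refine (Finset.sum_le_sum h2).trans ?_
      rw [← Finset.sum_mul]
      apply mul_le_mul_of_nonneg_right _ (by positivity)
      have h3 : ∑ j ∈ Finset.range (m + 1), (3:ℝ) ^ j = (3 ^ (m + 1) - 1) / (3 - 1) :=
        geom_sum_eq (by norm_num) _
      rw [h3, pow_succ]
      linarith
    refine (Finset.sum_le_sum (fun y _ => h1 y)).trans (le_of_eq ?_)
    rw [Finset.sum_const, Finset.card_univ, Fintype.card_fun, Fintype.card_fin,
      Fintype.card_fin, nsmul_eq_mul]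
    push_cast
    have h4 : ((1:ℝ) / 28) ^ m = 3 ^ m * 3 ^ m * (1 / 252) ^ m := by
      rw [← mul_pow, ← mul_pow]; norm_num
    rw [h4]
    ring
  have h6 : ∑ m ∈ Finset.Icc 1 (n + 1), (3 / 2 : ℝ) * C * (1 / 28) ^ m ≤ C / 12 := by
    rw [← Finset.mul_sum]
    have h7 := geom_bound (n + 1)
    have h8 : (0:ℝ) ≤ 3 / 2 * C := by positivity
    have h9 : (0:ℝ) ≤ C := by positivity
    calc (3 / 2 : ℝ) * C * ∑ m ∈ Finset.Icc 1 (n + 1), ((1:ℝ) / 28) ^ m
        ≤ 3 / 2 * C * (1 / 27) := mul_le_mul_of_nonneg_left h7 h8
      _ ≤ C / 12 := by linarith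
  have h9 : (12:ℝ) * ((Finset.univ.filter
      (fun c : Ch M (n + 1) => Coll π φ (n + 1) a c)).card : ℝ) ≤ C := by
    linarith
  exact_mod_cast h9

theorem both_bound {T : Type} [Fintype T] {b₁ b₂ : Fin 3} (hb : b₁ ≠ b₂) (Q₁ Q₂ : T → Prop)
    (h1 : 6 * (Finset.univ.filter Q₁).card ≤ Fintype.card T)
    (h2 : 6 * (Finset.univ.filter Q₂).card ≤ Fintype.card T) :
    36 * (Finset.univ.filter (fun c : Fin 3 → T => Q₁ (c b₁) ∧ Q₂ (c b₂))).card ≤
      Fintype.card T ^ 3 := by
  have h3 : (Finset.univ.filter (fun c : Fin 3 → T => Q₁ (c b₁) ∧ Q₂ (c b₂))).card =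
      (Finset.univ.filter Q₁).card * (Finset.univ.filter Q₂).card * Fintype.card T := by
    have h4 : Finset.univ.filter (fun c : Fin 3 → T => Q₁ (c b₁) ∧ Q₂ (c b₂)) =
        Fintype.piFinset (fun i => if i = b₁ then Finset.univ.filter Q₁ else
          if i = b₂ then Finset.univ.filter Q₂ else Finset.univ) := by
      ext c
      simp only [Finset.mem_filter, Finset.mem_univ, true_and, Fintype.mem_piFinset]
      constructor
      · intro h i
        split_ifs with hi hi2
        · subst hi; simpa using h.1
        · subst hi2; simpa using h.2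
        · exact Finset.mem_univ _
      · intro h
        have h5 := h b₁
        have h6 := h b₂
        rw [if_pos rfl] at h5
        rw [if_neg hb.symm, if_pos rfl] at h6
        exact ⟨by simpa using h5, by simpa using h6⟩
    rw [h4, Fintype.card_piFinset, Fin.prod_univ_three]
    fin_cases b₁ <;> fin_cases b₂ <;> first
      | exact absurd rfl hb
      | (simp; done)
      | (simp [mul_comm]; done)
      | (simp; ring)
      | (simp; left; ring)
  rw [h3]
  calc 36 * ((Finset.univ.filter Q₁).card * (Finset.univ.filter Q₂).card * Fintype.card T)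
      = (6 * (Finset.univ.filter Q₁).card) * (6 * (Finset.univ.filter Q₂).card) *
        Fintype.card T := by ring
    _ ≤ Fintype.card T * Fintype.card T * Fintype.card T :=
      Nat.mul_le_mul_right _ (Nat.mul_le_mul h1 h2)
    _ = _ := by ring

/-- A choice that is not good. -/
def Bad (π : X → G) (φ : Fin 3 → Fin M → X → X) (n : ℕ) (a : X) (c : Ch M n) : Prop :=
  ¬ Good π φ n a c

/-- Most choices are good. -/
theorem most_good (π : X → G) (φ : Fin 3 → Fin M → X → X) {β : ℕ} (hM0 : 0 < M)
    (hM : 252 * β ≤ M)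
    (hcnt : ∀ a y g, y ≠ [] → cnt π φ a y g ≤ β ^ y.length) : ∀ (n : ℕ) (a : X),
    6 * (Finset.univ.filter (fun c : Ch M n => Bad π φ n a c)).card ≤
      Fintype.card (Ch M n) := by
  intro n
  induction n with
  | zero =>
    intro a
    simp [Good, Bad]
  | succ n ih =>
    intro a
    set W : Fin 3 → (Fin M × Ch M n) → Prop := fun b p => Bad π φ n (φ b p.1 a) p.2 with hW
    have hWc : ∀ b, 6 * (Finset.univ.filter (W b)).card ≤ Fintype.card (Fin M × Ch M n) := by
      intro b
      have h1 : (Finset.univ.filter (W b)).card = ∑ l, (Finset.univ.filter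
          (fun c : Ch M n => Bad π φ n (φ b l a) c)).card :=
        card_prod_filter (fun l c => Bad π φ n (φ b l a) c)
      rw [h1, Finset.mul_sum, card_pair]
      refine (Finset.sum_le_sum (fun l _ => ih (φ b l a))).trans (le_of_eq ?_)
      rw [Finset.sum_const, Finset.card_univ, Fintype.card_fin, smul_eq_mul]
    set B : Fin 3 → Fin 3 → Finset (Ch M (n + 1)) := fun b₁ b₂ =>
      Finset.univ.filter (fun c : Ch M (n + 1) => W b₁ (c b₁) ∧ W b₂ (c b₂)) with hB
    have hBc : ∀ b₁ b₂, b₁ ≠ b₂ → 36 * (B b₁ b₂).card ≤ Fintype.card (Ch M (n + 1)) := by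
      intro b₁ b₂ hb
      rw [card_succ, ← card_pair]
      exact both_bound hb (W b₁) (W b₂) (hWc b₁) (hWc b₂)
    have hsub : (Finset.univ.filter (fun c : Ch M (n + 1) => Bad π φ (n + 1) a c)) ⊆
        (Finset.univ.filter (fun c : Ch M (n + 1) => Coll π φ (n + 1) a c)) ∪
        (B 0 1 ∪ (B 0 2 ∪ B 1 2)) := by
      intro c hc
      have hc2 := (Finset.mem_filter.1 hc).2
      by_cases hcol : Coll π φ (n + 1) a c
      · exact Finset.mem_union_left _ (Finset.mem_filter.2 ⟨Finset.mem_univ _, hcol⟩)
      apply Finset.mem_union_right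
      have h1 : ¬ ∃ b₁ b₂ : Fin 3, b₁ ≠ b₂ ∧
        Good π φ n (φ b₁ (c b₁).1 a) (c b₁).2 ∧ Good π φ n (φ b₂ (c b₂).1 a) (c b₂).2 :=
        fun h => hc2 ⟨hcol, h⟩
      push Not at h1
      by_cases g0 : Good π φ n (φ 0 (c 0).1 a) (c 0).2
      · have e1 := h1 0 1 (by decide) g0
        have e2 := h1 0 2 (by decide) g0
        apply Finset.mem_union_right
        apply Finset.mem_union_right
        exact Finset.mem_filter.2 ⟨Finset.mem_univ _, e1, e2⟩
      · by_cases g1 : Good π φ n (φ 1 (c 1).1 a) (c 1).2
        · have e2 := h1 1 2 (by decide) g1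
          apply Finset.mem_union_right
          apply Finset.mem_union_left
          exact Finset.mem_filter.2 ⟨Finset.mem_univ _, g0, e2⟩
        · apply Finset.mem_union_left
          exact Finset.mem_filter.2 ⟨Finset.mem_univ _, g0, g1⟩
    have h2 := Finset.card_le_card hsub
    have h3 := coll_bound π φ hM0 hM hcnt n a
    have h4 := hBc 0 1 (by decide)
    have h5 := hBc 0 2 (by decide)
    have h6 := hBc 1 2 (by decide)
    have h7 := Finset.card_union_le (Finset.univ.filter
      (fun c : Ch M (n + 1) => Coll π φ (n + 1) a c)) (B 0 1 ∪ (B 0 2 ∪ B 1 2))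
    have h8 := Finset.card_union_le (B 0 1) (B 0 2 ∪ B 1 2)
    have h9 := Finset.card_union_le (B 0 2) (B 1 2)
    omega

theorem card_pos' (hM0 : 0 < M) (n : ℕ) : 0 < Fintype.card (Ch M n) := by
  induction n with
  | zero => rw [card_zero]; exact one_pos
  | succ n ih => rw [card_succ]; positivity

theorem exists_good (π : X → G) (φ : Fin 3 → Fin M → X → X) {β : ℕ} (hM0 : 0 < M)
    (hM : 252 * β ≤ M)
    (hcnt : ∀ a y g, y ≠ [] → cnt π φ a y g ≤ β ^ y.length) (n : ℕ) (a : X) :
    ∃ c : Ch M n, Good π φ n a c := by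
  by_contra hcon
  push Not at hcon
  have h1 := most_good π φ hM0 hM hcnt n a
  have h2 : (Finset.univ.filter (fun c : Ch M n => Bad π φ n a c)) = Finset.univ :=
    Finset.filter_true_of_mem (fun c _ => hcon c)
  rw [h2, Finset.card_univ] at h1
  have h3 := card_pos' hM0 n
  omega

/-- A good choice contains a binary tree. -/
theorem tree_of_good (π : X → G) (φ : Fin 3 → Fin M → X → X) (E : G → G → Prop)
    (hE : ∀ b l a, E (π a) (π (φ b l a))) : ∀ (n : ℕ) (a : X) (c : Ch M n), Good π φ n a c →
    ∃ f : List Bool → G, f [] = π a ∧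
      (∀ x, x.length ≤ n → ∃ x' : List (Fin 3), x'.length = x.length ∧
        f x = π (pos φ n a c x')) ∧
      (∀ x y, x.length ≤ n → y.length ≤ n → f x = f y → x = y) ∧
      (∀ x β, x.length < n → E (f x) (f (x ++ [β]))) := by
  intro n
  induction n with
  | zero =>
    intro a c _
    refine ⟨fun _ => π a, rfl, ?_, ?_, ?_⟩
    · intro x hx
      exact ⟨[], by simp at hx; simp [hx], rfl⟩
    · intro x y hx hy _
      rw [Nat.le_zero, List.length_eq_zero_iff] at hx hy
      rw [hx, hy]
    · intro x β hx
      exact absurd hx (Nat.not_lt_zero _)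
  | succ n ih =>
    rintro a c ⟨hcol, b₁, b₂, hb, g₁, g₂⟩
    set bb : Bool → Fin 3 := fun β => if β then b₁ else b₂ with hbb
    have hbi : ∀ β γ, β ≠ γ → bb β ≠ bb γ := by
      intro β γ h
      cases β <;> cases γ
      · exact absurd rfl h
      · simp only [hbb]; simpa using hb.symm
      · simp only [hbb]; simpa using hb
      · exact absurd rfl h
    have hg : ∀ β, Good π φ n (φ (bb β) (c (bb β)).1 a) (c (bb β)).2 := by
      intro β
      cases β
      · simpa [hbb] using g₂
      · simpa [hbb] using g₁
    choose ff h0 h1 h2 h3 using fun β => ih _ _ (hg β)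
    refine ⟨fun x => match x with
      | [] => π a
      | β :: x => ff β x, rfl, ?_, ?_, ?_⟩
    · intro x hx
      cases x with
      | nil => exact ⟨[], rfl, rfl⟩
      | cons β x =>
        simp only [List.length_cons, Nat.add_le_add_iff_right] at hx
        obtain ⟨x', hx', hf⟩ := h1 β x hx
        exact ⟨bb β :: x', by simp [hx'], hf⟩
    · intro x y hx hy hxy
      cases x with
      | nil =>
        cases y with
        | nil => rfl
        | cons γ y =>
          exfalso
          simp only [List.length_cons, Nat.add_le_add_iff_right] at hy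
          obtain ⟨y', hy', hf⟩ := h1 γ y hy
          apply hcol
          refine ⟨[], bb γ :: y', by simp; omega, by simp, by simp, by simp, ?_⟩
          simp only at hxy
          rw [hf] at hxy
          exact hxy
      | cons β x =>
        cases y with
        | nil =>
          exfalso
          simp only [List.length_cons, Nat.add_le_add_iff_right] at hx
          obtain ⟨x', hx', hf⟩ := h1 β x hx
          apply hcol
          refine ⟨[], bb β :: x', by simp; omega, by simp, by simp, by simp, ?_⟩
          simp only at hxy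
          rw [hf] at hxy
          exact hxy.symm
        | cons γ y =>
          simp only [List.length_cons, Nat.add_le_add_iff_right] at hx hy
          simp only at hxy
          by_cases hβ : β = γ
          · subst hβ
            rw [h2 β x y hx hy hxy]
          · exfalso
            obtain ⟨x', hx', hfx⟩ := h1 β x hx
            obtain ⟨y', hy', hfy⟩ := h1 γ y hy
            have hne := hbi β γ hβ
            rw [hfx, hfy] at hxy
            apply hcol
            rcases le_total x'.length y'.length with hl | hl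
            · refine ⟨bb β :: x', bb γ :: y', by simp; omega, by simpa using hl, by simp,
                by simpa using hne, hxy⟩
            · refine ⟨bb γ :: y', bb β :: x', by simp; omega, by simpa using hl, by simp,
                by simpa using hne.symm, hxy.symm⟩
    · intro x β hx
      cases x with
      | nil =>
        simp only [List.nil_append]
        rw [h0 β]
        exact hE _ _ _
      | cons γ x =>
        simp only [List.length_cons, Nat.add_lt_add_iff_right] at hx
        simp only [List.cons_append]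
        exact h3 γ x β hx

end

end Pool.Agent.Helper160.Supra
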