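import Mathlib
import Pool.Agent.Helper160.SupA
import Pool.Agent.Helper160.SupB

set_option autoImplicit false

namespace Pool.Agent.Helper160.Supra

open Filter Topology Classical
open scoped Pointwise ENNReal

noncomputable section

universe u v

/-- Finite binary trees of all depths give an infinite one. -/
theorem inf_tree {G : Type v} [Group G] (T : Finset G)
    (h : ∀ n : ℕ, ∃ f : List Bool → G,
      (∀ x y, x.length ≤ n → y.length ≤ n → f x = f y → x = y) ∧
      (∀ x β, x.length < n → ∃ s ∈ T, f (x ++ [β]) = s * f x)) :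
    ∃ F : List Bool → G, Function.Injective F ∧ ∀ x β, ∃ s ∈ T, F (x ++ [β]) = s * F x := by
  choose f hf1 hf2 using h
  set g : ℕ → List Bool → G := fun n x => f n x * (f n [])⁻¹ with hg
  have hg2 : ∀ n x β, x.length < n → ∃ s ∈ T, g n (x ++ [β]) = s * g n x := by
    intro n x β hx
    obtain ⟨s, hs, e⟩ := hf2 n x β hx
    exact ⟨s, hs, by rw [hg]; simp only; rw [e, mul_assoc]⟩
  have hmem : ∀ (x : List Bool) (n : ℕ), x.length ≤ n → g n x ∈ T ^ x.length := by
    intro x
    induction x using List.reverseRecOn with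
    | nil =>
      intro n _
      simp [hg]
    | append_singleton x β ih =>
      intro n hn
      rw [List.length_append, List.length_singleton] at hn ⊢
      obtain ⟨s, hs, e⟩ := hg2 n x β (by omega)
      rw [e, pow_succ']
      exact Finset.mul_mem_mul hs (ih n (by omega))
  set U : Ultrafilter ℕ := hyperfilter ℕ with hU
  have hUle : (U : Filter ℕ) ≤ atTop := Nat.hyperfilter_le_atTop
  have hex : ∀ x : List Bool, ∃ v : G, ∀ᶠ n in (U : Filter ℕ), g n x = v := by
    intro x
    have h1 : ⋃ v ∈ ((T ^ x.length : Finset G) : Set G), {n | g n x = v} ∈ U := by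
      have h2 : ∀ᶠ n in (U : Filter ℕ), x.length ≤ n := hUle (eventually_ge_atTop _)
      refine Filter.mem_of_superset h2 ?_
      intro n hn
      simp only [Set.mem_iUnion]
      exact ⟨g n x, hmem x n hn, rfl⟩
    obtain ⟨v, -, hv⟩ := (Ultrafilter.finite_biUnion_mem_iff (Finset.finite_toSet _)).1 h1
    exact ⟨v, hv⟩
  choose F hF using hex
  refine ⟨F, ?_, ?_⟩
  · intro x y hxy
    have h1 : ∀ᶠ n in (U : Filter ℕ), max x.length y.length ≤ n := hUle (eventually_ge_atTop _)
    obtain ⟨n, hn1, hn2, hn3⟩ := (h1.and ((hF x).and (hF y))).exists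
    apply hf1 n x y (le_trans (le_max_left _ _) hn1) (le_trans (le_max_right _ _) hn1)
    have h2 : g n x = g n y := by rw [hn2, hn3, hxy]
    exact mul_right_cancel h2
  · intro x β
    have h1 : ∀ᶠ n in (U : Filter ℕ), x.length + 1 ≤ n := hUle (eventually_ge_atTop _)
    obtain ⟨n, hn1, hn2, hn3⟩ := (h1.and ((hF x).and (hF (x ++ [β])))).exists
    obtain ⟨s, hs, e⟩ := hg2 n x β (by omega)
    exact ⟨s, hs, by rw [← hn2, ← hn3, e]⟩

theorem add_finset {G : Type v} {μ : Set G → ℝ≥0∞}
    (hadd : ∀ B C : Set G, Disjoint B C → μ (B ∪ C) = μ B + μ C) (h0 : μ ∅ = 0)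
    {ι : Type v} (T : Finset ι) (P : ι → Set G)
    (hP : ∀ i ∈ T, ∀ j ∈ T, i ≠ j → Disjoint (P i) (P j)) :
    μ (⋃ i ∈ T, P i) = ∑ i ∈ T, μ (P i) := by
  induction T using Finset.induction_on with
  | empty => simp [h0]
  | insert a s ha ih =>
    rw [Finset.sum_insert ha, Finset.set_biUnion_insert, hadd, ih]
    · intro i hi j hj hij
      exact hP i (Finset.mem_insert_of_mem hi) j (Finset.mem_insert_of_mem hj) hij
    · rw [Set.disjoint_iUnion₂_right]
      intro i hi
      exact hP a (Finset.mem_insert_self _ _) i (Finset.mem_insert_of_mem hi)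
        (fun h => ha (h ▸ hi))

/-- The vertex set of a binary tree carries no normalised invariant measure. -/
theorem no_measure {G : Type v} [Group G] (T : Finset G) (F : List Bool → G)
    (hF : Function.Injective F) (hT : ∀ x β, ∃ s ∈ T, F (x ++ [β]) = s * F x)
    (μ : Set G → ℝ≥0∞) (hadd : ∀ B C : Set G, Disjoint B C → μ (B ∪ C) = μ B + μ C)
    (hinv : ∀ (g : G) (B : Set G), μ ((fun x => g * x) '' B) = μ B) :
    μ (Set.range F) ≠ 1 := by
  intro h1
  have hmono : ∀ B C : Set G, B ⊆ C → μ B ≤ μ C := by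
    intro B C hBC
    have := hadd B (C \ B) Set.disjoint_sdiff_right
    rw [Set.union_sdiff_cancel hBC] at this
    rw [this]
    exact le_self_add
  have h0 : μ ∅ = 0 := by
    have h3 := hadd ∅ ∅ (Set.disjoint_empty _)
    have h4 : μ ∅ ≤ 1 := by rw [← h1]; exact hmono _ _ (Set.empty_subset _)
    rw [Set.union_empty] at h3
    have h5 : μ ∅ ≠ ⊤ := ne_top_of_le_ne_top ENNReal.one_ne_top h4
    have h6 : μ ∅ + 0 = μ ∅ + μ ∅ := by rw [add_zero]; exact h3
    exact ((ENNReal.add_right_inj h5).1 h6).symm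
  have key : ∀ β : Bool, μ (Set.range (fun x => F (x ++ [β]))) = 1 := by
    intro β
    set D : G → Set G := fun s => {y | ∃ x, y = F x ∧ F (x ++ [β]) = s * F x} with hD
    have e1 : Set.range F = ⋃ s ∈ T, D s := by
      ext y
      simp only [Set.mem_range, Set.mem_iUnion, hD, Set.mem_ofPred_eq, exists_prop]
      constructor
      · rintro ⟨x, rfl⟩
        obtain ⟨s, hs, e⟩ := hT x β
        exact ⟨s, hs, x, rfl, e⟩
      · rintro ⟨s, hs, x, rfl, e⟩
        exact ⟨x, rfl⟩
    have e2 : Set.range (fun x => F (x ++ [β])) = ⋃ s ∈ T, (fun x => s * x) '' D s := by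
      ext y
      simp only [Set.mem_range, Set.mem_iUnion, hD, Set.mem_image, Set.mem_ofPred_eq, exists_prop]
      constructor
      · rintro ⟨x, rfl⟩
        obtain ⟨s, hs, e⟩ := hT x β
        exact ⟨s, hs, F x, ⟨x, rfl, e⟩, e.symm⟩
      · rintro ⟨s, hs, z, ⟨x, rfl, e⟩, rfl⟩
        exact ⟨x, e⟩
    have d1 : ∀ i ∈ T, ∀ j ∈ T, i ≠ j → Disjoint (D i) (D j) := by
      intro i _ j _ hij
      rw [Set.disjoint_left]
      rintro y ⟨x, rfl, e⟩ ⟨x', hx', e'⟩
      have := hF hx'
      subst this
      apply hij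
      rw [e] at e'
      exact mul_right_cancel e'
    have d2 : ∀ i ∈ T, ∀ j ∈ T, i ≠ j → Disjoint ((fun x => i * x) '' D i)
        ((fun x => j * x) '' D j) := by
      intro i hi j hj hij
      rw [Set.disjoint_left]
      rintro y ⟨z, ⟨x, rfl, e⟩, rfl⟩ ⟨z', ⟨x', rfl, e'⟩, hzz⟩
      simp only at hzz
      rw [← e, ← e'] at hzz
      have h2 := hF hzz
      have h3 : x' = x := List.append_cancel_right h2
      subst h3
      apply hij
      rw [e] at e'
      exact mul_right_cancel e'
    rw [e2, add_finset hadd h0 T _ d2]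
    rw [Finset.sum_congr rfl (fun s _ => hinv s (D s)), ← add_finset hadd h0 T D d1, ← e1, h1]
  have h2 : Disjoint (Set.range (fun x => F (x ++ [true])))
      (Set.range (fun x => F (x ++ [false]))) := by
    rw [Set.disjoint_left]
    rintro y ⟨x, rfl⟩ ⟨x', hx'⟩
    have h3 := hF hx'
    have h4 := congrArg List.getLast? h3
    simp at h4
  have h3 := hadd _ _ h2
  rw [key true, key false] at h3
  have h4 : μ (Set.range (fun x => F (x ++ [true])) ∪ Set.range (fun x => F (x ++ [false]))) ≤ 1 := by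
    rw [← h1]
    apply hmono
    apply Set.union_subset
    · rintro y ⟨x, rfl⟩; exact ⟨_, rfl⟩
    · rintro y ⟨x, rfl⟩; exact ⟨_, rfl⟩
  rw [h3] at h4
  norm_num at h4

/-! ### Reachable sets -/

section reach

variable {X : Type u} {G : Type v} {M : ℕ}

/-- The points reachable from `a` along the shape `y`. -/
def reach (φ : Fin 3 → Fin M → X → X) : X → List (Fin 3) → Finset X
  | a, [] => {a}
  | a, b :: y => Finset.univ.biUnion fun l => reach φ (φ b l a) y

theorem reach_inj (φ : Fin 3 → Fin M → X → X)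
    (hφ : ∀ b l a l' a', φ b l a = φ b l' a' → l = l' ∧ a = a') :
    ∀ (y : List (Fin 3)) (a a' x : X), x ∈ reach φ a y → x ∈ reach φ a' y → a = a' := by
  intro y
  induction y with
  | nil =>
    intro a a' x h1 h2
    simp only [reach, Finset.mem_singleton] at h1 h2
    rw [← h1, ← h2]
  | cons b y ih =>
    intro a a' x h1 h2
    simp only [reach, Finset.mem_biUnion, Finset.mem_univ, true_and] at h1 h2
    obtain ⟨l, h1⟩ := h1
    obtain ⟨l', h2⟩ := h2
    exact (hφ b l a l' a' (ih _ _ x h1 h2)).2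

theorem cnt_eq (π : X → G) (φ : Fin 3 → Fin M → X → X)
    (hφ : ∀ b l a l' a', φ b l a = φ b l' a' → l = l' ∧ a = a') :
    ∀ (y : List (Fin 3)) (a : X) (g : G),
      cnt π φ a y g = ((reach φ a y).filter (fun x => π x = g)).card := by
  intro y
  induction y with
  | nil =>
    intro a g
    simp only [cnt, reach]
    by_cases h : π a = g
    · simp [h, Finset.filter_singleton]
    · simp [h, Finset.filter_singleton]
  | cons b y ih =>
    intro a g
    simp only [cnt, reach]
    rw [Finset.filter_biUnion, Finset.card_biUnion]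
    · exact Finset.sum_congr rfl (fun l _ => ih _ _)
    · intro l _ l' _ hll
      rw [Function.onFun, Finset.disjoint_left]
      intro x h1 h2
      have := reach_inj φ hφ y _ _ x (Finset.mem_filter.1 h1).1 (Finset.mem_filter.1 h2).1
      exact hll (hφ b l a l' a this).1

end reach

section ext

variable {Γ : Type u} {G : Type v} [Group Γ] [Group G]

theorem reach_mem {A : Set Γ} {M : ℕ} (φ : Fin 3 → Fin M → A → A) (T : Finset Γ)
    (hφ : ∀ b l (a : A), ((φ b l a : A) : Γ) ∈ T * {(a : Γ)}) :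
    ∀ (y : List (Fin 3)) (a x : A), x ∈ reach φ a y → (x : Γ) * (a : Γ)⁻¹ ∈ T ^ y.length := by
  intro y
  induction y with
  | nil =>
    intro a x h
    simp only [reach, Finset.mem_singleton] at h
    subst h
    simp
  | cons b y ih =>
    intro a x h
    simp only [reach, Finset.mem_biUnion, Finset.mem_univ, true_and] at h
    obtain ⟨l, h⟩ := h
    have h1 := ih _ _ h
    have h2 := hφ b l a
    rw [Finset.mem_mul] at h2
    obtain ⟨s, hs, z, hz, e⟩ := h2
    rw [Finset.mem_singleton] at hz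
    subst hz
    rw [List.length_cons, pow_succ]
    have e2 : (x : Γ) * (a : Γ)⁻¹ = ((x : Γ) * ((φ b l a : A) : Γ)⁻¹) * s := by
      rw [← e]; group
    rw [e2]
    exact Finset.mul_mem_mul h1 hs

theorem doubling_iter {A : Set Γ} {S : Finset Γ}
    (h : ∀ F : Finset Γ, (↑F : Set Γ) ⊆ A → 2 * F.card ≤ ((S * F).filter (· ∈ A)).card) :
    ∀ (k : ℕ) (F : Finset Γ), (↑F : Set Γ) ⊆ A →
      2 ^ k * F.card ≤ (((S ^ k) * F).filter (· ∈ A)).card := by
  intro k
  induction k with
  | zero =>
    intro F hF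
    simp only [pow_zero, one_mul]
    rw [Finset.filter_true_of_mem (fun x hx => hF hx)]
  | succ k ih =>
    intro F hF
    have h1 := ih F hF
    set K := ((S ^ k) * F).filter (· ∈ A) with hK
    have hKA : (↑K : Set Γ) ⊆ A := fun x hx => (Finset.mem_filter.1 hx).2
    have h2 := h K hKA
    have h3 : (S * K).filter (· ∈ A) ⊆ ((S ^ (k + 1)) * F).filter (· ∈ A) := by
      apply Finset.filter_subset_filter
      rw [pow_succ', mul_assoc]
      apply Finset.mul_subset_mul_left
      exact Finset.filter_subset _ _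
    have h4 := Finset.card_le_card h3
    calc 2 ^ (k + 1) * F.card = 2 * (2 ^ k * F.card) := by ring
      _ ≤ 2 * K.card := Nat.mul_le_mul_left _ h1
      _ ≤ _ := h2.trans h4

/-- Supramenability. -/
def Supra (G : Type v) [Group G] : Prop :=
  ∀ A : Set G, A.Nonempty → ∃ μ : Set G → ℝ≥0∞,
    (∀ B C : Set G, Disjoint B C → μ (B ∪ C) = μ B + μ C) ∧
    (∀ (g : G) (B : Set G), μ ((fun x => g * x) '' B) = μ B) ∧ μ A = 1

/-- The main theorem. -/
theorem main_ext (π : Γ →* G) (hG : Supra G)
    (hker' : ∀ (T : Finset Γ) (c : ℝ), 1 < c →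
      ∀ᶠ n : ℕ in atTop, ((((T : Set Γ) ^ n ∩ {x | π x = 1}).ncard : ℕ) : ℝ) ≤ c ^ n) :
    Supra Γ := by
  have hker : ∀ (T : Finset Γ) (c : ℝ), 1 < c →
      ∀ᶠ n : ℕ in atTop, (((T ^ n).filter (fun x => π x = 1)).card : ℝ) ≤ c ^ n := by
    intro T c hc
    filter_upwards [hker' T c hc] with n hn
    have e : ((T : Set Γ) ^ n ∩ {x | π x = 1}) = (((T ^ n).filter (fun x => π x = 1) :
        Finset Γ) : Set Γ) := by
      rw [← Finset.coe_pow]
      ext x
      simp only [Set.mem_inter_iff, Finset.mem_coe, Set.mem_ofPred_eq, Finset.mem_filter]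
    rw [e, Set.ncard_coe_finset] at hn
    exact hn
  intro A hA
  by_contra hcon
  have hnd : ¬ NoDoubling A := fun h => hcon (exists_measure h)
  unfold NoDoubling at hnd
  push Not at hnd
  obtain ⟨S, hS⟩ := hnd
  have hS' : ∀ F : Finset Γ, (↑F : Set Γ) ⊆ A → 2 * F.card ≤ ((S * F).filter (· ∈ A)).card := by
    intro F hF
    rcases F.eq_empty_or_nonempty with rfl | hne
    · simp
    · exact hS F hne hF
  have hiter := doubling_iter hS'
  -- choice of the parameters
  set T : Finset Γ := S ∪ S⁻¹ with hT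
  set c : ℝ := (2:ℝ) ^ ((1:ℝ) / 4) with hc
  have hc1 : 1 < c := Real.one_lt_rpow (by norm_num) (by norm_num)
  have hc4 : c ^ 4 = 2 := by
    rw [hc, ← Real.rpow_natCast, ← Real.rpow_mul (by norm_num)]
    norm_num
  obtain ⟨N, hN⟩ := eventually_atTop.1 (hker T c hc1)
  set k' : ℕ := max 10 N with hk'
  set β : ℕ := 2 ^ k' with hβ
  have hβ1 : 1024 ≤ β := by
    calc 1024 = 2 ^ 10 := by norm_num
      _ ≤ 2 ^ k' := Nat.pow_le_pow_right (by norm_num) (le_max_left _ _)
  set M : ℕ := 252 * β with hM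
  set k : ℕ := 2 * k' with hk
  have h3M : 3 * M ≤ 2 ^ k := by
    have : 2 ^ k = β * β := by rw [hk, hβ, ← pow_add]; congr 1; ring
    rw [this, hM]
    nlinarith
  have hM0 : 0 < M := by omega
  -- the maps from the marriage theorem
  obtain ⟨f, hf1, hf2⟩ := (Finset.all_card_le_biUnion_card_iff_exists_injective
    (fun p : A × (Fin 3 × Fin M) => ((S ^ k) * {(p.1 : Γ)}).filter (· ∈ A))).1 (by
      intro s
      set F : Finset Γ := s.image (fun p => (p.1 : Γ)) with hF
      have hFA : (↑F : Set Γ) ⊆ A := by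
        intro x hx
        rw [Finset.mem_coe, hF, Finset.mem_image] at hx
        obtain ⟨p, -, rfl⟩ := hx
        exact p.1.2
      have h1 := hiter k F hFA
      have h2 : s.card ≤ (3 * M) * F.card := by
        apply Finset.card_le_mul_card_image_of_maps_to
          (f := fun p : A × (Fin 3 × Fin M) => (p.1 : Γ)) (s := s) (t := F)
          (fun p hp => by
            rw [hF]
            exact Finset.mem_image_of_mem (fun p : A × (Fin 3 × Fin M) => (p.1 : Γ)) hp)
        intro x _
        have h3 : (Finset.univ : Finset (Fin 3 × Fin M)).card = 3 * M := by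
          rw [Finset.card_univ, Fintype.card_prod, Fintype.card_fin, Fintype.card_fin]
        rw [← h3]
        apply Finset.card_le_card_of_injOn (fun p => p.2) (fun _ _ => Finset.mem_univ _)
        intro p hp q hq hpq
        have hp2 := (Finset.mem_filter.1 hp).2
        have hq2 := (Finset.mem_filter.1 hq).2
        exact Prod.ext (Subtype.ext (hp2.trans hq2.symm)) hpq
      have h3 : ((S ^ k) * F).filter (· ∈ A) ⊆ s.biUnion
          (fun p : A × (Fin 3 × Fin M) => ((S ^ k) * {(p.1 : Γ)}).filter (· ∈ A)) := by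
        intro x hx
        rw [Finset.mem_filter, Finset.mem_mul] at hx
        obtain ⟨⟨u, hu, z, hz, rfl⟩, hxA⟩ := hx
        rw [hF, Finset.mem_image] at hz
        obtain ⟨p, hp, rfl⟩ := hz
        rw [Finset.mem_biUnion]
        exact ⟨p, hp, Finset.mem_filter.2 ⟨Finset.mul_mem_mul hu (Finset.mem_singleton_self _),
          hxA⟩⟩
      calc s.card ≤ (3 * M) * F.card := h2
        _ ≤ 2 ^ k * F.card := Nat.mul_le_mul_right _ h3M
        _ ≤ _ := h1
        _ ≤ _ := Finset.card_le_card h3)
  set φ : Fin 3 → Fin M → A → A := fun b l a => ⟨f (a, (b, l)), (Finset.mem_filter.1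
    (hf2 (a, (b, l)))).2⟩ with hφ
  have hφinj : ∀ b l a l' a', φ b l a = φ b l' a' → l = l' ∧ a = a' := by
    intro b l a l' a' h
    have h1 := hf1 (Subtype.ext_iff.1 h)
    simp only [Prod.mk.injEq, true_and] at h1
    exact ⟨h1.2, h1.1⟩
  have hφmem : ∀ b l (a : A), ((φ b l a : A) : Γ) ∈ (S ^ k) * {(a : Γ)} := fun b l a =>
    (Finset.mem_filter.1 (hf2 (a, (b, l)))).1
  -- fibres
  have hcnt : ∀ (a : A) (y : List (Fin 3)) (g : G), y ≠ [] →
      cnt (fun x : A => π x) φ a y g ≤ β ^ y.length := by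
    intro a y g hy
    rw [cnt_eq _ φ hφinj]
    rcases ((reach φ a y).filter (fun x : A => π (x : Γ) = g)).eq_empty_or_nonempty with
      h0 | ⟨x0, hx0⟩
    · rw [h0]; simp
    have hsub : ∀ j : ℕ, (S ^ j : Finset Γ) ⊆ T ^ j := fun j =>
      Finset.pow_subset_pow_left Finset.subset_union_left
    have hinvT : ∀ j : ℕ, (T ^ j : Finset Γ)⁻¹ = T ^ j := by
      intro j
      rw [← inv_pow]
      congr 1
      rw [hT]
      ext x
      simp only [Finset.mem_inv', Finset.mem_union, inv_inv]
      tauto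
    have hcard : ((reach φ a y).filter (fun x : A => π (x : Γ) = g)).card ≤
        ((T ^ (4 * k' * y.length)).filter (fun x => π x = 1)).card := by
      apply Finset.card_le_card_of_injOn (fun x : A => (x : Γ) * (x0 : Γ)⁻¹)
      · intro x hx
        have hx := Finset.mem_coe.1 hx
        rw [Finset.mem_filter] at hx hx0
        simp only [Finset.coe_filter, Set.mem_ofPred_eq]
        have m1 := reach_mem φ (S ^ k) hφmem y a x hx.1
        have m2 := reach_mem φ (S ^ k) hφmem y a x0 hx0.1
        rw [← pow_mul] at m1 m2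
        have m1' := hsub _ m1
        have m2' : ((x0 : Γ) * (a : Γ)⁻¹)⁻¹ ∈ T ^ (k * y.length) := by
          rw [← hinvT]
          exact Finset.inv_mem_inv (hsub _ m2)
        constructor
        · have e : (x : Γ) * (x0 : Γ)⁻¹ = ((x : Γ) * (a : Γ)⁻¹) * ((x0 : Γ) * (a : Γ)⁻¹)⁻¹ := by
            group
          have e2 : 4 * k' * y.length = k * y.length + k * y.length := by rw [hk]; ring
          rw [e, e2, pow_add]
          exact Finset.mul_mem_mul m1' m2'
        · rw [map_mul, map_inv, hx.2, hx0.2, mul_inv_cancel]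
      · intro x _ x' _ hxx
        exact Subtype.ext (mul_right_cancel hxx)
    have hlen : 1 ≤ y.length := List.length_pos_iff.2 hy
    have hNn : N ≤ 4 * k' * y.length := by
      have : N ≤ k' := le_max_right _ _
      nlinarith
    have h1 := hN _ hNn
    have h2 : c ^ (4 * k' * y.length) = (β : ℝ) ^ y.length := by
      rw [mul_assoc, pow_mul, hc4, hβ]
      push_cast
      rw [pow_mul]
    rw [h2] at h1
    have h3 : ((T ^ (4 * k' * y.length)).filter (fun x => π x = 1)).card ≤ β ^ y.length := by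
      exact_mod_cast h1
    exact hcard.trans h3
  obtain ⟨a, ha⟩ := hA
  have htree : ∀ n : ℕ, ∃ F : List Bool → G,
      (∀ x y, x.length ≤ n → y.length ≤ n → F x = F y → x = y) ∧
      (∀ x b, x.length < n → ∃ s ∈ (S ^ k).image π, F (x ++ [b]) = s * F x) := by
    intro n
    obtain ⟨ch, hch⟩ := exists_good (fun x : A => π x) φ hM0 (le_refl _) hcnt n ⟨a, ha⟩
    obtain ⟨F, -, -, h3, h4⟩ := tree_of_good (fun x : A => π x) φ
      (fun g g' => ∃ s ∈ (S ^ k).image π, g' = s * g) (by
        intro b l x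
        have h5 := hφmem b l x
        rw [Finset.mem_mul] at h5
        obtain ⟨s, hs, z, hz, e⟩ := h5
        rw [Finset.mem_singleton] at hz
        subst hz
        refine ⟨π s, Finset.mem_image_of_mem _ hs, ?_⟩
        rw [← map_mul, e]) n ⟨a, ha⟩ ch hch
    exact ⟨F, h3, h4⟩
  obtain ⟨F, hF1, hF2⟩ := inf_tree _ htree
  obtain ⟨μ, hμ1, hμ2, hμ3⟩ := hG (Set.range F) ⟨F [], [], rfl⟩
  exact no_measure _ F hF1 hF2 μ hμ1 hμ2 hμ3

end ext

theorem main_prod {G : Type u} {H : Type v} [Group G] [Group H] (hG : Supra G)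
    (hH : ∀ (T : Finset H) (c : ℝ), 1 < c →
      ∀ᶠ n : ℕ in atTop, ((((T : Set H) ^ n).ncard : ℕ) : ℝ) ≤ c ^ n) :
    Supra (G × H) := by
  apply main_ext (MonoidHom.fst G H) hG
  intro T c hc
  filter_upwards [hH (T.image Prod.snd) c hc] with n hn
  refine le_trans ?_ hn
  have h1 : (((T : Set (G × H)) ^ n ∩ {x | MonoidHom.fst G H x = 1}).ncard) ≤
      (((T.image Prod.snd : Finset H) : Set H) ^ n).ncard := by
    rw [Finset.coe_image]
    have h2 : (Prod.snd '' (T : Set (G × H))) ^ n = Prod.snd '' ((T : Set (G × H)) ^ n) :=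
      (Set.image_pow (MonoidHom.snd G H) (T : Set (G × H)) n).symm
    rw [h2]
    have ht : (Prod.snd '' ((T : Set (G × H)) ^ n)).Finite := by
      apply Set.Finite.image
      rw [← Finset.coe_pow]
      exact Finset.finite_toSet _
    apply Set.ncard_le_ncard_of_injOn Prod.snd (ht := ht)
    · intro x hx
      exact ⟨x, hx.1, rfl⟩
    · intro x hx y hy hxy
      have h3 := hx.2
      have h4 := hy.2
      exact Prod.ext (h3.trans h4.symm) hxy
  exact_mod_cast h1

end

end Pool.Agent.Helper160.Supra
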