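import Mathlib
import Pool.Agent.Helper160.FlagGroup

set_option autoImplicit false

namespace Pool.Agent.Helper160.WreathAct

open Pool.Agent.Helper160.FlagGroup

section Diff

variable {U : Type} [AddCommGroup U] [Module ℚ U]

/-- Difference operator on sequences. -/
def Dl (U : Type) [AddCommGroup U] [Module ℚ U] : (ℤ → U) →ₗ[ℚ] (ℤ → U) where
  toFun P := fun z => P (z + 1) - P z
  map_add' P Q := by funext z; simp only [Pi.add_apply]; abel
  map_smul' c P := by funext z; simp only [Pi.smul_apply, RingHom.id_apply, smul_sub]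

theorem Dl_apply (P : ℤ → U) (z : ℤ) : Dl U P z = P (z + 1) - P z := rfl

/-- Shift on sequences. -/
def Sh (U : Type) [AddCommGroup U] [Module ℚ U] (r : ℤ) : (ℤ → U) →ₗ[ℚ] (ℤ → U) where
  toFun P := fun z => P (z + r)
  map_add' _ _ := rfl
  map_smul' _ _ := rfl

theorem Sh_apply (r : ℤ) (P : ℤ → U) (z : ℤ) : Sh U r P z = P (z + r) := rfl

theorem Dl_Sh (r : ℤ) (P : ℤ → U) : Dl U (Sh U r P) = Sh U r (Dl U P) := by
  funext z
  simp only [Dl_apply, Sh_apply]
  congr 2; ring

theorem Dlpow_Sh (r : ℤ) (j : ℕ) (P : ℤ → U) : (Dl U ^ j) (Sh U r P) = Sh U r ((Dl U ^ j) P) := by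
  induction j with
  | zero => simp
  | succ j ih => rw [pow_succ', Module.End.mul_apply, Module.End.mul_apply, ih, Dl_Sh]

theorem Dlpow_mem (S : Submodule ℚ U) (j : ℕ) : ∀ (P : ℤ → U), (∀ z, P z ∈ S) →
    ∀ z, (Dl U ^ j) P z ∈ S := by
  induction j with
  | zero => intro P hP z; simpa using hP z
  | succ j ih =>
    intro P hP z
    rw [pow_succ', Module.End.mul_apply, Dl_apply]
    exact S.sub_mem (ih P hP _) (ih P hP _)

theorem Dlpow_smul (g : ℤ → ℚ) (u : U) (k : ℤ) (j : ℕ) :
    (Dl U ^ j) (fun z => g (z - k) • u) = fun z => ((Dl ℚ ^ j) g) (z - k) • u := by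
  induction j with
  | zero => rfl
  | succ j ih =>
    rw [pow_succ', Module.End.mul_apply, ih]
    funext z
    rw [pow_succ', Module.End.mul_apply, Dl_apply, Dl_apply, sub_smul]
    congr 3; ring

theorem Dlpow_cast (f : ℚ → ℚ) (j : ℕ) :
    (Dl ℚ ^ j) (fun z : ℤ => f z) = fun z : ℤ => ((fwdDiff (1 : ℚ))^[j] f) z := by
  induction j with
  | zero => rfl
  | succ j ih =>
    rw [pow_succ', Module.End.mul_apply, ih]
    funext z
    rw [Dl_apply, Function.iterate_succ_apply', fwdDiff]
    push_cast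
    rfl

theorem Dlpow_poly (Q : Polynomial ℚ) (m : ℕ) (hQ : Q.natDegree < m) :
    (Dl ℚ ^ m) (fun z : ℤ => Q.eval (z : ℚ)) = 0 := by
  rw [Dlpow_cast (fun x => Q.eval x) m]
  have h := Polynomial.fwdDiff_iter_eq_zero_of_degree_lt hQ
  funext z
  have h2 := congrFun h (z : ℚ)
  simpa using h2

end Diff

/-- The interpolation polynomial. -/
noncomputable def qP (W : ℕ) : Polynomial ℚ :=
  ∏ k ∈ Finset.range (2 * W), (1 - Polynomial.C (((k : ℚ) + 1)⁻¹ ^ 2) * Polynomial.X ^ 2)

noncomputable def q (W : ℕ) (z : ℤ) : ℚ := (qP W).eval (z : ℚ)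

theorem q_eq (W : ℕ) (z : ℤ) :
    q W z = ∏ k ∈ Finset.range (2 * W), (1 - ((z : ℚ) / (k + 1)) ^ 2) := by
  rw [q, qP, Polynomial.eval_prod]
  refine Finset.prod_congr rfl fun k _ => ?_
  simp only [Polynomial.eval_sub, Polynomial.eval_one, Polynomial.eval_mul, Polynomial.eval_C,
    Polynomial.eval_pow, Polynomial.eval_X]
  ring

theorem q_zero (W : ℕ) : q W 0 = 1 := by
  rw [q_eq]; simp

theorem q_near (W : ℕ) (z : ℤ) (hz : z ≠ 0) (hz2 : |z| ≤ 2 * W) : q W z = 0 := by
  rw [q_eq]
  have hpos : 0 < |z| := abs_pos.mpr hz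
  obtain ⟨n, hn⟩ : ∃ n : ℕ, |z| = (n : ℤ) + 1 := ⟨(|z|).toNat - 1, by omega⟩
  refine Finset.prod_eq_zero (i := n) ?_ ?_
  · rw [Finset.mem_range]; omega
  · have h1 : (n : ℚ) + 1 = |(z : ℚ)| := by
      have h3 : ((|z| : ℤ) : ℚ) = (((n : ℤ) + 1 : ℤ) : ℚ) := by rw [hn]
      rw [Int.cast_abs] at h3
      rw [h3]; push_cast; ring
    rw [h1]
    have h4 : (z : ℚ) ≠ 0 := by exact_mod_cast hz
    rw [div_pow, sq_abs, div_self (pow_ne_zero 2 h4), sub_self]

theorem q_Dl (W : ℕ) : (Dl ℚ ^ (4 * W + 1)) (q W) = 0 := by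
  apply Dlpow_poly (qP W)
  rw [Nat.lt_succ_iff, qP]
  refine (Polynomial.natDegree_prod_le _ _).trans ?_
  have h : ∀ k ∈ Finset.range (2 * W),
      (1 - Polynomial.C (((k : ℚ) + 1)⁻¹ ^ 2) * Polynomial.X ^ 2 : Polynomial ℚ).natDegree ≤ 2 := by
    intro k _
    refine (Polynomial.natDegree_sub_le _ _).trans ?_
    refine max_le (by simp) ?_
    refine (Polynomial.natDegree_C_mul_le _ _).trans ?_
    simp
  refine (Finset.sum_le_sum h).trans ?_
  simp; omega

section Act

variable {N : Type} [Group N] {U : Type} [AddCommGroup U] [Module ℚ U]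
variable (ρ : N →* Module.End ℚ U) (W : ℕ)

/-- The space of polynomial sequences. -/
def V (U : Type) [AddCommGroup U] [Module ℚ U] (W : ℕ) : Submodule ℚ (ℤ → U) :=
  LinearMap.ker (Dl U ^ (4 * W + 1))

/-- The perturbation term. -/
noncomputable def pert (v : ℤ → N) (P : ℤ → U) : ℤ → U := fun z =>
  ∑ k ∈ Finset.Icc (-(W : ℤ)) W, q W (z - k) • (ρ (v k) (P k) - P k)

theorem mem_V {W : ℕ} {P : ℤ → U} : P ∈ V U W ↔ (Dl U ^ (4 * W + 1)) P = 0 :=
  LinearMap.mem_ker

theorem pert_V (v : ℤ → N) (P : ℤ → U) : pert ρ W v P ∈ V U W := by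
  have h1 : pert ρ W v P = ∑ k ∈ Finset.Icc (-(W : ℤ)) W,
      (fun z => q W (z - k) • (ρ (v k) (P k) - P k)) := by
    funext z; simp [pert, Finset.sum_apply]
  rw [V, LinearMap.mem_ker, h1, map_sum]
  refine Finset.sum_eq_zero fun k _ => ?_
  rw [Dlpow_smul, q_Dl]
  funext z; simp

theorem pert_at (v : ℤ → N) (P : ℤ → U) (k : ℤ) (hk : k ∈ Finset.Icc (-(W : ℤ)) W) :
    pert ρ W v P k = ρ (v k) (P k) - P k := by
  rw [pert, Finset.sum_eq_single k]
  · rw [sub_self, q_zero, one_smul]
  · intro b hb hbk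
    rw [q_near, zero_smul]
    · intro h; apply hbk; omega
    · rw [Finset.mem_Icc] at hk hb
      rw [abs_le]; constructor <;> omega
  · intro h; exact absurd hk h

/-- Action of a family on polynomial sequences. -/
noncomputable def Phi : (ℤ → N) →* Module.End ℚ (V U W) where
  toFun v :=
    { toFun := fun P => P + ⟨pert ρ W v P, pert_V ρ W v P⟩
      map_add' := by
        intro P Q
        apply Subtype.ext
        funext z
        have : pert ρ W v ((P : ℤ → U) + (Q : ℤ → U)) z = pert ρ W v P z + pert ρ W v Q z := by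
          simp only [pert, Pi.add_apply, map_add]
          rw [← Finset.sum_add_distrib]
          refine Finset.sum_congr rfl fun k _ => ?_
          rw [← smul_add]; congr 1; abel
        simp only [Submodule.coe_add, Pi.add_apply, this]
        abel
      map_smul' := by
        intro c P
        apply Subtype.ext
        funext z
        have : pert ρ W v (c • (P : ℤ → U)) z = c • pert ρ W v P z := by
          simp only [pert, Pi.smul_apply, map_smul, Finset.smul_sum]
          refine Finset.sum_congr rfl fun k _ => ?_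
          rw [← smul_sub, smul_comm]
        simp only [Submodule.coe_add, Pi.add_apply, this, Submodule.coe_smul, Pi.smul_apply,
          RingHom.id_apply, smul_add] }
  map_one' := by
    apply LinearMap.ext
    intro P
    apply Subtype.ext
    funext z
    simp [pert]
  map_mul' := by
    intro v w
    apply LinearMap.ext
    intro P
    apply Subtype.ext
    funext z
    simp only [Module.End.mul_apply, LinearMap.coe_mk, AddHom.coe_mk, Submodule.coe_add,
      Pi.add_apply]
    rw [add_assoc]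
    congr 1
    have h1 : ∀ k ∈ Finset.Icc (-(W : ℤ)) W,
        ((P : ℤ → U) + pert ρ W w P) k = ρ (w k) ((P : ℤ → U) k) := by
      intro k hk
      rw [Pi.add_apply]
      rw [pert_at ρ W w P k hk]; abel
    rw [pert, pert, pert, ← Finset.sum_add_distrib]
    refine Finset.sum_congr rfl fun k hk => ?_
    rw [h1 k hk, ← smul_add]
    congr 1
    rw [Pi.mul_apply, map_mul, Module.End.mul_apply]
    abel

/-- Shift action on polynomial sequences. -/
def Tau : Multiplicative ℤ →* Module.End ℚ (V U W) where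
  toFun r :=
    { toFun := fun P => ⟨Sh U (Multiplicative.toAdd r) P, by
        rw [mem_V, Dlpow_Sh, mem_V.mp P.2]; rfl⟩
      map_add' := fun P Q => rfl
      map_smul' := fun c P => rfl }
  map_one' := by
    apply LinearMap.ext
    intro P
    apply Subtype.ext
    funext z
    simp [Sh_apply]
  map_mul' := by
    intro r s
    apply LinearMap.ext
    intro P
    apply Subtype.ext
    funext z
    change (P : ℤ → U) (z + (Multiplicative.toAdd r + Multiplicative.toAdd s))
      = (P : ℤ → U) (z + Multiplicative.toAdd r + Multiplicative.toAdd s)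
    congr 1; ring

/-- Turn a monoid homomorphism from a group to endomorphisms into one to automorphisms. -/
def toAut {G : Type} [Group G] {X : Type} [AddCommGroup X] [Module ℚ X]
    (f : G →* Module.End ℚ X) : G →* (X ≃ₗ[ℚ] X) :=
  (LinearMap.GeneralLinearGroup.generalLinearEquiv ℚ X).toMonoidHom.comp (MonoidHom.toHomUnits f)

theorem toAut_apply {G : Type} [Group G] {X : Type} [AddCommGroup X] [Module ℚ X]
    (f : G →* Module.End ℚ X) (g : G) (x : X) : toAut f g x = f g x := rfl

theorem toAut_symm {G : Type} [Group G] {X : Type} [AddCommGroup X] [Module ℚ X]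
    (f : G →* Module.End ℚ X) (g : G) (x : X) : (toAut f g).symm x = f g⁻¹ x := by
  have h : (toAut f g).symm = toAut f g⁻¹ := by
    rw [map_inv]; rfl
  rw [h, toAut_apply]

theorem Phi_apply (v : ℤ → N) (P : V U W) (z : ℤ) :
    ((Phi ρ W v P : V U W) : ℤ → U) z = (P : ℤ → U) z + pert ρ W v P z := rfl

theorem Tau_apply (r : Multiplicative ℤ) (P : V U W) (z : ℤ) :
    ((Tau W r P : V U W) : ℤ → U) z = (P : ℤ → U) (z + Multiplicative.toAdd r) := rfl

/-- The flag on polynomial sequences. -/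
def C (D : ℕ → Submodule ℚ U) (n : ℕ) : Submodule ℚ (V U W) where
  carrier := {P | ∀ i j z, j < 4 * W + 1 → i * (4 * W + 1) + (4 * W - j) < n →
    (Dl U ^ j) (P : ℤ → U) z ∈ D (i + 1)}
  add_mem' := by
    intro P Q hP hQ i j z hj hn
    rw [Submodule.coe_add, map_add]
    exact (D (i + 1)).add_mem (hP i j z hj hn) (hQ i j z hj hn)
  zero_mem' := by
    intro i j z _ _
    rw [Submodule.coe_zero, map_zero]
    exact (D (i + 1)).zero_mem
  smul_mem' := by
    intro c P hP i j z hj hn
    rw [Submodule.coe_smul, map_smul]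
    exact (D (i + 1)).smul_mem c (hP i j z hj hn)

variable (D : ℕ → Submodule ℚ U)

theorem C_anti : Antitone (C W D) := by
  intro a b hab P hP i j z hj hn
  exact hP i j z hj (lt_of_lt_of_le hn hab)

theorem C_zero : C W D 0 = ⊤ := by
  rw [eq_top_iff]
  intro P _ i j z _ hn
  exact absurd hn (Nat.not_lt_zero _)

theorem C_last {d : ℕ} (hD : Antitone D) (hd : D d = ⊥) :
    C W D ((d + 1) * (4 * W + 1)) = ⊥ := by
  rw [eq_bot_iff]
  intro P hP
  rw [Submodule.mem_bot]
  apply Subtype.ext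
  funext z
  have h0 : (d + 1) * (4 * W + 1) = d * (4 * W + 1) + (4 * W + 1) := by ring
  have h1 := hP d 0 z (by omega) (by omega)
  have h2 : D (d + 1) ≤ D d := hD (Nat.le_succ d)
  have h3 := h2 h1
  rw [hd, Submodule.mem_bot] at h3
  simpa using h3

theorem C_val {n : ℕ} {P : V U W} (hD0 : D 0 = ⊤) (hP : P ∈ C W D n) (z : ℤ) :
    (P : ℤ → U) z ∈ D (n / (4 * W + 1)) := by
  rcases h : n / (4 * W + 1) with _ | i
  · rw [hD0]; trivial
  · have h1 := hP i 0 z (by omega) (by
      have h2 : (i + 1) * (4 * W + 1) ≤ n := by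
        rw [← h]; exact Nat.div_mul_le_self n _
      rw [Nat.succ_mul] at h2
      omega)
    simpa using h1

theorem Tau_one_mem : toAut (Tau (U := U) W) (Multiplicative.ofAdd 1)
    ∈ flagGroup (C W D) (C_anti W D) := by
  have key : ∀ n, ∀ P ∈ C W D n, ∀ s : ℤ, ∀ i j z, j < 4 * W + 1 →
      i * (4 * W + 1) + (4 * W - j) < n + 1 →
      (Dl U ^ j) (Sh U s (Dl U (P : ℤ → U))) z ∈ D (i + 1) := by
    intro n P hP s i j z hj hn
    rw [Dlpow_Sh, Sh_apply]
    have e1 : (Dl U ^ j) (Dl U (P : ℤ → U)) = (Dl U ^ (j + 1)) (P : ℤ → U) := by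
      rw [pow_succ, Module.End.mul_apply]
    rw [e1]
    by_cases hj2 : j + 1 < 4 * W + 1
    · exact hP i (j + 1) _ hj2 (by omega)
    · have : j + 1 = 4 * W + 1 := by omega
      rw [this]
      rw [mem_V.mp P.2]; exact (D (i + 1)).zero_mem
  intro n P hP
  constructor
  · intro i j z hj hn
    have e : ((toAut (Tau (U := U) W) (Multiplicative.ofAdd 1) P - P : V U W) : ℤ → U)
        = Sh U 0 (Dl U (P : ℤ → U)) := by
      funext z
      rw [Submodule.coe_sub, Pi.sub_apply, toAut_apply, Tau_apply, Sh_apply, Dl_apply]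
      simp
    rw [e]
    exact key n P hP 0 i j z hj hn
  · intro i j z hj hn
    have e : (((toAut (Tau (U := U) W) (Multiplicative.ofAdd 1)).symm P - P : V U W) : ℤ → U)
        = - Sh U (-1) (Dl U (P : ℤ → U)) := by
      funext z
      rw [Submodule.coe_sub, Pi.sub_apply, toAut_symm, Tau_apply, Pi.neg_apply, Sh_apply, Dl_apply]
      simp
    rw [e, map_neg, Pi.neg_apply]
    exact (D (i + 1)).neg_mem (key n P hP (-1) i j z hj hn)

theorem Tau_mem (r : Multiplicative ℤ) : toAut (Tau (U := U) W) r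
    ∈ flagGroup (C W D) (C_anti W D) := by
  have h : r = (Multiplicative.ofAdd (1 : ℤ)) ^ (Multiplicative.toAdd r) := by
    rw [← ofAdd_zsmul]; simp
  rw [h, map_zpow]
  exact Subgroup.zpow_mem _ (Tau_one_mem W D) _

theorem Phi_mem (hD : Antitone D) (hD0 : D 0 = ⊤)
    (hρ : ∀ g i, ∀ x ∈ D i, ρ g x - x ∈ D (i + 1)) (v : ℤ → N) :
    toAut (Phi ρ W) v ∈ flagGroup (C W D) (C_anti W D) := by
  have key : ∀ n, ∀ P ∈ C W D n, ∀ v : ℤ → N, ∀ i j z, j < 4 * W + 1 →
      i * (4 * W + 1) + (4 * W - j) < n + 1 →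
      (Dl U ^ j) (pert ρ W v (P : ℤ → U)) z ∈ D (i + 1) := by
    intro n P hP v i j z hj hn
    apply Dlpow_mem
    intro z
    have hi : i ≤ n / (4 * W + 1) := by
      rw [Nat.le_div_iff_mul_le (by omega)]; omega
    have h1 : D (n / (4 * W + 1) + 1) ≤ D (i + 1) := hD (by omega)
    apply h1
    rw [pert]
    refine Submodule.sum_mem _ fun k _ => Submodule.smul_mem _ _ (hρ _ _ _ ?_)
    exact C_val W D hD0 hP k
  intro n P hP
  constructor
  · intro i j z hj hn
    have e : ((toAut (Phi ρ W) v P - P : V U W) : ℤ → U) = pert ρ W v (P : ℤ → U) := by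
      funext z
      rw [Submodule.coe_sub, Pi.sub_apply, toAut_apply, Phi_apply]
      abel
    rw [e]
    exact key n P hP v i j z hj hn
  · intro i j z hj hn
    have e : (((toAut (Phi ρ W) v).symm P - P : V U W) : ℤ → U) = pert ρ W v⁻¹ (P : ℤ → U) := by
      funext z
      rw [Submodule.coe_sub, Pi.sub_apply, toAut_symm, Phi_apply]
      abel
    rw [e]
    exact key n P hP v⁻¹ i j z hj hn

/-- The commutation of shift and action holds for large windows. -/
theorem conj_eventually (v : ℤ → N) (S : Finset ℤ) (hS : ∀ k, k ∉ S → v k = 1) (r : ℤ)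
    (hW1 : ∀ k ∈ S, k ∈ Finset.Icc (-(W : ℤ)) W) (hW2 : ∀ k ∈ S, k - r ∈ Finset.Icc (-(W : ℤ)) W) :
    toAut (Phi ρ W) (fun i => v (i + r)) * toAut (Tau (U := U) W) (Multiplicative.ofAdd r)
      = toAut (Tau (U := U) W) (Multiplicative.ofAdd r) * toAut (Phi ρ W) v := by
  apply LinearEquiv.ext
  intro P
  apply Subtype.ext
  funext z
  have e1 : ((toAut (Phi ρ W) (fun i => v (i + r)) * toAut (Tau (U := U) W) (Multiplicative.ofAdd r)) P)
      = Phi ρ W (fun i => v (i + r)) (Tau W (Multiplicative.ofAdd r) P) := rfl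
  have e2 : ((toAut (Tau (U := U) W) (Multiplicative.ofAdd r) * toAut (Phi ρ W) v) P)
      = Tau W (Multiplicative.ofAdd r) (Phi ρ W v P) := rfl
  rw [e1, e2, Phi_apply, Tau_apply, Tau_apply, Phi_apply, toAdd_ofAdd]
  congr 1
  rw [pert, pert]
  obtain ⟨f, hf⟩ : ∃ f : ℤ → U, f = fun k => q W (z + r - k) • (ρ (v k) ((P : ℤ → U) k) - (P : ℤ → U) k) :=
    ⟨_, rfl⟩
  have hf0 : ∀ k, k ∉ S → f k = 0 := by
    intro k hk
    rw [hf]; simp [hS k hk]
  have h1 : ∑ k ∈ Finset.Icc (-(W : ℤ)) W,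
      q W (z - k) • (ρ (v (k + r)) (((Tau W (Multiplicative.ofAdd r) P : V U W) : ℤ → U) k)
        - ((Tau W (Multiplicative.ofAdd r) P : V U W) : ℤ → U) k)
      = ∑ k ∈ Finset.Icc (-(W : ℤ) + r) (W + r), f k := by
    refine Finset.sum_nbij' (fun k => k + r) (fun k => k - r) ?_ ?_ ?_ ?_ ?_
    · intro k hk; rw [Finset.mem_Icc] at *; constructor <;> omega
    · intro k hk; rw [Finset.mem_Icc] at *; constructor <;> omega
    · intro k _; ring
    · intro k _; ring
    · intro k _
      rw [Tau_apply, toAdd_ofAdd, hf]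
      simp only
      congr 2; ring
  have h2 : ∑ k ∈ Finset.Icc (-(W : ℤ) + r) (W + r), f k = ∑ k ∈ S, f k := by
    symm
    apply Finset.sum_subset
    · intro k hk
      have := hW2 k hk
      rw [Finset.mem_Icc] at *; constructor <;> omega
    · intro k _ hk; exact hf0 k hk
  have h3 : ∑ k ∈ Finset.Icc (-(W : ℤ)) W, f k = ∑ k ∈ S, f k := by
    symm
    apply Finset.sum_subset
    · intro k hk; exact hW1 k hk
    · intro k _ hk; exact hf0 k hk
  rw [h1, h2, ← h3, hf]

/-- Constant sequences. -/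
def cst (u : U) : V U W := ⟨fun _ => u, by
  rw [mem_V, pow_succ, Module.End.mul_apply]
  have : Dl U (fun _ => u) = 0 := by funext z; simp [Dl_apply]
  rw [this, map_zero]⟩

theorem Phi_detect (v : ℤ → N) (k : ℤ) (hk : k ∈ Finset.Icc (-(W : ℤ)) W) (u : U)
    (h : toAut (Phi ρ W) v = 1) : ρ (v k) u = u := by
  have h1 : toAut (Phi ρ W) v (cst W u) = cst W u := by rw [h]; rfl
  have h2 := congrArg (fun P : V U W => (P : ℤ → U) k) h1
  simp only [toAut_apply] at h2
  rw [Phi_apply, pert_at ρ W v _ k hk] at h2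
  have h3 : ((cst W u : V U W) : ℤ → U) k = u := rfl
  rw [h3] at h2
  have h4 : u + (ρ (v k) u - u) = ρ (v k) u := by abel
  rw [h4] at h2
  exact h2

end Act

end Pool.Agent.Helper160.WreathAct
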