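import Mathlib
import Pool.Agent.Helper160.FlagGroup
import Pool.Agent.Helper160.PolSep
import Pool.Agent.Helper160.NilpFG
import Pool.Agent.Helper160.WreathAct

set_option autoImplicit false

namespace Pool.Agent.Helper160.Wreath

open Pool.Agent.Helper160.FlagGroup
open Pool.Agent.Helper160.PolSep
open Pool.Agent.Helper160.NilpFG
open Pool.Agent.Helper160.WreathAct

/-- Unipotent representation detecting a given element. -/
theorem exists_rep {N : Type} [Group N] (hR : R (⊤ : Subgroup N)) (g : N) (hg : g ≠ 1) :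
    ∃ (U : Type) (_ : AddCommGroup U) (_ : Module ℚ U) (ρ : N →* Module.End ℚ U)
      (D : ℕ → Submodule ℚ U) (d : ℕ), Antitone D ∧ D 0 = ⊤ ∧ D d = ⊥ ∧
      (∀ g i, ∀ x ∈ D i, ρ g x - x ∈ D (i + 1)) ∧ ∃ u, ρ g u ≠ u := by
  obtain ⟨d, F, hF, hFg⟩ := hR g (Subgroup.mem_top g) hg
  let ρ : N →* Module.End ℚ (Pol (⊤ : Subgroup N) d) :=
    { toFun := fun h => (T h⁻¹).restrict (fun F hF => Pol_stable ⊤ d hF h⁻¹)
      map_one' := by
        apply LinearMap.ext
        intro x
        apply Subtype.ext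
        rw [LinearMap.coe_restrict_apply, inv_one, T_one]; rfl
      map_mul' := by
        intro a b
        apply LinearMap.ext
        intro x
        apply Subtype.ext
        rw [LinearMap.coe_restrict_apply, Module.End.mul_apply, LinearMap.coe_restrict_apply,
          LinearMap.coe_restrict_apply, T_T, mul_inv_rev] }
  have hρ : ∀ (h : N) (x : Pol (⊤ : Subgroup N) d), ((ρ h x : Pol (⊤ : Subgroup N) d) : N → ℚ)
      = T h⁻¹ (x : N → ℚ) := fun h x => rfl
  refine ⟨Pol (⊤ : Subgroup N) d, inferInstance, inferInstance, ρ,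
    fun i => (Pol (⊤ : Subgroup N) (d - i)).comap (Pol (⊤ : Subgroup N) d).subtype, d, ?_, ?_, ?_,
    ?_, ⟨F, hF⟩, ?_⟩
  · intro a b hab
    apply Submodule.comap_mono
    exact Pol_mono ⊤ (by omega)
  · rw [eq_top_iff]
    intro x _
    rw [Submodule.mem_comap, Nat.sub_zero]
    exact x.2
  · rw [eq_bot_iff]
    intro x hx
    rw [Submodule.mem_comap, Nat.sub_self, mem_Pol_zero] at hx
    rw [Submodule.mem_bot]
    apply Subtype.ext
    exact hx
  · intro h i x hx
    rw [Submodule.mem_comap] at hx ⊢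
    have e : (Pol (⊤ : Subgroup N) d).subtype (ρ h x - x) = T h⁻¹ (x : N → ℚ) - (x : N → ℚ) := by
      rw [map_sub]; rfl
    rw [e]
    have hx' : (x : N → ℚ) ∈ Pol (⊤ : Subgroup N) (d - i) := hx
    rcases Nat.eq_zero_or_pos (d - i) with h0 | hpos
    · rw [h0, mem_Pol_zero] at hx'
      rw [hx', map_zero, sub_zero]; exact Submodule.zero_mem _
    · have e2 : d - i = (d - (i + 1)) + 1 := by omega
      rw [e2, mem_Pol_succ] at hx'
      exact hx' _ (Subgroup.mem_top _)
  · intro h
    apply hFg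
    have h1 := congrArg (fun P : Pol (⊤ : Subgroup N) d => (P : N → ℚ) g) h
    simp only [hρ, T_apply] at h1
    rw [inv_mul_cancel] at h1
    exact h1.symm

/-- The shift automorphism. -/
abbrev shE (G : Type) [Group G] : (ℤ → G) ≃* (ℤ → G) :=
  { toFun := fun (x : ℤ → G) (i : ℤ) => x (i + 1),
    invFun := fun (x : ℤ → G) (i : ℤ) => x (i - 1),
    left_inv := fun (x : ℤ → G) => funext fun (i : ℤ) => congrArg x (sub_add_cancel i 1),
    right_inv := fun (x : ℤ → G) => funext fun (i : ℤ) => congrArg x (add_sub_cancel_right i 1),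
    map_mul' := fun (x y : ℤ → G) => rfl }

/-- The full wreath product by the integers. -/
abbrev Wr (G : Type) [Group G] : Type :=
  SemidirectProduct (ℤ → G) (Multiplicative ℤ) (zpowersHom (MulAut (ℤ → G)) (shE G))

section Basic

variable {G : Type} [Group G]

theorem sh_nat (n : ℕ) (x : ℤ → G) (i : ℤ) : ((shE G : MulAut (ℤ → G)) ^ n) x i = x (i + n) := by
  induction n generalizing i with
  | zero => simp
  | succ n ih =>
    rw [pow_succ']
    change ((shE G : MulAut (ℤ → G)) ^ n) x (i + 1) = _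
    rw [ih]
    congr 1; push_cast; ring

theorem sh_zpow (r : ℤ) (x : ℤ → G) (i : ℤ) :
    ((shE G : MulAut (ℤ → G)) ^ r) x i = x (i + r) := by
  rcases r.eq_nat_or_neg with ⟨n, rfl | rfl⟩
  · rw [zpow_natCast, sh_nat]
  · have h1 : ((shE G : MulAut (ℤ → G)) ^ (n : ℤ))
        (((shE G : MulAut (ℤ → G)) ^ (-(n : ℤ))) x) (i + -(n : ℤ)) = x (i + -(n : ℤ)) := by
      rw [← MulAut.mul_apply, ← zpow_add, add_neg_cancel, zpow_zero]; rfl
    rw [zpow_natCast, sh_nat] at h1
    rw [← h1]
    congr 1; ring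

theorem sh_apply (r : Multiplicative ℤ) (x : ℤ → G) (i : ℤ) :
    (zpowersHom (MulAut (ℤ → G)) (shE G) r) x i = x (i + Multiplicative.toAdd r) := by
  rw [zpowersHom_apply, sh_zpow]

theorem mul_left' (a b : Wr G) (i : ℤ) :
    (a * b).left i = a.left i * b.left (i + Multiplicative.toAdd a.right) := by
  rw [SemidirectProduct.mul_left, Pi.mul_apply, sh_apply]

theorem inv_left' (a : Wr G) (i : ℤ) :
    (a⁻¹).left i = (a.left (i - Multiplicative.toAdd a.right))⁻¹ := by
  rw [SemidirectProduct.inv_left, sh_apply, toAdd_inv, Pi.inv_apply]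
  rfl

/-- Elements of finite support. -/
def FS (G : Type) [Group G] : Subgroup (Wr G) where
  carrier := {a | {k | a.left k ≠ 1}.Finite}
  one_mem' := by
    have : {k : ℤ | (1 : Wr G).left k ≠ 1} = ∅ := by
      ext k; simp
    simp [this]
  mul_mem' := by
    intro a b ha hb
    have h1 : {k | (a * b).left k ≠ 1} ⊆ {k | a.left k ≠ 1} ∪
        (fun k => k - Multiplicative.toAdd a.right) '' {k | b.left k ≠ 1} := by
      intro k hk
      by_contra hcon
      apply hk
      rw [Set.mem_union, not_or] at hcon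
      have h2 : a.left k = 1 := by
        by_contra h; exact hcon.1 h
      have h3 : b.left (k + Multiplicative.toAdd a.right) = 1 := by
        by_contra h; exact hcon.2 ⟨_, h, by ring⟩
      rw [mul_left', h2, h3, one_mul]
    exact (ha.union (hb.image _)).subset h1
  inv_mem' := by
    intro a ha
    have h1 : {k | (a⁻¹).left k ≠ 1} ⊆
        (fun k => k + Multiplicative.toAdd a.right) '' {k | a.left k ≠ 1} := by
      intro k hk
      refine ⟨k - Multiplicative.toAdd a.right, ?_, by ring⟩
      intro h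
      apply hk
      rw [inv_left', h, inv_one]
    exact (ha.image _).subset h1

theorem mem_FS {a : Wr G} : a ∈ FS G ↔ {k | a.left k ≠ 1}.Finite := Iff.rfl

theorem eq_one_iff (a : Wr G) : a = 1 ↔ (∀ k, a.left k = 1) ∧ a.right = 1 := by
  constructor
  · intro h; rw [h]; exact ⟨fun _ => rfl, rfl⟩
  · rintro ⟨h1, h2⟩
    apply SemidirectProduct.ext
    · funext k; exact h1 k
    · exact h2

end Basic

/-- Functoriality of the wreath product. -/
def wmap {G H : Type} [Group G] [Group H] (θ : G →* H) : Wr G →* Wr H where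
  toFun a := ⟨fun k => θ (a.left k), a.right⟩
  map_one' := by
    rw [eq_one_iff]
    exact ⟨fun k => by simp, rfl⟩
  map_mul' := by
    intro a b
    apply SemidirectProduct.ext
    · funext k
      rw [mul_left']
      simp only
      rw [mul_left', map_mul]
    · rfl

theorem wmap_left {G H : Type} [Group G] [Group H] (θ : G →* H) (a : Wr G) (k : ℤ) :
    (wmap θ a).left k = θ (a.left k) := rfl

theorem wmap_right {G H : Type} [Group G] [Group H] (θ : G →* H) (a : Wr G) :
    (wmap θ a).right = a.right := rfl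

/-- The quasi-identity holds in all torsion-free nilpotent groups. -/
def QI (n : ℕ) (ps : List (FreeGroup (Fin n))) (w : FreeGroup (Fin n)) : Prop :=
  ∀ (N : Type) [Group N], Group.IsNilpotent N →
    (∀ g : N, g ≠ 1 → ∀ k : ℕ, 0 < k → g ^ k ≠ 1) →
    ∀ f : FreeGroup (Fin n) →* N, (∀ p ∈ ps, f p = 1) → f w = 1

theorem QI_int {n : ℕ} {ps : List (FreeGroup (Fin n))} {w : FreeGroup (Fin n)} (h : QI n ps w)
    (f : FreeGroup (Fin n) →* Multiplicative ℤ) (hf : ∀ p ∈ ps, f p = 1) : f w = 1 := by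
  refine h (Multiplicative ℤ) inferInstance ?_ f hf
  intro g hg k hk hgk
  apply hg
  have h1 : k • Multiplicative.toAdd g = 0 := by
    rw [← toAdd_pow, hgk]; rfl
  have h2 : Multiplicative.toAdd g = 0 := by
    rcases smul_eq_zero.mp h1 with h3 | h3
    · omega
    · exact h3
  exact h2

section Main

open Filter

variable {N : Type} [Group N] {U : Type} [AddCommGroup U] [Module ℚ U]

/-- The image of a wreath element in the automorphism group. -/
noncomputable def BW (ρ : N →* Module.End ℚ U) (W : ℕ) (a : Wr N) : V U W ≃ₗ[ℚ] V U W :=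
  toAut (Phi ρ W) a.left * toAut (Tau (U := U) W) a.right

theorem BW_one (ρ : N →* Module.End ℚ U) (W : ℕ) : BW ρ W (1 : Wr N) = 1 := by
  rw [BW, SemidirectProduct.one_left, SemidirectProduct.one_right, map_one, map_one, one_mul]

theorem BW_mul (ρ : N →* Module.End ℚ U) (a b : Wr N) (hb : b ∈ FS N) :
    ∀ᶠ W in atTop, BW ρ W a * BW ρ W b = BW ρ W (a * b) := by
  have hS := hb
  rw [mem_FS] at hS
  obtain ⟨M, hM⟩ : ∃ M : ℕ, ∀ k ∈ hS.toFinset, |k| ≤ M := by
    refine ⟨hS.toFinset.sup (fun k => k.natAbs), fun k hk => ?_⟩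
    have := Finset.le_sup (f := fun k : ℤ => k.natAbs) hk
    have h2 : |k| = (k.natAbs : ℤ) := Int.abs_eq_natAbs k
    rw [h2]; exact_mod_cast this
  filter_upwards [eventually_ge_atTop (M + (Multiplicative.toAdd a.right).natAbs)] with W hW
  have h1 := conj_eventually ρ W b.left hS.toFinset (by
      intro k hk
      rw [Set.Finite.mem_toFinset] at hk
      by_contra h
      exact hk h) (Multiplicative.toAdd a.right) (by
      intro k hk
      have := hM k hk
      rw [abs_le] at this
      rw [Finset.mem_Icc]; constructor <;> omega) (by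
      intro k hk
      have := hM k hk
      rw [abs_le] at this
      rw [Finset.mem_Icc]; constructor <;> omega)
  have h2 : (a * b).left = a.left * (fun i => b.left (i + Multiplicative.toAdd a.right)) := by
    funext i; rw [mul_left']; rfl
  have h3 : (Multiplicative.ofAdd (Multiplicative.toAdd a.right)) = a.right := rfl
  rw [h3] at h1
  rw [BW, BW, BW, h2, SemidirectProduct.mul_right, map_mul, map_mul]
  calc toAut (Phi ρ W) a.left * toAut (Tau (U := U) W) a.right *
        (toAut (Phi ρ W) b.left * toAut (Tau (U := U) W) b.right)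
      = toAut (Phi ρ W) a.left * (toAut (Tau (U := U) W) a.right * toAut (Phi ρ W) b.left)
        * toAut (Tau (U := U) W) b.right := by group
    _ = _ := by rw [← h1]; group

theorem BW_mem (ρ : N →* Module.End ℚ U) (D : ℕ → Submodule ℚ U) (hD : Antitone D)
    (hD0 : D 0 = ⊤) (hρ : ∀ g i, ∀ x ∈ D i, ρ g x - x ∈ D (i + 1)) (W : ℕ) (a : Wr N) :
    BW ρ W a ∈ flagGroup (C W D) (C_anti W D) :=
  Subgroup.mul_mem _ (Phi_mem ρ W D hD hD0 hρ a.left) (Tau_mem W D a.right)

/-- Theorem X for a finitely generated torsion-free nilpotent base. -/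
theorem key {n : ℕ} {ps : List (FreeGroup (Fin n))} {w : FreeGroup (Fin n)} (hN : QI n ps w)
    (hNn : Group.IsNilpotent N) (hFG : Group.FG N) (hTF : TF N)
    (Ψ : FreeGroup (Fin n) →* Wr N) (hfin : ∀ i, Ψ (FreeGroup.of i) ∈ FS N)
    (hps : ∀ p ∈ ps, Ψ p = 1) : Ψ w = 1 := by
  have hfs : ∀ p, Ψ p ∈ FS N := by
    intro p
    induction p using FreeGroup.induction_on with
    | C1 => rw [map_one]; exact one_mem _
    | of i => exact hfin i
    | inv_of i h => rw [map_inv]; exact inv_mem h
    | mul x y hx hy => rw [map_mul]; exact mul_mem hx hy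
  have hright : (Ψ w).right = 1 := by
    refine QI_int hN (SemidirectProduct.rightHom.comp Ψ) ?_
    intro p hp
    rw [MonoidHom.comp_apply, hps p hp, map_one]
  rw [eq_one_iff]
  refine ⟨?_, hright⟩
  intro z0
  by_contra hz0
  obtain ⟨U, _, _, ρ, D, d, hD, hD0, hDd, hρ, u, hu⟩ := exists_rep (R_top hTF) _ hz0
  let f' : ∀ W : ℕ, FreeGroup (Fin n) →* flagGroup (C (U := U) W D) (C_anti W D) := fun W =>
    FreeGroup.lift (fun i => ⟨BW ρ W (Ψ (FreeGroup.of i)), BW_mem ρ D hD hD0 hρ W _⟩)
  have hf' : ∀ p, ∀ᶠ W in atTop, ((f' W p : flagGroup (C (U := U) W D) (C_anti W D)) :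
      V U W ≃ₗ[ℚ] V U W) = BW ρ W (Ψ p) := by
    intro p
    induction p using FreeGroup.induction_on with
    | C1 =>
      refine Eventually.of_forall fun W => ?_
      rw [map_one, map_one, BW_one]; rfl
    | of i =>
      refine Eventually.of_forall fun W => ?_
      simp only [f', FreeGroup.lift_apply_of]
    | inv_of i h =>
      filter_upwards [h, BW_mul ρ (Ψ (FreeGroup.of i))⁻¹ (Ψ (FreeGroup.of i)) (hfs _)] with W h1 h2
      rw [inv_mul_cancel, BW_one] at h2
      rw [map_inv, map_inv, InvMemClass.coe_inv, h1]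
      exact (eq_inv_of_mul_eq_one_left h2).symm
    | mul x y hx hy =>
      filter_upwards [hx, hy, BW_mul ρ (Ψ x) (Ψ y) (hfs _)] with W h1 h2 h3
      rw [map_mul, map_mul, Subgroup.coe_mul, h1, h2, h3]
  have hall : ∀ᶠ W in atTop, ∀ p ∈ {p | p ∈ ps}, ((f' W p : flagGroup (C (U := U) W D) (C_anti W D)) :
      V U W ≃ₗ[ℚ] V U W) = BW ρ W (Ψ p) := by
    rw [eventually_all_finite (List.finite_toSet ps)]
    intro p _
    exact hf' p
  obtain ⟨W, hW1, hW2, hW3⟩ := (hall.and ((hf' w).and (eventually_ge_atTop z0.natAbs))).exists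
  have h1 : f' W w = 1 := by
    refine hN (flagGroup (C (U := U) W D) (C_anti W D))
      (isNilpotent _ _ (C_zero W D) (C_last W D hD hDd)) ?_ (f' W) ?_
    · intro g hg k hk
      exact torsionFree _ _ (C_zero W D) (C_last W D hD hDd) g hg k hk
    · intro p hp
      apply Subtype.ext
      rw [hW1 p hp, hps p hp, BW_one]; rfl
  rw [h1, BW, hright, map_one, mul_one] at hW2
  have h2 : toAut (Phi ρ W) (Ψ w).left = 1 := hW2.symm
  apply hu
  refine Phi_detect ρ W (Ψ w).left z0 ?_ u h2
  rw [Finset.mem_Icc]; constructor <;> omega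

end Main

/-- The main reduction. -/
theorem main {G : Type} [Group G]
    (hG : ∀ (n : ℕ) (ps : List (FreeGroup (Fin n))) (w : FreeGroup (Fin n)), QI n ps w →
      ∀ f : FreeGroup (Fin n) →* G, (∀ p ∈ ps, f p = 1) → f w = 1)
    {n : ℕ} {ps : List (FreeGroup (Fin n))} {w : FreeGroup (Fin n)} (hN : QI n ps w)
    (Ψ : FreeGroup (Fin n) →* Wr G) (hfin : ∀ i, Ψ (FreeGroup.of i) ∈ FS G)
    (hps : ∀ p ∈ ps, Ψ p = 1) : Ψ w = 1 := by
  classical
  have hright : (Ψ w).right = 1 := by
    refine QI_int hN (SemidirectProduct.rightHom.comp Ψ) ?_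
    intro p hp
    rw [MonoidHom.comp_apply, hps p hp, map_one]
  rw [eq_one_iff]
  refine ⟨?_, hright⟩
  intro z0
  -- window
  obtain ⟨S, hS⟩ : ∃ S : Finset ℤ, ∀ i : Fin n, ∀ k, k ∉ S → (Ψ (FreeGroup.of i)).left k = 1 := by
    refine ⟨Finset.univ.biUnion (fun i => (mem_FS.mp (hfin i)).toFinset), fun i k hk => ?_⟩
    by_contra h
    apply hk
    rw [Finset.mem_biUnion]
    exact ⟨i, Finset.mem_univ _, by rw [Set.Finite.mem_toFinset]; exact h⟩
  obtain ⟨m, ⟨e⟩⟩ : ∃ m : ℕ, Nonempty (Fin m ≃ Fin n × S) :=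
    ⟨Fintype.card (Fin n × S), ⟨(Fintype.equivFin _).symm⟩⟩
  let Ψu : FreeGroup (Fin n) →* Wr (FreeGroup (Fin m)) := FreeGroup.lift (fun i =>
    ⟨fun k => if h : k ∈ S then FreeGroup.of (e.symm (i, ⟨k, h⟩)) else 1,
      (Ψ (FreeGroup.of i)).right⟩)
  have hΨu : ∀ i, Ψu (FreeGroup.of i) = ⟨fun k => if h : k ∈ S then
      FreeGroup.of (e.symm (i, ⟨k, h⟩)) else 1, (Ψ (FreeGroup.of i)).right⟩ := by
    intro i; simp only [Ψu, FreeGroup.lift_apply_of]
  have hufin : ∀ p, Ψu p ∈ FS (FreeGroup (Fin m)) := by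
    intro p
    induction p using FreeGroup.induction_on with
    | C1 => rw [map_one]; exact one_mem _
    | of i =>
      rw [mem_FS, hΨu]
      refine S.finite_toSet.subset ?_
      intro k hk
      by_contra h
      apply hk
      have h' : k ∉ S := fun h2 => h (Finset.mem_coe.mpr h2)
      simp only
      rw [dif_neg h']
    | inv_of i h => rw [map_inv]; exact inv_mem h
    | mul x y hx hy => rw [map_mul]; exact mul_mem hx hy
  let θ : FreeGroup (Fin m) →* G := FreeGroup.lift (fun j =>
    (Ψ (FreeGroup.of (e j).1)).left ((e j).2 : ℤ))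
  have hθ : (wmap θ).comp Ψu = Ψ := by
    apply FreeGroup.ext_hom
    intro i
    rw [MonoidHom.comp_apply, hΨu]
    apply SemidirectProduct.ext
    · funext k
      rw [wmap_left]
      simp only
      by_cases h : k ∈ S
      · rw [dif_pos h]
        simp only [θ, FreeGroup.lift_apply_of, Equiv.apply_symm_apply]
      · rw [dif_neg h, map_one, hS i k h]
    · rfl
  have hθ' : ∀ p, wmap θ (Ψu p) = Ψ p := fun p => by rw [← hθ]; rfl
  let ps' : List (FreeGroup (Fin m)) := ps.flatMap (fun p =>
    (mem_FS.mp (hufin p)).toFinset.toList.map (fun z => (Ψu p).left z))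
  have hps' : ∀ (H : Type) [Group H] (h : FreeGroup (Fin m) →* H), (∀ p' ∈ ps', h p' = 1) →
      ∀ p ∈ ps, ∀ z, h ((Ψu p).left z) = 1 := by
    intro H _ h hh p hp z
    by_cases hz : (Ψu p).left z = 1
    · rw [hz, map_one]
    · apply hh
      rw [List.mem_flatMap]
      refine ⟨p, hp, ?_⟩
      rw [List.mem_map]
      refine ⟨z, ?_, rfl⟩
      rw [Finset.mem_toList, Set.Finite.mem_toFinset]
      exact hz
  have hps'2 : ∀ p' ∈ ps', θ p' = 1 := by
    intro p' hp'
    rw [List.mem_flatMap] at hp'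
    obtain ⟨p, hp, hp2⟩ := hp'
    rw [List.mem_map] at hp2
    obtain ⟨z, _, rfl⟩ := hp2
    have h1 : θ ((Ψu p).left z) = (Ψ p).left z := by rw [← hθ' p]; rfl
    rw [h1, hps p hp]; rfl
  have hQI : QI m ps' ((Ψu w).left z0) := by
    intro N _ hNn hTF h hh
    have hNn' : Group.IsNilpotent h.range := inferInstance
    have hFG' : Group.FG h.range := inferInstance
    have hTF' : TF h.range := by
      intro g hg k hk hgk
      refine hTF (g : N) (fun h => hg (Subtype.ext h)) k hk ?_
      rw [← Subgroup.coe_pow, hgk]; rfl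
    have h1 : (wmap h.rangeRestrict).comp Ψu w = 1 := by
      refine key hN hNn' hFG' hTF' _ ?_ ?_
      · intro i
        rw [MonoidHom.comp_apply, mem_FS]
        refine (mem_FS.mp (hufin (FreeGroup.of i))).subset ?_
        intro k hk hk2
        apply hk
        rw [wmap_left, hk2, map_one]
      · intro p hp
        rw [MonoidHom.comp_apply, eq_one_iff]
        constructor
        · intro k
          rw [wmap_left]
          apply Subtype.ext
          exact hps' N h hh p hp k
        · rw [wmap_right]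
          have : (Ψu p).right = (Ψ p).right := by rw [← hθ' p]; rfl
          rw [this, hps p hp]; rfl
    rw [MonoidHom.comp_apply, eq_one_iff] at h1
    have h2 := h1.1 z0
    rw [wmap_left] at h2
    exact congrArg Subtype.val h2
  have hfinal := hG m ps' ((Ψu w).left z0) hQI θ hps'2
  have h1 : θ ((Ψu w).left z0) = (Ψ w).left z0 := by rw [← hθ' w]; rfl
  rw [← h1]; exact hfinal

end Pool.Agent.Helper160.Wreath
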